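import Mathlib

/-!
# Rankin's bound for the sum of `g ^ (-1/4)` over the divisors of `D`
-/

set_option autoImplicit false

namespace GC70

open Finset

/-- `n ^ (-1/4)` -/
noncomputable def fq (n : ℕ) : ℝ := (n : ℝ) ^ (-(1 / 4) : ℝ)

lemma fq_nonneg (n : ℕ) : 0 ≤ fq n := by unfold fq; positivity

lemma fq_mul (a b : ℕ) : fq (a * b) = fq a * fq b := by
  unfold fq
  push_cast
  exact Real.mul_rpow (by positivity) (by positivity)

lemma fq_one : fq 1 = 1 := by simp [fq]

lemma fq_pow (a k : ℕ) : fq (a ^ k) = fq a ^ k := by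
  induction k with
  | zero => simp [fq_one]
  | succ k ih => rw [pow_succ, fq_mul, ih, pow_succ]

lemma fq_pow4 (n : ℕ) : fq n ^ 4 = (n : ℝ)⁻¹ := by
  unfold fq
  rw [← Real.rpow_natCast, ← Real.rpow_mul (by positivity)]
  norm_num
  exact Real.rpow_neg_one _

lemma fq_anti {a b : ℕ} (ha : 0 < a) (hab : a ≤ b) : fq b ≤ fq a := by
  unfold fq
  apply Real.rpow_le_rpow_of_nonpos (by exact_mod_cast ha) (by exact_mod_cast hab) (by norm_num)

lemma fq_two : fq 2 ≤ 6 / 7 := by
  by_contra h
  push Not at h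
  have h1 : (6 / 7 : ℝ) ^ 4 < fq 2 ^ 4 := pow_lt_pow_left₀ h (by norm_num) (by norm_num)
  rw [fq_pow4] at h1
  norm_num at h1

/-- the sum over the divisors -/
noncomputable def Sq (D : ℕ) : ℝ := ∑ g ∈ D.divisors, fq g

lemma Sq_nonneg (D : ℕ) : 0 ≤ Sq D := sum_nonneg (fun _ _ => fq_nonneg _)

lemma Sq_mul_le (a b : ℕ) : Sq (a * b) ≤ Sq a * Sq b := by
  unfold Sq
  classical
  have h0 : ∑ x ∈ a.divisors, fq x * ∑ y ∈ b.divisors, fq y
      = ∑ p ∈ a.divisors ×ˢ b.divisors, fq (p.1 * p.2) := by
    rw [sum_product]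
    apply sum_congr rfl
    intro x _
    rw [mul_sum]
    apply sum_congr rfl
    intro y _
    rw [fq_mul]
  rw [sum_mul, h0]
  have h1 : (a * b).divisors ⊆ (a.divisors ×ˢ b.divisors).image (fun p => p.1 * p.2) := by
    intro g hg
    rw [Nat.mem_divisors] at hg
    obtain ⟨x, y, hx, hy, hxy⟩ := exists_dvd_and_dvd_of_dvd_mul hg.1
    rw [mem_image]
    refine ⟨(x, y), ?_, hxy.symm⟩
    rw [mem_product, Nat.mem_divisors, Nat.mem_divisors]
    have : a ≠ 0 ∧ b ≠ 0 := by
      constructor
      · rintro rfl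
        simp at hg
      · rintro rfl
        simp at hg
    exact ⟨⟨hx, this.1⟩, ⟨hy, this.2⟩⟩
  calc ∑ g ∈ (a * b).divisors, fq g
      ≤ ∑ g ∈ (a.divisors ×ˢ b.divisors).image (fun p => p.1 * p.2), fq g :=
        sum_le_sum_of_subset_of_nonneg h1 (fun _ _ _ => fq_nonneg _)
    _ ≤ ∑ p ∈ a.divisors ×ˢ b.divisors, fq (p.1 * p.2) := by
        apply sum_image_le_of_nonneg
        intro p _
        exact fq_nonneg _

lemma fq_lt_one {p : ℕ} (hp : 2 ≤ p) : fq p ≤ 6 / 7 := (fq_anti (by norm_num) hp).trans fq_two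

lemma Sq_prime_pow (p k : ℕ) (hp : p.Prime) : Sq (p ^ k) ≤ (1 - fq p)⁻¹ := by
  unfold Sq
  rw [Nat.sum_divisors_prime_pow hp]
  simp_rw [fq_pow]
  have h1 : fq p < 1 := (fq_lt_one hp.two_le).trans_lt (by norm_num)
  rw [← tsum_geometric_of_lt_one (fq_nonneg p) h1]
  exact Summable.sum_le_tsum _ (fun i _ => pow_nonneg (fq_nonneg p) i)
    (summable_geometric_of_lt_one (fq_nonneg p) h1)

lemma Sq_le_prod (D : ℕ) (hD : 0 < D) : Sq D ≤ ∏ p ∈ D.primeFactors, (1 - fq p)⁻¹ := by
  induction D using Nat.recOnPosPrimePosCoprime with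
  | prime_pow p n hp hn =>
    rw [Nat.primeFactors_prime_pow (by omega) hp, prod_singleton]
    exact Sq_prime_pow p n hp
  | zero => omega
  | one => simp [Sq, fq_one]
  | coprime a b ha hb hab iha ihb =>
    rw [Nat.Coprime.primeFactors_mul hab, prod_union hab.disjoint_primeFactors]
    refine (Sq_mul_le a b).trans ?_
    apply mul_le_mul (iha (by omega)) (ihb (by omega)) (Sq_nonneg _)
    apply prod_nonneg
    intro p hp
    have := fq_lt_one (Nat.prime_of_mem_primeFactors hp).two_le
    rw [inv_nonneg]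
    linarith

lemma inv_le_exp (y : ℝ) (hy : 0 ≤ y) (hy2 : y ≤ 1 / 2) : (1 - y)⁻¹ ≤ Real.exp (2 * y) := by
  have h1 := Real.add_one_le_exp (2 * y)
  have h2 : (1 - y)⁻¹ ≤ 2 * y + 1 := by
    rw [inv_le_comm₀ (by linarith) (by linarith), inv_le_iff_one_le_mul₀ (by linarith)]
    nlinarith
  linarith

lemma card_primeFactors_le (D : ℕ) (hD : 0 < D) : 2 ^ D.primeFactors.card ≤ D := by
  have h1 : ∏ p ∈ D.primeFactors, p ≤ D := Nat.le_of_dvd hD (Nat.prod_primeFactors_dvd D)
  refine le_trans ?_ h1
  rw [← prod_const]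
  apply prod_le_prod'
  intro p hp
  exact (Nat.prime_of_mem_primeFactors hp).two_le

theorem rankin (D Y : ℕ) (hD : 0 < D) (hY : 16 ≤ Y) (t : ℕ) (ht : D < 2 ^ t) :
    Sq D ≤ 7 ^ Y * Real.exp (2 * t * fq Y) := by
  refine (Sq_le_prod D hD).trans ?_
  rw [← prod_filter_mul_prod_filter_not D.primeFactors (fun p => p ≤ Y)]
  have hpos : ∀ p ∈ D.primeFactors, 0 ≤ (1 - fq p)⁻¹ := by
    intro p hp
    have := fq_lt_one (Nat.prime_of_mem_primeFactors hp).two_le
    rw [inv_nonneg]
    linarith
  apply mul_le_mul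
  · calc ∏ p ∈ D.primeFactors.filter (fun p => p ≤ Y), (1 - fq p)⁻¹
        ≤ ∏ p ∈ D.primeFactors.filter (fun p => p ≤ Y), (7 : ℝ) := by
          apply prod_le_prod
          · intro p hp
            exact hpos p (mem_filter.mp hp).1
          · intro p hp
            have := fq_lt_one (Nat.prime_of_mem_primeFactors (mem_filter.mp hp).1).two_le
            rw [inv_le_comm₀ (by linarith) (by norm_num)]
            linarith
      _ = 7 ^ (D.primeFactors.filter (fun p => p ≤ Y)).card := by rw [prod_const]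
      _ ≤ 7 ^ Y := by
          apply pow_le_pow_right₀ (by norm_num)
          have : D.primeFactors.filter (fun p => p ≤ Y) ⊆ Icc 1 Y := by
            intro p hp
            rw [mem_filter] at hp
            rw [mem_Icc]
            exact ⟨(Nat.prime_of_mem_primeFactors hp.1).one_le, hp.2⟩
          have := card_le_card this
          simpa using this
  · have hY16 : fq Y ≤ 1 / 2 := by
      have h1 := fq_anti (by norm_num : 0 < 16) hY
      have h2 : fq 16 ≤ 1 / 2 := by
        by_contra h
        push Not at h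
        have h3 : (1 / 2 : ℝ) ^ 4 < fq 16 ^ 4 := pow_lt_pow_left₀ h (by norm_num) (by norm_num)
        rw [fq_pow4] at h3
        norm_num at h3
      linarith
    calc ∏ p ∈ D.primeFactors.filter (fun p => ¬ p ≤ Y), (1 - fq p)⁻¹
        ≤ ∏ p ∈ D.primeFactors.filter (fun p => ¬ p ≤ Y), Real.exp (2 * fq Y) := by
          apply prod_le_prod
          · intro p hp
            exact hpos p (mem_filter.mp hp).1
          · intro p hp
            have h1 : fq p ≤ fq Y := fq_anti (by omega) (by
              have := (mem_filter.mp hp).2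
              omega)
            calc (1 - fq p)⁻¹ ≤ Real.exp (2 * fq p) := inv_le_exp _ (fq_nonneg _) (by linarith)
              _ ≤ Real.exp (2 * fq Y) := Real.exp_le_exp.mpr (by linarith)
      _ = Real.exp (2 * fq Y) ^ (D.primeFactors.filter (fun p => ¬ p ≤ Y)).card := by
          rw [prod_const]
      _ ≤ Real.exp (2 * fq Y) ^ t := by
          apply pow_le_pow_right₀
          · apply Real.one_le_exp
            have := fq_nonneg Y
            linarith
          · have h1 := card_primeFactors_le D hD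
            have h2 : 2 ^ D.primeFactors.card < 2 ^ t := lt_of_le_of_lt h1 ht
            have h3 := (Nat.pow_lt_pow_iff_right (by norm_num)).mp h2
            have h4 := card_filter_le D.primeFactors (fun p => ¬ p ≤ Y)
            omega
      _ = Real.exp (2 * t * fq Y) := by
          rw [← Real.exp_nat_mul]
          congr 1
          ring
  · apply prod_nonneg
    intro p hp
    exact hpos p (mem_filter.mp hp).1
  · positivity

end GC70
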