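import Mathlib

/-!
# Functions without a fibre of size one
-/

set_option autoImplicit false

namespace GC70

open Finset

section
variable {J B : Type} [Fintype J] [DecidableEq J] [Fintype B] [DecidableEq B]

/-- functions supported on `S` with values in `T` without fibre of size one -/
def FS (b0 : B) (S : Finset J) (T : Finset B) : Finset (J → B) :=
  univ.filter (fun f => (∀ j ∈ S, f j ∈ T) ∧ (∀ j, j ∉ S → f j = b0) ∧
    ∀ i ∈ T, (S.filter (fun j => f j = i)).card ≠ 1)

lemma exp_sub_ge (x : ℝ) (hx : 0 ≤ x) (n : ℕ) :
    ∑ k ∈ (range (n + 1)).filter (fun k => k ≠ 1), x ^ k / (k.factorial : ℝ) ≤ Real.exp x - x := by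
  have h1 : ∑ k ∈ range (n + 2), x ^ k / (k.factorial : ℝ) ≤ Real.exp x :=
    Real.sum_le_exp_of_nonneg hx (n + 2)
  have h2 : ∑ k ∈ (range (n + 1)).filter (fun k => k ≠ 1), x ^ k / (k.factorial : ℝ) + x
      ≤ ∑ k ∈ range (n + 2), x ^ k / (k.factorial : ℝ) := by
    have h3 : ∑ k ∈ insert 1 ((range (n + 1)).filter (fun k => k ≠ 1)), x ^ k / (k.factorial : ℝ)
        = x + ∑ k ∈ (range (n + 1)).filter (fun k => k ≠ 1), x ^ k / (k.factorial : ℝ) := by
      rw [sum_insert (by simp)]
      simp
    rw [add_comm, ← h3]
    apply sum_le_sum_of_subset_of_nonneg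
    · intro k hk
      simp only [mem_insert, mem_filter, mem_range] at hk ⊢
      omega
    · intro k _ _
      positivity
  linarith

lemma card_FS_le (b0 : B) (x : ℝ) (hx : 0 < x) (T : Finset B) :
    ∀ S : Finset J, ((FS b0 S T).card : ℝ) * x ^ S.card
      ≤ (S.card.factorial : ℝ) * (Real.exp x - x) ^ T.card := by
  induction T using Finset.induction_on with
  | empty =>
    intro S
    rcases S.eq_empty_or_nonempty with rfl | ⟨j0, hj0⟩
    · have : (FS b0 (∅ : Finset J) (∅ : Finset B)).card ≤ 1 := by
        rw [card_le_one]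
        intro f hf g hg
        simp only [FS, mem_filter, mem_univ, true_and, notMem_empty] at hf hg
        funext j
        rw [hf.2.1 j (by simp), hg.2.1 j (by simp)]
      simpa using this
    · have : FS b0 S (∅ : Finset B) = ∅ := by
        rw [eq_empty_iff_forall_notMem]
        intro f hf
        simp only [FS, mem_filter, mem_univ, true_and] at hf
        exact absurd (hf.1 j0 hj0) (notMem_empty _)
      rw [this]
      simp
  | insert i0 T hi0 ih =>
    intro S
    have hxe : 0 < Real.exp x - x := by
      have := Real.add_one_lt_exp hx.ne'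
      linarith
    have hcard : (FS b0 S (insert i0 T)).card
        ≤ ∑ A ∈ S.powerset.filter (fun A => A.card ≠ 1), (FS b0 (S \ A) T).card := by
      rw [← card_sigma]
      apply card_le_card_of_injOn
        (fun f => (⟨S.filter (fun j => f j = i0), fun j => if f j = i0 then b0 else f j⟩ :
          Σ _ : Finset J, (J → B)))
      · intro f hf
        simp only [coe_filter, mem_coe, FS, mem_filter, mem_univ, true_and] at hf
        obtain ⟨h1, h2, h3⟩ := hf
        simp only [coe_sigma, Set.mem_sigma_iff, mem_coe, mem_filter, mem_powerset]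
        refine ⟨⟨filter_subset _ _, h3 i0 (mem_insert_self _ _)⟩, ?_⟩
        simp only [FS, mem_filter, mem_univ, true_and, mem_sdiff]
        refine ⟨?_, ?_, ?_⟩
        · rintro j ⟨hj, hj'⟩
          have hne : f j ≠ i0 := fun h => hj' ⟨hj, h⟩
          rw [if_neg hne]
          exact (mem_insert.mp (h1 j hj)).resolve_left hne
        · intro j hj
          by_cases hS : j ∈ S
          · have : f j = i0 := by
              by_contra hne
              exact hj ⟨hS, fun h => hne h.2⟩
            rw [if_pos this]
          · split_ifs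
            · rfl
            · exact h2 j hS
        · intro i hi
          have : (S \ S.filter (fun j => f j = i0)).filter
              (fun j => (if f j = i0 then b0 else f j) = i) = S.filter (fun j => f j = i) := by
            ext j
            simp only [mem_filter, mem_sdiff]
            constructor
            · rintro ⟨⟨hj, hj'⟩, h⟩
              have hne : f j ≠ i0 := fun h => hj' ⟨hj, h⟩
              rw [if_neg hne] at h
              exact ⟨hj, h⟩
            · rintro ⟨hj, h⟩
              have hne : f j ≠ i0 := by
                rw [h]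
                rintro rfl
                exact hi0 hi
              exact ⟨⟨hj, fun h' => hne h'.2⟩, by rw [if_neg hne]; exact h⟩
          rw [this]
          exact h3 i (mem_insert_of_mem hi)
      · intro f hf g hg heq
        simp only [FS, coe_filter, mem_univ, true_and, Set.mem_ofPred_eq] at hf hg
        simp only [Sigma.mk.injEq, heq_eq_eq] at heq
        obtain ⟨e1, e2⟩ := heq
        funext j
        have e2j := congrFun e2 j
        by_cases hS : j ∈ S
        · have e1j : (f j = i0) ↔ (g j = i0) := by
            have := Finset.ext_iff.mp e1 j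
            simpa [hS] using this
          by_cases hfi : f j = i0
          · rw [hfi, e1j.mp hfi]
          · rw [if_neg hfi, if_neg (fun h => hfi (e1j.mpr h))] at e2j
            exact e2j
        · rw [hf.2.1 j hS, hg.2.1 j hS]
    have hE : (0 : ℝ) ≤ (Real.exp x - x) ^ T.card := by positivity
    calc ((FS b0 S (insert i0 T)).card : ℝ) * x ^ S.card
        ≤ (∑ A ∈ S.powerset.filter (fun A => A.card ≠ 1), ((FS b0 (S \ A) T).card : ℝ))
            * x ^ S.card := by
          apply mul_le_mul_of_nonneg_right _ (by positivity)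
          exact_mod_cast hcard
      _ = ∑ A ∈ S.powerset.filter (fun A => A.card ≠ 1),
            (((FS b0 (S \ A) T).card : ℝ) * x ^ (S \ A).card) * x ^ A.card := by
          rw [sum_mul]
          apply sum_congr rfl
          intro A hA
          rw [mem_filter, mem_powerset] at hA
          rw [mul_assoc, ← pow_add, card_sdiff_add_card_eq_card hA.1]
      _ ≤ ∑ A ∈ S.powerset.filter (fun A => A.card ≠ 1),
            ((((S.card - A.card).factorial : ℕ) : ℝ) * (Real.exp x - x) ^ T.card) * x ^ A.card := by
          apply sum_le_sum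
          intro A hA
          rw [mem_filter, mem_powerset] at hA
          apply mul_le_mul_of_nonneg_right _ (by positivity)
          have := ih (S \ A)
          rw [show (S \ A).card = S.card - A.card from card_sdiff_of_subset hA.1] at this
          rw [show (S \ A).card = S.card - A.card from card_sdiff_of_subset hA.1]
          exact this
      _ = ∑ A ∈ S.powerset, (if A.card ≠ 1 then
            ((((S.card - A.card).factorial : ℕ) : ℝ) * (Real.exp x - x) ^ T.card) * x ^ A.card
            else 0) := by
          rw [sum_filter]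
      _ = ∑ k ∈ range (S.card + 1), (S.card.choose k) • (if k ≠ 1 then
            ((((S.card - k).factorial : ℕ) : ℝ) * (Real.exp x - x) ^ T.card) * x ^ k
            else 0) := by
          rw [← sum_powerset_apply_card (fun k => if k ≠ 1 then
            ((((S.card - k).factorial : ℕ) : ℝ) * (Real.exp x - x) ^ T.card) * x ^ k
            else 0)]
      _ = (S.card.factorial : ℝ) * (Real.exp x - x) ^ T.card *
            ∑ k ∈ (range (S.card + 1)).filter (fun k => k ≠ 1), x ^ k / (k.factorial : ℝ) := by
          rw [mul_sum, sum_filter]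
          apply sum_congr rfl
          intro k hk
          rw [mem_range] at hk
          split_ifs with h
          · have hch : ((S.card.choose k : ℕ) : ℝ) * (((S.card - k).factorial : ℕ) : ℝ)
                = (S.card.factorial : ℝ) / (k.factorial : ℝ) := by
              rw [eq_div_iff (by positivity)]
              have := Nat.choose_mul_factorial_mul_factorial (show k ≤ S.card by omega)
              rw [← this]
              push_cast
              ring
            rw [nsmul_eq_mul]
            calc ((S.card.choose k : ℕ) : ℝ) *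
                ((((S.card - k).factorial : ℕ) : ℝ) * (Real.exp x - x) ^ T.card * x ^ k)
                = (((S.card.choose k : ℕ) : ℝ) * (((S.card - k).factorial : ℕ) : ℝ))
                  * (Real.exp x - x) ^ T.card * x ^ k := by ring
              _ = _ := by rw [hch]; ring
          · simp
      _ ≤ (S.card.factorial : ℝ) * (Real.exp x - x) ^ T.card * (Real.exp x - x) := by
          apply mul_le_mul_of_nonneg_left (exp_sub_ge x hx.le _) (by positivity)
      _ = (S.card.factorial : ℝ) * (Real.exp x - x) ^ (insert i0 T).card := by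
          rw [card_insert_of_notMem hi0, pow_succ]
          ring

lemma factorial_le (n : ℕ) (hn : 1 ≤ n) :
    (n.factorial : ℝ) * Real.exp n ≤ Real.exp 1 * n * (n : ℝ) ^ n := by
  induction n, hn using Nat.le_induction with
  | base => simp
  | succ n hn ih =>
    have hn0 : (0 : ℝ) < n := by exact_mod_cast hn
    have hlog : (1 : ℝ) / (n + 1) ≤ Real.log ((n + 1) / n) := by
      have h := Real.one_sub_inv_le_log_of_pos (show (0 : ℝ) < (n + 1) / n by positivity)
      have : 1 - ((n + 1 : ℝ) / n)⁻¹ = 1 / (n + 1) := by
        field_simp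
        ring
      rw [this] at h
      exact h
    have he : Real.exp 1 ≤ (((n : ℝ) + 1) / n) ^ (n + 1) := by
      rw [← Real.exp_log (show (0 : ℝ) < (((n : ℝ) + 1) / n) ^ (n + 1) by positivity)]
      apply Real.exp_le_exp.mpr
      rw [Real.log_pow]
      push_cast
      calc (1 : ℝ) = (n + 1) * (1 / (n + 1)) := by field_simp
        _ ≤ (n + 1) * Real.log ((n + 1) / n) := by
          apply mul_le_mul_of_nonneg_left hlog (by positivity)
    rw [div_pow, le_div_iff₀ (by positivity)] at he
    rw [Nat.factorial_succ]
    push_cast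
    rw [Real.exp_add]
    calc ((n : ℝ) + 1) * (n.factorial : ℝ) * (Real.exp n * Real.exp 1)
        = ((n.factorial : ℝ) * Real.exp n) * ((n + 1) * Real.exp 1) := by ring
      _ ≤ (Real.exp 1 * n * (n : ℝ) ^ n) * ((n + 1) * Real.exp 1) :=
          mul_le_mul_of_nonneg_right ih (by positivity)
      _ = Real.exp 1 * (n + 1) * (Real.exp 1 * (n : ℝ) ^ (n + 1)) := by ring
      _ ≤ Real.exp 1 * (n + 1) * ((n : ℝ) + 1) ^ (n + 1) :=
          mul_le_mul_of_nonneg_left he (by positivity)

/-- **No singleton fibre.** -/
theorem card_no_singleton_le (X : ℝ) (hb : 1 ≤ Fintype.card B) (hJ : Fintype.card B ≤ Fintype.card J)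
    (hX : (Fintype.card J : ℝ) ≤ X * Fintype.card B) :
    (((univ : Finset (J → B)).filter
      (fun f => ∀ i, (univ.filter (fun j => f j = i)).card ≠ 1)).card : ℝ)
      ≤ (Fintype.card B : ℝ) ^ (Fintype.card J) * (Real.exp 1 * Fintype.card J)
        * Real.exp (-(Real.exp (-X)) * Fintype.card B) := by
  obtain ⟨b0⟩ : Nonempty B := Fintype.card_pos_iff.mp (by omega)
  set n := Fintype.card J with hn
  set b := Fintype.card B with hb'
  have hn1 : 1 ≤ n := le_trans hb hJ
  have hb0 : (0 : ℝ) < b := by exact_mod_cast hb
  have hn0 : (0 : ℝ) < n := by exact_mod_cast hn1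
  set x : ℝ := n / b with hx
  have hx0 : 0 < x := by positivity
  have hx1 : 1 ≤ x := by
    rw [hx, le_div_iff₀ hb0, one_mul]
    exact_mod_cast hJ
  have hxX : x ≤ X := by
    rw [hx, div_le_iff₀ hb0]
    exact hX
  have h1 := card_FS_le (J := J) b0 x hx0 (univ : Finset B) univ
  have h2 : FS b0 (univ : Finset J) (univ : Finset B) = (univ : Finset (J → B)).filter
      (fun f => ∀ i, (univ.filter (fun j => f j = i)).card ≠ 1) := by
    unfold FS
    ext f
    simp
  rw [h2, card_univ, card_univ, ← hn, ← hb'] at h1
  set N := (((univ : Finset (J → B)).filter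
      (fun f => ∀ i, (univ.filter (fun j => f j = i)).card ≠ 1)).card : ℝ) with hN
  have h3 : Real.exp x - x ≤ Real.exp x * Real.exp (-(Real.exp (-X))) := by
    have e1 : Real.exp x - x = Real.exp x * (1 - x * Real.exp (-x)) := by
      rw [mul_sub, mul_one, mul_comm x, ← mul_assoc, ← Real.exp_add, add_neg_cancel, Real.exp_zero,
        one_mul]
    rw [e1]
    apply mul_le_mul_of_nonneg_left _ (Real.exp_pos x).le
    have e2 : Real.exp (-X) ≤ x * Real.exp (-x) := by
      calc Real.exp (-X) ≤ Real.exp (-x) := Real.exp_le_exp.mpr (by linarith)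
        _ = 1 * Real.exp (-x) := by ring
        _ ≤ x * Real.exp (-x) := mul_le_mul_of_nonneg_right hx1 (Real.exp_pos _).le
    have e3 := Real.add_one_le_exp (-(Real.exp (-X)))
    linarith
  have hxe : 0 ≤ Real.exp x - x := by
    have := Real.add_one_le_exp x
    linarith
  have h4 : (Real.exp x - x) ^ b ≤ Real.exp n * Real.exp (-(Real.exp (-X)) * b) := by
    calc (Real.exp x - x) ^ b ≤ (Real.exp x * Real.exp (-(Real.exp (-X)))) ^ b :=
          pow_le_pow_left₀ hxe h3 b
      _ = Real.exp n * Real.exp (-(Real.exp (-X)) * b) := by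
          rw [mul_pow, ← Real.exp_nat_mul, ← Real.exp_nat_mul]
          congr 2
          · rw [hx]
            field_simp
          · ring
  have h5 : N * x ^ n ≤ Real.exp 1 * n * (n : ℝ) ^ n * Real.exp (-(Real.exp (-X)) * b) := by
    calc N * x ^ n ≤ (n.factorial : ℝ) * (Real.exp x - x) ^ b := h1
      _ ≤ (n.factorial : ℝ) * (Real.exp n * Real.exp (-(Real.exp (-X)) * b)) :=
          mul_le_mul_of_nonneg_left h4 (by positivity)
      _ = ((n.factorial : ℝ) * Real.exp n) * Real.exp (-(Real.exp (-X)) * b) := by ring
      _ ≤ (Real.exp 1 * n * (n : ℝ) ^ n) * Real.exp (-(Real.exp (-X)) * b) :=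
          mul_le_mul_of_nonneg_right (factorial_le n hn1) (Real.exp_pos _).le
  have h6 : x ^ n = (n : ℝ) ^ n / (b : ℝ) ^ n := by rw [hx, div_pow]
  rw [h6] at h5
  have h7 : (0 : ℝ) < (n : ℝ) ^ n := by positivity
  have h8 : (0 : ℝ) < (b : ℝ) ^ n := by positivity
  have h9 : N * ((n : ℝ) ^ n / (b : ℝ) ^ n) * ((b : ℝ) ^ n / (n : ℝ) ^ n) = N := by
    field_simp
  rw [← h9]
  calc N * ((n : ℝ) ^ n / (b : ℝ) ^ n) * ((b : ℝ) ^ n / (n : ℝ) ^ n)
      ≤ (Real.exp 1 * n * (n : ℝ) ^ n * Real.exp (-(Real.exp (-X)) * b))
        * ((b : ℝ) ^ n / (n : ℝ) ^ n) := mul_le_mul_of_nonneg_right h5 (by positivity)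
    _ = (b : ℝ) ^ n * (Real.exp 1 * n) * Real.exp (-(Real.exp (-X)) * b) := by
        field_simp

end

end GC70
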