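import Mathlib

/-!
# Cycles of generalised Collatz maps from words

A word is a function `w : ℤ → Option B` with a period `L`; the letter `none` stands for a step
`n ↦ n / d`, the letter `some i` for a step `n ↦ (m n + ρ i) / d`.
-/

set_option autoImplicit false

namespace GC70

open Finset

variable {B : Type} [DecidableEq B]

/-- positions in `[0, L)` of the letters of `w` other than `none` -/
def sk (w : ℤ → Option B) (L : ℕ) : Finset ℕ := (range L).filter (fun j => (w (j : ℤ)).isSome)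

/-- the weight `d ^ j * m ^ #{t ∈ N | j < t}` -/
def wt (d m : ℕ) (N : Finset ℕ) (j : ℕ) : ℕ := d ^ j * m ^ (N.filter (fun t => j < t)).card

/-- the coefficient vector of the word -/
def V (d m : ℕ) (w : ℤ → Option B) (L : ℕ) (i : B) : ℕ :=
  ∑ j ∈ (range L).filter (fun j : ℕ => w (j : ℤ) = some i), wt d m (sk w L) j

/-- value of a letter -/
def val (ρ : B → ℤ) (o : Option B) : ℤ := o.elim 0 ρ

omit [DecidableEq B] in
@[simp] lemma val_none (ρ : B → ℤ) : val ρ none = 0 := rfl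
omit [DecidableEq B] in
@[simp] lemma val_some (ρ : B → ℤ) (i : B) : val ρ (some i) = ρ i := rfl

/-- numerators of the orbit -/
def A (d m : ℕ) (w : ℤ → Option B) (ρ : B → ℤ) (n0 : ℤ) : ℕ → ℤ
  | 0 => n0
  | (j + 1) => (m : ℤ) ^ (if (w (j : ℤ)).isSome then 1 else 0) * A d m w ρ n0 j
      + (d : ℤ) ^ j * val ρ (w (j : ℤ))

omit [DecidableEq B] in
lemma A_add (d m : ℕ) (w : ℤ → Option B) (ρ : B → ℤ) (n0 : ℤ) (j k : ℕ) :
    ∃ (e : ℕ) (c : ℤ), A d m w ρ n0 (j + k) = (m : ℤ) ^ e * A d m w ρ n0 j + (d : ℤ) ^ j * c := by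
  induction k with
  | zero => exact ⟨0, 0, by simp⟩
  | succ k ih =>
    obtain ⟨e, c, h⟩ := ih
    refine ⟨(if (w ((j + k : ℕ) : ℤ)).isSome then 1 else 0) + e,
      (m : ℤ) ^ (if (w ((j + k : ℕ) : ℤ)).isSome then 1 else 0) * c
        + (d : ℤ) ^ k * val ρ (w ((j + k : ℕ) : ℤ)), ?_⟩
    rw [← Nat.add_assoc, A, h]
    ring

lemma sk_succ (w : ℤ → Option B) (L : ℕ) :
    sk w (L + 1) = if (w (L : ℤ)).isSome then insert L (sk w L) else sk w L := by
  unfold sk
  rw [range_add_one, filter_insert]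

lemma notMem_sk (w : ℤ → Option B) (L : ℕ) : L ∉ sk w L := by
  simp [sk]

lemma wt_succ_of_lt (d m : ℕ) (w : ℤ → Option B) (L j : ℕ) (hj : j < L) :
    wt d m (sk w (L + 1)) j
      = (m : ℕ) ^ (if (w (L : ℤ)).isSome then 1 else 0) * wt d m (sk w L) j := by
  rw [sk_succ]
  unfold wt
  split_ifs with h
  · rw [filter_insert, if_pos hj, card_insert_of_notMem]
    · ring
    · simp [notMem_sk]
  · simp

lemma wt_self (d m : ℕ) (w : ℤ → Option B) (L : ℕ) : wt d m (sk w (L + 1)) L = d ^ L := by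
  unfold wt
  have : (sk w (L + 1)).filter (fun t => L < t) = ∅ := by
    rw [filter_eq_empty_iff]
    intro t ht
    simp only [sk, mem_filter, mem_range] at ht
    omega
  rw [this]
  simp

lemma card_sk_succ (w : ℤ → Option B) (L : ℕ) :
    (sk w (L + 1)).card = (if (w (L : ℤ)).isSome then 1 else 0) + (sk w L).card := by
  rw [sk_succ]
  split_ifs with h
  · rw [card_insert_of_notMem (notMem_sk w L)]; ring
  · simp

lemma A_eq (d m : ℕ) (w : ℤ → Option B) (ρ : B → ℤ) (n0 : ℤ) (L : ℕ) :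
    A d m w ρ n0 L = (m : ℤ) ^ (sk w L).card * n0
      + ∑ j ∈ range L, (wt d m (sk w L) j : ℤ) * val ρ (w (j : ℤ)) := by
  induction L with
  | zero => simp [A, sk]
  | succ L ih =>
    rw [A, ih, sum_range_succ, wt_self, card_sk_succ]
    have : ∑ j ∈ range L, (wt d m (sk w (L + 1)) j : ℤ) * val ρ (w (j : ℤ))
        = (m : ℤ) ^ (if (w (L : ℤ)).isSome then 1 else 0)
          * ∑ j ∈ range L, (wt d m (sk w L) j : ℤ) * val ρ (w (j : ℤ)) := by
      rw [mul_sum]
      apply sum_congr rfl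
      intro j hj
      rw [wt_succ_of_lt d m w L j (mem_range.mp hj)]
      push_cast
      ring
    rw [this]
    push_cast
    ring

variable [Fintype B]

lemma sum_V (d m : ℕ) (w : ℤ → Option B) (ρ : B → ℤ) (L : ℕ) :
    ∑ i : B, (V d m w L i : ℤ) * ρ i
      = ∑ j ∈ range L, (wt d m (sk w L) j : ℤ) * val ρ (w (j : ℤ)) := by
  unfold V
  push_cast
  simp_rw [sum_mul, sum_filter]
  rw [sum_comm]
  apply sum_congr rfl
  intro j _
  rcases h : w (j : ℤ) with _ | i0
  · simp
  · simp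

/-- **Cycle from a word.** -/
theorem cycle_of_dvd (d m : ℕ) (hd : 2 ≤ d) (hc : Nat.Coprime m d) (w : ℤ → Option B)
    (ρ : B → ℤ) (hρ : ∀ i, 0 < ρ i) (L : ℕ) (hs : (sk w L).Nonempty)
    (hD : m ^ (sk w L).card < d ^ L)
    (hdvd : ((d : ℤ) ^ L - (m : ℤ) ^ (sk w L).card) ∣ ∑ i : B, (V d m w L i : ℤ) * ρ i)
    (U : ℤ → ℤ) (hU0 : ∀ n : ℤ, U (d * n) = n)
    (hU1 : ∀ (n n' : ℤ) (i : B), (d : ℤ) * n' = m * n + ρ i → U n = n') :
    ∃ n : ℤ, 0 < n ∧ ∃ k : ℕ, 0 < k ∧ U^[k] n = n := by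
  have hd0 : (0 : ℤ) < d := by exact_mod_cast (by omega : 0 < d)
  have hDpos : (0 : ℤ) < (d : ℤ) ^ L - (m : ℤ) ^ (sk w L).card := by
    have : (m : ℤ) ^ (sk w L).card < (d : ℤ) ^ L := by exact_mod_cast hD
    omega
  obtain ⟨n0, hn0⟩ := hdvd
  have hm : m ≠ 0 := by
    rintro rfl
    simp at hc
    omega
  have hwt : ∀ j, 0 < wt d m (sk w L) j := by
    intro j
    unfold wt
    have : 0 < d := by omega
    have : 0 < m := by omega
    positivity
  have hval : ∀ o : Option B, 0 ≤ val ρ o := by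
    intro o
    rcases o with _ | i
    · simp
    · exact (hρ i).le
  have hsum : 0 < ∑ i : B, (V d m w L i : ℤ) * ρ i := by
    rw [sum_V]
    obtain ⟨j, hj⟩ := hs
    have hj' := hj
    simp only [sk, mem_filter, mem_range] at hj'
    apply sum_pos'
    · intro t _
      exact mul_nonneg (by positivity) (hval _)
    · refine ⟨j, mem_range.mpr hj'.1, ?_⟩
      obtain ⟨i, hi⟩ := Option.isSome_iff_exists.mp hj'.2
      rw [hi]
      exact mul_pos (by exact_mod_cast hwt j) (hρ i)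
  have hn0pos : 0 < n0 := by
    rw [hn0] at hsum
    exact (mul_pos_iff_of_pos_left hDpos).mp hsum
  have hAL : A d m w ρ n0 L = (d : ℤ) ^ L * n0 := by
    rw [A_eq, ← sum_V, hn0]
    ring
  have hcop : ∀ a b : ℕ, IsCoprime ((d : ℤ) ^ a) ((m : ℤ) ^ b) := by
    intro a b
    apply IsCoprime.pow
    rw [Nat.isCoprime_iff_coprime]
    exact hc.symm
  have hdvdA : ∀ j ≤ L, (d : ℤ) ^ j ∣ A d m w ρ n0 j := by
    intro j hj
    obtain ⟨e, c, h⟩ := A_add d m w ρ n0 j (L - j)
    rw [show j + (L - j) = L by omega, hAL] at h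
    have h2 : (d : ℤ) ^ j ∣ (m : ℤ) ^ e * A d m w ρ n0 j := by
      have : (m : ℤ) ^ e * A d m w ρ n0 j = (d : ℤ) ^ j * ((d : ℤ) ^ (L - j) * n0 - c) := by
        have h3 : (d : ℤ) ^ L = (d : ℤ) ^ j * (d : ℤ) ^ (L - j) := by
          rw [← pow_add]; congr 1; omega
        rw [h3] at h
        linarith
      rw [this]
      exact dvd_mul_right _ _
    exact (hcop j e).dvd_of_dvd_mul_left h2
  choose! n hn using hdvdA
  have hn0' : n 0 = n0 := by
    have := hn 0 (Nat.zero_le _)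
    simpa [A] using this.symm
  have hnL : n L = n0 := by
    have := hn L le_rfl
    rw [hAL] at this
    exact (mul_left_cancel₀ (by positivity) this).symm
  have hstep : ∀ j < L, U (n j) = n (j + 1) := by
    intro j hj
    have h1 := hn j hj.le
    have h2 := hn (j + 1) hj
    rw [A, h1] at h2
    have h3 : (d : ℤ) * n (j + 1)
        = (m : ℤ) ^ (if (w (j : ℤ)).isSome then 1 else 0) * n j + val ρ (w (j : ℤ)) := by
      have hdj : (d : ℤ) ^ j ≠ 0 := by positivity
      apply mul_left_cancel₀ hdj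
      rw [pow_succ] at h2
      linarith
    rcases h : w (j : ℤ) with _ | i
    · rw [h] at h3
      simp at h3
      rw [← h3]
      exact hU0 _
    · rw [h] at h3
      simp at h3
      exact hU1 _ _ i h3
  have hiter : ∀ j ≤ L, U^[j] n0 = n j := by
    intro j
    induction j with
    | zero => intro _; simpa using hn0'.symm
    | succ j ih =>
      intro hj
      rw [Function.iterate_succ_apply', ih (by omega), hstep j (by omega)]
  refine ⟨n0, hn0pos, L, ?_, ?_⟩
  · obtain ⟨j, hj⟩ := hs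
    simp only [sk, mem_filter, mem_range] at hj
    omega
  · rw [hiter L le_rfl, hnL]

end GC70
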