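import Mathlib
import Pool.Agent.Helper70.GC.Cycle

/-!
# Additive energy bound for pairs of words which are proportional modulo `g`
-/

set_option autoImplicit false

namespace GC70

open Finset

section abstract

variable {α β G : Type} [Fintype α] [Fintype β] [DecidableEq G]

/-- number of collisions of a function -/
def coll (φ : α → G) : ℕ := ((univ : Finset (α × α)).filter (fun p => φ p.1 = φ p.2)).card

lemma coll_eq_sum (φ : α → G) (T : Finset G) (hT : ∀ a, φ a ∈ T) :
    coll φ = ∑ g ∈ T, ((univ : Finset α).filter (fun a => φ a = g)).card ^ 2 := by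
  unfold coll
  rw [card_eq_sum_card_fiberwise (f := fun p : α × α => φ p.1) (t := T)
    (by intro p _; exact hT _)]
  apply sum_congr rfl
  intro g _
  rw [sq, ← card_product]
  congr 1
  ext p
  simp only [mem_filter, mem_univ, true_and, mem_product]
  constructor
  · rintro ⟨h1, h2⟩
    exact ⟨h2, h1.symm.trans h2⟩
  · rintro ⟨h1, h2⟩
    exact ⟨h1.trans h2.symm, h1⟩

lemma pair_sq_le (φ : α → G) (ψ : β → G) :
    ((univ : Finset (α × β)).filter (fun p => φ p.1 = ψ p.2)).card ^ 2 ≤ coll φ * coll ψ := by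
  set T : Finset G := univ.image φ ∪ univ.image ψ with hT
  have h1 : ∀ a, φ a ∈ T := fun a => mem_union_left _ (mem_image_of_mem _ (mem_univ _))
  have h2 : ∀ a, ψ a ∈ T := fun a => mem_union_right _ (mem_image_of_mem _ (mem_univ _))
  rw [coll_eq_sum φ T h1, coll_eq_sum ψ T h2,
    card_eq_sum_card_fiberwise (f := fun p : α × β => φ p.1) (t := T) (by intro p _; exact h1 _)]
  have h3 : ∀ g ∈ T, (((univ : Finset (α × β)).filter (fun p => φ p.1 = ψ p.2)).filter
      (fun p => φ p.1 = g)).card = ((univ : Finset α).filter (fun a => φ a = g)).card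
        * ((univ : Finset β).filter (fun a => ψ a = g)).card := by
    intro g _
    rw [← card_product]
    congr 1
    ext p
    simp only [mem_filter, mem_univ, true_and, mem_product]
    constructor
    · rintro ⟨h1, h2⟩
      exact ⟨h2, h1.symm.trans h2⟩
    · rintro ⟨h1, h2⟩
      exact ⟨h1.trans h2.symm, h1⟩
  rw [sum_congr rfl h3]
  exact sum_mul_sq_le_sq_mul_sq _ _ _

end abstract

section vec

variable {B : Type} [Fintype B] [DecidableEq B]

/-- vector of a function -/
def Vf {J M : Type} [Fintype J] [AddCommGroup M] (c : J → M) (f : J → B) : B → M :=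
  fun i => ∑ j ∈ univ.filter (fun j => f j = i), c j

/-- uniqueness of the coefficients -/
def Uq {J M : Type} [Fintype J] [AddCommGroup M] (c : J → M) : Prop :=
  ∀ a : J → ℤ, (∀ j, |a j| ≤ 2) → ∑ j, a j • c j = 0 → ∀ j, a j = 0

omit [Fintype B] in
lemma four (x1 x2 x3 x4 : B)
    (h : ∀ i, (if x1 = i then (1 : ℤ) else 0) - (if x2 = i then 1 else 0)
      - (if x3 = i then 1 else 0) + (if x4 = i then 1 else 0) = 0) :
    (x1 = x2 ∧ x3 = x4) ∨ (x1 = x3 ∧ x2 = x4) := by
  by_cases h12 : x1 = x2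
  · left
    refine ⟨h12, ?_⟩
    have h0 := h x3
    subst h12
    by_contra h34
    have h34' : ¬ (x4 = x3) := fun h => h34 h.symm
    simp [h34'] at h0
  · right
    have h1 := h x1
    rw [if_pos rfl, if_neg (fun h => h12 h.symm)] at h1
    have h2 := h x2
    rw [if_pos rfl, if_neg h12] at h2
    constructor
    · by_contra h13
      have h13' : ¬ (x3 = x1) := fun h => h13 h.symm
      simp only [h13', if_false] at h1
      split_ifs at h1 <;> omega
    · by_contra h24
      have h24' : ¬ (x4 = x2) := fun h => h24 h.symm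
      simp only [h24', if_false] at h2
      split_ifs at h2 <;> omega

/-- the set of quadruples -/
def Q4 (B : Type) [Fintype B] [DecidableEq B] : Finset ((B × B) × (B × B)) :=
  univ.filter (fun p => (p.1.1 = p.1.2 ∧ p.2.1 = p.2.2) ∨ (p.1.1 = p.2.1 ∧ p.1.2 = p.2.2))

lemma card_Q4 : (Q4 B).card ≤ 2 * Fintype.card B ^ 2 := by
  have hsub : Q4 B ⊆ (univ : Finset (B × B)).image (fun p => ((p.1, p.1), (p.2, p.2)))
      ∪ (univ : Finset (B × B)).image (fun p => ((p.1, p.2), (p.1, p.2))) := by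
    rintro ⟨⟨x1, x2⟩, ⟨x3, x4⟩⟩ h
    simp only [Q4, mem_filter, mem_univ, true_and] at h
    simp only [mem_union, mem_image, mem_univ, true_and, Prod.exists, Prod.mk.injEq]
    rcases h with ⟨h1, h2⟩ | ⟨h1, h2⟩
    · left
      exact ⟨x1, x3, ⟨rfl, h1⟩, ⟨rfl, h2⟩⟩
    · right
      exact ⟨x1, x2, ⟨rfl, rfl⟩, ⟨h1, h2⟩⟩
  refine (card_le_card hsub).trans ((card_union_le _ _).trans ?_)
  have h1 := card_image_le (s := (univ : Finset (B × B)))
    (f := fun p => (((p.1, p.1), (p.2, p.2)) : (B × B) × (B × B)))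
  have h2 := card_image_le (s := (univ : Finset (B × B)))
    (f := fun p => (((p.1, p.2), (p.1, p.2)) : (B × B) × (B × B)))
  have h3 : (univ : Finset (B × B)).card = Fintype.card B ^ 2 := by
    rw [card_univ, Fintype.card_prod, sq]
  rw [h3] at h1 h2
  omega

variable {J M : Type} [Fintype J] [DecidableEq J] [AddCommGroup M] [DecidableEq M]

omit [DecidableEq J] [DecidableEq M] [Fintype B] in
lemma Vf_eq (c : J → M) (f : J → B) (i : B) :
    Vf c f i = ∑ j, (if f j = i then (1 : ℤ) else 0) • c j := by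
  unfold Vf
  rw [sum_filter]
  apply sum_congr rfl
  intro j _
  split_ifs <;> simp

lemma energy_le (c : J → M) (hc : Uq c) :
    coll (fun p : (J → B) × (J → B) => Vf c p.1 - Vf c p.2)
      ≤ (2 * Fintype.card B ^ 2) ^ Fintype.card J := by
  have h1 : coll (fun p : (J → B) × (J → B) => Vf c p.1 - Vf c p.2)
      ≤ (Fintype.piFinset (fun _ : J => Q4 B)).card := by
    unfold coll
    apply card_le_card_of_injOn (fun p => fun j => ((p.1.1 j, p.1.2 j), (p.2.1 j, p.2.2 j)))
    · rintro ⟨⟨f1, f2⟩, ⟨f3, f4⟩⟩ h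
      simp only [coe_filter, mem_univ, true_and, Set.mem_ofPred_eq] at h
      rw [mem_coe, Fintype.mem_piFinset]
      have key : ∀ i j, (if f1 j = i then (1 : ℤ) else 0) - (if f2 j = i then 1 else 0)
          - (if f3 j = i then 1 else 0) + (if f4 j = i then 1 else 0) = 0 := by
        intro i
        apply hc
        · intro j
          rw [abs_le]
          split_ifs <;> constructor <;> omega
        · have h2 := congrFun h i
          simp only [Pi.sub_apply, Vf_eq] at h2
          have h3 : ∑ j, ((if f1 j = i then (1 : ℤ) else 0) - (if f2 j = i then 1 else 0)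
              - (if f3 j = i then 1 else 0) + (if f4 j = i then 1 else 0)) • c j
              = ((∑ j, (if f1 j = i then (1 : ℤ) else 0) • c j)
                - ∑ j, (if f2 j = i then (1 : ℤ) else 0) • c j)
              - ((∑ j, (if f3 j = i then (1 : ℤ) else 0) • c j)
                - ∑ j, (if f4 j = i then (1 : ℤ) else 0) • c j) := by
            rw [← sum_sub_distrib, ← sum_sub_distrib, ← sum_sub_distrib]
            apply sum_congr rfl
            intro j _
            rw [add_smul, sub_smul, sub_smul]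
            abel
          rw [h3, h2, sub_self]
      intro j
      simp only [Q4, mem_filter, mem_univ, true_and]
      exact four _ _ _ _ (fun i => key i j)
    · rintro ⟨⟨f1, f2⟩, ⟨f3, f4⟩⟩ _ ⟨⟨g1, g2⟩, ⟨g3, g4⟩⟩ _ heq
      simp only [Prod.mk.injEq]
      refine ⟨⟨?_, ?_⟩, ?_, ?_⟩ <;> funext j
      · exact congrArg (fun p => p.1.1) (congrFun heq j)
      · exact congrArg (fun p => p.1.2) (congrFun heq j)
      · exact congrArg (fun p => p.2.1) (congrFun heq j)
      · exact congrArg (fun p => p.2.2) (congrFun heq j)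
  refine h1.trans ?_
  rw [Fintype.card_piFinset, prod_const, card_univ]
  exact Nat.pow_le_pow_left card_Q4 _

end vec

section triple

variable {B : Type} [Fintype B] [DecidableEq B]
variable {J1 J2 J3 M : Type} [Fintype J1] [DecidableEq J1] [Fintype J2] [DecidableEq J2]
  [Fintype J3] [DecidableEq J3] [AddCommGroup M] [DecidableEq M]

lemma coll_triple_le (c1 : J1 → M) (c2 : J2 → M) (c3 : J3 → M) (h1 : Uq c1) (h2 : Uq c2) :
    coll (fun p : (J1 → B) × (J2 → B) × (J3 → B) => Vf c1 p.1 + Vf c2 p.2.1 + Vf c3 p.2.2)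
      ≤ (2 * Fintype.card B) ^ (Fintype.card J1 + Fintype.card J2)
        * Fintype.card B ^ (2 * Fintype.card J3) := by
  set b := Fintype.card B with hb
  set φ1 := fun p : (J1 → B) × (J1 → B) => Vf c1 p.1 - Vf c1 p.2 with hφ1
  set φ2 := fun p : (J2 → B) × (J2 → B) => Vf c2 p.1 - Vf c2 p.2 with hφ2
  unfold coll
  have h3 : ((univ : Finset (((J1 → B) × (J2 → B) × (J3 → B)) × ((J1 → B) × (J2 → B) × (J3 → B)))).filter
      (fun p => Vf c1 p.1.1 + Vf c2 p.1.2.1 + Vf c3 p.1.2.2
        = Vf c1 p.2.1 + Vf c2 p.2.2.1 + Vf c3 p.2.2.2)).card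
      = ∑ q : (J3 → B) × (J3 → B),
        (((univ : Finset (((J1 → B) × (J2 → B) × (J3 → B)) × ((J1 → B) × (J2 → B) × (J3 → B)))).filter
          (fun p => Vf c1 p.1.1 + Vf c2 p.1.2.1 + Vf c3 p.1.2.2
            = Vf c1 p.2.1 + Vf c2 p.2.2.1 + Vf c3 p.2.2.2)).filter
              (fun p => (p.1.2.2, p.2.2.2) = q)).card :=
    card_eq_sum_card_fiberwise (by intro p _; simp)
  rw [h3]
  have h4 : ∀ q : (J3 → B) × (J3 → B),
      (((univ : Finset (((J1 → B) × (J2 → B) × (J3 → B)) × ((J1 → B) × (J2 → B) × (J3 → B)))).filter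
          (fun p => Vf c1 p.1.1 + Vf c2 p.1.2.1 + Vf c3 p.1.2.2
            = Vf c1 p.2.1 + Vf c2 p.2.2.1 + Vf c3 p.2.2.2)).filter
              (fun p => (p.1.2.2, p.2.2.2) = q)).card
      ≤ (2 * b) ^ (Fintype.card J1 + Fintype.card J2) := by
    rintro ⟨q1, q2⟩
    have h5 : (((univ : Finset (((J1 → B) × (J2 → B) × (J3 → B)) × ((J1 → B) × (J2 → B) × (J3 → B)))).filter
          (fun p => Vf c1 p.1.1 + Vf c2 p.1.2.1 + Vf c3 p.1.2.2
            = Vf c1 p.2.1 + Vf c2 p.2.2.1 + Vf c3 p.2.2.2)).filter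
              (fun p => (p.1.2.2, p.2.2.2) = (q1, q2))).card
        ≤ ((univ : Finset (((J1 → B) × (J1 → B)) × ((J2 → B) × (J2 → B)))).filter
          (fun p => φ1 p.1 = (Vf c3 q2 - Vf c3 q1) - φ2 p.2)).card := by
      apply card_le_card_of_injOn (fun p => ((p.1.1, p.2.1), (p.1.2.1, p.2.2.1)))
      · rintro ⟨⟨f1, f2, f3⟩, ⟨g1, g2, g3⟩⟩ h
        simp only [coe_filter, mem_filter, mem_univ, true_and, Set.mem_ofPred_eq,
          Prod.mk.injEq] at h
        obtain ⟨h, rfl, rfl⟩ := h
        simp only [coe_filter, mem_univ, true_and, Set.mem_ofPred_eq, hφ1, hφ2]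
        rw [sub_eq_sub_iff_add_eq_add, sub_add_eq_add_sub, eq_sub_iff_add_eq,
          show Vf c1 f1 + (Vf c2 f2 - Vf c2 g2) + Vf c3 f3
            = (Vf c1 f1 + Vf c2 f2 + Vf c3 f3) - Vf c2 g2 by abel, h]
        abel
      · rintro ⟨⟨f1, f2, f3⟩, ⟨g1, g2, g3⟩⟩ h ⟨⟨f1', f2', f3'⟩, ⟨g1', g2', g3'⟩⟩ h' heq
        simp only [coe_filter, mem_filter, mem_univ, true_and, Set.mem_ofPred_eq,
          Prod.mk.injEq] at h h' heq
        obtain ⟨_, rfl, rfl⟩ := h
        obtain ⟨_, rfl, rfl⟩ := h'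
        obtain ⟨⟨rfl, rfl⟩, ⟨rfl, rfl⟩⟩ := heq
        rfl
    refine h5.trans ?_
    have h6 := pair_sq_le φ1 (fun p => (Vf c3 q2 - Vf c3 q1) - φ2 p)
    have h7 : coll (fun p => (Vf c3 q2 - Vf c3 q1) - φ2 p) = coll φ2 := by
      unfold coll
      congr 1
      ext p
      simp only [mem_filter, mem_univ, true_and, sub_right_inj]
    rw [h7] at h6
    have h8 := energy_le (B := B) c1 h1
    have h9 := energy_le (B := B) c2 h2
    rw [← hφ1, ← hb] at h8
    rw [← hφ2, ← hb] at h9
    have h10 : coll φ1 * coll φ2 ≤ ((2 * b) ^ (Fintype.card J1 + Fintype.card J2)) ^ 2 := by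
      calc coll φ1 * coll φ2
          ≤ (2 * b ^ 2) ^ Fintype.card J1 * (2 * b ^ 2) ^ Fintype.card J2 :=
            Nat.mul_le_mul h8 h9
        _ = (2 * b ^ 2) ^ (Fintype.card J1 + Fintype.card J2) := by rw [pow_add]
        _ ≤ ((2 * b) ^ 2) ^ (Fintype.card J1 + Fintype.card J2) := by
            apply Nat.pow_le_pow_left
            nlinarith [Nat.zero_le (b ^ 2)]
        _ = ((2 * b) ^ (Fintype.card J1 + Fintype.card J2)) ^ 2 := by
            rw [← pow_mul, ← pow_mul, Nat.mul_comm 2 (Fintype.card J1 + Fintype.card J2)]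
    exact (Nat.pow_le_pow_iff_left (by norm_num : (2 : ℕ) ≠ 0)).mp (h6.trans h10)
  refine (sum_le_sum (fun q _ => h4 q)).trans ?_
  rw [sum_const, card_univ, Fintype.card_prod, Fintype.card_fun, smul_eq_mul, ← hb]
  apply le_of_eq
  ring

end triple

end GC70
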