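import Mathlib
import Pool.Agent.Helper70.GC.Window

/-!
# The count of proportional pairs of words with given positions of the zero letters
-/

set_option autoImplicit false

namespace GC70

open Finset

variable {B : Type} [Fintype B] [DecidableEq B]

/-- periodicity -/
def Per (w : ℤ → Option B) (L : ℕ) : Prop := ∀ x : ℤ, w (x + L) = w x

omit [Fintype B] [DecidableEq B] in
lemma Per.mul {w : ℤ → Option B} {L : ℕ} (h : Per w L) (k : ℕ) (x : ℤ) : w (x + k * L) = w x := by
  induction k with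
  | zero => simp
  | succ k ih =>
    have : x + ((k + 1 : ℕ) : ℤ) * L = (x + k * L) + L := by push_cast; ring
    rw [this, h, ih]

omit [Fintype B] [DecidableEq B] in
lemma Per.zmul {w : ℤ → Option B} {L : ℕ} (h : Per w L) (k : ℤ) (x : ℤ) : w (x + k * L) = w x := by
  obtain ⟨n, rfl | rfl⟩ := k.eq_nat_or_neg
  · exact h.mul n x
  · have := h.mul n (x + -(n : ℤ) * L)
    rw [← this]
    congr 1
    ring

omit [Fintype B] [DecidableEq B] in
lemma Per.emod {w : ℤ → Option B} {L : ℕ} (h : Per w L) (x : ℤ) : w (x % L) = w x := by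
  have h1 := h.zmul (x / L) (x % L)
  rw [← h1]
  congr 1
  have := Int.emod_add_mul_ediv x L
  linarith

omit [Fintype B] [DecidableEq B] in
lemma Per.ext {w w' : ℤ → Option B} {L : ℕ} (hL : 0 < L) (h : Per w L) (h' : Per w' L)
    (heq : ∀ j < L, w (j : ℤ) = w' (j : ℤ)) : w = w' := by
  funext x
  rw [← h.emod x, ← h'.emod x]
  have h1 : 0 ≤ x % (L : ℤ) := Int.emod_nonneg _ (by positivity)
  have h2 : x % (L : ℤ) < L := Int.emod_lt_of_pos _ (by positivity)
  have h3 := heq (x % (L : ℤ)).toNat (by omega)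
  rw [Int.toNat_of_nonneg h1] at h3
  exact h3

/-- restriction of a word to a set of positions -/
def res (b0 : B) (P : Finset ℕ) (w : ℤ → Option B) : {j // j ∈ P} → B :=
  fun j => (w (j : ℕ)).getD b0

omit [Fintype B] in
lemma Vf_res (b0 : B) (g : ℕ) (w : ℤ → Option B) (P : Finset ℕ)
    (hP : ∀ j ∈ P, (w (j : ℕ)).isSome) (c : ℕ → ℕ) (i : B) :
    Vf (fun j : {j // j ∈ P} => (c j : ZMod g)) (res b0 P w) i
      = ∑ j ∈ P.filter (fun j : ℕ => w (j : ℤ) = some i), (c j : ZMod g) := by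
  unfold Vf
  rw [sum_filter, sum_filter, ← sum_coe_sort P]
  apply sum_congr rfl
  rintro ⟨j, hj⟩ _
  obtain ⟨x, hx⟩ := Option.isSome_iff_exists.mp (hP j hj)
  simp only [res, hx, Option.getD_some, Option.some.injEq]

/-- low window -/
def lo (N : Finset ℕ) (q : ℕ) : Finset ℕ := N.filter (fun j => 0 ≤ j ∧ j < 0 + q)
/-- high window -/
def hi (N : Finset ℕ) (L q : ℕ) : Finset ℕ := N.filter (fun j => L - q ≤ j ∧ j < (L - q) + q)
/-- middle -/
def mi (N : Finset ℕ) (L q : ℕ) : Finset ℕ := N.filter (fun j => q ≤ j ∧ j < L - q)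

lemma card_lo_hi (N : Finset ℕ) (L q : ℕ) (hN : N ⊆ range L) (hq : 2 * q ≤ L) :
    (lo N q).card + (hi N L q).card + (mi N L q).card = N.card := by
  have h1 : Disjoint (lo N q) (hi N L q) := by
    rw [disjoint_left]
    intro j h1 h2
    have h3 := (mem_filter.mp h1).2
    have h4 := (mem_filter.mp h2).2
    omega
  have h2 : Disjoint (lo N q ∪ hi N L q) (mi N L q) := by
    rw [disjoint_left]
    intro j h1 h2
    have h4 := (mem_filter.mp h2).2
    rcases mem_union.mp h1 with h | h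
    · have h3 := (mem_filter.mp h).2
      omega
    · have h3 := (mem_filter.mp h).2
      omega
  rw [← card_union_of_disjoint h1, ← card_union_of_disjoint h2]
  congr 1
  ext j
  simp only [lo, hi, mi, mem_union, mem_filter]
  constructor
  · rintro ((h | h) | h) <;> exact h.1
  · intro h
    have := mem_range.mp (hN h)
    by_cases h3 : j < q
    · left; left; exact ⟨h, by omega, by omega⟩
    · by_cases h4 : j < L - q
      · right; exact ⟨h, by omega, by omega⟩
      · left; right; exact ⟨h, by omega, by omega⟩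

lemma card_lo_hi_ge (N : Finset ℕ) (L q U : ℕ) (hN : N ⊆ range L) (hq : 2 * q ≤ L)
    (hU : L ≤ N.card + U) : 2 * (q - U) ≤ (lo N q).card + (hi N L q).card := by
  have h1 := card_lo_hi N L q hN hq
  have h2 : (mi N L q).card ≤ L - 2 * q := by
    have : mi N L q ⊆ Ico q (L - q) := by
      intro j hj
      rw [mem_Ico]
      exact (mem_filter.mp hj).2
    have := card_le_card this
    rw [Nat.card_Ico] at this
    omega
  omega

omit [Fintype B] in
lemma V_split (b0 : B) (d m g : ℕ) (w : ℤ → Option B) (L q : ℕ) (hq : 2 * q ≤ L) (N : Finset ℕ)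
    (hN : sk w L = N) (i : B) :
    (V d m w L i : ZMod g) =
      Vf (fun j : {j // j ∈ lo N q} => (wt d m N j : ZMod g)) (res b0 (lo N q) w) i
      + Vf (fun j : {j // j ∈ hi N L q} => (wt d m N j : ZMod g)) (res b0 (hi N L q) w) i
      + Vf (fun j : {j // j ∈ mi N L q} => (wt d m N j : ZMod g)) (res b0 (mi N L q) w) i := by
  have hs : ∀ j ∈ N, (w (j : ℕ)).isSome := by
    intro j hj
    rw [← hN] at hj
    exact (mem_filter.mp hj).2
  rw [Vf_res b0 g w (lo N q) (fun j hj => hs j (mem_filter.mp hj).1),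
    Vf_res b0 g w (hi N L q) (fun j hj => hs j (mem_filter.mp hj).1),
    Vf_res b0 g w (mi N L q) (fun j hj => hs j (mem_filter.mp hj).1)]
  rw [← sum_union, ← sum_union]
  · unfold V
    rw [hN]
    push_cast
    apply sum_congr _ (fun _ _ => rfl)
    ext j
    simp only [lo, hi, mi, mem_union, mem_filter, mem_range]
    constructor
    · rintro ⟨h1, h2⟩
      have hjN : j ∈ N := by
        rw [← hN]
        simp only [sk, mem_filter, mem_range]
        exact ⟨h1, by rw [h2]; rfl⟩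
      by_cases h3 : j < q
      · left; left; exact ⟨⟨hjN, by omega, by omega⟩, h2⟩
      · by_cases h4 : j < L - q
        · right; exact ⟨⟨hjN, by omega, by omega⟩, h2⟩
        · left; right; exact ⟨⟨hjN, by omega, by omega⟩, h2⟩
    · have hNL : ∀ j ∈ N, j < L := by
        intro j hj
        rw [← hN] at hj
        exact mem_range.mp (mem_filter.mp hj).1
      rintro ((⟨⟨h1, _⟩, h2⟩ | ⟨⟨h1, _⟩, h2⟩) | ⟨⟨h1, _⟩, h2⟩) <;> exact ⟨hNL j h1, h2⟩
  · rw [disjoint_left]
    intro j h1 h2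
    simp only [lo, hi, mi, mem_union, mem_filter] at h1 h2
    omega
  · rw [disjoint_left]
    intro j h1 h2
    simp only [lo, hi, mi, mem_union, mem_filter] at h1 h2
    omega

omit [Fintype B] in
lemma res_inj (b0 : B) (L q : ℕ) (hL : 0 < L) (hq : 2 * q ≤ L) (N : Finset ℕ)
    (w w' : ℤ → Option B) (hw : Per w L) (hw' : Per w' L) (hN : sk w L = N) (hN' : sk w' L = N)
    (h1 : res b0 (lo N q) w = res b0 (lo N q) w') (h2 : res b0 (hi N L q) w = res b0 (hi N L q) w')
    (h3 : res b0 (mi N L q) w = res b0 (mi N L q) w') : w = w' := by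
  apply Per.ext hL hw hw'
  intro j hj
  by_cases hjN : j ∈ N
  · have hs : (w (j : ℕ)).isSome := by
      rw [← hN] at hjN
      exact (mem_filter.mp hjN).2
    have hs' : (w' (j : ℕ)).isSome := by
      rw [← hN'] at hjN
      exact (mem_filter.mp hjN).2
    obtain ⟨x, hx⟩ := Option.isSome_iff_exists.mp hs
    obtain ⟨x', hx'⟩ := Option.isSome_iff_exists.mp hs'
    have key : (w (j : ℤ)).getD b0 = (w' (j : ℤ)).getD b0 := by
      by_cases h4 : j < q
      · exact congrFun h1 ⟨j, mem_filter.mpr ⟨hjN, by omega, by omega⟩⟩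
      · by_cases h5 : j < L - q
        · exact congrFun h3 ⟨j, mem_filter.mpr ⟨hjN, by omega, by omega⟩⟩
        · exact congrFun h2 ⟨j, mem_filter.mpr ⟨hjN, by omega, by omega⟩⟩
    rw [hx, hx'] at key ⊢
    simp at key
    rw [key]
  · have hs : (w (j : ℕ)) = none := by
      rw [← hN] at hjN
      simp only [sk, mem_filter, mem_range, not_and] at hjN
      have := hjN hj
      simpa using this
    have hs' : (w' (j : ℕ)) = none := by
      rw [← hN'] at hjN
      simp only [sk, mem_filter, mem_range, not_and] at hjN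
      have := hjN hj
      simpa using this
    rw [hs, hs']

theorem range2_nat (b0 : B) (d m g : ℕ) (hd : 3 ≤ d) (hdm : d ≤ m) (hc : Nat.Coprime m d)
    (hgd : Nat.Coprime d g) (hgm : Nat.Coprime m g) (L L' q q' : ℕ) (hL : 0 < L) (hL' : 0 < L')
    (hqL : 2 * q ≤ L) (hqL' : 2 * q' ≤ L') (hq : 2 * q * m ^ (q - 1) < g)
    (hq' : 2 * q' * m ^ (q' - 1) < g) (N N' : Finset ℕ)
    (l : (ZMod g)ˣ) (S : Finset ((ℤ → Option B) × (ℤ → Option B)))
    (hS : ∀ p ∈ S, Per p.1 L ∧ Per p.2 L' ∧ sk p.1 L = N ∧ sk p.2 L' = N' ∧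
      ∀ i, (V d m p.2 L' i : ZMod g) = l * (V d m p.1 L i : ZMod g)) :
    S.card ^ 2 ≤ ((2 * Fintype.card B) ^ ((lo N q).card + (hi N L q).card)
        * Fintype.card B ^ (2 * (mi N L q).card))
      * ((2 * Fintype.card B) ^ ((lo N' q').card + (hi N' L' q').card)
        * Fintype.card B ^ (2 * (mi N' L' q').card)) := by
  classical
  set c1 := fun j : {j // j ∈ lo N q} => (wt d m N j : ZMod g) with hc1
  set c2 := fun j : {j // j ∈ hi N L q} => (wt d m N j : ZMod g) with hc2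
  set c3 := fun j : {j // j ∈ mi N L q} => (wt d m N j : ZMod g) with hc3
  set c1' := fun j : {j // j ∈ lo N' q'} => (wt d m N' j : ZMod g) with hc1'
  set c2' := fun j : {j // j ∈ hi N' L' q'} => (wt d m N' j : ZMod g) with hc2'
  set c3' := fun j : {j // j ∈ mi N' L' q'} => (wt d m N' j : ZMod g) with hc3'
  have u1 : Uq c1 := window_uq d m g hd hdm hc hgd hgm N 0 q hq
  have u2 : Uq c2 := window_uq d m g hd hdm hc hgd hgm N (L - q) q hq
  have u1' : Uq c1' := window_uq d m g hd hdm hc hgd hgm N' 0 q' hq'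
  have u2' : Uq c2' := window_uq d m g hd hdm hc hgd hgm N' (L' - q') q' hq'
  set Φ := fun p : ({j // j ∈ lo N q} → B) × ({j // j ∈ hi N L q} → B) × ({j // j ∈ mi N L q} → B)
    => Vf c1 p.1 + Vf c2 p.2.1 + Vf c3 p.2.2 with hΦ
  set Φ' := fun p : ({j // j ∈ lo N' q'} → B) × ({j // j ∈ hi N' L' q'} → B)
    × ({j // j ∈ mi N' L' q'} → B) => Vf c1' p.1 + Vf c2' p.2.1 + Vf c3' p.2.2 with hΦ'
  have k1 := coll_triple_le (B := B) c1 c2 c3 u1 u2
  have k2 := coll_triple_le (B := B) c1' c2' c3' u1' u2'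
  have k3 := pair_sq_le (fun p => (fun i => (l : ZMod g) * Φ p i)) Φ'
  have k4 : coll (fun p => (fun i => (l : ZMod g) * Φ p i)) = coll Φ := by
    unfold coll
    congr 1
    ext p
    simp only [mem_filter, mem_univ, true_and]
    constructor
    · intro h
      funext i
      have := congrFun h i
      simpa using this
    · intro h
      funext i
      rw [h]
  rw [k4] at k3
  simp only [Fintype.card_coe] at k1 k2
  refine le_trans (Nat.pow_le_pow_left ?_ 2) (k3.trans (Nat.mul_le_mul k1 k2))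
  apply card_le_card_of_injOn (fun p => ((res b0 (lo N q) p.1, res b0 (hi N L q) p.1,
    res b0 (mi N L q) p.1), (res b0 (lo N' q') p.2, res b0 (hi N' L' q') p.2,
    res b0 (mi N' L' q') p.2)))
  · intro p hp
    obtain ⟨h1, h2, h3, h4, h5⟩ := hS p hp
    simp only [coe_filter, mem_univ, true_and, Set.mem_ofPred_eq]
    funext i
    have e1 := V_split b0 d m g p.1 L q hqL N h3 i
    have e2 := V_split b0 d m g p.2 L' q' hqL' N' h4 i
    have e3 := h5 i
    rw [e1, e2] at e3
    simp only [hΦ, hΦ', Pi.add_apply]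
    exact e3.symm
  · intro p hp p' hp' heq
    obtain ⟨h1, h2, h3, h4, _⟩ := hS p hp
    obtain ⟨h1', h2', h3', h4', _⟩ := hS p' hp'
    simp only [Prod.mk.injEq] at heq
    obtain ⟨⟨a1, a2, a3⟩, ⟨b1, b2, b3⟩⟩ := heq
    apply Prod.ext
    · exact res_inj b0 L q hL hqL N p.1 p'.1 h1 h1' h3 h3' a1 a2 a3
    · exact res_inj b0 L' q' hL' hqL' N' p.2 p'.2 h2 h2' h4 h4' b1 b2 b3

lemma conv_bound (b : ℕ) (hb : 2 ≤ b) (k n M t : ℕ) (h1 : k + M = n) (h2 : 2 * t ≤ k) :
    (((2 * b) ^ k * b ^ (2 * M) : ℕ) : ℝ) ≤ ((b : ℝ) ^ n * (2 / (b : ℝ)) ^ t) ^ 2 := by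
  have hb0 : (0 : ℝ) < b := by
    have : 0 < b := by omega
    exact_mod_cast this
  have hb1 : (2 : ℝ) / b ≤ 1 := by
    rw [div_le_one hb0]
    exact_mod_cast hb
  push_cast
  have e1 : (2 * (b : ℝ)) ^ k * (b : ℝ) ^ (2 * M) = (b : ℝ) ^ (2 * n) * (2 / (b : ℝ)) ^ k := by
    rw [← h1, Nat.mul_add, pow_add, div_pow, mul_pow, two_mul k, pow_add]
    field_simp
  rw [e1, mul_pow, ← pow_mul, ← pow_mul, mul_comm n 2]
  apply mul_le_mul_of_nonneg_left _ (by positivity)
  apply pow_le_pow_of_le_one (by positivity) hb1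
  omega

theorem range2_count (b0 : B) (hb : 2 ≤ Fintype.card B) (d m g : ℕ) (hd : 3 ≤ d) (hdm : d ≤ m)
    (hc : Nat.Coprime m d)
    (hgd : Nat.Coprime d g) (hgm : Nat.Coprime m g) (L L' q q' U : ℕ) (hL : 0 < L) (hL' : 0 < L')
    (hqL : 2 * q ≤ L) (hqL' : 2 * q' ≤ L') (hq : 2 * q * m ^ (q - 1) < g)
    (hq' : 2 * q' * m ^ (q' - 1) < g) (N N' : Finset ℕ) (hN : N ⊆ range L) (hN' : N' ⊆ range L')
    (hU : L ≤ N.card + U) (hU' : L' ≤ N'.card + U)
    (l : (ZMod g)ˣ) (S : Finset ((ℤ → Option B) × (ℤ → Option B)))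
    (hS : ∀ p ∈ S, Per p.1 L ∧ Per p.2 L' ∧ sk p.1 L = N ∧ sk p.2 L' = N' ∧
      ∀ i, (V d m p.2 L' i : ZMod g) = l * (V d m p.1 L i : ZMod g)) :
    (S.card : ℝ) ≤ (Fintype.card B : ℝ) ^ N.card * (Fintype.card B : ℝ) ^ N'.card
      * (2 / (Fintype.card B : ℝ)) ^ ((q - U) + (q' - U)) := by
  have h1 := range2_nat b0 d m g hd hdm hc hgd hgm L L' q q' hL hL' hqL hqL' hq hq' N N' l S hS
  have h2 := conv_bound (Fintype.card B) hb _ _ _ (q - U) (card_lo_hi N L q hN hqL)
    (card_lo_hi_ge N L q U hN hqL hU)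
  have h3 := conv_bound (Fintype.card B) hb _ _ _ (q' - U) (card_lo_hi N' L' q' hN' hqL')
    (card_lo_hi_ge N' L' q' U hN' hqL' hU')
  have h4 : ((S.card : ℝ)) ^ 2 ≤ ((Fintype.card B : ℝ) ^ N.card * (Fintype.card B : ℝ) ^ N'.card
      * (2 / (Fintype.card B : ℝ)) ^ ((q - U) + (q' - U))) ^ 2 := by
    calc ((S.card : ℝ)) ^ 2 = ((S.card ^ 2 : ℕ) : ℝ) := by push_cast; ring
      _ ≤ _ := Nat.cast_le.mpr h1
      _ = _ := Nat.cast_mul _ _
      _ ≤ _ := mul_le_mul h2 h3 (Nat.cast_nonneg _) (by positivity)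
      _ = _ := by rw [pow_add]; ring
  exact (pow_le_pow_iff_left₀ (Nat.cast_nonneg _) (by positivity) (by norm_num)).mp h4

end GC70
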