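import Mathlib
import Pool.Agent.Helper70.GC.Range2
import Pool.Agent.Helper70.GC.Fiber

/-!
# The count of proportional pairs for a small modulus
-/

set_option autoImplicit false

namespace GC70

open Finset

variable {B : Type} [Fintype B] [DecidableEq B]

omit [Fintype B] in
lemma V_eq_Vf (b0 : B) (d m g : ℕ) (w : ℤ → Option B) (L : ℕ) (N : Finset ℕ)
    (hN : sk w L = N) (i : B) :
    (V d m w L i : ZMod g) =
      Vf (fun j : {j // j ∈ N} => (wt d m N j : ZMod g)) (res b0 N w) i := by
  have hs : ∀ j ∈ N, (w (j : ℕ)).isSome := by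
    intro j hj
    rw [← hN] at hj
    exact (mem_filter.mp hj).2
  rw [Vf_res b0 g w N hs]
  unfold V
  rw [hN]
  push_cast
  apply sum_congr _ (fun _ _ => rfl)
  ext j
  simp only [mem_filter, mem_range]
  constructor
  · rintro ⟨h1, h2⟩
    refine ⟨?_, h2⟩
    rw [← hN]
    simp only [sk, mem_filter, mem_range]
    exact ⟨h1, by rw [h2]; rfl⟩
  · rintro ⟨h1, h2⟩
    rw [← hN] at h1
    exact ⟨mem_range.mp (mem_filter.mp h1).1, h2⟩

omit [Fintype B] [DecidableEq B] in
lemma res_inj' (b0 : B) (L : ℕ) (hL : 0 < L) (N : Finset ℕ)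
    (w w' : ℤ → Option B) (hw : Per w L) (hw' : Per w' L) (hN : sk w L = N) (hN' : sk w' L = N)
    (h1 : res b0 N w = res b0 N w') : w = w' := by
  apply Per.ext hL hw hw'
  intro j hj
  by_cases hjN : j ∈ N
  · have hs : (w (j : ℕ)).isSome := by
      rw [← hN] at hjN
      exact (mem_filter.mp hjN).2
    have hs' : (w' (j : ℕ)).isSome := by
      rw [← hN'] at hjN
      exact (mem_filter.mp hjN).2
    obtain ⟨x, hx⟩ := Option.isSome_iff_exists.mp hs
    obtain ⟨x', hx'⟩ := Option.isSome_iff_exists.mp hs'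
    have key : (w (j : ℤ)).getD b0 = (w' (j : ℤ)).getD b0 := congrFun h1 ⟨j, hjN⟩
    rw [hx, hx'] at key ⊢
    simp at key
    rw [key]
  · have hs : (w (j : ℕ)) = none := by
      rw [← hN] at hjN
      simp only [sk, mem_filter, mem_range, not_and] at hjN
      have := hjN hj
      simpa using this
    have hs' : (w' (j : ℕ)) = none := by
      rw [← hN'] at hjN
      simp only [sk, mem_filter, mem_range, not_and] at hjN
      have := hjN hj
      simpa using this
    rw [hs, hs']

lemma wt_unit (d m g : ℕ) (hgd : Nat.Coprime d g) (hgm : Nat.Coprime m g) (N : Finset ℕ) (j : ℕ) :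
    IsUnit (wt d m N j : ZMod g) := by
  rw [ZMod.isUnit_iff_coprime]
  exact Nat.Coprime.mul_left (hgd.pow_left _) (hgm.pow_left _)

/-- **Count for a small modulus.** -/
theorem range1_count (b0 : B) (d m g : ℕ) (hg : 2 ≤ g)
    (hgd : Nat.Coprime d g) (hgm : Nat.Coprime m g) (L L' : ℕ) (hL : 0 < L) (hL' : 0 < L')
    (N N' : Finset ℕ) (X : ℝ)
    (hb : 1 ≤ Fintype.card B) (hJ : Fintype.card B ≤ N.card + N'.card)
    (hX : ((N.card + N'.card : ℕ) : ℝ) ≤ X * Fintype.card B)
    (l : (ZMod g)ˣ) (S : Finset ((ℤ → Option B) × (ℤ → Option B)))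
    (hS : ∀ p ∈ S, Per p.1 L ∧ Per p.2 L' ∧ sk p.1 L = N ∧ sk p.2 L' = N' ∧
      ∀ i, (V d m p.2 L' i : ZMod g) = l * (V d m p.1 L i : ZMod g)) :
    (S.card : ℝ) ≤ (Fintype.card B : ℝ) ^ (N.card + N'.card)
      * (Real.exp 1 * ((N.card + N'.card : ℕ) : ℝ))
        * Real.exp (-(Real.exp (-X)) * Fintype.card B) := by
  classical
  have : Fact (1 < g) := ⟨by omega⟩
  have hJc : Fintype.card ({j // j ∈ N} ⊕ {j // j ∈ N'}) = N.card + N'.card := by
    rw [Fintype.card_sum, Fintype.card_coe, Fintype.card_coe]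
  have h1 := card_no_singleton_le (J := {j // j ∈ N} ⊕ {j // j ∈ N'}) (B := B) X hb
    (by rw [hJc]; exact hJ) (by rw [hJc]; exact hX)
  rw [hJc] at h1
  refine le_trans ?_ h1
  rw [Nat.cast_le]
  apply card_le_card_of_injOn (fun p => Sum.elim (res b0 N p.1) (res b0 N' p.2))
  · intro p hp
    obtain ⟨_, _, h3, h4, h5⟩ := hS p hp
    simp only [coe_filter, mem_univ, true_and, Set.mem_ofPred_eq]
    intro i hcard
    have h5i := h5 i
    rw [V_eq_Vf b0 d m g p.1 L N h3, V_eq_Vf b0 d m g p.2 L' N' h4] at h5i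
    unfold Vf at h5i
    rw [card_eq_one] at hcard
    obtain ⟨x, hx⟩ := hcard
    have hxm : ∀ y, (Sum.elim (res b0 N p.1) (res b0 N' p.2) y = i ↔ y = x) := by
      intro y
      have := Finset.ext_iff.mp hx y
      simpa using this
    rcases x with j | j
    · have e1 : (univ.filter (fun t => res b0 N p.1 t = i)) = {j} := by
        ext t
        have := hxm (Sum.inl t)
        simpa using this
      have e2 : (univ.filter (fun t => res b0 N' p.2 t = i)) = ∅ := by
        ext t
        have := hxm (Sum.inr t)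
        simpa using this
      rw [e1, e2, sum_singleton, sum_empty] at h5i
      have hu := (wt_unit d m g hgd hgm N j)
      have := (l.isUnit.mul hu).ne_zero
      exact this h5i.symm
    · have e1 : (univ.filter (fun t => res b0 N p.1 t = i)) = ∅ := by
        ext t
        have := hxm (Sum.inl t)
        simpa using this
      have e2 : (univ.filter (fun t => res b0 N' p.2 t = i)) = {j} := by
        ext t
        have := hxm (Sum.inr t)
        simpa using this
      rw [e1, e2, sum_singleton, sum_empty, mul_zero] at h5i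
      exact (wt_unit d m g hgd hgm N' j).ne_zero h5i
  · intro p hp p' hp' heq
    obtain ⟨h1, h2, h3, h4, _⟩ := hS p hp
    obtain ⟨h1', h2', h3', h4', _⟩ := hS p' hp'
    have a1 : res b0 N p.1 = res b0 N p'.1 := by
      funext j
      exact congrFun heq (Sum.inl j)
    have a2 : res b0 N' p.2 = res b0 N' p'.2 := by
      funext j
      exact congrFun heq (Sum.inr j)
    apply Prod.ext
    · exact res_inj' b0 L hL N p.1 p'.1 h1 h1' h3 h3' a1
    · exact res_inj' b0 L' hL' N' p.2 p'.2 h2 h2' h4 h4' a2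

end GC70
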