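import Mathlib
import Pool.Agent.Helper70.GC.Range1

/-!
# Sums of numbers `d ^ α * m ^ β`
-/

set_option autoImplicit false

namespace GC70

open Finset

lemma key (d m : ℕ) (hd : 2 ≤ d) (hc : Nat.Coprime m d) {ι κ : Type} [DecidableEq ι]
    (A : Finset ι) (C : Finset κ) (α β : ι → ℕ) (α' β' : κ → ℕ) (x : ι) (hx : x ∈ A)
    (hxm : ∀ y ∈ A, y ≠ x → α x < α y) (hC : ∀ y ∈ C, α x < α' y) :
    ∑ y ∈ A, d ^ (α y) * m ^ (β y) ≠ ∑ y ∈ C, d ^ (α' y) * m ^ (β' y) := by
  intro heq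
  have h1 : d ^ (α x + 1) ∣ ∑ y ∈ C, d ^ (α' y) * m ^ (β' y) := by
    apply dvd_sum
    intro y hy
    exact Dvd.dvd.mul_right (pow_dvd_pow _ (hC y hy)) _
  rw [← heq, ← add_sum_erase A _ hx] at h1
  have h2 : d ^ (α x + 1) ∣ ∑ y ∈ A.erase x, d ^ (α y) * m ^ (β y) := by
    apply dvd_sum
    intro y hy
    rw [mem_erase] at hy
    exact Dvd.dvd.mul_right (pow_dvd_pow _ (hxm y hy.2 hy.1)) _
  have h3 : d ^ (α x + 1) ∣ d ^ (α x) * m ^ (β x) := (Nat.dvd_add_left h2).mp h1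
  rw [pow_succ] at h3
  have h4 : d ∣ m ^ (β x) := (Nat.mul_dvd_mul_iff_left (by positivity)).mp h3
  have h5 : Nat.Coprime d (m ^ (β x)) := Nat.Coprime.pow_right _ hc.symm
  have h6 := Nat.Coprime.eq_one_of_dvd h5 h4
  omega

/-- the lowest affected position -/
lemma lowest (d m : ℕ) (hd : 2 ≤ d) (hc : Nat.Coprime m d) (A C : Finset ℤ) (o : ℤ)
    (hA : ∀ j ∈ A, o ≤ j) (hC : ∀ j ∈ C, o ≤ j) (e e' : ℤ → ℤ) (Z : ℤ)
    (heq : ∑ j ∈ A, d ^ ((j - o).toNat) * m ^ ((Z - e j).toNat)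
      = ∑ j ∈ C, d ^ ((j - o).toNat) * m ^ ((Z - e' j).toNat))
    (j1 : ℤ) (hj1 : ¬ ((j1 ∈ A ↔ j1 ∈ C) ∧ (j1 ∈ A → e j1 = e' j1))) :
    ∃ j0 ≤ j1, j0 ∈ A ∧ j0 ∈ C ∧ e j0 ≠ e' j0 := by
  classical
  set S := (A ∪ C).filter (fun j => ¬ ((j ∈ A ↔ j ∈ C) ∧ (j ∈ A → e j = e' j))) with hS
  have hj1S : j1 ∈ S := by
    rw [hS, mem_filter, mem_union]
    refine ⟨?_, hj1⟩
    by_contra h
    push Not at h
    apply hj1
    exact ⟨⟨fun h' => absurd h' h.1, fun h' => absurd h' h.2⟩, fun h' => absurd h' h.1⟩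
  have hne : S.Nonempty := ⟨j1, hj1S⟩
  set j0 := S.min' hne with hj0
  have hj0S : j0 ∈ S := min'_mem _ _
  have hlow : ∀ j, j < j0 → ((j ∈ A ↔ j ∈ C) ∧ (j ∈ A → e j = e' j)) := by
    intro j hj
    by_contra h
    have : j ∈ S := by
      rw [hS, mem_filter, mem_union]
      refine ⟨?_, h⟩
      by_contra h'
      push Not at h'
      apply h
      exact ⟨⟨fun h'' => absurd h'' h'.1, fun h'' => absurd h'' h'.2⟩, fun h'' => absurd h'' h'.1⟩
    have := min'_le _ _ this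
    omega
  refine ⟨j0, min'_le _ _ hj1S, ?_⟩
  have hsplitA : ∑ j ∈ A, d ^ ((j - o).toNat) * m ^ ((Z - e j).toNat)
      = ∑ j ∈ A.filter (fun j => j < j0), d ^ ((j - o).toNat) * m ^ ((Z - e j).toNat)
        + ∑ j ∈ A.filter (fun j => ¬ j < j0), d ^ ((j - o).toNat) * m ^ ((Z - e j).toNat) :=
    (sum_filter_add_sum_filter_not A (fun j => j < j0) _).symm
  have hsplitC : ∑ j ∈ C, d ^ ((j - o).toNat) * m ^ ((Z - e' j).toNat)
      = ∑ j ∈ C.filter (fun j => j < j0), d ^ ((j - o).toNat) * m ^ ((Z - e' j).toNat)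
        + ∑ j ∈ C.filter (fun j => ¬ j < j0), d ^ ((j - o).toNat) * m ^ ((Z - e' j).toNat) :=
    (sum_filter_add_sum_filter_not C (fun j => j < j0) _).symm
  have hlowsum : ∑ j ∈ A.filter (fun j => j < j0), d ^ ((j - o).toNat) * m ^ ((Z - e j).toNat)
      = ∑ j ∈ C.filter (fun j => j < j0), d ^ ((j - o).toNat) * m ^ ((Z - e' j).toNat) := by
    have h1 : A.filter (fun j => j < j0) = C.filter (fun j => j < j0) := by
      ext j
      simp only [mem_filter]
      constructor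
      · rintro ⟨h2, h3⟩
        exact ⟨(hlow j h3).1.mp h2, h3⟩
      · rintro ⟨h2, h3⟩
        exact ⟨(hlow j h3).1.mpr h2, h3⟩
    rw [← h1]
    apply sum_congr rfl
    intro j hj
    rw [mem_filter] at hj
    rw [(hlow j hj.2).2 hj.1]
  have hhigh : ∑ j ∈ A.filter (fun j => ¬ j < j0), d ^ ((j - o).toNat) * m ^ ((Z - e j).toNat)
      = ∑ j ∈ C.filter (fun j => ¬ j < j0), d ^ ((j - o).toNat) * m ^ ((Z - e' j).toNat) := by
    omega
  by_cases hAj : j0 ∈ A
  · by_cases hCj : j0 ∈ C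
    · refine ⟨hAj, hCj, ?_⟩
      intro h
      rw [hS, mem_filter] at hj0S
      exact hj0S.2 ⟨⟨fun _ => hCj, fun _ => hAj⟩, fun _ => h⟩
    · exfalso
      refine key d m hd hc (A.filter (fun j => ¬ j < j0)) (C.filter (fun j => ¬ j < j0))
        (fun j => (j - o).toNat) (fun j => (Z - e j).toNat) (fun j => (j - o).toNat)
        (fun j => (Z - e' j).toNat) j0 (by simp [hAj]) ?_ ?_ hhigh
      · intro y hy hne
        rw [mem_filter] at hy
        have := hA j0 hAj
        have := hA y hy.1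
        omega
      · intro y hy
        rw [mem_filter] at hy
        have := hA j0 hAj
        have := hC y hy.1
        have : y ≠ j0 := by
          rintro rfl
          exact hCj hy.1
        omega
  · by_cases hCj : j0 ∈ C
    · exfalso
      refine key d m hd hc (C.filter (fun j => ¬ j < j0)) (A.filter (fun j => ¬ j < j0))
        (fun j => (j - o).toNat) (fun j => (Z - e' j).toNat) (fun j => (j - o).toNat)
        (fun j => (Z - e j).toNat) j0 (by simp [hCj]) ?_ ?_ hhigh.symm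
      · intro y hy hne
        rw [mem_filter] at hy
        have := hC j0 hCj
        have := hC y hy.1
        omega
      · intro y hy
        rw [mem_filter] at hy
        have := hC j0 hCj
        have := hA y hy.1
        have : y ≠ j0 := by
          rintro rfl
          exact hAj hy.1
        omega
    · exfalso
      rw [hS, mem_filter, mem_union] at hj0S
      rcases hj0S.1 with h | h
      · exact hAj h
      · exact hCj h

lemma to_nat_eq (d m g R T : ℕ) (hdm : d ≤ m) (hm : 0 < m) {ι κ : Type}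
    (A : Finset ι) (C : Finset κ) (α β : ι → ℕ) (α' β' : κ → ℕ) (hA : A.card ≤ R)
    (hC : C.card ≤ R) (hAT : ∀ x ∈ A, α x + β x ≤ T) (hCT : ∀ x ∈ C, α' x + β' x ≤ T)
    (hg : R * m ^ T < g)
    (h : ∑ x ∈ A, (d : ZMod g) ^ (α x) * (m : ZMod g) ^ (β x)
      = ∑ x ∈ C, (d : ZMod g) ^ (α' x) * (m : ZMod g) ^ (β' x)) :
    ∑ x ∈ A, d ^ (α x) * m ^ (β x) = ∑ x ∈ C, d ^ (α' x) * m ^ (β' x) := by
  have h1 : ((∑ x ∈ A, d ^ (α x) * m ^ (β x) : ℕ) : ZMod g)
      = ((∑ x ∈ C, d ^ (α' x) * m ^ (β' x) : ℕ) : ZMod g) := by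
    push_cast
    exact h
  have hterm : ∀ a b : ℕ, a + b ≤ T → d ^ a * m ^ b ≤ m ^ T := by
    intro a b hab
    calc d ^ a * m ^ b ≤ m ^ a * m ^ b := Nat.mul_le_mul_right _ (Nat.pow_le_pow_left hdm _)
      _ = m ^ (a + b) := (pow_add _ _ _).symm
      _ ≤ m ^ T := Nat.pow_le_pow_right hm hab
  have hb1 : ∑ x ∈ A, d ^ (α x) * m ^ (β x) < g := by
    calc ∑ x ∈ A, d ^ (α x) * m ^ (β x) ≤ ∑ x ∈ A, m ^ T :=
          sum_le_sum (fun x hx => hterm _ _ (hAT x hx))
      _ = A.card * m ^ T := by rw [sum_const, smul_eq_mul]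
      _ ≤ R * m ^ T := Nat.mul_le_mul_right _ hA
      _ < g := hg
  have hb2 : ∑ x ∈ C, d ^ (α' x) * m ^ (β' x) < g := by
    calc ∑ x ∈ C, d ^ (α' x) * m ^ (β' x) ≤ ∑ x ∈ C, m ^ T :=
          sum_le_sum (fun x hx => hterm _ _ (hCT x hx))
      _ = C.card * m ^ T := by rw [sum_const, smul_eq_mul]
      _ ≤ R * m ^ T := Nat.mul_le_mul_right _ hC
      _ < g := hg
  rw [ZMod.natCast_eq_natCast_iff'] at h1
  rw [Nat.mod_eq_of_lt hb1, Nat.mod_eq_of_lt hb2] at h1
  exact h1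

/-- sums over windows of periodic functions -/
lemma sum_window {M : Type} [AddCommGroup M] (f : ℤ → M) (L : ℕ) (hf : ∀ x, f (x + L) = f x)
    (o : ℤ) : ∑ j ∈ Ico o (o + L), f j = ∑ j ∈ Ico (0 : ℤ) L, f j := by
  have step : ∀ o : ℤ, ∑ j ∈ Ico (o + 1) (o + 1 + L), f j = ∑ j ∈ Ico o (o + L), f j := by
    intro o
    have h1 : ∑ j ∈ Ico o (o + L + 1), f j = ∑ j ∈ Ico o (o + L), f j + f (o + L) := by
      rw [← Finset.insert_Ico_right_eq_Ico_add_one (by omega), sum_insert (by simp)]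
      rw [add_comm]
    have h2 : ∑ j ∈ Ico o (o + L + 1), f j = f o + ∑ j ∈ Ico (o + 1) (o + L + 1), f j := by
      rw [← Finset.insert_Ico_add_one_left_eq_Ico (by omega), sum_insert (by simp)]
    rw [show o + 1 + (L : ℤ) = o + L + 1 by ring]
    rw [hf] at h1
    have h3 := h1.symm.trans h2
    rw [add_comm] at h3
    exact (add_left_cancel h3).symm
  induction o using Int.induction_on with
  | zero => simp
  | succ i ih => rw [step, ih]
  | pred i ih =>
    have := step (-(i : ℤ) - 1)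
    rw [show (-(i : ℤ) - 1 + 1) = -(i : ℤ) by ring] at this
    rw [← this, ih]

/-- a gap in a periodic set -/
lemma exists_cut (L G r : ℕ) (hG : G * (r + 1) ≤ L) (P : ℤ → Prop) [DecidablePred P]
    (hc : ((Ico (0 : ℤ) L).filter P).card ≤ r) :
    ∃ o : ℤ, ∀ j, o ≤ j → j < o + G → ¬ P j := by
  by_contra hcon
  push Not at hcon
  have h1 : ∀ i : ℕ, ∃ j : ℤ, (i : ℤ) * G ≤ j ∧ j < i * G + G ∧ P j := fun i => by
    obtain ⟨j, h1, h2, h3⟩ := hcon ((i : ℤ) * G)
    exact ⟨j, h1, h2, h3⟩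
  choose j hj1 hj2 hj3 using h1
  have h2 : (range (r + 1)).card ≤ ((Ico (0 : ℤ) L).filter P).card := by
    apply card_le_card_of_injOn j
    · intro i hi
      rw [mem_coe, mem_range] at hi
      rw [mem_coe, mem_filter, mem_Ico]
      have e1 := hj1 i
      have e2 := hj2 i
      have e3 : ((i : ℤ) + 1) * G ≤ L := by
        have : (i + 1) * G ≤ L := by
          calc (i + 1) * G ≤ (r + 1) * G := Nat.mul_le_mul_right _ (by omega)
            _ = G * (r + 1) := by ring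
            _ ≤ L := hG
        exact_mod_cast this
      have e4 : (0 : ℤ) ≤ (i : ℤ) * G := by positivity
      refine ⟨⟨by linarith, by linarith⟩, hj3 i⟩
    · intro a _ b _ hab
      have a1 := hj1 a
      have a2 := hj2 a
      have b1 := hj1 b
      have b2 := hj2 b
      rw [hab] at a1 a2
      have hG0 : (0 : ℤ) < G := by
        by_contra h
        have : (G : ℤ) = 0 := by omega
        rw [this] at a1 a2
        omega
      have c1 : (a : ℤ) < b + 1 := by
        have : (a : ℤ) * G < (b + 1) * G := by linarith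
        exact lt_of_mul_lt_mul_right this hG0.le
      have c2 : (b : ℤ) < a + 1 := by
        have : (b : ℤ) * G < (a + 1) * G := by linarith
        exact lt_of_mul_lt_mul_right this hG0.le
      omega
  rw [card_range] at h2
  omega

end GC70
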