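import Mathlib
import Pool.Agent.Helper70.GC.Key

/-!
# Proportional words for a modulus close to `d ^ L - m ^ s`: the aligned case
-/

set_option autoImplicit false

namespace GC70

open Finset

variable {B : Type} [DecidableEq B]

/-- `p` is the only occurrence of the letter `i` (up to the period) -/
def Sing (w : ℤ → Option B) (L : ℕ) (p : ℤ) (i : B) : Prop :=
  w p = some i ∧ ∀ j, w j = some i → (L : ℤ) ∣ j - p

/-- counting function of the non-zero letters -/
def IsZ (w : ℤ → Option B) (z : ℤ → ℤ) : Prop :=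
  ∀ j, z (j + 1) = z j + if (w j).isSome then 1 else 0

/-- typical words -/
structure Typ (w : ℤ → Option B) (L R W : ℕ) : Prop where
  per : Per w L
  t1 : ∀ i, ((Ico (0 : ℤ) L).filter (fun j => w j = some i)).card ≤ R
  t2l : ∀ t, w t = none → ∃ p i, t - W ≤ p ∧ p < t ∧ Sing w L p i
  t2r : ∀ t, w t = none → ∃ p1 p2 p3 i1 i2 i3, t < p1 ∧ p1 < p2 ∧ p2 < p3 ∧ p3 ≤ t + W ∧
    Sing w L p1 i1 ∧ Sing w L p2 i2 ∧ Sing w L p3 i3
  t3 : ∀ t t', w t = none → w t' = none → t < t' → t + 5 * W < t'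
  t4 : ∀ x1 x2 x3 y1 y2 y3 i1 i2 i3, i1 ≠ i2 → i1 ≠ i3 → i2 ≠ i3 →
    w x1 = some i1 → w y1 = some i1 → w x2 = some i2 → w y2 = some i2 →
    w x3 = some i3 → w y3 = some i3 →
    x1 < y1 → y1 < x1 + L → x2 < y2 → y2 < x2 + L → x3 < y3 → y3 < x3 + L →
    1 ≤ x2 - x1 → x2 - x1 ≤ W → 1 ≤ x3 - x2 → x3 - x2 ≤ W →
    |(y2 - y1) - (x2 - x1)| ≤ 1 → |(y3 - y2) - (x3 - x2)| ≤ 1 → False
  t5 : ∀ t1 t2 j1 j2 i, w t1 = none → w t2 = none → ¬ ((L : ℤ) ∣ t1 - t2) →
    |j1 - t1| ≤ 2 * W → |j2 - t2| ≤ 2 * W → w j1 = some i → w j2 = some i → False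

omit [DecidableEq B] in
lemma IsZ.bounds {w : ℤ → Option B} {z : ℤ → ℤ} (h : IsZ w z) (x : ℤ) (k : ℕ) :
    z x ≤ z (x + k) ∧ z (x + k) ≤ z x + k := by
  induction k with
  | zero => simp
  | succ k ih =>
    have h1 := h (x + k)
    rw [show x + ((k + 1 : ℕ) : ℤ) = x + k + 1 by push_cast; ring, h1]
    push_cast
    split_ifs <;> omega

omit [DecidableEq B] in
lemma IsZ.mono {w : ℤ → Option B} {z : ℤ → ℤ} (h : IsZ w z) {x y : ℤ} (hxy : x ≤ y) :
    z x ≤ z y := by
  have := (h.bounds x (y - x).toNat).1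
  rwa [Int.toNat_of_nonneg (by omega), show x + (y - x) = y by ring] at this

omit [DecidableEq B] in
lemma IsZ.lip {w : ℤ → Option B} {z : ℤ → ℤ} (h : IsZ w z) {x y : ℤ} (hxy : x ≤ y) :
    z y ≤ z x + (y - x) := by
  have := (h.bounds x (y - x).toNat).2
  rwa [Int.toNat_of_nonneg (by omega), show x + (y - x) = y by ring] at this

omit [DecidableEq B] in
lemma IsZ.strict {w : ℤ → Option B} {z : ℤ → ℤ} (h : IsZ w z) {x y : ℤ} (hxy : x < y)
    (hx : (w x).isSome) : z x < z y := by
  have h1 := h x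
  rw [if_pos hx] at h1
  have h2 := h.mono (show x + 1 ≤ y by omega)
  omega

omit [DecidableEq B] in
lemma IsZ.nozero {w : ℤ → Option B} {z : ℤ → ℤ} (h : IsZ w z) {x y : ℤ} (hxy : x ≤ y)
    (hx : ∀ j, x ≤ j → j < y → (w j).isSome) : z y = z x + (y - x) := by
  have key : ∀ k : ℕ, x + k ≤ y → z (x + k) = z x + k := by
    intro k
    induction k with
    | zero => simp
    | succ k ih =>
      intro hk
      push_cast at hk
      have h1 := h (x + k)
      rw [if_pos (hx _ (by omega) (by omega)), ih (by omega)] at h1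
      rw [show x + ((k + 1 : ℕ) : ℤ) = x + k + 1 by push_cast; ring, h1]
      push_cast
      ring
  have := key (y - x).toNat (by rw [Int.toNat_of_nonneg (by omega)]; omega)
  rwa [Int.toNat_of_nonneg (by omega), show x + (y - x) = y by ring] at this

omit [DecidableEq B] in
lemma IsZ.onezero {w : ℤ → Option B} {z : ℤ → ℤ} (h : IsZ w z) {x y t : ℤ} (hxt : x ≤ t)
    (hty : t < y) (ht : w t = none)
    (hx : ∀ j, x ≤ j → j < y → j ≠ t → (w j).isSome) : z y = z x + (y - x) - 1 := by
  have h1 := h.nozero hxt (fun j hj hj' => hx j hj (by omega) (by omega))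
  have h2 := h.nozero (show t + 1 ≤ y by omega) (fun j hj hj' => hx j (by omega) hj' (by omega))
  have h3 := h t
  rw [ht] at h3
  simp at h3
  omega

omit [DecidableEq B] in
lemma IsZ.near {w : ℤ → Option B} {z : ℤ → ℤ} (h : IsZ w z) (W : ℕ)
    (t3 : ∀ t t', w t = none → w t' = none → t < t' → t + 5 * W < t')
    {x y : ℤ} (hxy : x ≤ y) (hy : y ≤ x + 5 * W) : z x + (y - x) - 1 ≤ z y := by
  by_cases hz : ∀ j, x ≤ j → j < y → (w j).isSome
  · have := h.nozero hxy hz
    omega
  · push Not at hz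
    obtain ⟨t, ht1, ht2, ht3⟩ := hz
    have ht : w t = none := by simpa using ht3
    have := h.onezero ht1 ht2 ht (fun j hj hj' hne => by
      by_contra hcon
      have hj0 : w j = none := by simpa using hcon
      rcases lt_or_gt_of_ne hne with h1 | h1
      · have := t3 j t hj0 ht h1
        omega
      · have := t3 t j ht hj0 h1
        omega)
    omega

/-- the weight of a position in `ZMod g` -/
def cz {g : ℕ} (δ μ : (ZMod g)ˣ) (z : ℤ → ℤ) (j : ℤ) : ZMod g :=
  ((δ ^ j * μ ^ (-(z j)) : (ZMod g)ˣ) : ZMod g)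

lemma cz_nat {g : ℕ} (d m : ℕ) (δ μ : (ZMod g)ˣ) (hδ : (δ : ZMod g) = d) (hμ : (μ : ZMod g) = m)
    (z : ℤ → ℤ) (j o Z : ℤ) (hj : o ≤ j) (hZ : z j ≤ Z) :
    (d : ZMod g) ^ ((j - o).toNat) * (m : ZMod g) ^ ((Z - z j).toNat)
      = ((δ ^ (-o) * μ ^ Z : (ZMod g)ˣ) : ZMod g) * cz δ μ z j := by
  unfold cz
  rw [← hδ, ← hμ, ← Units.val_pow_eq_pow_val, ← Units.val_pow_eq_pow_val, ← Units.val_mul,
    ← Units.val_mul, ← zpow_natCast, ← zpow_natCast, Int.toNat_of_nonneg (by omega),
    Int.toNat_of_nonneg (by omega)]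
  congr 1
  rw [zpow_sub, zpow_sub, zpow_neg, zpow_neg]
  have : ∀ a b c e : (ZMod g)ˣ, a * b⁻¹ * (c * e⁻¹) = b⁻¹ * c * (a * e⁻¹) := by
    intro a b c e
    simp only [mul_assoc, mul_left_comm, mul_comm]
  exact this _ _ _ _

/-- data of two aligned words -/
structure Al (w w' : ℤ → Option B) (z z' : ℤ → ℤ) (L s E g : ℕ) (δ μ : (ZMod g)ˣ) : Prop where
  hz : IsZ w z
  hz' : IsZ w' z'
  pz : ∀ j, z (j + L) = z j + s
  pz' : ∀ j, z' (j + L) = z' j + s
  close : ∀ j, |z j - z' j| ≤ E
  rel : ∀ i, ∑ j ∈ (Ico (0 : ℤ) L).filter (fun j => w j = some i), cz δ μ z j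
    = ∑ j ∈ (Ico (0 : ℤ) L).filter (fun j => w' j = some i), cz δ μ z' j

lemma Al.symm {w w' : ℤ → Option B} {z z' : ℤ → ℤ} {L s E g : ℕ} {δ μ : (ZMod g)ˣ}
    (h : Al w w' z z' L s E g δ μ) : Al w' w z' z L s E g δ μ :=
  ⟨h.hz', h.hz, h.pz', h.pz, fun j => by rw [abs_sub_comm]; exact h.close j, fun i => (h.rel i).symm⟩

lemma cz_per {g : ℕ} (δ μ : (ZMod g)ˣ) (z : ℤ → ℤ) (L s : ℕ) (hδμ : δ ^ L = μ ^ s)
    (pz : ∀ j, z (j + L) = z j + s) (j : ℤ) : cz δ μ z (j + L) = cz δ μ z j := by
  unfold cz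
  congr 1
  rw [pz, zpow_add, neg_add, zpow_add, zpow_natCast, hδμ, zpow_neg μ (s : ℤ), zpow_natCast]
  have : ∀ a b c : (ZMod g)ˣ, a * b * (c * b⁻¹) = a * c := by
    intro a b c
    rw [mul_assoc, mul_comm b, mul_assoc, inv_mul_cancel, mul_one]
  exact this _ _ _

lemma sum_cz_window {g : ℕ} (δ μ : (ZMod g)ˣ) (w : ℤ → Option B) (z : ℤ → ℤ) (L s : ℕ)
    (hper : Per w L) (hδμ : δ ^ L = μ ^ s) (pz : ∀ j, z (j + L) = z j + s) (i : B) (o : ℤ) :
    ∑ j ∈ (Ico o (o + L)).filter (fun j => w j = some i), cz δ μ z j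
      = ∑ j ∈ (Ico (0 : ℤ) L).filter (fun j => w j = some i), cz δ μ z j := by
  rw [sum_filter, sum_filter]
  apply sum_window (fun j => if w j = some i then cz δ μ z j else 0)
  intro x
  rw [hper x, cz_per δ μ z L s hδμ pz]

lemma card_window (w : ℤ → Option B) (L : ℕ) (hper : Per w L) (i : B) (o : ℤ) :
    ((Ico o (o + L)).filter (fun j => w j = some i)).card
      = ((Ico (0 : ℤ) L).filter (fun j => w j = some i)).card := by
  have h1 := sum_window (fun j => if w j = some i then (1 : ℤ) else 0) L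
    (fun x => by rw [hper x]) o
  rw [← sum_filter, ← sum_filter, sum_const, sum_const] at h1
  simpa using h1

section aligned

variable {d m g L s E R W G : ℕ} {δ μ : (ZMod g)ˣ} {w w' : ℤ → Option B} {z z' : ℤ → ℤ}

/-- general hypotheses -/
structure Hyp (d m g L s E R W G : ℕ) (δ μ : (ZMod g)ˣ) : Prop where
  hd : 2 ≤ d
  hdm : d ≤ m
  hc : Nat.Coprime m d
  hδ : (δ : ZMod g) = d
  hμ : (μ : ZMod g) = m
  hδμ : δ ^ L = μ ^ s
  hG : G * (3 * R + 1) ≤ L
  hW1 : 1 ≤ W
  hWG : W ≤ G
  hsize : R * m ^ (L - G + 2 * E + 2 * W) < g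

lemma Hyp.GL (H : Hyp d m g L s E R W G δ μ) : G ≤ L := by
  have := H.hG
  nlinarith [Nat.zero_le (G * R)]

lemma int_id (H : Hyp d m g L s E R W G δ μ) (al : Al w w' z z' L s E g δ μ)
    (T : Typ w L R W) (T' : Typ w' L R W) (i : B) (o : ℤ)
    (ho : ∀ j, o ≤ j → j < o + G → ¬ (w j = some i ∨ w' j = some i)) :
    ∑ j ∈ (Ico (o + G) (o + L)).filter (fun j => w j = some i),
        d ^ ((j - (o + G)).toNat) * m ^ ((z (o + L) + E - z j).toNat)
      = ∑ j ∈ (Ico (o + G) (o + L)).filter (fun j => w' j = some i),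
        d ^ ((j - (o + G)).toNat) * m ^ ((z (o + L) + E - z' j).toNat) := by
  have hGL := H.GL
  have hf : (Ico o (o + L)).filter (fun j => w j = some i)
      = (Ico (o + G) (o + L)).filter (fun j => w j = some i) := by
    ext j
    simp only [mem_filter, mem_Ico]
    constructor
    · rintro ⟨⟨h1, h2⟩, h3⟩
      refine ⟨⟨?_, h2⟩, h3⟩
      by_contra h
      exact ho j h1 (by omega) (Or.inl h3)
    · rintro ⟨⟨h1, h2⟩, h3⟩
      exact ⟨⟨by omega, h2⟩, h3⟩
  have hf' : (Ico o (o + L)).filter (fun j => w' j = some i)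
      = (Ico (o + G) (o + L)).filter (fun j => w' j = some i) := by
    ext j
    simp only [mem_filter, mem_Ico]
    constructor
    · rintro ⟨⟨h1, h2⟩, h3⟩
      refine ⟨⟨?_, h2⟩, h3⟩
      by_contra h
      exact ho j h1 (by omega) (Or.inr h3)
    · rintro ⟨⟨h1, h2⟩, h3⟩
      exact ⟨⟨by omega, h2⟩, h3⟩
  have hrel : ∑ j ∈ (Ico (o + G) (o + L)).filter (fun j => w j = some i), cz δ μ z j
      = ∑ j ∈ (Ico (o + G) (o + L)).filter (fun j => w' j = some i), cz δ μ z' j := by
    rw [← hf, ← hf', sum_cz_window δ μ w z L s T.per H.hδμ al.pz,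
      sum_cz_window δ μ w' z' L s T'.per H.hδμ al.pz']
    exact al.rel i
  have hcl := al.close (o + L)
  rw [abs_le] at hcl
  have b1 : ∀ j ∈ (Ico (o + G) (o + L)).filter (fun j => w j = some i),
      o + G ≤ j ∧ z j ≤ z (o + L) + E ∧ z (o + L) - z j ≤ o + L - j := by
    intro j hj
    rw [mem_filter, mem_Ico] at hj
    have h1 := al.hz.mono (show j ≤ o + L by omega)
    have h2 := al.hz.lip (show j ≤ o + L by omega)
    refine ⟨hj.1.1, by omega, by omega⟩
  have b2 : ∀ j ∈ (Ico (o + G) (o + L)).filter (fun j => w' j = some i),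
      o + G ≤ j ∧ z' j ≤ z (o + L) + E ∧ z (o + L) - z' j ≤ o + L - j + E := by
    intro j hj
    rw [mem_filter, mem_Ico] at hj
    have h1 := al.hz'.mono (show j ≤ o + L by omega)
    have h2 := al.hz'.lip (show j ≤ o + L by omega)
    refine ⟨hj.1.1, by omega, by omega⟩
  apply to_nat_eq d m g R (L - G + 2 * E) H.hdm (by have := H.hd; have := H.hdm; omega)
  · rw [← hf, card_window w L T.per]
    exact T.t1 i
  · rw [← hf', card_window w' L T'.per]
    exact T'.t1 i
  · intro j hj
    have hj2 := (mem_Ico.mp (mem_filter.mp hj).1).2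
    have := b1 j hj
    omega
  · intro j hj
    have hj2 := (mem_Ico.mp (mem_filter.mp hj).1).2
    have := b2 j hj
    omega
  · refine lt_of_le_of_lt ?_ H.hsize
    apply Nat.mul_le_mul_left
    apply Nat.pow_le_pow_right (by have := H.hd; have := H.hdm; omega)
    omega
  · have e1 : ∑ j ∈ (Ico (o + G) (o + L)).filter (fun j => w j = some i),
        (d : ZMod g) ^ ((j - (o + G)).toNat) * (m : ZMod g) ^ ((z (o + L) + E - z j).toNat)
        = ((δ ^ (-(o + (G : ℤ))) * μ ^ (z (o + L) + E) : (ZMod g)ˣ) : ZMod g)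
          * ∑ j ∈ (Ico (o + G) (o + L)).filter (fun j => w j = some i), cz δ μ z j := by
      rw [mul_sum]
      apply sum_congr rfl
      intro j hj
      have := b1 j hj
      exact cz_nat d m δ μ H.hδ H.hμ z j (o + G) (z (o + L) + E) this.1 this.2.1
    have e2 : ∑ j ∈ (Ico (o + G) (o + L)).filter (fun j => w' j = some i),
        (d : ZMod g) ^ ((j - (o + G)).toNat) * (m : ZMod g) ^ ((z (o + L) + E - z' j).toNat)
        = ((δ ^ (-(o + (G : ℤ))) * μ ^ (z (o + L) + E) : (ZMod g)ˣ) : ZMod g)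
          * ∑ j ∈ (Ico (o + G) (o + L)).filter (fun j => w' j = some i), cz δ μ z' j := by
      rw [mul_sum]
      apply sum_congr rfl
      intro j hj
      have := b2 j hj
      exact cz_nat d m δ μ H.hδ H.hμ z' j (o + G) (z (o + L) + E) this.1 this.2.1
    rw [e1, e2, hrel]

omit [DecidableEq B] in
/-- the representative of `p` in a window -/
lemma rep (L : ℕ) (hL : 0 < L) (o p : ℤ) : ∃ k : ℤ, o ≤ p + k * L ∧ p + k * L < o + L := by
  refine ⟨-((p - o) / L), ?_, ?_⟩
  · have h1 := Int.emod_nonneg (p - o) (show (L : ℤ) ≠ 0 by positivity)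
    have h2 := Int.emod_add_mul_ediv (p - o) L
    nlinarith
  · have h1 := Int.emod_lt_of_pos (p - o) (show (0 : ℤ) < L by positivity)
    have h2 := Int.emod_add_mul_ediv (p - o) L
    nlinarith

omit [DecidableEq B] in
lemma zper_mul {z : ℤ → ℤ} {L s : ℕ} (pz : ∀ j, z (j + L) = z j + s) (k j : ℤ) :
    z (j + k * L) = z j + k * s := by
  have nat : ∀ (k : ℕ) (j : ℤ), z (j + k * L) = z j + k * s := by
    intro k
    induction k with
    | zero => simp
    | succ k ih =>
      intro j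
      rw [show j + ((k + 1 : ℕ) : ℤ) * L = (j + k * L) + L by push_cast; ring, pz, ih]
      push_cast
      ring
  obtain ⟨n, rfl | rfl⟩ := k.eq_nat_or_neg
  · exact nat n j
  · have := nat n (j + -(n : ℤ) * L)
    rw [show j + -(n : ℤ) * L + n * L = j by ring] at this
    linarith

lemma cut2 (H : Hyp d m g L s E R W G δ μ) (T : Typ w L R W) (T' : Typ w' L R W) (i : B) :
    ∃ o : ℤ, ∀ j, o ≤ j → j < o + G → ¬ (w j = some i ∨ w' j = some i) := by
  apply exists_cut L G (2 * R)
  · have := H.hG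
    nlinarith [Nat.zero_le (G * R)]
  · rw [filter_or]
    refine (card_union_le _ _).trans ?_
    have := T.t1 i
    have := T'.t1 i
    omega

lemma A1 (H : Hyp d m g L s E R W G δ μ) (al : Al w w' z z' L s E g δ μ)
    (T : Typ w L R W) (T' : Typ w' L R W) (p : ℤ) (i : B) (hp : Sing w L p i) :
    Sing w' L p i ∧ z' p = z p := by
  have hL : 0 < L := by
    have := H.GL
    have := H.hW1
    have := H.hWG
    omega
  have hd := H.hd
  have hdm := H.hdm
  obtain ⟨o, ho⟩ := cut2 H T T' i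
  obtain ⟨k, hk1, hk2⟩ := rep L hL o p
  set p1 := p + k * L with hp1
  have hwp1 : w p1 = some i := by rw [hp1, T.per.zmul]; exact hp.1
  have hp1o : o + G ≤ p1 := by
    by_contra h
    exact ho p1 hk1 (by omega) (Or.inl hwp1)
  have hid := int_id H al T T' i o ho
  set Z := z (o + L) + E with hZ
  set A := (Ico (o + G) (o + L)).filter (fun j => w j = some i) with hA
  set C := (Ico (o + G) (o + L)).filter (fun j => w' j = some i) with hC
  have hAeq : A = {p1} := by
    ext j
    rw [hA, mem_filter, mem_Ico, mem_singleton]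
    constructor
    · rintro ⟨⟨h1, h2⟩, h3⟩
      obtain ⟨c, hc⟩ := hp.2 j h3
      have h4 : j - p1 = L * (c - k) := by rw [hp1]; linarith
      have h5 : |j - p1| < L := by
        rw [abs_lt]
        constructor <;> omega
      have h6 : j - p1 = 0 := Int.eq_zero_of_abs_lt_dvd ⟨c - k, h4⟩ h5
      omega
    · rintro rfl
      exact ⟨⟨hp1o, hk2⟩, hwp1⟩
  have hAmem : ∀ j ∈ A, j = p1 := by
    intro j hj
    rw [hAeq, mem_singleton] at hj
    exact hj
  have hCmem : ∀ j ∈ C, o + G ≤ j ∧ j < o + L ∧ w' j = some i := by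
    intro j hj
    rw [hC, mem_filter, mem_Ico] at hj
    exact ⟨hj.1.1, hj.1.2, hj.2⟩
  have hcl := al.close (o + L)
  rw [abs_le] at hcl
  have hZ1 : z p1 ≤ Z := by
    have := al.hz.mono (show p1 ≤ o + L by omega)
    omega
  have hZ2 : ∀ j ∈ C, z' j ≤ Z := by
    intro j hj
    have := al.hz'.mono (show j ≤ o + L by have := hCmem j hj; omega)
    omega
  have hAsum : ∑ j ∈ A, d ^ ((j - (o + G)).toNat) * m ^ ((Z - z j).toNat)
      = d ^ ((p1 - (o + G)).toNat) * m ^ ((Z - z p1).toNat) := by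
    rw [hAeq, sum_singleton]
  have hCne : C.Nonempty := by
    by_contra h
    rw [not_nonempty_iff_eq_empty] at h
    rw [h, sum_empty, hAsum] at hid
    have : 0 < d ^ ((p1 - (o + G)).toNat) * m ^ ((Z - z p1).toNat) := by
      have : 0 < d := by omega
      have : 0 < m := by omega
      positivity
    omega
  set x := C.min' hCne with hx
  set y := C.max' hCne with hy
  have hxC : x ∈ C := min'_mem _ _
  have hyC : y ∈ C := max'_mem _ _
  have hxp : x = p1 := by
    rcases lt_trichotomy x p1 with h | h | h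
    · exfalso
      refine key d m H.hd H.hc C A (fun j => (j - (o + G)).toNat) (fun j => (Z - z' j).toNat)
        (fun j => (j - (o + G)).toNat) (fun j => (Z - z j).toNat) x hxC ?_ ?_ hid.symm
      · intro t ht hne
        have h1 := min'_le C t ht
        have h2 := hCmem t ht
        have h3 := hCmem x hxC
        rw [← hx] at h1
        omega
      · intro t ht
        rw [hAmem t ht]
        have h3 := hCmem x hxC
        omega
    · exact h
    · exfalso
      refine key d m H.hd H.hc A C (fun j => (j - (o + G)).toNat) (fun j => (Z - z j).toNat)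
        (fun j => (j - (o + G)).toNat) (fun j => (Z - z' j).toNat) p1 (by rw [hAeq]; simp) ?_ ?_ hid
      · intro t ht hne
        exact absurd (hAmem t ht) hne
      · intro t ht
        have h1 := min'_le C t ht
        rw [← hx] at h1
        omega
  have hz'ge : z p1 ≤ z' p1 := by
    by_contra h
    push Not at h
    have h1 : d ^ ((p1 - (o + G)).toNat) * m ^ ((Z - z' p1).toNat)
        ≤ ∑ j ∈ C, d ^ ((j - (o + G)).toNat) * m ^ ((Z - z' j).toNat) := by
      apply single_le_sum (f := fun j => d ^ ((j - (o + G)).toNat) * m ^ ((Z - z' j).toNat))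
      · intro j _
        exact Nat.zero_le _
      · rw [← hxp]
        exact hxC
    rw [← hid, hAsum] at h1
    have h2 : m ^ ((Z - z p1).toNat) < m ^ ((Z - z' p1).toNat) := by
      apply Nat.pow_lt_pow_right (by omega)
      omega
    have h3 : d ^ ((p1 - (o + G)).toNat) * m ^ ((Z - z p1).toNat)
        < d ^ ((p1 - (o + G)).toNat) * m ^ ((Z - z' p1).toNat) := by
      apply Nat.mul_lt_mul_of_pos_left h2
      have : 0 < d := by omega
      positivity
    omega
  have hcomm1 : ∑ j ∈ A, m ^ ((Z - z j).toNat) * d ^ ((j - (o + G)).toNat)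
      = ∑ j ∈ C, m ^ ((Z - z' j).toNat) * d ^ ((j - (o + G)).toNat) := by
    simp_rw [mul_comm (m ^ _) (d ^ _)]
    exact hid
  have hyz : z' y = z p1 := by
    rcases lt_trichotomy (z' y) (z p1) with h | h | h
    · exfalso
      -- all elements of `C` have larger `m`-exponents
      refine key m d (by omega) H.hc.symm A C (fun j => (Z - z j).toNat)
        (fun j => (j - (o + G)).toNat) (fun j => (Z - z' j).toNat) (fun j => (j - (o + G)).toNat)
        p1 (by rw [hAeq]; simp) ?_ ?_ hcomm1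
      · intro t ht hne
        exact absurd (hAmem t ht) hne
      · intro t ht
        have h1 := le_max' C t ht
        rw [← hy] at h1
        have h2 := al.hz'.mono h1
        omega
    · exact h
    · exfalso
      refine key m d (by omega) H.hc.symm C A (fun j => (Z - z' j).toNat)
        (fun j => (j - (o + G)).toNat) (fun j => (Z - z j).toNat) (fun j => (j - (o + G)).toNat)
        y hyC ?_ ?_ hcomm1.symm
      · intro t ht hne
        have h1 := le_max' C t ht
        rw [← hy] at h1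
        have h2 := al.hz'.strict (show t < y by omega) (by rw [(hCmem t ht).2.2]; rfl)
        have h3 := hZ2 y hyC
        omega
      · intro t ht
        rw [hAmem t ht]
        have h3 := hZ2 y hyC
        omega
  have hp1y : p1 ≤ y := by
    have := min'_le C y hyC
    rw [← hx, hxp] at this
    exact this
  have hyp : y = p1 := by
    by_contra hne
    have h1 := al.hz'.strict (show p1 < y by omega) (by
      rw [← hxp, (hCmem x hxC).2.2]; rfl)
    omega
  have hzp1 : z' p1 = z p1 := by rw [← hyz, hyp]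
  refine ⟨⟨?_, ?_⟩, ?_⟩
  · have := (hCmem x hxC).2.2
    rw [hxp, hp1, T'.per.zmul] at this
    exact this
  · intro j hj
    obtain ⟨k', hk1', hk2'⟩ := rep L hL o j
    have hwj : w' (j + k' * L) = some i := by rw [T'.per.zmul]; exact hj
    have hjo : o + G ≤ j + k' * L := by
      by_contra h
      exact ho _ hk1' (by omega) (Or.inr hwj)
    have hjC : j + k' * L ∈ C := by
      rw [hC, mem_filter, mem_Ico]
      exact ⟨⟨hjo, hk2'⟩, hwj⟩
    have h1 := min'_le C _ hjC
    have h2 := le_max' C _ hjC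
    rw [← hx, hxp] at h1
    rw [← hy, hyp] at h2
    refine ⟨k - k', ?_⟩
    have : j + k' * L = p1 := by omega
    rw [hp1] at this
    linarith
  · rw [hp1, zper_mul al.pz, zper_mul al.pz'] at hzp1
    linarith

end aligned

end GC70
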