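import Mathlib
import Pool.Agent.Helper70.GC.Near

/-!
# Proportional words for a modulus close to `d ^ L - m ^ s`: the aligned case, conclusion
-/

set_option autoImplicit false

namespace GC70

open Finset

variable {B : Type} [DecidableEq B]
variable {d m g L s E R W G : ℕ} {δ μ : (ZMod g)ˣ} {w w' : ℤ → Option B} {z z' : ℤ → ℤ}

/-- the structure of a bad position, first kind -/
def Bad (w w' : ℤ → Option B) (W : ℕ) (j t t' : ℤ) : Prop :=
  w t = none ∧ w' t' = none ∧ t < j ∧ j ≤ t' ∧ t' ≤ t + W ∧ (w' t).isSome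

lemma bad_aux (H : Hyp d m g L s E R W G δ μ) (al : Al w w' z z' L s E g δ μ)
    (T : Typ w L R W) (T' : Typ w' L R W) (t : ℤ) (n : ℕ) (hn : 0 < n)
    (hall : ∀ k : ℕ, 0 < k → k ≤ n → z (t + k) ≠ z' (t + k)) (ht : z t = z' t)
    (hwt : w t = none) (hwt' : (w' t).isSome) : ∃ t', Bad w w' W (t + n) t t' := by
  have hW1 := H.hW1
  obtain ⟨p, i, hp1, hp2, hp3⟩ := T.t2l t hwt
  obtain ⟨q, _, _, i', _, _, hq1, hq2, hq3, hq4, hqs, _, _⟩ := T.t2r t hwt
  have hpz := (A1 H al T T' p i hp3).2
  have hqz := (A1 H al T T' q i' hqs).2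
  have hwz : ∀ j, t - 2 * W ≤ j → j ≤ t + 2 * W → j ≠ t → (w j).isSome := by
    intro j h1 h2 h3
    by_contra hcon
    have hj0 : w j = none := by simpa using hcon
    rcases lt_or_gt_of_ne h3 with h4 | h4
    · have := T.t3 j t hj0 hwt h4
      omega
    · have := T.t3 t j hwt hj0 h4
      omega
  have e1 : z q = z p + (q - p) - 1 :=
    al.hz.onezero hp2.le hq1 hwt (fun j h1 h2 h3 => hwz j (by omega) (by omega) h3)
  have e2 : ∃ t', p ≤ t' ∧ t' < q ∧ w' t' = none := by
    by_contra hcon
    push Not at hcon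
    have := al.hz'.nozero (show p ≤ q by omega) (fun j h1 h2 => by
      have := hcon j h1 h2
      exact Option.isSome_iff_ne_none.mpr this)
    omega
  obtain ⟨t', ht'1, ht'2, ht'3⟩ := e2
  have hwz' : ∀ j, t' - 2 * W ≤ j → j ≤ t' + 2 * W → j ≠ t' → (w' j).isSome := by
    intro j h1 h2 h3
    by_contra hcon
    have hj0 : w' j = none := by simpa using hcon
    rcases lt_or_gt_of_ne h3 with h4 | h4
    · have := T'.t3 j t' hj0 ht'3 h4
      omega
    · have := T'.t3 t' j ht'3 hj0 h4
      omega
  have hne : t' ≠ t := by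
    rintro rfl
    rw [ht'3] at hwt'
    simp at hwt'
  have htt' : t < t' := by
    by_contra h
    have h1 : t' < t := by omega
    have h2 : z' t = z' p + (t - p) - 1 :=
      al.hz'.onezero ht'1 h1 ht'3 (fun j h1 h2 h3 => hwz' j (by omega) (by omega) h3)
    have h3 : z t = z p + (t - p) :=
      al.hz.nozero hp2.le (fun j h1 h2 => hwz j (by omega) (by omega) (by omega))
    omega
  have hnq : t + n < q := by
    by_contra h
    have h1 := hall (q - t).toNat (by omega) (by omega)
    rw [Int.toNat_of_nonneg (by omega), show t + (q - t) = q by ring] at h1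
    exact h1 hqz.symm
  have hnt' : t + n ≤ t' := by
    by_contra h
    have h1 := hall n hn le_rfl
    apply h1
    have h2 : z q = z (t + n) + (q - (t + n)) :=
      al.hz.nozero hnq.le (fun j h1 h2 => hwz j (by omega) (by omega) (by omega))
    have h3 : z' q = z' (t + n) + (q - (t + n)) :=
      al.hz'.nozero hnq.le (fun j h1 h2 => hwz' j (by omega) (by omega) (by omega))
    omega
  exact ⟨t', hwt, ht'3, by omega, hnt', by omega, hwt'⟩

lemma A2a (H : Hyp d m g L s E R W G δ μ) (al : Al w w' z z' L s E g δ μ)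
    (T : Typ w L R W) (T' : Typ w' L R W) (h0 : ∃ p0, z p0 = z' p0) (j : ℤ) (hj : z j ≠ z' j) :
    (∃ t t', Bad w w' W j t t') ∨ (∃ t' t, Bad w' w W j t' t) := by
  classical
  have hL : 0 < L := by
    have := H.GL
    have := H.hW1
    have := H.hWG
    omega
  have hex : ∃ n : ℕ, z (j - n) = z' (j - n) := by
    obtain ⟨p0, hp0⟩ := h0
    obtain ⟨k, hk1, hk2⟩ := rep L hL (j - L) p0
    refine ⟨(j - (p0 + k * L)).toNat, ?_⟩
    rw [Int.toNat_of_nonneg (by omega), show j - (j - (p0 + k * L)) = p0 + k * L by ring,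
      zper_mul al.pz, zper_mul al.pz', hp0]
  set n := Nat.find hex with hn
  have hn1 : z (j - n) = z' (j - n) := Nat.find_spec hex
  have hnpos : 0 < n := by
    rw [Nat.pos_iff_ne_zero]
    intro h
    rw [h] at hn1
    simp at hn1
    exact hj hn1
  have hmin : ∀ k : ℕ, k < n → z (j - k) ≠ z' (j - k) := fun k hk => Nat.find_min hex hk
  have hall : ∀ k : ℕ, 0 < k → k ≤ n → z ((j - n) + k) ≠ z' ((j - n) + k) := by
    intro k hk hkn
    have := hmin (n - k) (by omega)
    rw [show j - ((n - k : ℕ) : ℤ) = j - n + k by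
      rw [Nat.cast_sub hkn]; ring] at this
    exact this
  have h1 := hall 1 (by omega) (by omega)
  have e1 := al.hz (j - n)
  have e2 := al.hz' (j - n)
  have ejn : j - (n : ℤ) + n = j := by ring
  push_cast at h1
  by_cases hw : (w (j - n)).isSome <;> by_cases hw' : (w' (j - n)).isSome
  · exfalso
    rw [if_pos hw] at e1
    rw [if_pos hw'] at e2
    omega
  · right
    have hw0 : w' (j - n) = none := by simpa using hw'
    obtain ⟨t, ht⟩ := bad_aux H al.symm T' T (j - n) n hnpos
      (fun k h h' => (hall k h h').symm) hn1.symm hw0 hw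
    rw [ejn] at ht
    exact ⟨_, t, ht⟩
  · left
    have hw0 : w (j - n) = none := by simpa using hw
    obtain ⟨t, ht⟩ := bad_aux H al T T' (j - n) n hnpos hall hn1 hw0 hw'
    rw [ejn] at ht
    exact ⟨_, t, ht⟩
  · exfalso
    rw [if_neg hw] at e1
    rw [if_neg hw'] at e2
    omega

lemma A2_case (H : Hyp d m g L s E R W G δ μ) (al : Al w w' z z' L s E g δ μ)
    (T : Typ w L R W) (T' : Typ w' L R W) (h0 : ∃ p0, z p0 = z' p0) (j t t' : ℤ)
    (hb : Bad w w' W j t t') : False := by
  obtain ⟨hwt, hwt', h1, h2, h3, h4⟩ := hb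
  have hW1 := H.hW1
  have hWG := H.hWG
  have hGL := H.GL
  have hL : 0 < L := by omega
  obtain ⟨k, hk⟩ := Option.isSome_iff_exists.mp h4
  obtain ⟨o, ho⟩ := cut2 H T T' k
  obtain ⟨c, hc1, hc2⟩ := rep L hL o t
  set t1 := t + c * L with ht1
  have hwt1 : w t1 = none := by rw [ht1, T.per.zmul]; exact hwt
  have hwt1' : w' t1 = some k := by rw [ht1, T'.per.zmul]; exact hk
  have hwt1'' : w' (t' + c * L) = none := by rw [T'.per.zmul]; exact hwt'
  have ht1o : o + G ≤ t1 := by
    by_contra h
    exact ho t1 hc1 (by omega) (Or.inr hwt1')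
  have hid := int_id H al T T' k o ho
  obtain ⟨j0, hj0, hj0A, hj0C, hj0z⟩ := lowest d m H.hd H.hc _ _ (o + G)
    (fun j hj => (mem_Ico.mp (mem_filter.mp hj).1).1)
    (fun j hj => (mem_Ico.mp (mem_filter.mp hj).1).1) z z' _ hid t1 (by
      rintro ⟨h, _⟩
      have h5 : t1 ∈ (Ico (o + (G : ℤ)) (o + L)).filter (fun j => w' j = some k) := by
        rw [mem_filter, mem_Ico]
        exact ⟨⟨ht1o, hc2⟩, hwt1'⟩
      have h6 := (mem_filter.mp (h.mpr h5)).2
      rw [hwt1] at h6
      simp at h6)
  have hwj0 : w j0 = some k := (mem_filter.mp hj0A).2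
  have hwj0' : w' j0 = some k := (mem_filter.mp hj0C).2
  have hj0o : o + G ≤ j0 := (mem_Ico.mp (mem_filter.mp hj0A).1).1
  have hj0lt : j0 < t1 := by
    rcases lt_or_eq_of_le hj0 with h | h
    · exact h
    · rw [h, hwt1] at hwj0
      simp at hwj0
  have hfin : ∀ t2 t2' : ℤ, w t2 = none → w' t2' = none → |j0 - t2'| ≤ 2 * W → |t2 - t2'| ≤ W →
      ∃ e : ℤ, t2' = t' + c * L + e * L ∧ t2 = t1 + e * L := by
    intro t2 t2' g1 g2 g3 g4
    have h5 : (L : ℤ) ∣ t2' - (t' + c * L) := by
      by_contra hcon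
      exact T'.t5 t2' (t' + c * L) j0 t1 k g2 hwt1'' hcon g3
        (by rw [ht1, abs_le]; constructor <;> linarith) hwj0' hwt1'
    obtain ⟨e, he⟩ := h5
    refine ⟨e, by linarith, ?_⟩
    have h6 : w (t1 + e * L) = none := by rw [T.per.zmul]; exact hwt1
    rw [abs_le] at g4
    have he' : t2' = t' + c * L + e * L := by linarith
    rcases lt_trichotomy t2 (t1 + e * L) with h | h | h
    · have := T.t3 _ _ g1 h6 h
      rw [ht1] at this
      exfalso
      linarith
    · exact h
    · have := T.t3 _ _ h6 g1 h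
      rw [ht1] at this
      exfalso
      linarith
  rcases A2a H al T T' h0 j0 hj0z with ⟨t2, t2', hb⟩ | ⟨t2', t2, hb⟩
  · obtain ⟨g1, g2, g3, g4, g5, g6⟩ := hb
    obtain ⟨e, he1, he2⟩ := hfin t2 t2' g1 g2 (by rw [abs_le]; constructor <;> omega)
      (by rw [abs_le]; constructor <;> omega)
    have he0 : e < 0 := by
      by_contra h
      push Not at h
      have : 0 ≤ e * (L : ℤ) := by positivity
      linarith
    have he3 : e * (L : ℤ) ≤ -L := by
      have : (e + 1) * (L : ℤ) ≤ 0 := mul_nonpos_of_nonpos_of_nonneg (by omega) (by positivity)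
      linarith
    have : j0 < o + G := by
      have hWG' : (W : ℤ) ≤ G := by exact_mod_cast hWG
      linarith
    omega
  · obtain ⟨g1, g2, g3, g4, g5, g6⟩ := hb
    obtain ⟨e, he1, he2⟩ := hfin t2 t2' g2 g1 (by rw [abs_le]; constructor <;> omega)
      (by rw [abs_le]; constructor <;> omega)
    rw [ht1] at he2
    linarith

lemma A2 (H : Hyp d m g L s E R W G δ μ) (al : Al w w' z z' L s E g δ μ)
    (T : Typ w L R W) (T' : Typ w' L R W) (h0 : ∃ p0, z p0 = z' p0) (j : ℤ) : z j = z' j := by
  by_contra hj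
  rcases A2a H al T T' h0 j hj with ⟨t, t', hb⟩ | ⟨t', t, hb⟩
  · exact A2_case H al T T' h0 j t t' hb
  · obtain ⟨p0, hp0⟩ := h0
    exact A2_case H al.symm T' T ⟨p0, hp0.symm⟩ j t' t hb

lemma A3 (H : Hyp d m g L s E R W G δ μ) (al : Al w w' z z' L s E g δ μ)
    (T : Typ w L R W) (T' : Typ w' L R W) (h0 : ∃ p0, z p0 = z' p0) (j : ℤ) (i : B)
    (hj : w j = some i) : w' j = some i := by
  have hL : 0 < L := by
    have := H.GL
    have := H.hW1
    have := H.hWG
    omega
  obtain ⟨o, ho⟩ := cut2 H T T' i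
  obtain ⟨c, hc1, hc2⟩ := rep L hL o j
  have hwj : w (j + c * L) = some i := by rw [T.per.zmul]; exact hj
  have hjo : o + G ≤ j + c * L := by
    by_contra h
    exact ho _ hc1 (by omega) (Or.inl hwj)
  have hid := int_id H al T T' i o ho
  have hmem : j + c * L ∈ (Ico (o + (G : ℤ)) (o + L)).filter (fun j => w j = some i) := by
    rw [mem_filter, mem_Ico]
    exact ⟨⟨hjo, hc2⟩, hwj⟩
  by_contra hcon
  obtain ⟨j0, hj0, hj0A, hj0C, hj0z⟩ := lowest d m H.hd H.hc _ _ (o + G)
    (fun j hj => (mem_Ico.mp (mem_filter.mp hj).1).1)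
    (fun j hj => (mem_Ico.mp (mem_filter.mp hj).1).1) z z' _ hid (j + c * L) (by
      rintro ⟨h, _⟩
      have h6 := (mem_filter.mp (h.mp hmem)).2
      rw [T'.per.zmul] at h6
      exact hcon h6)
  exact hj0z (A2 H al T T' h0 j0)

theorem aligned_eq (H : Hyp d m g L s E R W G δ μ) (al : Al w w' z z' L s E g δ μ)
    (T : Typ w L R W) (T' : Typ w' L R W) (h0 : ∃ p0, z p0 = z' p0) : w = w' := by
  funext j
  rcases h : w j with _ | i
  · rcases h' : w' j with _ | i
    · rfl
    · obtain ⟨p0, hp0⟩ := h0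
      have := A3 H al.symm T' T ⟨p0, hp0.symm⟩ j i h'
      rw [h] at this
      simp at this
  · exact (A3 H al T T' h0 j i h).symm

/-- **Common single letter.** -/
theorem common_single [Fact (1 < g)] (H : Hyp d m g L s E R W G δ μ) (hz : IsZ w z)
    (hz' : IsZ w' z')
    (pz : ∀ j, z (j + L) = z j + s) (pz' : ∀ j, z' (j + L) = z' j + s)
    (T : Typ w L R W) (T' : Typ w' L R W) (l : (ZMod g)ˣ)
    (rel : ∀ i, ∑ j ∈ (Ico (0 : ℤ) L).filter (fun j => w' j = some i), cz δ μ z' j
      = l * ∑ j ∈ (Ico (0 : ℤ) L).filter (fun j => w j = some i), cz δ μ z j)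
    (hne : ∃ t, w t = none) :
    ∃ p p' i, Sing w L p i ∧ Sing w' L p' i := by
  have hW1 := H.hW1
  have hWG := H.hWG
  have hGL := H.GL
  have hL : 0 < L := by omega
  have hd := H.hd
  have hdm := H.hdm
  obtain ⟨t, ht⟩ := hne
  obtain ⟨p1, p2, p3, i1, i2, i3, hp1, hp2, hp3, hp4, s1, s2, s3⟩ := T.t2r t ht
  by_contra hcon
  push Not at hcon
  -- a common cut
  obtain ⟨o, ho⟩ : ∃ o : ℤ, ∀ j, o ≤ j → j < o + G →
      ¬ (w' j = some i1 ∨ w' j = some i2 ∨ w' j = some i3) := by
    apply exists_cut L G (3 * R) H.hG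
    rw [filter_or, filter_or]
    refine (card_union_le _ _).trans ?_
    have h1 := T'.t1 i1
    have h2 := card_union_le ((Ico (0 : ℤ) L).filter (fun j => w' j = some i2))
      ((Ico (0 : ℤ) L).filter (fun j => w' j = some i3))
    have h3 := T'.t1 i2
    have h4 := T'.t1 i3
    omega
  -- distinct letters
  have hdist : ∀ p q i, Sing w L p i → Sing w L q i → p < q → q ≤ p + W → False := by
    intro p q i h1 h2 h3 h4
    obtain ⟨c, hc⟩ := h1.2 q h2.1
    have : q - p = 0 := Int.eq_zero_of_abs_lt_dvd ⟨c, hc⟩ (by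
      rw [abs_lt]
      have := H.hG
      have h5 : G * 1 ≤ G * (3 * R + 1) := Nat.mul_le_mul_left _ (by omega)
      have h6 : W < L := by
        rcases Nat.eq_zero_or_pos R with h0 | h0
        · exfalso
          have h7 := T.t1 i
          rw [h0] at h7
          rw [← card_window w L T.per i p] at h7
          have h8 : p ∈ (Ico p (p + L)).filter (fun j => w j = some i) := by
            rw [mem_filter, mem_Ico]
            exact ⟨⟨le_rfl, by omega⟩, h1.1⟩
          have h9 := card_pos.mpr ⟨p, h8⟩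
          omega
        · have h7 : G * 4 ≤ G * (3 * R + 1) := Nat.mul_le_mul_left _ (by omega)
          omega
      constructor <;> omega)
    omega
  have h12 : i1 ≠ i2 := by
    rintro rfl
    exact hdist p1 p2 i1 s1 s2 hp2 (by omega)
  have h13 : i1 ≠ i3 := by
    rintro rfl
    exact hdist p1 p3 i1 s1 s3 (by omega) (by omega)
  have h23 : i2 ≠ i3 := by
    rintro rfl
    exact hdist p2 p3 i2 s2 s3 hp3 (by omega)
  -- the sum over the occurrences of a letter which is single in `w`
  have hsumw : ∀ p i, Sing w L p i →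
      ∑ j ∈ (Ico (0 : ℤ) L).filter (fun j => w j = some i), cz δ μ z j = cz δ μ z p := by
    intro p i hs
    rw [← sum_cz_window δ μ w z L s T.per H.hδμ pz i p]
    have : (Ico p (p + L)).filter (fun j => w j = some i) = {p} := by
      ext j
      rw [mem_filter, mem_Ico, mem_singleton]
      constructor
      · rintro ⟨⟨h1, h2⟩, h3⟩
        obtain ⟨c, hc⟩ := hs.2 j h3
        have : j - p = 0 := Int.eq_zero_of_abs_lt_dvd ⟨c, hc⟩ (by
          rw [abs_lt]
          constructor <;> omega)
        omega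
      · rintro rfl
        exact ⟨⟨le_rfl, by omega⟩, hs.1⟩
    rw [this, sum_singleton]
  set F := fun i => (Ico (o + (G : ℤ)) (o + L)).filter (fun j => w' j = some i) with hF
  have hFmem : ∀ i, ∀ j ∈ F i, o + G ≤ j ∧ j < o + L ∧ w' j = some i := by
    intro i j hj
    rw [hF, mem_filter, mem_Ico] at hj
    exact ⟨hj.1.1, hj.1.2, hj.2⟩
  have hFw : ∀ i, (i = i1 ∨ i = i2 ∨ i = i3) →
      (Ico o (o + L)).filter (fun j => w' j = some i) = F i := by
    intro i hi
    ext j
    rw [hF]
    simp only [mem_filter, mem_Ico]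
    constructor
    · rintro ⟨⟨h1, h2⟩, h3⟩
      refine ⟨⟨?_, h2⟩, h3⟩
      by_contra h
      apply ho j h1 (by omega)
      rcases hi with rfl | rfl | rfl
      · left; exact h3
      · right; left; exact h3
      · right; right; exact h3
    · rintro ⟨⟨h1, h2⟩, h3⟩
      exact ⟨⟨by omega, h2⟩, h3⟩
  have hrel : ∀ p i, Sing w L p i → (i = i1 ∨ i = i2 ∨ i = i3) →
      ∑ j ∈ F i, cz δ μ z' j = l * cz δ μ z p := by
    intro p i hs hi
    rw [← hFw i hi, sum_cz_window δ μ w' z' L s T'.per H.hδμ pz', rel i, hsumw p i hs]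
  have hcard : ∀ i, (i = i1 ∨ i = i2 ∨ i = i3) → (F i).card ≤ R := by
    intro i hi
    rw [← hFw i hi, card_window w' L T'.per]
    exact T'.t1 i
  have hFne : ∀ p i, Sing w L p i → (i = i1 ∨ i = i2 ∨ i = i3) → (F i).Nonempty := by
    intro p i hs hi
    by_contra h
    rw [not_nonempty_iff_eq_empty] at h
    have h1 := hrel p i hs hi
    rw [h, sum_empty] at h1
    have h2 : IsUnit ((l : ZMod g) * cz δ μ z p) := l.isUnit.mul (Units.isUnit _)
    exact h2.ne_zero h1.symm
  -- the step
  have hstep : ∀ p q i i' (hs : Sing w L p i) (hs' : Sing w L q i')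
      (hi : i = i1 ∨ i = i2 ∨ i = i3) (hi' : i' = i1 ∨ i' = i2 ∨ i' = i3), p < q → q ≤ p + W →
      (F i').min' (hFne q i' hs' hi') - (F i).min' (hFne p i hs hi) = q - p ∧
      |((F i').max' (hFne q i' hs' hi') - (F i).max' (hFne p i hs hi)) - (q - p)| ≤ 1 := by
    intro p q i i' hs hs' hi hi' hpq hpqW
    set x := (F i).min' (hFne p i hs hi) with hx
    set x' := (F i').min' (hFne q i' hs' hi') with hx'
    set y := (F i).max' (hFne p i hs hi) with hy
    set y' := (F i').max' (hFne q i' hs' hi') with hy'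
    have hxF : x ∈ F i := min'_mem _ _
    have hxF' : x' ∈ F i' := min'_mem _ _
    have hyF : y ∈ F i := max'_mem _ _
    have hyF' : y' ∈ F i' := max'_mem _ _
    have hzpq1 : z p < z q := hz.strict hpq (by rw [hs.1]; rfl)
    have hzpq2 : z q ≤ z p + (q - p) := hz.lip hpq.le
    have hzpq3 : z p + (q - p) - 1 ≤ z q := hz.near W T.t3 hpq.le (by omega)
    set a := q - p with ha
    set e := z q - z p with he
    set Z := z' (o + L) + W with hZ
    have bz : ∀ i, ∀ j ∈ F i, z' j ≤ z' (o + L) ∧ z' (o + L) - z' j ≤ o + L - j := by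
      intro i j hj
      have h1 := hFmem i j hj
      have h2 := hz'.mono (show j ≤ o + L by omega)
      have h3 := hz'.lip (show j ≤ o + L by omega)
      exact ⟨h2, by omega⟩
    -- the congruence
    have hcong : ((δ ^ a * μ ^ (-e) : (ZMod g)ˣ) : ZMod g) * ∑ j ∈ F i, cz δ μ z' j
        = ∑ j ∈ F i', cz δ μ z' j := by
      rw [hrel p i hs hi, hrel q i' hs' hi']
      unfold cz
      rw [← Units.val_mul, ← Units.val_mul, ← Units.val_mul]
      congr 1
      rw [ha, he, zpow_sub, neg_sub, zpow_sub, zpow_neg, zpow_neg]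
      have : ∀ a b c e l : (ZMod g)ˣ, a * b⁻¹ * (c * e⁻¹) * (l * (b * c⁻¹)) = l * (a * e⁻¹) := by
        intro a b c e l
        calc a * b⁻¹ * (c * e⁻¹) * (l * (b * c⁻¹))
            = l * (a * e⁻¹) * (b⁻¹ * b) * (c * c⁻¹) := by
              simp only [mul_assoc, mul_left_comm, mul_comm]
          _ = l * (a * e⁻¹) := by rw [inv_mul_cancel, mul_inv_cancel, mul_one, mul_one]
      exact this _ _ _ _ _
    have hnat : ∑ j ∈ F i, d ^ ((j - (o + G)).toNat + a.toNat) * m ^ ((Z - e - z' j).toNat)
        = ∑ j ∈ F i', d ^ ((j - (o + G)).toNat) * m ^ ((Z - z' j).toNat) := by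
      apply to_nat_eq d m g R (L - G + 2 * E + 2 * W) hdm (by omega) _ _ _ _ _ _
        (hcard i hi) (hcard i' hi')
      · intro j hj
        have h1 := hFmem i j hj
        have h2 := bz i j hj
        omega
      · intro j hj
        have h1 := hFmem i' j hj
        have h2 := bz i' j hj
        omega
      · exact H.hsize
      · have e1 : ∑ j ∈ F i, (d : ZMod g) ^ ((j - (o + G)).toNat + a.toNat)
            * (m : ZMod g) ^ ((Z - e - z' j).toNat)
            = ((δ ^ (-(o + (G : ℤ))) * μ ^ Z : (ZMod g)ˣ) : ZMod g)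
              * (((δ ^ a * μ ^ (-e) : (ZMod g)ˣ) : ZMod g) * ∑ j ∈ F i, cz δ μ z' j) := by
          rw [mul_sum, mul_sum]
          apply sum_congr rfl
          intro j hj
          have h1 := hFmem i j hj
          have h2 := bz i j hj
          have h3 := cz_nat d m δ μ H.hδ H.hμ z' j (o + G) (Z - e) h1.1 (by omega)
          have h4 : (d : ZMod g) ^ a.toNat = ((δ ^ a : (ZMod g)ˣ) : ZMod g) := by
            rw [← H.hδ, ← Units.val_pow_eq_pow_val, ← zpow_natCast,
              Int.toNat_of_nonneg (by omega)]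
          have h5 : (μ ^ (Z - e) : (ZMod g)ˣ) = μ ^ Z * μ ^ (-e) := by
            rw [← zpow_add]
            congr 1
          rw [pow_add, mul_right_comm, h3, h4, h5]
          push_cast
          ring
        have e2 : ∑ j ∈ F i', (d : ZMod g) ^ ((j - (o + G)).toNat)
            * (m : ZMod g) ^ ((Z - z' j).toNat)
            = ((δ ^ (-(o + (G : ℤ))) * μ ^ Z : (ZMod g)ˣ) : ZMod g)
              * ∑ j ∈ F i', cz δ μ z' j := by
          rw [mul_sum]
          apply sum_congr rfl
          intro j hj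
          have h1 := hFmem i' j hj
          have h2 := bz i' j hj
          exact cz_nat d m δ μ H.hδ H.hμ z' j (o + G) Z h1.1 (by omega)
        rw [e1, e2, hcong]
    have hcomm : ∑ j ∈ F i, m ^ ((Z - e - z' j).toNat) * d ^ ((j - (o + G)).toNat + a.toNat)
        = ∑ j ∈ F i', m ^ ((Z - z' j).toNat) * d ^ ((j - (o + G)).toNat) := by
      simp_rw [mul_comm (m ^ _) (d ^ _)]
      exact hnat
    have hminlt : ∀ i, ∀ h : (F i).Nonempty, ∀ t ∈ F i, t ≠ (F i).min' h → (F i).min' h < t := by
      intro i h t ht hne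
      have := min'_le (F i) t ht
      omega
    have hmaxlt : ∀ i, ∀ h : (F i).Nonempty, ∀ t ∈ F i, t ≠ (F i).max' h → t < (F i).max' h := by
      intro i h t ht hne
      have := le_max' (F i) t ht
      omega
    constructor
    · rcases lt_trichotomy (x + a) x' with h | h | h
      · exfalso
        refine key d m hd H.hc (F i) (F i') (fun j => (j - (o + G)).toNat + a.toNat)
          (fun j => (Z - e - z' j).toNat) (fun j => (j - (o + G)).toNat)
          (fun j => (Z - z' j).toNat) x hxF ?_ ?_ hnat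
        · intro t ht hne
          have h1 := hminlt i _ t ht hne
          have h2 := hFmem i t ht
          have h3 := hFmem i x hxF
          rw [← hx] at h1
          omega
        · intro t ht
          have h1 := min'_le (F i') t ht
          have h3 := hFmem i x hxF
          rw [← hx'] at h1
          omega
      · omega
      · exfalso
        refine key d m hd H.hc (F i') (F i) (fun j => (j - (o + G)).toNat)
          (fun j => (Z - z' j).toNat) (fun j => (j - (o + G)).toNat + a.toNat)
          (fun j => (Z - e - z' j).toNat) x' hxF' ?_ ?_ hnat.symm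
        · intro t ht hne
          have h1 := hminlt i' _ t ht hne
          have h2 := hFmem i' t ht
          have h3 := hFmem i' x' hxF'
          rw [← hx'] at h1
          omega
        · intro t ht
          have h1 := min'_le (F i) t ht
          have h3 := hFmem i' x' hxF'
          have h4 := hFmem i t ht
          rw [← hx] at h1
          omega
    · have hye : z' y + e = z' y' := by
        rcases lt_trichotomy (z' y + e) (z' y') with h | h | h
        · exfalso
          refine key m d (by omega) H.hc.symm (F i') (F i) (fun j => (Z - z' j).toNat)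
            (fun j => (j - (o + G)).toNat) (fun j => (Z - e - z' j).toNat)
            (fun j => (j - (o + G)).toNat + a.toNat) y' hyF' ?_ ?_ hcomm.symm
          · intro t ht hne
            have h1 := hmaxlt i' _ t ht hne
            rw [← hy'] at h1
            have h2 := hz'.strict h1 (by rw [(hFmem i' t ht).2.2]; rfl)
            have h3 := bz i' y' hyF'
            have h4 := bz i' t ht
            omega
          · intro t ht
            have h1 := le_max' (F i) t ht
            rw [← hy] at h1
            have h2 := hz'.mono h1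
            have h3 := bz i' y' hyF'
            have h4 := bz i t ht
            omega
        · exact h
        · exfalso
          refine key m d (by omega) H.hc.symm (F i) (F i') (fun j => (Z - e - z' j).toNat)
            (fun j => (j - (o + G)).toNat + a.toNat) (fun j => (Z - z' j).toNat)
            (fun j => (j - (o + G)).toNat) y hyF ?_ ?_ hcomm
          · intro t ht hne
            have h1 := hmaxlt i _ t ht hne
            rw [← hy] at h1
            have h2 := hz'.strict h1 (by rw [(hFmem i t ht).2.2]; rfl)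
            have h3 := bz i y hyF
            have h4 := bz i t ht
            omega
          · intro t ht
            have h1 := le_max' (F i') t ht
            rw [← hy'] at h1
            have h2 := hz'.mono h1
            have h3 := bz i y hyF
            have h4 := bz i' t ht
            omega
      have hyy : y < y' := by
        by_contra h
        have := hz'.mono (show y' ≤ y by omega)
        omega
      have hyy2 : y' ≤ y + 5 * W := by
        by_contra h
        push Not at h
        have h1 := hz'.near W T'.t3 (show y ≤ y + 5 * W by omega) le_rfl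
        have h2 := hz'.mono h.le
        omega
      have h1 := hz'.near W T'.t3 hyy.le hyy2
      have h2 := hz'.lip hyy.le
      rw [abs_le]
      constructor <;> omega
  -- two occurrences
  have htwo : ∀ p i (hs : Sing w L p i) (hi : i = i1 ∨ i = i2 ∨ i = i3),
      (F i).min' (hFne p i hs hi) < (F i).max' (hFne p i hs hi) := by
    intro p i hs hi
    by_contra h
    set x := (F i).min' (hFne p i hs hi) with hx
    have hxF : x ∈ F i := min'_mem _ _
    apply hcon p x i hs
    refine ⟨(hFmem i x hxF).2.2, ?_⟩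
    intro j hj
    obtain ⟨k', hk1', hk2'⟩ := rep L hL o j
    have hwj : w' (j + k' * L) = some i := by rw [T'.per.zmul]; exact hj
    have hjF : j + k' * L ∈ F i := by
      rw [← hFw i hi, mem_filter, mem_Ico]
      exact ⟨⟨hk1', hk2'⟩, hwj⟩
    have h1 := min'_le (F i) _ hjF
    have h2 := le_max' (F i) _ hjF
    rw [← hx] at h1
    refine ⟨-k', ?_⟩
    have : j + k' * L = x := by omega
    linarith
  have st1 := hstep p1 p2 i1 i2 s1 s2 (Or.inl rfl) (Or.inr (Or.inl rfl)) hp2 (by omega)
  have st2 := hstep p2 p3 i2 i3 s2 s3 (Or.inr (Or.inl rfl)) (Or.inr (Or.inr rfl)) hp3 (by omega)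
  have tw1 := htwo p1 i1 s1 (Or.inl rfl)
  have tw2 := htwo p2 i2 s2 (Or.inr (Or.inl rfl))
  have tw3 := htwo p3 i3 s3 (Or.inr (Or.inr rfl))
  set x1 := (F i1).min' (hFne p1 i1 s1 (Or.inl rfl))
  set x2 := (F i2).min' (hFne p2 i2 s2 (Or.inr (Or.inl rfl)))
  set x3 := (F i3).min' (hFne p3 i3 s3 (Or.inr (Or.inr rfl)))
  set y1 := (F i1).max' (hFne p1 i1 s1 (Or.inl rfl))
  set y2 := (F i2).max' (hFne p2 i2 s2 (Or.inr (Or.inl rfl)))
  set y3 := (F i3).max' (hFne p3 i3 s3 (Or.inr (Or.inr rfl)))
  have mx1 := hFmem i1 x1 (min'_mem _ _)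
  have mx2 := hFmem i2 x2 (min'_mem _ _)
  have mx3 := hFmem i3 x3 (min'_mem _ _)
  have my1 := hFmem i1 y1 (max'_mem _ _)
  have my2 := hFmem i2 y2 (max'_mem _ _)
  have my3 := hFmem i3 y3 (max'_mem _ _)
  exact T'.t4 x1 x2 x3 y1 y2 y3 i1 i2 i3 h12 h13 h23 mx1.2.2 my1.2.2 mx2.2.2 my2.2.2 mx3.2.2
    my3.2.2 tw1 (by omega) tw2 (by omega) tw3 (by omega) (by omega) (by omega) (by omega)
    (by omega) (by rw [st1.1]; exact st1.2) (by rw [st2.1]; exact st2.2)

end GC70
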