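import Mathlib
import Pool.Agent.Helper70.GC.Near2

/-!
# Proportional words for a modulus close to `d ^ L - m ^ s` are shifts of each other
-/

set_option autoImplicit false

namespace GC70

open Finset

variable {B : Type} [DecidableEq B]
variable {d m g L s E R W G : ℕ} {δ μ : (ZMod g)ˣ} {w w' : ℤ → Option B} {z z' : ℤ → ℤ}

lemma Typ.shift (T : Typ w L R W) (h : ℤ) : Typ (fun j => w (j + h)) L R W where
  per := fun x => by
    show w (x + L + h) = w (x + h)
    rw [show x + (L : ℤ) + h = x + h + L by ring]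
    exact T.per _
  t1 := fun i => by
    have h1 := card_window w L T.per i h
    have h2 : ((Ico (0 : ℤ) L).filter (fun j => w (j + h) = some i)).card
        = ((Ico h (h + L)).filter (fun j => w j = some i)).card := by
      apply card_bij (fun j _ => j + h)
      · intro j hj
        simp only [mem_filter, mem_Ico] at hj ⊢
        exact ⟨⟨by omega, by omega⟩, hj.2⟩
      · intro a _ b _ hab
        omega
      · intro j hj
        simp only [mem_filter, mem_Ico] at hj
        refine ⟨j - h, ?_, by ring⟩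
        simp only [mem_filter, mem_Ico]
        refine ⟨⟨by omega, by omega⟩, ?_⟩
        rw [show j - h + h = j by ring]
        exact hj.2
    rw [h2, h1]
    exact T.t1 i
  t2l := fun t ht => by
    obtain ⟨p, i, h1, h2, h3⟩ := T.t2l (t + h) ht
    refine ⟨p - h, i, by omega, by omega, ?_, ?_⟩
    · show w (p - h + h) = some i
      rw [show p - h + h = p by ring]
      exact h3.1
    · intro j hj
      have := h3.2 (j + h) hj
      rw [show j - (p - h) = j + h - p by ring]
      exact this
  t2r := fun t ht => by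
    obtain ⟨p1, p2, p3, i1, i2, i3, h1, h2, h3, h4, s1, s2, s3⟩ := T.t2r (t + h) ht
    have key : ∀ p i, Sing w L p i → Sing (fun j => w (j + h)) L (p - h) i := by
      intro p i hs
      refine ⟨?_, ?_⟩
      · show w (p - h + h) = some i
        rw [show p - h + h = p by ring]
        exact hs.1
      · intro j hj
        have := hs.2 (j + h) hj
        rw [show j - (p - h) = j + h - p by ring]
        exact this
    exact ⟨p1 - h, p2 - h, p3 - h, i1, i2, i3, by omega, by omega, by omega, by omega,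
      key _ _ s1, key _ _ s2, key _ _ s3⟩
  t3 := fun t t' ht ht' hlt => by
    have := T.t3 (t + h) (t' + h) ht ht' (by omega)
    omega
  t4 := fun x1 x2 x3 y1 y2 y3 i1 i2 i3 n1 n2 n3 e1 e2 e3 e4 e5 e6 a1 a2 a3 a4 a5 a6 b1 b2 b3 b4
      c1 c2 => T.t4 (x1 + h) (x2 + h) (x3 + h) (y1 + h) (y2 + h) (y3 + h) i1 i2 i3 n1 n2 n3
        e1 e2 e3 e4 e5 e6 (by omega) (by omega) (by omega) (by omega) (by omega) (by omega)
        (by omega) (by omega) (by omega) (by omega)
        (by rw [show y2 + h - (y1 + h) - (x2 + h - (x1 + h)) = (y2 - y1) - (x2 - x1) by ring]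
            exact c1)
        (by rw [show y3 + h - (y2 + h) - (x3 + h - (x2 + h)) = (y3 - y2) - (x3 - x2) by ring]
            exact c2)
  t5 := fun t1 t2 j1 j2 i e1 e2 e3 a1 a2 b1 b2 =>
    T.t5 (t1 + h) (t2 + h) (j1 + h) (j2 + h) i e1 e2
      (by rw [show t1 + h - (t2 + h) = t1 - t2 by ring]; exact e3)
      (by rw [show j1 + h - (t1 + h) = j1 - t1 by ring]; exact a1)
      (by rw [show j2 + h - (t2 + h) = j2 - t2 by ring]; exact a2) b1 b2

lemma close_of (hL : 0 < L) (hz : IsZ w z) (hz' : IsZ w' z') (pz : ∀ j, z (j + L) = z j + s)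
    (pz' : ∀ j, z' (j + L) = z' j + s) (hE : L ≤ s + E) (p : ℤ) (hp : z p = z' p) (j : ℤ) :
    |z j - z' j| ≤ E := by
  obtain ⟨k, hk1, hk2⟩ := rep L hL p j
  have h1 := hz.lip (show p ≤ j + k * L from hk1)
  have h2 := hz.lip (show j + k * L ≤ p + L from hk2.le)
  have h3 := hz'.lip (show p ≤ j + k * L from hk1)
  have h4 := hz'.lip (show j + k * L ≤ p + L from hk2.le)
  rw [pz] at h2
  rw [pz'] at h4
  have h5 := zper_mul pz k j
  have h6 := zper_mul pz' k j
  rw [h5] at h1 h2
  rw [h6] at h3 h4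
  rw [abs_le]
  constructor <;> linarith [show (L : ℤ) ≤ s + E by exact_mod_cast hE]

theorem near [Fact (1 < g)] (H : Hyp d m g L s E R W G δ μ) (hz : IsZ w z) (hz' : IsZ w' z')
    (pz : ∀ j, z (j + L) = z j + s) (pz' : ∀ j, z' (j + L) = z' j + s)
    (T : Typ w L R W) (T' : Typ w' L R W) (l : (ZMod g)ˣ)
    (rel : ∀ i, ∑ j ∈ (Ico (0 : ℤ) L).filter (fun j => w' j = some i), cz δ μ z' j
      = l * ∑ j ∈ (Ico (0 : ℤ) L).filter (fun j => w j = some i), cz δ μ z j)
    (hne : ∃ t, w t = none) (hE : L ≤ s + E) : ∃ h : ℤ, ∀ j, w' (j + h) = w j := by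
  have hL : 0 < L := by
    have := H.GL
    have := H.hW1
    have := H.hWG
    omega
  obtain ⟨p, p', i0, hs, hs'⟩ := common_single H hz hz' pz pz' T T' l rel hne
  -- the proportionality factor
  have hsum : ∀ (w : ℤ → Option B) (z : ℤ → ℤ) (hper : Per w L) (pz : ∀ j, z (j + L) = z j + s)
      (p : ℤ) (hs : Sing w L p i0),
      ∑ j ∈ (Ico (0 : ℤ) L).filter (fun j => w j = some i0), cz δ μ z j = cz δ μ z p := by
    intro w z hper pz p hs
    rw [← sum_cz_window δ μ w z L s hper H.hδμ pz i0 p]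
    have : (Ico p (p + L)).filter (fun j => w j = some i0) = {p} := by
      ext j
      rw [mem_filter, mem_Ico, mem_singleton]
      constructor
      · rintro ⟨⟨h1, h2⟩, h3⟩
        obtain ⟨c, hc⟩ := hs.2 j h3
        have : j - p = 0 := Int.eq_zero_of_abs_lt_dvd ⟨c, hc⟩ (by
          rw [abs_lt]
          constructor <;> omega)
        omega
      · rintro rfl
        exact ⟨⟨le_rfl, by omega⟩, hs.1⟩
    rw [this, sum_singleton]
  have hl : cz δ μ z' p' = l * cz δ μ z p := by
    rw [← hsum w z T.per pz p hs, ← hsum w' z' T'.per pz' p' hs']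
    exact rel i0
  set h := p' - p with hh
  have hl' : δ ^ p' * μ ^ (-(z' p')) = l * (δ ^ p * μ ^ (-(z p))) := by
    unfold cz at hl
    rw [← Units.val_mul] at hl
    exact Units.ext hl
  have hcz : ∀ j, (l : ZMod g) * cz δ μ (fun j => z' (j + h) - z' p' + z p) j
      = cz δ μ z' (j + h) := by
    intro j
    unfold cz
    rw [← Units.val_mul]
    congr 1
    have e1 : l = δ ^ p' * μ ^ (-(z' p')) * (δ ^ p * μ ^ (-(z p)))⁻¹ := by
      rw [hl', mul_inv_cancel_right]
    rw [e1, hh, mul_inv, ← zpow_neg, ← zpow_neg]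
    have e2 : δ ^ p' * μ ^ (-(z' p')) * (δ ^ (-p) * μ ^ (-(-(z p)))) *
        (δ ^ j * μ ^ (-(z' (j + (p' - p)) - z' p' + z p)))
        = (δ ^ p' * δ ^ (-p) * δ ^ j) *
          (μ ^ (-(z' p')) * μ ^ (-(-(z p))) * μ ^ (-(z' (j + (p' - p)) - z' p' + z p))) := by
      simp only [mul_assoc, mul_left_comm, mul_comm]
    rw [e2, ← zpow_add, ← zpow_add, ← zpow_add, ← zpow_add]
    congr 2 <;> ring
  set w'' : ℤ → Option B := fun j => w' (j + h) with hw''
  set z'' : ℤ → ℤ := fun j => z' (j + h) - z' p' + z p with hz''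
  have hz''Z : IsZ w'' z'' := by
    intro j
    rw [hz'', hw'']
    simp only
    rw [show j + 1 + h = j + h + 1 by ring, hz' (j + h)]
    ring
  have pz'' : ∀ j, z'' (j + L) = z'' j + s := by
    intro j
    rw [hz'']
    simp only
    rw [show j + L + h = j + h + L by ring, pz' (j + h)]
    ring
  have hpp : z p = z'' p := by
    rw [hz'']
    simp only
    rw [hh, show p + (p' - p) = p' by ring]
    ring
  have T'' : Typ w'' L R W := T'.shift h
  have hrel : ∀ i, ∑ j ∈ (Ico (0 : ℤ) L).filter (fun j => w j = some i), cz δ μ z j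
      = ∑ j ∈ (Ico (0 : ℤ) L).filter (fun j => w'' j = some i), cz δ μ z'' j := by
    intro i
    have e1 : (l : ZMod g) * ∑ j ∈ (Ico (0 : ℤ) L).filter (fun j => w'' j = some i), cz δ μ z'' j
        = ∑ j ∈ (Ico (0 : ℤ) L).filter (fun j => w' j = some i), cz δ μ z' j := by
      rw [mul_sum, ← sum_cz_window δ μ w' z' L s T'.per H.hδμ pz' i h, sum_filter, sum_filter]
      have e2 := Finset.sum_Ico_add' (fun j => if w' j = some i then cz δ μ z' j else 0)
        (0 : ℤ) L h
      rw [zero_add, add_comm (L : ℤ) h] at e2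
      rw [← e2]
      apply sum_congr rfl
      intro j _
      rw [hw'']
      simp only
      split_ifs
      · exact hcz j
      · rfl
    rw [rel i] at e1
    have := (Units.mul_right_inj l).mp e1
    exact this.symm
  have al : Al w w'' z z'' L s E g δ μ :=
    ⟨hz, hz''Z, pz, pz'', fun j => close_of hL hz hz''Z pz pz'' hE p hpp j, hrel⟩
  have := aligned_eq H al T T'' ⟨p, hpp⟩
  exact ⟨h, fun j => (congrFun this j).symm⟩

/-- the counting function -/
noncomputable def zf (w : ℤ → Option B) (j : ℤ) : ℤ :=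
  ∑ t ∈ Ico (0 : ℤ) j, (if (w t).isSome then (1 : ℤ) else 0)
    - ∑ t ∈ Ico j (0 : ℤ), (if (w t).isSome then (1 : ℤ) else 0)

omit [DecidableEq B] in
lemma zf_isZ (w : ℤ → Option B) : IsZ w (zf w) := by
  intro j
  unfold zf
  rcases le_or_gt 0 j with h | h
  · rw [Ico_eq_empty (by omega : ¬ (j + 1 < 0)), Ico_eq_empty (by omega : ¬ (j < 0)),
      ← Finset.insert_Ico_right_eq_Ico_add_one h, sum_insert (by simp)]
    simp only [sum_empty]
    ring
  · rw [Ico_eq_empty (by omega : ¬ (0 < j + 1)), Ico_eq_empty (by omega : ¬ (0 < j)),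
      ← Finset.insert_Ico_add_one_left_eq_Ico h, sum_insert (by simp)]
    simp only [sum_empty]
    ring

omit [DecidableEq B] in
lemma zf_zero (w : ℤ → Option B) : zf w 0 = 0 := by simp [zf]

lemma zf_nat (w : ℤ → Option B) (j : ℕ) : zf w j = (sk w j).card := by
  induction j with
  | zero => simp [zf, sk]
  | succ j ih =>
    push_cast
    rw [zf_isZ w j, ih, card_sk_succ]
    push_cast
    ring

lemma zf_per (w : ℤ → Option B) (hper : Per w L) (j : ℤ) :
    zf w (j + L) = zf w j + (sk w L).card := by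
  induction j using Int.induction_on with
  | zero => rw [zero_add, zf_nat, zf_zero, zero_add]
  | succ i ih =>
    have h1 := zf_isZ w (i + L)
    have h2 := zf_isZ w i
    rw [hper] at h1
    rw [show (i : ℤ) + 1 + L = i + L + 1 by ring, h1, h2, ih]
    ring
  | pred i ih =>
    have h1 := zf_isZ w (-(i : ℤ) - 1 + L)
    have h2 := zf_isZ w (-(i : ℤ) - 1)
    rw [hper] at h1
    rw [show (-(i : ℤ) - 1 + L + 1) = -(i : ℤ) + L by ring, ih] at h1
    rw [show (-(i : ℤ) - 1 + 1) = -(i : ℤ) by ring] at h2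
    linarith

/-- the coefficient vector in terms of the weights `cz` -/
lemma V_eq_cz (w : ℤ → Option B) (hδ : (δ : ZMod g) = d) (hμ : (μ : ZMod g) = m)
    (L : ℕ) (hs : 0 < (sk w L).card) (i : B) :
    (V d m w L i : ZMod g) = ((μ ^ (((sk w L).card : ℤ) - 1) : (ZMod g)ˣ) : ZMod g)
      * ∑ j ∈ (Ico (0 : ℤ) L).filter (fun j => w j = some i), cz δ μ (zf w) j := by
  have h1 : ∑ j ∈ (Ico (0 : ℤ) L).filter (fun j => w j = some i), cz δ μ (zf w) j
      = ∑ j ∈ (range L).filter (fun j : ℕ => w (j : ℤ) = some i), cz δ μ (zf w) (j : ℤ) := by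
    symm
    apply sum_bij (fun (j : ℕ) _ => (j : ℤ))
    · intro j hj
      simp only [mem_filter, mem_range, mem_Ico] at hj ⊢
      exact ⟨⟨by omega, by omega⟩, hj.2⟩
    · intro a _ b _ hab
      exact_mod_cast hab
    · intro j hj
      simp only [mem_filter, mem_Ico] at hj
      refine ⟨j.toNat, ?_, Int.toNat_of_nonneg hj.1.1⟩
      simp only [mem_filter, mem_range]
      rw [Int.toNat_of_nonneg hj.1.1]
      exact ⟨by omega, hj.2⟩
    · intro j _
      rfl
  rw [h1, mul_sum]
  unfold V
  push_cast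
  apply sum_congr rfl
  intro j hj
  rw [mem_filter, mem_range] at hj
  -- the number of later non-zero letters
  have h2 : ((sk w L).filter (fun t => j < t)).card + (sk w (j + 1)).card = (sk w L).card := by
    have h3 : sk w (j + 1) = (sk w L).filter (fun t => ¬ j < t) := by
      ext t
      simp only [sk, mem_filter, mem_range]
      constructor
      · rintro ⟨a, b⟩
        exact ⟨⟨by omega, b⟩, by omega⟩
      · rintro ⟨⟨a, b⟩, c⟩
        exact ⟨by omega, b⟩
    rw [h3]
    exact card_filter_add_card_filter_not _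
  have h4 : (sk w (j + 1)).card = 1 + (sk w j).card := by
    rw [card_sk_succ, hj.2]
    simp
  unfold wt cz
  push_cast
  rw [← hδ, ← hμ, ← Units.val_pow_eq_pow_val, ← Units.val_pow_eq_pow_val, ← Units.val_mul,
    zf_nat]
  rw [← zpow_natCast, ← zpow_natCast]
  have h5 : (((sk w L).filter (fun t => j < t)).card : ℤ)
      = ((sk w L).card : ℤ) - 1 + (-((sk w j).card : ℤ)) := by omega
  rw [h5, zpow_add, mul_left_comm, Units.val_mul]
  norm_cast

/-- **Range 3.** -/
theorem near_words [Fact (1 < g)] (H : Hyp d m g L s E R W G δ μ)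
    (T : Typ w L R W) (T' : Typ w' L R W) (l : (ZMod g)ˣ)
    (hs : (sk w L).card = s) (hs' : (sk w' L).card = s) (hs0 : 0 < s)
    (rel : ∀ i, (V d m w' L i : ZMod g) = l * (V d m w L i : ZMod g))
    (hne : ∃ t, w t = none) (hE : L ≤ s + E) : ∃ h : ℤ, ∀ j, w' (j + h) = w j := by
  refine near H (zf_isZ w) (zf_isZ w') (fun j => by rw [zf_per w T.per, hs])
    (fun j => by rw [zf_per w' T'.per, hs']) T T' l ?_ hne hE
  intro i
  have h1 := rel i
  rw [V_eq_cz w H.hδ H.hμ L (by omega), V_eq_cz w' H.hδ H.hμ L (by omega), hs, hs',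
    mul_left_comm] at h1
  exact (Units.mul_right_inj _).mp h1

end GC70
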