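import Mathlib
import Pool.Agent.Helper70.GC.Near3

/-!
# Counting words: union bounds
-/

set_option autoImplicit false

namespace GC70

open Finset

variable {B : Type} [Fintype B] [DecidableEq B]

/-- index of an integer modulo `L` -/
def idx (L : ℕ) [NeZero L] (x : ℤ) : Fin L :=
  ⟨(x % (L : ℤ)).toNat, by
    have h0 : 0 < L := Nat.pos_of_ne_zero (NeZero.ne L)
    have h1 := Int.emod_nonneg x (show (L : ℤ) ≠ 0 by positivity)
    have h2 := Int.emod_lt_of_pos x (show (0 : ℤ) < L by positivity)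
    omega⟩

/-- periodic extension -/
def ext (L : ℕ) [NeZero L] (v : Fin L → Option B) (x : ℤ) : Option B := v (idx L x)

lemma idx_eq_iff (L : ℕ) [NeZero L] (x y : ℤ) : idx L x = idx L y ↔ (L : ℤ) ∣ x - y := by
  have h0 : 0 < L := Nat.pos_of_ne_zero (NeZero.ne L)
  have h1 := Int.emod_nonneg x (show (L : ℤ) ≠ 0 by positivity)
  have h2 := Int.emod_nonneg y (show (L : ℤ) ≠ 0 by positivity)
  unfold idx
  rw [Fin.mk.injEq]
  constructor
  · intro h
    have h3 : x % L = y % L := by omega
    exact Int.dvd_of_emod_eq_zero (Int.emod_eq_emod_iff_emod_sub_eq_zero.mp h3)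
  · intro h
    have h3 : x % L = y % L := Int.emod_eq_emod_iff_emod_sub_eq_zero.mpr (Int.emod_eq_zero_of_dvd h)
    rw [h3]

lemma idx_fin (L : ℕ) [NeZero L] (j : Fin L) : idx L ((j : ℕ) : ℤ) = j := by
  unfold idx
  apply Fin.ext
  simp only
  have := j.2
  rw [Int.emod_eq_of_lt (by positivity) (by exact_mod_cast this)]
  simp

lemma idx_nat (L : ℕ) [NeZero L] (j : ℕ) (hj : j < L) : idx L (j : ℤ) = ⟨j, hj⟩ :=
  idx_fin L ⟨j, hj⟩

omit [Fintype B] [DecidableEq B] in
lemma ext_per (L : ℕ) [NeZero L] (v : Fin L → Option B) : Per (ext L v) L := by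
  intro x
  unfold ext
  congr 1
  rw [idx_eq_iff]
  exact ⟨1, by ring⟩

omit [Fintype B] [DecidableEq B] in
lemma ext_injective (L : ℕ) [NeZero L] :
    Function.Injective (ext L : (Fin L → Option B) → (ℤ → Option B)) := by
  intro v v' h
  funext j
  have := congrFun h ((j : ℕ) : ℤ)
  unfold ext at this
  rwa [idx_fin] at this

/-- the number of letters -/
lemma card_option' : Fintype.card (Option B) = Fintype.card B + 1 := Fintype.card_option

lemma card_determined (L : ℕ) (S : Finset (Fin L → Option B)) (Y : Finset (Fin L))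
    (h : ∀ v ∈ S, ∀ v' ∈ S, (∀ j, j ∉ Y → v j = v' j) → v = v') :
    S.card ≤ (Fintype.card B + 1) ^ (L - Y.card) := by
  have h1 : S.card ≤ (univ : Finset ({j // j ∉ Y} → Option B)).card := by
    apply card_le_card_of_injOn (fun v => fun j => v j.1)
    · intro v _
      simp
    · intro v hv v' hv' heq
      exact h v hv v' hv' (fun j hj => congrFun heq ⟨j, hj⟩)
  rw [card_univ, Fintype.card_fun, Fintype.card_option] at h1
  have h2 : Fintype.card {j // j ∉ Y} = L - Y.card := by
    rw [Fintype.card_subtype_compl, Fintype.card_fin, Fintype.card_coe]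
  rwa [h2] at h1

lemma union_bound {ι α : Type} (I : Finset ι) (S : Finset α) (P : ι → α → Prop)
    (h : ∀ v ∈ S, ∃ i ∈ I, P i v) (n : ℕ)
    (hn : ∀ i ∈ I, ∀ S' ⊆ S, (∀ v ∈ S', P i v) → S'.card ≤ n) : S.card ≤ I.card * n := by
  classical
  have h1 : S ⊆ I.biUnion (fun i => S.filter (P i)) := by
    intro v hv
    obtain ⟨i, hi, hP⟩ := h v hv
    rw [mem_biUnion]
    exact ⟨i, hi, mem_filter.mpr ⟨hv, hP⟩⟩
  refine (card_le_card h1).trans ?_
  apply card_biUnion_le_card_mul
  intro i hi
  exact hn i hi _ (filter_subset _ _) (fun v hv => (mem_filter.mp hv).2)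

omit [Fintype B] [DecidableEq B] in
lemma ext_shift (L : ℕ) [NeZero L] (v : Fin L → Option B) (k x : ℤ) :
    ext L v (x + k * L) = ext L v x := (ext_per L v).zmul k x

lemma F3_le (L W : ℕ) [NeZero L] (hW : 5 * W < L) (S : Finset (Fin L → Option B))
    (hS : ∀ v ∈ S, ∃ t t' : ℤ, ext L v t = none ∧ ext L v t' = none ∧ t < t' ∧ t' ≤ t + 5 * W) :
    S.card ≤ L * (5 * W) * (Fintype.card B + 1) ^ (L - 2) := by
  have h0 : 0 < L := Nat.pos_of_ne_zero (NeZero.ne L)
  have h1 := union_bound ((range L) ×ˢ (Icc 1 (5 * W))) S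
    (fun p v => ext L v (p.1 : ℤ) = none ∧ ext L v ((p.1 : ℤ) + p.2) = none) (by
      intro v hv
      obtain ⟨t, t', e1, e2, e3, e4⟩ := hS v hv
      obtain ⟨k, hk1, hk2⟩ := rep L h0 0 t
      refine ⟨((t + k * L).toNat, (t' - t).toNat), ?_, ?_, ?_⟩
      · rw [mem_product, mem_range, mem_Icc]
        refine ⟨by simp only; omega, by simp only; omega, by simp only; omega⟩
      · simp only
        rw [Int.toNat_of_nonneg (by omega), ext_shift]
        exact e1
      · simp only
        rw [Int.toNat_of_nonneg (by omega), Int.toNat_of_nonneg (by omega),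
          show t + k * L + (t' - t) = t' + k * L by ring, ext_shift]
        exact e2) ((Fintype.card B + 1) ^ (L - 2)) (by
      rintro ⟨t, e⟩ hp S' _ hS'
      rw [mem_product, mem_range, mem_Icc] at hp
      simp only at hp hS'
      have hne : idx L (t : ℤ) ≠ idx L ((t : ℤ) + e) := by
        rw [Ne, idx_eq_iff]
        intro hd
        have : (t : ℤ) - (t + e) = 0 := Int.eq_zero_of_abs_lt_dvd hd (by
          rw [abs_lt]; constructor <;> omega)
        omega
      have h2 := card_determined L S' {idx L (t : ℤ), idx L ((t : ℤ) + e)} (by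
        intro v hv v' hv' hag
        funext j
        by_cases hj : j ∈ ({idx L (t : ℤ), idx L ((t : ℤ) + e)} : Finset (Fin L))
        · rw [mem_insert, mem_singleton] at hj
          have a1 := hS' v hv
          have a2 := hS' v' hv'
          unfold ext at a1 a2
          rcases hj with rfl | rfl
          · rw [a1.1, a2.1]
          · rw [a1.2, a2.2]
        · exact hag j hj)
      rwa [card_pair hne] at h2)
  rw [card_product, card_range, Nat.card_Icc] at h1
  simpa using h1

lemma F5_le (L W : ℕ) [NeZero L] (S : Finset (Fin L → Option B))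
    (hS : ∀ v ∈ S, ∃ (t1 t2 j1 j2 : ℤ) (i : B), ext L v t1 = none ∧ ext L v t2 = none ∧
      ¬ ((L : ℤ) ∣ t1 - t2) ∧ |j1 - t1| ≤ 2 * W ∧ |j2 - t2| ≤ 2 * W ∧
      ext L v j1 = some i ∧ ext L v j2 = some i ∧ ¬ ((L : ℤ) ∣ j1 - j2)) :
    S.card ≤ (L * L) * ((4 * W + 1) * (4 * W + 1)) * (Fintype.card B + 1) ^ (L - 3) := by
  have h0 : 0 < L := Nat.pos_of_ne_zero (NeZero.ne L)
  have h1 := union_bound (((range L) ×ˢ (range L)) ×ˢ
    ((Icc (-(2 * W : ℤ)) (2 * W)) ×ˢ (Icc (-(2 * W : ℤ)) (2 * W)))) S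
    (fun p v => ext L v (p.1.1 : ℤ) = none ∧ ext L v (p.1.2 : ℤ) = none ∧
      ¬ ((L : ℤ) ∣ (p.1.1 : ℤ) - p.1.2) ∧
      (∃ i, ext L v ((p.1.1 : ℤ) + p.2.1) = some i ∧ ext L v ((p.1.2 : ℤ) + p.2.2) = some i) ∧
      ¬ ((L : ℤ) ∣ ((p.1.1 : ℤ) + p.2.1) - (p.1.2 + p.2.2))) (by
      intro v hv
      obtain ⟨t1, t2, j1, j2, i, e1, e2, e3, e4, e5, e6, e7, e8⟩ := hS v hv
      obtain ⟨k, hk1, hk2⟩ := rep L h0 0 t1
      obtain ⟨k', hk1', hk2'⟩ := rep L h0 0 t2
      rw [abs_le] at e4 e5
      refine ⟨(((t1 + k * L).toNat, (t2 + k' * L).toNat), (j1 - t1, j2 - t2)), ?_, ?_, ?_, ?_, ?_,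
        ?_⟩
      · simp only [mem_product, mem_range, mem_Icc]
        refine ⟨⟨by omega, by omega⟩, ⟨by omega, by omega⟩, ⟨by omega, by omega⟩⟩
      · simp only
        rw [Int.toNat_of_nonneg (by omega), ext_shift]
        exact e1
      · simp only
        rw [Int.toNat_of_nonneg (by omega), ext_shift]
        exact e2
      · simp only
        rw [Int.toNat_of_nonneg (by omega), Int.toNat_of_nonneg (by omega)]
        rintro ⟨c, hc⟩
        exact e3 ⟨c - k + k', by linarith⟩
      · simp only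
        refine ⟨i, ?_, ?_⟩
        · rw [Int.toNat_of_nonneg (by omega), show t1 + k * L + (j1 - t1) = j1 + k * L by ring,
            ext_shift]
          exact e6
        · rw [Int.toNat_of_nonneg (by omega), show t2 + k' * L + (j2 - t2) = j2 + k' * L by ring,
            ext_shift]
          exact e7
      · simp only
        rw [Int.toNat_of_nonneg (by omega), Int.toNat_of_nonneg (by omega)]
        rintro ⟨c, hc⟩
        exact e8 ⟨c - k + k', by linarith⟩) ((Fintype.card B + 1) ^ (L - 3)) (by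
      rintro ⟨⟨t1, t2⟩, ⟨f1, f2⟩⟩ hp S' _ hS'
      simp only at hp hS'
      rcases S'.eq_empty_or_nonempty with rfl | ⟨v0, hv0⟩
      · simp
      obtain ⟨a1, a2, a3, ⟨i, a4, a5⟩, a6⟩ := hS' v0 hv0
      have n12 : idx L (t1 : ℤ) ≠ idx L (t2 : ℤ) := by
        rw [Ne, idx_eq_iff]
        exact a3
      have n13 : idx L (t1 : ℤ) ≠ idx L ((t2 : ℤ) + f2) := by
        intro h
        unfold ext at a1 a5
        rw [h, a5] at a1
        simp at a1
      have n23 : idx L (t2 : ℤ) ≠ idx L ((t2 : ℤ) + f2) := by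
        intro h
        unfold ext at a2 a5
        rw [h, a5] at a2
        simp at a2
      have m1 : idx L ((t1 : ℤ) + f1) ≠ idx L (t1 : ℤ) := by
        intro h
        unfold ext at a1 a4
        rw [h, a1] at a4
        simp at a4
      have m2 : idx L ((t1 : ℤ) + f1) ≠ idx L (t2 : ℤ) := by
        intro h
        unfold ext at a2 a4
        rw [h, a2] at a4
        simp at a4
      have m3 : idx L ((t1 : ℤ) + f1) ≠ idx L ((t2 : ℤ) + f2) := by
        rw [Ne, idx_eq_iff]
        exact a6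
      have h2 := card_determined L S' {idx L (t1 : ℤ), idx L (t2 : ℤ), idx L ((t2 : ℤ) + f2)} (by
        intro v hv v' hv' hag
        obtain ⟨b1, b2, _, ⟨i1, b4, b5⟩, _⟩ := hS' v hv
        obtain ⟨c1, c2, _, ⟨i2, c4, c5⟩, _⟩ := hS' v' hv'
        unfold ext at b1 b2 b4 b5 c1 c2 c4 c5
        have hm : idx L ((t1 : ℤ) + f1) ∉
            ({idx L (t1 : ℤ), idx L (t2 : ℤ), idx L ((t2 : ℤ) + f2)} : Finset (Fin L)) := by
          simp only [mem_insert, mem_singleton, not_or]
          exact ⟨m1, m2, m3⟩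
        have key := hag _ hm
        funext j
        by_cases hj : j ∈ ({idx L (t1 : ℤ), idx L (t2 : ℤ), idx L ((t2 : ℤ) + f2)} : Finset (Fin L))
        · simp only [mem_insert, mem_singleton] at hj
          rcases hj with rfl | rfl | rfl
          · rw [b1, c1]
          · rw [b2, c2]
          · rw [b5, c5, ← b4, ← c4]
            exact key
        · exact hag j hj)
      have h3 : ({idx L (t1 : ℤ), idx L (t2 : ℤ), idx L ((t2 : ℤ) + f2)} : Finset (Fin L)).card
          = 3 := by
        rw [card_insert_of_notMem, card_insert_of_notMem, card_singleton]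
        · simp only [mem_singleton]
          exact n23
        · simp only [mem_insert, mem_singleton, not_or]
          exact ⟨n12, n13⟩
      rwa [h3] at h2)
  rw [card_product, card_product, card_product, card_range, Int.card_Icc] at h1
  have h4 : (2 * (W : ℤ) + 1 - -(2 * W)).toNat = 4 * W + 1 := by omega
  rw [h4] at h1
  exact h1

lemma F4_le (L W : ℕ) [NeZero L] (S : Finset (Fin L → Option B))
    (hS : ∀ v ∈ S, ∃ (x1 x2 x3 y1 y2 y3 : ℤ) (i1 i2 i3 : B), i1 ≠ i2 ∧ i1 ≠ i3 ∧ i2 ≠ i3 ∧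
      ext L v x1 = some i1 ∧ ext L v y1 = some i1 ∧ ext L v x2 = some i2 ∧ ext L v y2 = some i2 ∧
      ext L v x3 = some i3 ∧ ext L v y3 = some i3 ∧
      x1 < y1 ∧ y1 < x1 + L ∧ x2 < y2 ∧ y2 < x2 + L ∧ x3 < y3 ∧ y3 < x3 + L ∧
      1 ≤ x2 - x1 ∧ x2 - x1 ≤ W ∧ 1 ≤ x3 - x2 ∧ x3 - x2 ≤ W ∧
      |(y2 - y1) - (x2 - x1)| ≤ 1 ∧ |(y3 - y2) - (x3 - x2)| ≤ 1) :
    S.card ≤ (L * L) * ((W * W) * (3 * 3)) * (Fintype.card B + 1) ^ (L - 3) := by
  have h0 : 0 < L := Nat.pos_of_ne_zero (NeZero.ne L)
  have h1 := union_bound (((range L) ×ˢ (range L)) ×ˢ (((Icc 1 W) ×ˢ (Icc 1 W)) ×ˢ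
    ((Icc (-1 : ℤ) 1) ×ˢ (Icc (-1 : ℤ) 1)))) S
    (fun p v => ∃ (x1 x2 x3 y1 y2 y3 : ℤ) (i1 i2 i3 : B), x1 = p.1.1 ∧ y1 = x1 + p.1.2 ∧
      x2 = x1 + p.2.1.1 ∧ x3 = x2 + p.2.1.2 ∧ y2 = y1 + (x2 - x1) + p.2.2.1 ∧
      y3 = y2 + (x3 - x2) + p.2.2.2 ∧ i1 ≠ i2 ∧ i1 ≠ i3 ∧ i2 ≠ i3 ∧
      ext L v x1 = some i1 ∧ ext L v y1 = some i1 ∧ ext L v x2 = some i2 ∧ ext L v y2 = some i2 ∧
      ext L v x3 = some i3 ∧ ext L v y3 = some i3 ∧
      x1 < y1 ∧ y1 < x1 + L ∧ x2 < y2 ∧ y2 < x2 + L ∧ x3 < y3 ∧ y3 < x3 + L) (by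
      intro v hv
      obtain ⟨x1, x2, x3, y1, y2, y3, i1, i2, i3, n1, n2, n3, e1, e2, e3, e4, e5, e6,
        a1, a2, a3, a4, a5, a6, b1, b2, b3, b4, c1, c2⟩ := hS v hv
      obtain ⟨k, hk1, hk2⟩ := rep L h0 0 x1
      rw [abs_le] at c1 c2
      refine ⟨(((x1 + k * L).toNat, (y1 - x1).toNat), (((x2 - x1).toNat, (x3 - x2).toNat),
        ((y2 - y1) - (x2 - x1), (y3 - y2) - (x3 - x2)))), ?_,
        x1 + k * L, x2 + k * L, x3 + k * L, y1 + k * L, y2 + k * L, y3 + k * L, i1, i2, i3, ?_⟩
      · simp only [mem_product, mem_range, mem_Icc]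
        refine ⟨⟨by omega, by omega⟩, ⟨⟨by omega, by omega⟩, by omega, by omega⟩,
          ⟨by omega, by omega⟩, by omega, by omega⟩
      · simp only
        simp only [ext_shift]
        refine ⟨by omega, by omega, by omega, by omega, by omega, by omega, n1, n2, n3, e1, e2, e3,
          e4, e5, e6, by omega, by omega, by omega, by omega, by omega, by omega⟩)
      ((Fintype.card B + 1) ^ (L - 3)) (by
      rintro ⟨⟨px, pa⟩, ⟨⟨pe1, pe2⟩, ⟨pf1, pf2⟩⟩⟩ hp S' _ hS'
      simp only at hp hS'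
      rcases S'.eq_empty_or_nonempty with rfl | ⟨v0, hv0⟩
      · simp
      obtain ⟨x1, x2, x3, y1, y2, y3, i1, i2, i3, q1, q2, q3, q4, q5, q6, n1, n2, n3, e1, e2, e3,
        e4, e5, e6, a1, a2, a3, a4, a5, a6⟩ := hS' v0 hv0
      have hxy : ∀ x y : ℤ, x < y → y < x + L → idx L x ≠ idx L y := by
        intro x y h1 h2
        rw [Ne, idx_eq_iff]
        intro hd
        have : x - y = 0 := Int.eq_zero_of_abs_lt_dvd hd (by
          rw [abs_lt]; constructor <;> omega)
        omega
      have hlet : ∀ (x y : ℤ) (i j : B), ext L v0 x = some i → ext L v0 y = some j → i ≠ j →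
          idx L x ≠ idx L y := by
        intro x y i j h1 h2 h3 h4
        unfold ext at h1 h2
        rw [h4, h2] at h1
        exact h3 (Option.some.inj h1).symm
      have h2 := card_determined L S' {idx L y1, idx L y2, idx L y3} (by
        intro v hv v' hv' hag
        obtain ⟨x1', x2', x3', y1', y2', y3', i1', i2', i3', q1', q2', q3', q4', q5', q6', n1', n2',
          n3', e1', e2', e3', e4', e5', e6', _⟩ := hS' v hv
        obtain ⟨x1'', x2'', x3'', y1'', y2'', y3'', i1'', i2'', i3'', q1'', q2'', q3'', q4'', q5'',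
          q6'', n1'', n2'', n3'', e1'', e2'', e3'', e4'', e5'', e6'', _⟩ := hS' v' hv'
        have r1 : x1' = x1 := by omega
        have r2 : x2' = x2 := by omega
        have r3 : x3' = x3 := by omega
        have r4 : y1' = y1 := by omega
        have r5 : y2' = y2 := by omega
        have r6 : y3' = y3 := by omega
        have r1' : x1'' = x1 := by omega
        have r2' : x2'' = x2 := by omega
        have r3' : x3'' = x3 := by omega
        have r4' : y1'' = y1 := by omega
        have r5' : y2'' = y2 := by omega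
        have r6' : y3'' = y3 := by omega
        rw [r1] at e1'
        rw [r2] at e3'
        rw [r3] at e5'
        rw [r4] at e2'
        rw [r5] at e4'
        rw [r6] at e6'
        rw [r1'] at e1''
        rw [r2'] at e3''
        rw [r3'] at e5''
        rw [r4'] at e2''
        rw [r5'] at e4''
        rw [r6'] at e6''
        have k1 : v (idx L x1) = v' (idx L x1) := hag _ (by
          simp only [mem_insert, mem_singleton, not_or]
          exact ⟨hxy _ _ a1 a2, hlet _ _ _ _ e1 e4 n1, hlet _ _ _ _ e1 e6 n2⟩)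
        have k2 : v (idx L x2) = v' (idx L x2) := hag _ (by
          simp only [mem_insert, mem_singleton, not_or]
          exact ⟨hlet _ _ _ _ e3 e2 n1.symm, hxy _ _ a3 a4, hlet _ _ _ _ e3 e6 n3⟩)
        have k3 : v (idx L x3) = v' (idx L x3) := hag _ (by
          simp only [mem_insert, mem_singleton, not_or]
          exact ⟨hlet _ _ _ _ e5 e2 n2.symm, hlet _ _ _ _ e5 e4 n3.symm, hxy _ _ a5 a6⟩)
        unfold ext at e1' e2' e3' e4' e5' e6' e1'' e2'' e3'' e4'' e5'' e6''
        funext j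
        by_cases hj : j ∈ ({idx L y1, idx L y2, idx L y3} : Finset (Fin L))
        · simp only [mem_insert, mem_singleton] at hj
          rcases hj with rfl | rfl | rfl
          · rw [e2', ← e1', k1, e1'', e2'']
          · rw [e4', ← e3', k2, e3'', e4'']
          · rw [e6', ← e5', k3, e5'', e6'']
        · exact hag j hj)
      have h3 : ({idx L y1, idx L y2, idx L y3} : Finset (Fin L)).card = 3 := by
        rw [card_insert_of_notMem, card_insert_of_notMem, card_singleton]
        · simp only [mem_singleton]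
          exact hlet _ _ _ _ e4 e6 n3
        · simp only [mem_insert, mem_singleton, not_or]
          exact ⟨hlet _ _ _ _ e2 e4 n1, hlet _ _ _ _ e2 e6 n2⟩
      rwa [h3] at h2)
  rw [card_product, card_product, card_product, card_product, card_product, card_range,
    Nat.card_Icc, Int.card_Icc] at h1
  simpa using h1

lemma card_letter (L : ℕ) [NeZero L] (v : Fin L → Option B) (i : B) :
    ((Ico (0 : ℤ) L).filter (fun j => ext L v j = some i)).card
      = (univ.filter (fun j : Fin L => v j = some i)).card := by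
  symm
  apply card_bij (fun (j : Fin L) _ => ((j : ℕ) : ℤ))
  · intro j hj
    simp only [mem_filter, mem_univ, true_and, mem_Ico] at hj ⊢
    refine ⟨⟨by omega, by have := j.2; omega⟩, ?_⟩
    unfold ext
    rw [idx_fin]
    exact hj
  · intro a _ b _ hab
    apply Fin.ext
    exact_mod_cast hab
  · intro j hj
    simp only [mem_filter, mem_Ico] at hj
    refine ⟨⟨j.toNat, by omega⟩, ?_, Int.toNat_of_nonneg hj.1.1⟩
    simp only [mem_filter, mem_univ, true_and]
    have := hj.2
    unfold ext at this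
    rw [← this, ← idx_nat]
    rw [Int.toNat_of_nonneg hj.1.1]

lemma F1_le (L R : ℕ) [NeZero L] (S : Finset (Fin L → Option B))
    (hS : ∀ v ∈ S, ∃ i, R < ((Ico (0 : ℤ) L).filter (fun j => ext L v j = some i)).card) :
    S.card ≤ Fintype.card B * (L.choose (R + 1)) * (Fintype.card B + 1) ^ (L - (R + 1)) := by
  have h1 := union_bound ((univ : Finset B) ×ˢ ((univ : Finset (Fin L)).powersetCard (R + 1))) S
    (fun p v => ∀ j ∈ p.2, v j = some p.1) (by
      intro v hv
      obtain ⟨i, hi⟩ := hS v hv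
      rw [card_letter] at hi
      obtain ⟨A, hA1, hA2⟩ := exists_subset_card_eq (show R + 1 ≤ _ from hi)
      refine ⟨(i, A), ?_, ?_⟩
      · rw [mem_product, mem_powersetCard]
        exact ⟨mem_univ _, subset_univ _, hA2⟩
      · intro j hj
        exact (mem_filter.mp (hA1 hj)).2) ((Fintype.card B + 1) ^ (L - (R + 1))) (by
      rintro ⟨i, A⟩ hp S' _ hS'
      rw [mem_product, mem_powersetCard] at hp
      have h2 := card_determined L S' A (by
        intro v hv v' hv' hag
        funext j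
        by_cases hj : j ∈ A
        · rw [hS' v hv j hj, hS' v' hv' j hj]
        · exact hag j hj)
      rwa [hp.2.2] at h2)
  rw [card_product, card_powersetCard, card_univ, card_univ, Fintype.card_fin] at h1
  exact h1

end GC70
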