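import Mathlib
import Pool.Agent.Helper70.GC.Words

/-!
# Single letters in a window: second moment
-/

set_option autoImplicit false

namespace GC70

open Finset

variable {B : Type} [Fintype B] [DecidableEq B]

/-- the letter at `j` occurs only once -/
def sg {L : ℕ} (v : Fin L → Option B) (j : Fin L) : Prop :=
  ∃ i, v j = some i ∧ ∀ k, k ≠ j → v k ≠ some i

instance {L : ℕ} (v : Fin L → Option B) (j : Fin L) : Decidable (sg v j) := by
  unfold sg
  infer_instance

lemma prod_two {L : ℕ} (t j : Fin L) (htj : t ≠ j) (b : ℕ) :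
    ∏ k : Fin L, (if k = t then 1 else if k = j then 1 else b) = b ^ (L - 2) := by
  have h1 : ∀ k : Fin L, (if k = t then 1 else if k = j then 1 else b)
      = if (k ∈ ({t, j} : Finset (Fin L))) then 1 else b := by
    intro k
    simp only [mem_insert, mem_singleton]
    by_cases h1 : k = t
    · simp [h1]
    · by_cases h2 : k = j
      · simp [h2]
      · simp [h1, h2]
  rw [prod_congr rfl (fun k _ => h1 k), prod_ite, prod_const_one, one_mul, prod_const]
  congr 1
  have h2 : (univ.filter (fun k : Fin L => ¬ k ∈ ({t, j} : Finset (Fin L)))).card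
      = (univ : Finset (Fin L)).card - ({t, j} : Finset (Fin L)).card := by
    rw [filter_not, card_sdiff_of_subset (filter_subset _ _)]
    congr 1
    congr 1
    ext k
    simp
  rw [h2, card_univ, Fintype.card_fin, card_pair htj]

lemma prod_three {L : ℕ} (t j k : Fin L) (htj : t ≠ j) (htk : t ≠ k) (hjk : j ≠ k) (b : ℕ) :
    ∏ x : Fin L, (if x = t then 1 else if x = j then 1 else if x = k then 1 else b)
      = b ^ (L - 3) := by
  have h1 : ∀ x : Fin L, (if x = t then 1 else if x = j then 1 else if x = k then 1 else b)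
      = if (x ∈ ({t, j, k} : Finset (Fin L))) then 1 else b := by
    intro x
    simp only [mem_insert, mem_singleton]
    by_cases h1 : x = t
    · simp [h1]
    · by_cases h2 : x = j
      · simp [h2]
      · by_cases h3 : x = k
        · simp [h3]
        · simp [h1, h2, h3]
  rw [prod_congr rfl (fun k _ => h1 k), prod_ite, prod_const_one, one_mul, prod_const]
  congr 1
  have h2 : (univ.filter (fun x : Fin L => ¬ x ∈ ({t, j, k} : Finset (Fin L)))).card
      = (univ : Finset (Fin L)).card - ({t, j, k} : Finset (Fin L)).card := by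
    rw [filter_not, card_sdiff_of_subset (filter_subset _ _)]
    congr 1
    congr 1
    ext k
    simp
  have h3 : ({t, j, k} : Finset (Fin L)).card = 3 := by
    rw [card_insert_of_notMem, card_insert_of_notMem, card_singleton]
    · simp only [mem_singleton]
      exact hjk
    · simp only [mem_insert, mem_singleton, not_or]
      exact ⟨htj, htk⟩
  rw [h2, card_univ, Fintype.card_fin, h3]

omit [DecidableEq B] in
lemma card_A {L : ℕ} (t : Fin L) :
    (univ.filter (fun v : Fin L → Option B => v t = none)).card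
      = (Fintype.card B + 1) ^ (L - 1) := by
  have h1 : univ.filter (fun v : Fin L → Option B => v t = none)
      = Fintype.piFinset (fun k => if k = t then {none} else univ) := by
    ext v
    simp only [mem_filter, mem_univ, true_and, Fintype.mem_piFinset]
    constructor
    · intro h k
      by_cases hk : k = t
      · rw [if_pos hk, hk, h]
        simp
      · rw [if_neg hk]
        exact mem_univ _
    · intro h
      have := h t
      simpa using this
  rw [h1, Fintype.card_piFinset]
  have h2 : ∀ k : Fin L, (if k = t then ({none} : Finset (Option B)) else univ).card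
      = if k ∈ ({t} : Finset (Fin L)) then 1 else (Fintype.card B + 1) := by
    intro k
    by_cases hk : k = t
    · simp [hk]
    · simp [hk]
  rw [prod_congr rfl (fun k _ => h2 k), prod_ite, prod_const_one, one_mul, prod_const]
  congr 1
  have h3 : (univ.filter (fun x : Fin L => ¬ x ∈ ({t} : Finset (Fin L)))).card
      = (univ : Finset (Fin L)).card - ({t} : Finset (Fin L)).card := by
    rw [filter_not, card_sdiff_of_subset (filter_subset _ _)]
    congr 1
    congr 1
    ext k
    simp
  rw [h3, card_univ, Fintype.card_fin, card_singleton]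

lemma card_sg {L : ℕ} (t j : Fin L) (htj : t ≠ j) :
    (univ.filter (fun v : Fin L → Option B => v t = none ∧ sg v j)).card
      = Fintype.card B * Fintype.card B ^ (L - 2) := by
  set F : B → Fin L → Finset (Option B) := fun i k =>
    if k = t then {none} else if k = j then {some i} else univ.erase (some i) with hF
  have h1 : univ.filter (fun v : Fin L → Option B => v t = none ∧ sg v j)
      = univ.biUnion (fun i : B => Fintype.piFinset (F i)) := by
    ext v
    simp only [mem_filter, mem_univ, true_and, mem_biUnion, Fintype.mem_piFinset]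
    constructor
    · rintro ⟨h, i, hi, hi'⟩
      refine ⟨i, ?_⟩
      intro k
      simp only [hF]
      by_cases hk : k = t
      · rw [if_pos hk, hk, h]
        simp
      · rw [if_neg hk]
        by_cases hk' : k = j
        · rw [if_pos hk', hk', hi]
          simp
        · rw [if_neg hk', mem_erase]
          exact ⟨hi' k hk', mem_univ _⟩
    · rintro ⟨i, hi⟩
      refine ⟨?_, i, ?_, ?_⟩
      · have := hi t
        simpa [hF] using this
      · have := hi j
        simp only [hF] at this
        rw [if_neg htj.symm, if_pos trivial, mem_singleton] at this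
        exact this
      · intro k hk
        have := hi k
        simp only [hF] at this
        by_cases hkt : k = t
        · rw [if_pos hkt, mem_singleton] at this
          rw [this]
          simp
        · rw [if_neg hkt, if_neg hk, mem_erase] at this
          exact this.1
  rw [h1, card_biUnion]
  · have h2 : ∀ i : B, (Fintype.piFinset (F i)).card = Fintype.card B ^ (L - 2) := by
      intro i
      rw [Fintype.card_piFinset, ← prod_two t j htj (Fintype.card B)]
      apply prod_congr rfl
      intro k _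
      simp only [hF]
      split_ifs
      · simp
      · simp
      · rw [card_erase_of_mem (mem_univ _), card_univ, Fintype.card_option]
        simp
    rw [sum_congr rfl (fun i _ => h2 i), sum_const, card_univ, smul_eq_mul]
  · intro i _ i' _ hne
    rw [Function.onFun, disjoint_left]
    intro v h1 h2
    rw [Fintype.mem_piFinset] at h1 h2
    have a1 := h1 j
    have a2 := h2 j
    simp only [hF] at a1 a2
    rw [if_neg htj.symm, if_pos trivial, mem_singleton] at a1 a2
    rw [a1] at a2
    exact hne (Option.some.inj a2)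

lemma card_sg2 {L : ℕ} (t j k : Fin L) (htj : t ≠ j) (htk : t ≠ k) (hjk : j ≠ k) :
    (univ.filter (fun v : Fin L → Option B => v t = none ∧ sg v j ∧ sg v k)).card
      ≤ (Fintype.card B * Fintype.card B - Fintype.card B) * (Fintype.card B - 1) ^ (L - 3) := by
  set F : B × B → Fin L → Finset (Option B) := fun p x =>
    if x = t then {none} else if x = j then {some p.1} else if x = k then {some p.2}
      else (univ.erase (some p.1)).erase (some p.2) with hF
  have h1 : univ.filter (fun v : Fin L → Option B => v t = none ∧ sg v j ∧ sg v k)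
      ⊆ (univ : Finset B).offDiag.biUnion (fun p : B × B => Fintype.piFinset (F p)) := by
    intro v
    simp only [mem_filter, mem_univ, true_and, mem_biUnion, Fintype.mem_piFinset, mem_offDiag]
    rintro ⟨h, ⟨i, hi, hi'⟩, ⟨i2, hi2, hi2'⟩⟩
    refine ⟨(i, i2), ?_, ?_⟩
    · rintro h12
      simp only at h12
      rw [← h12] at hi2
      exact hi' k hjk.symm hi2
    · intro x
      simp only [hF]
      by_cases hx : x = t
      · rw [if_pos hx, hx, h]
        simp
      · rw [if_neg hx]
        by_cases hx' : x = j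
        · rw [if_pos hx', hx', hi]
          simp
        · rw [if_neg hx']
          by_cases hx'' : x = k
          · rw [if_pos hx'', hx'', hi2]
            simp
          · rw [if_neg hx'', mem_erase, mem_erase]
            exact ⟨hi2' x hx'', hi' x hx', mem_univ _⟩
  refine (card_le_card h1).trans ?_
  have h3 : ((univ : Finset B).offDiag).card
      = Fintype.card B * Fintype.card B - Fintype.card B := by
    rw [offDiag_card, card_univ]
  rw [← h3]
  apply card_biUnion_le_card_mul
  rintro ⟨i, i'⟩ hp
  rw [mem_offDiag] at hp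
  rw [Fintype.card_piFinset, ← prod_three t j k htj htk hjk (Fintype.card B - 1)]
  apply le_of_eq
  apply prod_congr rfl
  intro x _
  simp only [hF]
  split_ifs
  · simp
  · simp
  · simp
  · rw [card_erase_of_mem, card_erase_of_mem (mem_univ _), card_univ, Fintype.card_option]
    · simp
    · rw [mem_erase]
      refine ⟨?_, mem_univ _⟩
      intro h
      exact hp.2.2 (Option.some.inj h).symm

lemma pow_ineq (b L : ℕ) (hb : 2 ≤ b) (hL : 3 ≤ L) :
    (((b * b - b) * (b - 1) ^ (L - 3) : ℕ) : ℝ) * ((b : ℝ) + 1) ^ (L - 1)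
      ≤ ((b : ℝ) * (b : ℝ) ^ (L - 2)) ^ 2 * (1 + 1 / b) := by
  obtain ⟨n, rfl⟩ : ∃ n, L = n + 3 := ⟨L - 3, by omega⟩
  have hb0 : (0 : ℝ) < b := by
    have : 0 < b := by omega
    exact_mod_cast this
  have e1 : (((b * b - b) * (b - 1) ^ (n + 3 - 3) : ℕ) : ℝ)
      = ((b : ℝ) * b - b) * ((b : ℝ) - 1) ^ n := by
    rw [Nat.cast_mul, Nat.cast_sub (by nlinarith), Nat.cast_pow, Nat.cast_sub (by omega)]
    push_cast
    simp
  rw [e1, show n + 3 - 1 = n + 2 by omega, show n + 3 - 2 = n + 1 by omega]
  have hb1 : (0 : ℝ) ≤ (b : ℝ) - 1 := by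
    have : (1 : ℝ) ≤ b := by exact_mod_cast (by omega : 1 ≤ b)
    linarith
  have h1 : ((b : ℝ) - 1) ^ (n + 1) * ((b : ℝ) + 1) ^ (n + 1) ≤ ((b : ℝ) ^ 2) ^ (n + 1) := by
    rw [← mul_pow]
    apply pow_le_pow_left₀ (by positivity)
    nlinarith
  calc ((b : ℝ) * b - b) * ((b : ℝ) - 1) ^ n * ((b : ℝ) + 1) ^ (n + 2)
      = b * (b + 1) * (((b : ℝ) - 1) ^ (n + 1) * ((b : ℝ) + 1) ^ (n + 1)) := by ring
    _ ≤ b * (b + 1) * ((b : ℝ) ^ 2) ^ (n + 1) :=
        mul_le_mul_of_nonneg_left h1 (by positivity)
    _ = ((b : ℝ) * (b : ℝ) ^ (n + 1)) ^ 2 * (1 + 1 / b) := by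
        field_simp
        rw [← pow_mul, ← pow_mul, mul_comm]

theorem few_singles {L : ℕ} (hL : 3 ≤ L) (hb : 2 ≤ Fintype.card B) (t : Fin L)
    (Y : Finset (Fin L)) (htY : t ∉ Y) (μ : ℝ)
    (hμ : μ = Y.card * ((Fintype.card B : ℝ) / (Fintype.card B + 1)) ^ (L - 1)) (hμ4 : 4 ≤ μ) :
    ((univ.filter (fun v : Fin L → Option B => v t = none ∧ (Y.filter (fun j => sg v j)).card ≤ 2)).card : ℝ)
      ≤ ((Fintype.card B : ℝ) + 1) ^ (L - 1) * (4 * (1 / μ + 1 / Fintype.card B)) := by
  set b := Fintype.card B with hbdef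
  have hb0 : (0 : ℝ) < b := by
    have : 0 < b := by omega
    exact_mod_cast this
  set A := univ.filter (fun v : Fin L → Option B => v t = none) with hA
  set M : ℝ := ((b : ℝ) + 1) ^ (L - 1) with hM
  have hM0 : 0 < M := by positivity
  have hAcard : (A.card : ℝ) = M := by
    rw [hA, card_A, ← hbdef]
    push_cast
    rfl
  set P : ℝ := (b : ℝ) * (b : ℝ) ^ (L - 2) with hP
  have hPpow : P = (b : ℝ) ^ (L - 1) := by
    rw [hP, ← pow_succ']
    congr 1
    omega
  set ind : Fin L → (Fin L → Option B) → ℝ := fun j v => if sg v j then 1 else 0 with hind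
  set n : (Fin L → Option B) → ℝ := fun v => ((Y.filter (fun j => sg v j)).card : ℝ) with hn
  have hn' : ∀ v, n v = ∑ j ∈ Y, ind j v := by
    intro v
    simp only [hn, hind]
    rw [sum_ite, sum_const_zero, add_zero, sum_const, nsmul_eq_mul, mul_one]
  have hsum1 : ∀ j ∈ Y, ∑ v ∈ A, ind j v = P := by
    intro j hj
    simp only [hind]
    rw [sum_ite, sum_const_zero, add_zero, sum_const, nsmul_eq_mul, mul_one, hA, filter_filter,
      card_sg t j (by rintro rfl; exact htY hj)]
    push_cast
    rfl
  have hS1 : ∑ v ∈ A, n v = Y.card * P := by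
    simp_rw [hn']
    rw [sum_comm, sum_congr rfl hsum1, sum_const, nsmul_eq_mul]
  have hμM : μ * M = Y.card * P := by
    rw [hμ, hPpow, hM, div_pow]
    field_simp
  have hsum2 : ∀ j ∈ Y, ∀ k ∈ Y, ∑ v ∈ A, ind j v * ind k v
      ≤ (if j = k then P else 0) + P ^ 2 / M * (1 + 1 / b) := by
    intro j hj k hk
    by_cases hjk : j = k
    · subst hjk
      rw [if_pos rfl]
      have : ∀ v, ind j v * ind j v = ind j v := by
        intro v
        simp only [hind]
        split_ifs <;> simp
      simp_rw [this]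
      rw [hsum1 j hj]
      have : 0 ≤ P ^ 2 / M * (1 + 1 / b) := by positivity
      linarith
    · rw [if_neg hjk, zero_add]
      have e1 : ∑ v ∈ A, ind j v * ind k v
          = ((univ.filter (fun v : Fin L → Option B => v t = none ∧ sg v j ∧ sg v k)).card : ℝ) := by
        have : ∀ v, ind j v * ind k v = if (sg v j ∧ sg v k) then 1 else 0 := by
          intro v
          simp only [hind]
          by_cases h1 : sg v j <;> by_cases h2 : sg v k <;> simp [h1, h2]
        simp_rw [this]
        rw [sum_ite, sum_const_zero, add_zero, sum_const, nsmul_eq_mul, mul_one, hA, filter_filter]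
      rw [e1]
      have e2 := card_sg2 (B := B) t j k (by rintro rfl; exact htY hj)
        (by rintro rfl; exact htY hk) hjk
      have e3 := pow_ineq b L hb hL
      rw [div_mul_eq_mul_div, le_div_iff₀ hM0]
      refine le_trans (mul_le_mul_of_nonneg_right (Nat.cast_le.mpr e2) hM0.le) ?_
      exact e3
  have hS2 : ∑ v ∈ A, n v ^ 2 ≤ Y.card * P + Y.card ^ 2 * (P ^ 2 / M * (1 + 1 / b)) := by
    have e1 : ∀ v, n v ^ 2 = ∑ j ∈ Y, ∑ k ∈ Y, ind j v * ind k v := by
      intro v
      rw [hn', sq, sum_mul_sum]
    simp_rw [e1]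
    rw [sum_comm]
    have e2 : ∀ j ∈ Y, ∑ v ∈ A, ∑ k ∈ Y, ind j v * ind k v
        ≤ P + Y.card * (P ^ 2 / M * (1 + 1 / b)) := by
      intro j hj
      rw [sum_comm]
      refine (sum_le_sum (fun k hk => hsum2 j hj k hk)).trans ?_
      rw [sum_add_distrib, sum_ite_eq, if_pos hj, sum_const, nsmul_eq_mul]
    refine (sum_le_sum e2).trans ?_
    rw [sum_const, nsmul_eq_mul]
    apply le_of_eq
    ring
  have hvar : ∑ v ∈ A, (n v - μ) ^ 2 ≤ M * (μ + μ ^ 2 / b) := by
    have e1 : ∑ v ∈ A, (n v - μ) ^ 2
        = ∑ v ∈ A, n v ^ 2 - 2 * μ * ∑ v ∈ A, n v + μ ^ 2 * A.card := by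
      have : ∀ v, (n v - μ) ^ 2 = n v ^ 2 - 2 * μ * n v + μ ^ 2 := fun v => by ring
      simp_rw [this]
      rw [sum_add_distrib, sum_sub_distrib, mul_sum, sum_const, nsmul_eq_mul]
      ring
    rw [e1, hS1, hAcard, ← hμM]
    have e2 : (Y.card : ℝ) ^ 2 * (P ^ 2 / M * (1 + 1 / b)) = M * (μ ^ 2 + μ ^ 2 / b) := by
      have : (Y.card : ℝ) ^ 2 * P ^ 2 = (μ * M) ^ 2 := by rw [hμM]; ring
      calc (Y.card : ℝ) ^ 2 * (P ^ 2 / M * (1 + 1 / b))
          = ((Y.card : ℝ) ^ 2 * P ^ 2) / M * (1 + 1 / b) := by ring
        _ = M * (μ ^ 2 + μ ^ 2 / b) := by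
            rw [this]
            field_simp
    rw [← hμM, e2] at hS2
    nlinarith
  -- Chebyshev
  set Z := univ.filter (fun v : Fin L → Option B => v t = none ∧ (Y.filter (fun j => sg v j)).card ≤ 2)
    with hZ
  have hZA : Z ⊆ A := by
    intro v hv
    rw [hZ, mem_filter] at hv
    rw [hA, mem_filter]
    exact ⟨hv.1, hv.2.1⟩
  have hZn : ∀ v ∈ Z, (μ / 2) ^ 2 ≤ (n v - μ) ^ 2 := by
    intro v hv
    rw [hZ, mem_filter] at hv
    have h1 : n v ≤ 2 := by
      simp only [hn]
      exact_mod_cast hv.2.2
    nlinarith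
  have hZs : (Z.card : ℝ) * (μ / 2) ^ 2 ≤ M * (μ + μ ^ 2 / b) := by
    calc (Z.card : ℝ) * (μ / 2) ^ 2 = ∑ v ∈ Z, (μ / 2) ^ 2 := by
          rw [sum_const, nsmul_eq_mul]
      _ ≤ ∑ v ∈ Z, (n v - μ) ^ 2 := sum_le_sum hZn
      _ ≤ ∑ v ∈ A, (n v - μ) ^ 2 :=
          sum_le_sum_of_subset_of_nonneg hZA (fun _ _ _ => sq_nonneg _)
      _ ≤ M * (μ + μ ^ 2 / b) := hvar
  have hμ0 : 0 < μ := by linarith
  have h1 : (Z.card : ℝ) ≤ M * (μ + μ ^ 2 / b) / (μ / 2) ^ 2 := by
    rw [le_div_iff₀ (by positivity)]
    exact hZs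
  refine h1.trans (le_of_eq ?_)
  field_simp
  norm_num

end GC70
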