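import Mathlib
import Pool.Agent.Helper70.GC.Second

/-!
# The number of zero letters
-/

set_option autoImplicit false

namespace GC70

open Finset

variable {B : Type} [Fintype B] [DecidableEq B]

/-- number of zero letters -/
def nz0 {L : ℕ} (v : Fin L → Option B) : ℕ := (univ.filter (fun j => v j = none)).card

lemma card_zeroset {L : ℕ} (Z : Finset (Fin L)) :
    (univ.filter (fun v : Fin L → Option B => univ.filter (fun j => v j = none) = Z)).card
      = Fintype.card B ^ (L - Z.card) := by
  have h1 : univ.filter (fun v : Fin L → Option B => univ.filter (fun j => v j = none) = Z)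
      = Fintype.piFinset (fun k => if k ∈ Z then {none} else univ.erase none) := by
    ext v
    simp only [mem_filter, mem_univ, true_and, Fintype.mem_piFinset]
    constructor
    · intro h k
      by_cases hk : k ∈ Z
      · rw [if_pos hk]
        rw [← h, mem_filter] at hk
        rw [hk.2]
        simp
      · rw [if_neg hk, mem_erase]
        refine ⟨?_, mem_univ _⟩
        intro hv
        apply hk
        rw [← h, mem_filter]
        exact ⟨mem_univ _, hv⟩
    · intro h
      ext k
      simp only [mem_filter, mem_univ, true_and]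
      have := h k
      by_cases hk : k ∈ Z
      · rw [if_pos hk, mem_singleton] at this
        exact ⟨fun _ => hk, fun _ => this⟩
      · rw [if_neg hk, mem_erase] at this
        exact ⟨fun h' => absurd h' this.1, fun h' => absurd h' hk⟩
  rw [h1, Fintype.card_piFinset]
  have h2 : ∀ k : Fin L, (if k ∈ Z then ({none} : Finset (Option B)) else univ.erase none).card
      = if k ∈ Z then 1 else (Fintype.card B) := by
    intro k
    by_cases hk : k ∈ Z
    · rw [if_pos hk, if_pos hk, card_singleton]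
    · rw [if_neg hk, if_neg hk, card_erase_of_mem (mem_univ _), card_univ, Fintype.card_option]
      simp
  rw [prod_congr rfl (fun k _ => h2 k), prod_ite, prod_const_one, one_mul, prod_const]
  congr 1
  have h3 : (univ.filter (fun x : Fin L => ¬ x ∈ Z)).card
      = (univ : Finset (Fin L)).card - Z.card := by
    rw [filter_not, card_sdiff_of_subset (filter_subset _ _)]
    congr 1
    congr 1
    ext k
    simp
  rw [h3, card_univ, Fintype.card_fin]

lemma sum_nz0 {L : ℕ} (f : ℕ → ℝ) :
    ∑ v : Fin L → Option B, f (nz0 v)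
      = ∑ j ∈ range (L + 1), (L.choose j : ℝ) * (f j * (Fintype.card B : ℝ) ^ (L - j)) := by
  have h1 : ∑ v : Fin L → Option B, f (nz0 v)
      = ∑ Z ∈ (univ : Finset (Fin L)).powerset, ∑ v ∈ univ.filter
        (fun v : Fin L → Option B => univ.filter (fun j => v j = none) = Z), f (nz0 v) := by
    rw [sum_fiberwise_of_maps_to]
    intro v _
    simp
  rw [h1]
  have h2 : ∀ Z ∈ (univ : Finset (Fin L)).powerset, ∑ v ∈ univ.filter
        (fun v : Fin L → Option B => univ.filter (fun j => v j = none) = Z), f (nz0 v)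
        = f Z.card * (Fintype.card B : ℝ) ^ (L - Z.card) := by
    intro Z _
    have h3 : ∀ v ∈ univ.filter
        (fun v : Fin L → Option B => univ.filter (fun j => v j = none) = Z), f (nz0 v) = f Z.card := by
      intro v hv
      rw [mem_filter] at hv
      unfold nz0
      rw [hv.2]
    rw [sum_congr rfl h3, sum_const, nsmul_eq_mul, card_zeroset]
    push_cast
    ring
  rw [sum_congr rfl h2, sum_powerset_apply_card (fun j => f j * (Fintype.card B : ℝ) ^ (L - j)),
    card_univ, Fintype.card_fin]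
  apply sum_congr rfl
  intro j _
  rw [nsmul_eq_mul]

/-- binomial terms -/
noncomputable def Nb (n b j : ℕ) : ℝ := (n.choose j : ℝ) * (b : ℝ) ^ (n - j)

lemma Nb_nonneg (n b j : ℕ) : 0 ≤ Nb n b j := by unfold Nb; positivity

lemma Nb_succ (n b j : ℕ) (hj : j ≤ n) :
    ((j : ℝ) + 1) * b * Nb n b (j + 1) = ((n : ℝ) - j) * Nb n b j := by
  unfold Nb
  rcases Nat.lt_or_ge j n with h | h
  · have h1 := Nat.choose_succ_right_eq n j
    have h2 : ((n.choose (j + 1) : ℕ) : ℝ) * ((j : ℝ) + 1) = (n.choose j : ℝ) * ((n : ℝ) - j) := by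
      have := congrArg (Nat.cast (R := ℝ)) h1
      rw [Nat.cast_mul, Nat.cast_mul, Nat.cast_sub hj] at this
      push_cast at this
      exact this
    have h3 : (b : ℝ) ^ (n - j) = b * (b : ℝ) ^ (n - (j + 1)) := by
      rw [← pow_succ']
      congr 1
      omega
    rw [h3]
    calc ((j : ℝ) + 1) * b * ((n.choose (j + 1) : ℝ) * (b : ℝ) ^ (n - (j + 1)))
        = ((n.choose (j + 1) : ℝ) * ((j : ℝ) + 1)) * (b * (b : ℝ) ^ (n - (j + 1))) := by ring
      _ = _ := by rw [h2]; ring
  · have : j = n := by omega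
    subst this
    simp

lemma pairing (n b l : ℕ) (hb : 2 ≤ b) (hl : 1 ≤ l) (hn : l * (b + 1) ≤ n) :
    ∀ i ≤ l, ((l : ℝ) / (l + 1)) ^ (2 * i + 1) * Nb n b (l - i) ≤ Nb n b (l + 1 + i) := by
  have hb0 : (2 : ℝ) ≤ b := by exact_mod_cast hb
  have hl0 : (1 : ℝ) ≤ l := by exact_mod_cast hl
  have hn0 : (l : ℝ) * (b + 1) ≤ n := by exact_mod_cast hn
  have hln : 2 * l + 1 ≤ n := by nlinarith
  intro i
  induction i with
  | zero =>
    intro _
    have h1 := Nb_succ n b l (by omega)
    have h2 := Nb_nonneg n b l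
    simp only [mul_zero, zero_add, pow_one, Nat.sub_zero, add_zero]
    have h3 : (l : ℝ) * b * Nb n b l ≤ ((l : ℝ) + 1) * b * Nb n b (l + 1) := by
      rw [h1]
      apply mul_le_mul_of_nonneg_right _ h2
      nlinarith
    rw [div_mul_eq_mul_div, div_le_iff₀ (by positivity)]
    have hb' : (0 : ℝ) < b := by linarith
    have : (b : ℝ) * ((l : ℝ) * Nb n b l) ≤ b * (Nb n b (l + 1) * ((l : ℝ) + 1)) := by
      nlinarith
    exact le_of_mul_le_mul_left this hb'
  | succ i ih =>
    intro hi
    have ih := ih (by omega)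
    have h1 := Nb_succ n b (l + 1 + i) (by omega)
    have h2 := Nb_succ n b (l - (i + 1)) (by omega)
    rw [show l - (i + 1) + 1 = l - i by omega] at h2
    have c1 : ((l - (i + 1) : ℕ) : ℝ) = (l : ℝ) - i - 1 := by
      rw [Nat.cast_sub hi]; push_cast; ring
    rw [c1] at h2
    push_cast at h1
    set x := Nb n b (l + 1 + i + 1) with hx
    set y := Nb n b (l + 1 + i) with hy
    set u := Nb n b (l - i) with hu
    set v := Nb n b (l - (i + 1)) with hv
    have hv0 : 0 ≤ v := Nb_nonneg _ _ _
    have hu0 : 0 ≤ u := Nb_nonneg _ _ _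
    set r : ℝ := (l : ℝ) / (l + 1) with hr
    have hr0 : 0 < r := by positivity
    have hi0 : (i : ℝ) + 1 ≤ l := by exact_mod_cast hi
    have hb' : (0 : ℝ) < b := by linarith
    have hi' : (0 : ℝ) ≤ i := by positivity
    -- x in terms of y, u in terms of v
    have hden : (0 : ℝ) < ((l : ℝ) + 1 + i + 1) * b * (((l : ℝ) - i) * b) := by
      apply mul_pos
      · positivity
      · apply mul_pos _ hb'
        linarith
    have e1 : ((l : ℝ) + 1 + i + 1) * b * (((l : ℝ) - i) * b) * x
        = ((n : ℝ) - (l + 1 + i)) * (((l : ℝ) - i) * b * y) := by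
      linear_combination (((l : ℝ) - i) * b) * h1
    have e2 : ((l : ℝ) - i) * b * u = ((n : ℝ) - (l - i - 1)) * v := by
      linear_combination h2
    have hnl : 0 ≤ (n : ℝ) - (l + 1 + i) := by
      have : (2 * l + 1 : ℝ) ≤ n := by exact_mod_cast hln
      linarith
    have e3 : ((n : ℝ) - (l + 1 + i)) * (r ^ (2 * i + 1) * (((n : ℝ) - (l - i - 1)) * v))
        ≤ ((l : ℝ) + 1 + i + 1) * b * (((l : ℝ) - i) * b) * x := by
      rw [e1, ← e2]
      apply mul_le_mul_of_nonneg_left _ hnl
      have : r ^ (2 * i + 1) * (((l : ℝ) - i) * b * u) = ((l : ℝ) - i) * b * (r ^ (2 * i + 1) * u) := by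
        ring
      rw [this]
      apply mul_le_mul_of_nonneg_left ih
      apply mul_nonneg _ hb'.le
      linarith
    have e4 : r ^ 2 * (((l : ℝ) + 1 + i + 1) * b * (((l : ℝ) - i) * b))
        ≤ ((n : ℝ) - (l + 1 + i)) * ((n : ℝ) - (l - i - 1)) := by
      rw [hr, div_pow, div_mul_eq_mul_div, div_le_iff₀ (by positivity)]
      set t : ℝ := (i : ℝ) + 1 with ht
      have ht0 : 0 ≤ t := by positivity
      have k1 : ((l : ℝ) + 1 + i + 1) * b * (((l : ℝ) - i) * b)
          = (((l : ℝ) + 1) ^ 2 - t ^ 2) * (b : ℝ) ^ 2 := by rw [ht]; ring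
      have k2 : ((n : ℝ) - (l + 1 + i)) * ((n : ℝ) - (l - i - 1)) = ((n : ℝ) - l) ^ 2 - t ^ 2 := by
        rw [ht]; ring
      rw [k1, k2]
      have k3 : ((l : ℝ) * b) ^ 2 ≤ ((n : ℝ) - l) ^ 2 := by
        apply pow_le_pow_left₀ (by positivity)
        linarith
      have k4 : ((l : ℝ) + 1) ^ 2 ≤ ((l : ℝ) * b) ^ 2 := by
        apply pow_le_pow_left₀ (by positivity)
        nlinarith
      have k5 : 0 ≤ t ^ 2 := by positivity
      nlinarith [mul_nonneg (sub_nonneg.mpr k4) k5,
        mul_nonneg (sub_nonneg.mpr k3) (show (0 : ℝ) ≤ ((l : ℝ) + 1) ^ 2 by positivity)]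
    have e5 : r ^ 2 * (((l : ℝ) + 1 + i + 1) * b * (((l : ℝ) - i) * b)) * (r ^ (2 * i + 1) * v)
        ≤ ((l : ℝ) + 1 + i + 1) * b * (((l : ℝ) - i) * b) * x := by
      refine le_trans (mul_le_mul_of_nonneg_right e4 (by positivity)) ?_
      refine le_trans (le_of_eq ?_) e3
      ring
    have e6 : (((l : ℝ) + 1 + i + 1) * b * (((l : ℝ) - i) * b)) * (r ^ (2 * (i + 1) + 1) * v)
        ≤ (((l : ℝ) + 1 + i + 1) * b * (((l : ℝ) - i) * b)) * x := by
      refine le_trans (le_of_eq ?_) e5
      ring
    exact le_of_mul_le_mul_left e6 hden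

lemma binom_half (n b l : ℕ) (hb : 2 ≤ b) (hl : 1 ≤ l) (hn : l * (b + 1) ≤ n) :
    ((b : ℝ) + 1) ^ n ≤ 22 * ∑ j ∈ (range (n + 1)).filter (fun j => l + 1 ≤ j), Nb n b j := by
  have hln : 2 * l + 1 ≤ n := by nlinarith
  have htot : ((b : ℝ) + 1) ^ n = ∑ j ∈ range (n + 1), Nb n b j := by
    rw [add_comm, add_pow]
    apply sum_congr rfl
    intro j _
    unfold Nb
    rw [one_pow, one_mul, mul_comm]
  set H := ∑ j ∈ (range (n + 1)).filter (fun j => l + 1 ≤ j), Nb n b j with hH
  set Lo := ∑ j ∈ (range (n + 1)).filter (fun j => ¬ l + 1 ≤ j), Nb n b j with hLo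
  have hsplit : ((b : ℝ) + 1) ^ n = H + Lo := by
    rw [htot, hH, hLo, sum_filter_add_sum_filter_not]
  set r : ℝ := (l : ℝ) / (l + 1) with hr
  have hl0 : (1 : ℝ) ≤ l := by exact_mod_cast hl
  have hr0 : 0 < r := by positivity
  have hr1 : r ≤ 1 := by
    rw [hr, div_le_one (by positivity)]
    linarith
  have h1 : Lo = ∑ i ∈ range (l + 1), Nb n b (l - i) := by
    have h2 : (range (n + 1)).filter (fun j => ¬ l + 1 ≤ j) = range (l + 1) := by
      ext j
      simp only [mem_filter, mem_range]
      omega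
    rw [hLo, h2, ← sum_range_reflect]
    apply sum_congr rfl
    intro j hj
    congr 1
  have h2 : ∑ i ∈ range (l + 1), Nb n b (l + 1 + i) ≤ H := by
    have h3 : ∑ i ∈ range (l + 1), Nb n b (l + 1 + i)
        = ∑ j ∈ (range (l + 1)).image (fun i => l + 1 + i), Nb n b j := by
      rw [sum_image]
      intro a _ c _ h
      simp only at h
      omega
    rw [h3, hH]
    apply sum_le_sum_of_subset_of_nonneg
    · intro j hj
      simp only [mem_image, mem_range, mem_filter] at hj ⊢
      obtain ⟨i, hi, rfl⟩ := hj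
      omega
    · intro j _ _
      exact Nb_nonneg _ _ _
  have h3 : r ^ (2 * l + 1) * Lo ≤ H := by
    rw [h1, mul_sum]
    refine le_trans (sum_le_sum ?_) h2
    intro i hi
    rw [mem_range] at hi
    refine le_trans ?_ (pairing n b l hb hl hn i (by omega))
    apply mul_le_mul_of_nonneg_right _ (Nb_nonneg _ _ _)
    apply pow_le_pow_of_le_one hr0.le hr1
    omega
  have h4 : (1 : ℝ) / 21 ≤ r ^ (2 * l + 1) := by
    have h5 : r⁻¹ ≤ Real.exp (1 / l) := by
      rw [hr, inv_div]
      have := Real.add_one_le_exp (1 / (l : ℝ))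
      have h6 : ((l : ℝ) + 1) / l = 1 / l + 1 := by
        field_simp
        ring
      rw [h6]
      exact this
    have h6 : (r ^ (2 * l + 1))⁻¹ ≤ Real.exp 3 := by
      rw [← inv_pow]
      calc r⁻¹ ^ (2 * l + 1) ≤ Real.exp (1 / l) ^ (2 * l + 1) :=
            pow_le_pow_left₀ (by positivity) h5 _
        _ = Real.exp ((2 * l + 1) * (1 / l)) := by
            rw [← Real.exp_nat_mul]
            push_cast
            rfl
        _ ≤ Real.exp 3 := by
            apply Real.exp_le_exp.mpr
            rw [mul_one_div, div_le_iff₀ (by positivity)]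
            linarith
    have h7 : Real.exp 3 ≤ 21 := by
      have h8 : Real.exp 3 = Real.exp 1 ^ 3 := by
        rw [← Real.exp_nat_mul]
        norm_num
      rw [h8]
      have h9 := Real.exp_one_lt_d9
      have h10 := Real.exp_pos 1
      calc Real.exp 1 ^ 3 ≤ (2.7182818286 : ℝ) ^ 3 := pow_le_pow_left₀ h10.le h9.le 3
        _ ≤ 21 := by norm_num
    have h8 : (r ^ (2 * l + 1))⁻¹ ≤ 21 := h6.trans h7
    rw [one_div]
    rw [inv_le_comm₀ (by norm_num) (by positivity)]
    exact h8
  have hLo0 : 0 ≤ Lo := sum_nonneg (fun _ _ => Nb_nonneg _ _ _)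
  have h5 : (1 : ℝ) / 21 * Lo ≤ H := le_trans (mul_le_mul_of_nonneg_right h4 hLo0) h3
  rw [hsplit]
  linarith

/-- many words have more than `l` zero letters -/
lemma many_zeros {L l : ℕ} (hb : 2 ≤ Fintype.card B) (hl : 1 ≤ l)
    (hn : l * (Fintype.card B + 1) ≤ L) :
    ((Fintype.card B : ℝ) + 1) ^ L
      ≤ 22 * ((univ.filter (fun v : Fin L → Option B => l + 1 ≤ nz0 v)).card : ℝ) := by
  have h1 := binom_half L (Fintype.card B) l hb hl hn
  have h2 := sum_nz0 (B := B) (L := L) (fun j => if l + 1 ≤ j then 1 else 0)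
  have h3 : ∑ v : Fin L → Option B, (if l + 1 ≤ nz0 v then (1 : ℝ) else 0)
      = ((univ.filter (fun v : Fin L → Option B => l + 1 ≤ nz0 v)).card : ℝ) := by
    rw [sum_ite, sum_const_zero, add_zero, sum_const, nsmul_eq_mul, mul_one]
  rw [← h3, h2]
  refine h1.trans (le_of_eq ?_)
  congr 1
  rw [sum_filter]
  apply sum_congr rfl
  intro j _
  unfold Nb
  split_ifs <;> ring

omit [DecidableEq B] in
/-- few words have more than `U` zero letters -/
lemma few_zeros {L : ℕ} (U : ℕ) :
    U * ((univ.filter (fun v : Fin L → Option B => U < nz0 v)).card)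
      ≤ L * (Fintype.card B + 1) ^ (L - 1) := by
  classical
  have h1 : ∑ v : Fin L → Option B, nz0 v = L * (Fintype.card B + 1) ^ (L - 1) := by
    unfold nz0
    simp_rw [card_filter]
    rw [sum_comm]
    have : ∀ j : Fin L, ∑ v : Fin L → Option B, (if v j = none then 1 else 0)
        = (Fintype.card B + 1) ^ (L - 1) := by
      intro j
      rw [← card_filter]
      exact card_A j
    rw [sum_congr rfl (fun j _ => this j), sum_const, card_univ, Fintype.card_fin, smul_eq_mul]
  rw [← h1]
  calc U * ((univ.filter (fun v : Fin L → Option B => U < nz0 v)).card)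
      = ∑ v ∈ univ.filter (fun v : Fin L → Option B => U < nz0 v), U := by
        rw [sum_const, smul_eq_mul, mul_comm]
    _ ≤ ∑ v ∈ univ.filter (fun v : Fin L → Option B => U < nz0 v), nz0 v := by
        apply sum_le_sum
        intro v hv
        exact (mem_filter.mp hv).2.le
    _ ≤ ∑ v : Fin L → Option B, nz0 v :=
        sum_le_sum_of_subset (filter_subset _ _)

end GC70
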