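import Mathlib
import Pool.Agent.Helper70.GC.Binom

/-!
# Most words are typical
-/

set_option autoImplicit false

namespace GC70

open Finset

variable {B : Type} [Fintype B] [DecidableEq B]

/-- the good words -/
noncomputable def Gd (B : Type) [Fintype B] [DecidableEq B] (L R W U l : ℕ) [NeZero L] :
    Finset (Fin L → Option B) := by
  classical
  exact univ.filter (fun v => Typ (ext L v) L R W ∧ l + 1 ≤ nz0 v ∧ nz0 v ≤ U)

lemma mem_Gd {L R W U l : ℕ} [NeZero L] (v : Fin L → Option B) :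
    v ∈ Gd B L R W U l ↔ Typ (ext L v) L R W ∧ l + 1 ≤ nz0 v ∧ nz0 v ≤ U := by
  unfold Gd
  simp

lemma sg_sing {L : ℕ} [NeZero L] (v : Fin L → Option B) (p : ℤ) (h : sg v (idx L p)) :
    ∃ i, Sing (ext L v) L p i := by
  obtain ⟨i, h1, h2⟩ := h
  refine ⟨i, h1, ?_⟩
  intro j hj
  by_contra hcon
  have hne : idx L j ≠ idx L p := by
    rw [Ne, idx_eq_iff]
    exact hcon
  exact h2 _ hne hj

lemma three_of_card (E : Finset ℤ) (h : 3 ≤ E.card) : ∃ a ∈ E, ∃ b ∈ E, ∃ c ∈ E, a < b ∧ b < c := by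
  have h0 : E.Nonempty := card_pos.mp (by omega)
  set a := E.min' h0 with ha
  have haE : a ∈ E := min'_mem _ _
  have h1 : (E.erase a).card = E.card - 1 := card_erase_of_mem haE
  have h2 : (E.erase a).Nonempty := card_pos.mp (by omega)
  set b := (E.erase a).min' h2 with hb
  have hbE : b ∈ E.erase a := min'_mem _ _
  have h3 : ((E.erase a).erase b).card = (E.erase a).card - 1 := card_erase_of_mem hbE
  have h4 : ((E.erase a).erase b).Nonempty := card_pos.mp (by omega)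
  obtain ⟨c, hc⟩ := h4
  have hc1 := mem_of_mem_erase hc
  have hb1 := mem_of_mem_erase hbE
  refine ⟨a, haE, b, hb1, c, mem_of_mem_erase hc1, ?_, ?_⟩
  · have h5 := min'_le E b hb1
    rw [← ha] at h5
    have h6 := ne_of_mem_erase hbE
    omega
  · have h5 := min'_le (E.erase a) c hc1
    rw [← hb] at h5
    have h6 := ne_of_mem_erase hc
    omega

lemma F2_le (L W : ℕ) [NeZero L] (hL : 3 ≤ L) (hW : 2 * W < L) (hb : 2 ≤ Fintype.card B)
    (I : Finset ℤ) (hI : I.card = W) (hIW : ∀ e ∈ I, |e| ≤ W) (hI0 : (0 : ℤ) ∉ I)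
    (hμ4 : 4 ≤ (W : ℝ) * ((Fintype.card B : ℝ) / (Fintype.card B + 1)) ^ (L - 1))
    (S : Finset (Fin L → Option B))
    (hS : ∀ v ∈ S, ∃ t : ℤ, ext L v t = none ∧
      (I.filter (fun e => sg v (idx L (t + e)))).card ≤ 2) :
    (S.card : ℝ) ≤ L * (((Fintype.card B : ℝ) + 1) ^ (L - 1)
      * (4 * (1 / ((W : ℝ) * ((Fintype.card B : ℝ) / (Fintype.card B + 1)) ^ (L - 1))
        + 1 / Fintype.card B))) := by
  classical
  have h0 : 0 < L := Nat.pos_of_ne_zero (NeZero.ne L)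
  set Y : Fin L → Finset (Fin L) := fun t => I.image (fun e => idx L ((t : ℕ) + e)) with hY
  have hinj : ∀ t : Fin L, ∀ e ∈ I, ∀ e' ∈ I, idx L ((t : ℕ) + e) = idx L ((t : ℕ) + e') → e = e' := by
    intro t e he e' he' h
    rw [idx_eq_iff] at h
    have h1 := abs_le.mp (hIW e he)
    have h2 := abs_le.mp (hIW e' he')
    have : ((t : ℕ) : ℤ) + e - ((t : ℕ) + e') = 0 := Int.eq_zero_of_abs_lt_dvd h (by
      rw [abs_lt]; constructor <;> omega)
    omega
  have hYcard : ∀ t, (Y t).card = W := by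
    intro t
    rw [hY, ← hI]
    apply card_image_of_injOn
    intro e he e' he' h
    exact hinj t e he e' he' h
  have hYt : ∀ t, t ∉ Y t := by
    intro t ht
    rw [hY, mem_image] at ht
    obtain ⟨e, he, hte⟩ := ht
    have h1 : idx L ((t : ℕ) + e) = idx L ((t : ℕ) : ℤ) := by rw [hte, idx_fin]
    rw [idx_eq_iff] at h1
    have h2 := abs_le.mp (hIW e he)
    have : ((t : ℕ) : ℤ) + e - (t : ℕ) = 0 := Int.eq_zero_of_abs_lt_dvd h1 (by
      rw [abs_lt]; constructor <;> omega)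
    have : e = 0 := by omega
    rw [this] at he
    exact hI0 he
  set Z : Fin L → Finset (Fin L → Option B) := fun t =>
    univ.filter (fun v : Fin L → Option B => v t = none ∧ ((Y t).filter (fun j => sg v j)).card ≤ 2)
    with hZ
  have hsub : S ⊆ univ.biUnion Z := by
    intro v hv
    obtain ⟨t, ht1, ht2⟩ := hS v hv
    rw [mem_biUnion]
    refine ⟨idx L t, mem_univ _, ?_⟩
    rw [hZ, mem_filter]
    refine ⟨mem_univ _, ht1, ?_⟩
    refine le_trans ?_ ht2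
    have h1 : (Y (idx L t)).filter (fun j => sg v j)
        ⊆ (I.filter (fun e => sg v (idx L (t + e)))).image (fun e => idx L (t + e)) := by
      intro j hj
      rw [mem_filter, hY, mem_image] at hj
      obtain ⟨⟨e, he, hej⟩, hsg⟩ := hj
      have h2 : idx L (((idx L t : Fin L) : ℕ) + e) = idx L (t + e) := by
        rw [idx_eq_iff]
        have h3 : idx L (((idx L t : Fin L) : ℕ) : ℤ) = idx L t := idx_fin L _
        rw [idx_eq_iff] at h3
        rw [show (((idx L t : Fin L) : ℕ) : ℤ) + e - (t + e) = (((idx L t : Fin L) : ℕ) : ℤ) - t by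
          ring]
        exact h3
      rw [h2] at hej
      rw [mem_image]
      refine ⟨e, ?_, hej⟩
      rw [mem_filter]
      exact ⟨he, by rw [hej]; exact hsg⟩
    exact (card_le_card h1).trans card_image_le
  have h1 : (S.card : ℝ) ≤ ∑ t : Fin L, ((Z t).card : ℝ) := by
    have := (card_le_card hsub).trans card_biUnion_le
    exact_mod_cast this
  refine h1.trans ?_
  have h2 : ∀ t ∈ (univ : Finset (Fin L)), ((Z t).card : ℝ) ≤ ((Fintype.card B : ℝ) + 1) ^ (L - 1)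
      * (4 * (1 / ((W : ℝ) * ((Fintype.card B : ℝ) / (Fintype.card B + 1)) ^ (L - 1))
        + 1 / Fintype.card B)) := by
    intro t _
    exact few_singles hL hb t (Y t) (hYt t) _ (by rw [hYcard]) hμ4
  refine (sum_le_sum h2).trans ?_
  rw [sum_const, card_univ, Fintype.card_fin, nsmul_eq_mul]

lemma typ_of {L R W : ℕ} [NeZero L] (hW5 : 5 * W < L) (v : Fin L → Option B)
    (f1 : ¬ ∃ i, R < ((Ico (0 : ℤ) L).filter (fun j => ext L v j = some i)).card)
    (f2l : ¬ ∃ t : ℤ, ext L v t = none ∧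
      ((Icc (-(W : ℤ)) (-1)).filter (fun e => sg v (idx L (t + e)))).card ≤ 2)
    (f2r : ¬ ∃ t : ℤ, ext L v t = none ∧
      ((Icc (1 : ℤ) W).filter (fun e => sg v (idx L (t + e)))).card ≤ 2)
    (f3 : ¬ ∃ t t' : ℤ, ext L v t = none ∧ ext L v t' = none ∧ t < t' ∧ t' ≤ t + 5 * W)
    (f4 : ¬ ∃ (x1 x2 x3 y1 y2 y3 : ℤ) (i1 i2 i3 : B), i1 ≠ i2 ∧ i1 ≠ i3 ∧ i2 ≠ i3 ∧
      ext L v x1 = some i1 ∧ ext L v y1 = some i1 ∧ ext L v x2 = some i2 ∧ ext L v y2 = some i2 ∧
      ext L v x3 = some i3 ∧ ext L v y3 = some i3 ∧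
      x1 < y1 ∧ y1 < x1 + L ∧ x2 < y2 ∧ y2 < x2 + L ∧ x3 < y3 ∧ y3 < x3 + L ∧
      1 ≤ x2 - x1 ∧ x2 - x1 ≤ W ∧ 1 ≤ x3 - x2 ∧ x3 - x2 ≤ W ∧
      |(y2 - y1) - (x2 - x1)| ≤ 1 ∧ |(y3 - y2) - (x3 - x2)| ≤ 1)
    (f5 : ¬ ∃ (t1 t2 j1 j2 : ℤ) (i : B), ext L v t1 = none ∧ ext L v t2 = none ∧
      ¬ ((L : ℤ) ∣ t1 - t2) ∧ |j1 - t1| ≤ 2 * W ∧ |j2 - t2| ≤ 2 * W ∧
      ext L v j1 = some i ∧ ext L v j2 = some i ∧ ¬ ((L : ℤ) ∣ j1 - j2)) :
    Typ (ext L v) L R W where
  per := ext_per L v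
  t1 := fun i => by
    by_contra h
    exact f1 ⟨i, by omega⟩
  t2l := fun t ht => by
    have h1 : 3 ≤ ((Icc (-(W : ℤ)) (-1)).filter (fun e => sg v (idx L (t + e)))).card := by
      by_contra h
      exact f2l ⟨t, ht, by omega⟩
    obtain ⟨e, he⟩ := card_pos.mp (show 0 < ((Icc (-(W : ℤ)) (-1)).filter
      (fun e => sg v (idx L (t + e)))).card by omega)
    rw [mem_filter, mem_Icc] at he
    obtain ⟨i, hi⟩ := sg_sing v (t + e) he.2
    exact ⟨t + e, i, by omega, by omega, hi⟩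
  t2r := fun t ht => by
    have h1 : 3 ≤ ((Icc (1 : ℤ) W).filter (fun e => sg v (idx L (t + e)))).card := by
      by_contra h
      exact f2r ⟨t, ht, by omega⟩
    obtain ⟨a, ha, b, hb, c, hc, hab, hbc⟩ := three_of_card _ h1
    rw [mem_filter, mem_Icc] at ha hb hc
    obtain ⟨i1, h1⟩ := sg_sing v (t + a) ha.2
    obtain ⟨i2, h2⟩ := sg_sing v (t + b) hb.2
    obtain ⟨i3, h3⟩ := sg_sing v (t + c) hc.2
    exact ⟨t + a, t + b, t + c, i1, i2, i3, by omega, by omega, by omega, by omega, h1, h2, h3⟩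
  t3 := fun t t' ht ht' hlt => by
    by_contra h
    exact f3 ⟨t, t', ht, ht', hlt, by omega⟩
  t4 := fun x1 x2 x3 y1 y2 y3 i1 i2 i3 n1 n2 n3 e1 e2 e3 e4 e5 e6 a1 a2 a3 a4 a5 a6 b1 b2 b3 b4
      c1 c2 => f4 ⟨x1, x2, x3, y1, y2, y3, i1, i2, i3, n1, n2, n3, e1, e2, e3, e4, e5, e6, a1, a2,
        a3, a4, a5, a6, b1, b2, b3, b4, c1, c2⟩
  t5 := fun t1 t2 j1 j2 i e1 e2 e3 a1 a2 b1 b2 => by
    by_cases hj : (L : ℤ) ∣ j1 - j2
    · -- the two zero letters would be close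
      obtain ⟨k, hk⟩ := hj
      have h1 : ext L v (t2 + k * L) = none := by rw [ext_shift]; exact e2
      rw [abs_le] at a1 a2
      apply f3
      rcases lt_trichotomy t1 (t2 + k * L) with h | h | h
      · exact ⟨t1, t2 + k * L, e1, h1, h, by linarith⟩
      · exfalso
        exact e3 ⟨k, by linarith⟩
      · exact ⟨t2 + k * L, t1, h1, e1, h, by linarith⟩
    · exact f5 ⟨t1, t2, j1, j2, i, e1, e2, e3, a1, a2, b1, b2, hj⟩

theorem good_count (L l U W R K : ℕ) [NeZero L] (hb : 2 ≤ Fintype.card B) (hl : 1 ≤ l)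
    (hn : l * (Fintype.card B + 1) ≤ L) (hLK : L ≤ K * (Fintype.card B + 1)) (hW : 5 * W < L)
    (hW1 : 1 ≤ W) (hU : 1 ≤ U)
    (hμ4 : 4 ≤ (W : ℝ) * ((Fintype.card B : ℝ) / (Fintype.card B + 1)) ^ (L - 1)) :
    ((Fintype.card B : ℝ) + 1) ^ L * (1 / 22 - ((K : ℝ) / U
      + ((Fintype.card B : ℝ) + 1) * (K : ℝ) ^ (R + 1) / ((R + 1).factorial : ℝ)
      + 2 * (K * (4 * (1 / ((W : ℝ) * ((Fintype.card B : ℝ) / (Fintype.card B + 1)) ^ (L - 1))
        + 1 / Fintype.card B)))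
      + 5 * W * K / ((Fintype.card B : ℝ) + 1)
      + 9 * W ^ 2 * K ^ 2 / ((Fintype.card B : ℝ) + 1)
      + (4 * W + 1) ^ 2 * K ^ 2 / ((Fintype.card B : ℝ) + 1)))
      ≤ ((Gd B L R W U l).card : ℝ) := by
  classical
  set b := Fintype.card B with hbdef
  have hb0 : (0 : ℝ) < b := by
    have : 0 < b := by omega
    exact_mod_cast this
  set d : ℝ := (b : ℝ) + 1 with hd
  have hd0 : 0 < d := by positivity
  have hLpos : 0 < L := Nat.pos_of_ne_zero (NeZero.ne L)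
  have hL3 : 3 ≤ L := by nlinarith
  have hLKr : (L : ℝ) ≤ K * d := by
    rw [hd]
    exact_mod_cast hLK
  set μ : ℝ := (W : ℝ) * ((b : ℝ) / (b + 1)) ^ (L - 1) with hμ
  have hμ0 : 0 < μ := by linarith
  set S1 := univ.filter (fun v : Fin L → Option B => ∃ i, R < ((Ico (0 : ℤ) L).filter
    (fun j => ext L v j = some i)).card) with hS1
  set S2l := univ.filter (fun v : Fin L → Option B => ∃ t : ℤ, ext L v t = none ∧
      ((Icc (-(W : ℤ)) (-1)).filter (fun e => sg v (idx L (t + e)))).card ≤ 2) with hS2l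
  set S2r := univ.filter (fun v : Fin L → Option B => ∃ t : ℤ, ext L v t = none ∧
      ((Icc (1 : ℤ) W).filter (fun e => sg v (idx L (t + e)))).card ≤ 2) with hS2r
  set S3 := univ.filter (fun v : Fin L → Option B => ∃ t t' : ℤ, ext L v t = none ∧
    ext L v t' = none ∧ t < t' ∧ t' ≤ t + 5 * W) with hS3
  set S4 := univ.filter (fun v : Fin L → Option B =>
    ∃ (x1 x2 x3 y1 y2 y3 : ℤ) (i1 i2 i3 : B), i1 ≠ i2 ∧ i1 ≠ i3 ∧ i2 ≠ i3 ∧
      ext L v x1 = some i1 ∧ ext L v y1 = some i1 ∧ ext L v x2 = some i2 ∧ ext L v y2 = some i2 ∧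
      ext L v x3 = some i3 ∧ ext L v y3 = some i3 ∧
      x1 < y1 ∧ y1 < x1 + L ∧ x2 < y2 ∧ y2 < x2 + L ∧ x3 < y3 ∧ y3 < x3 + L ∧
      1 ≤ x2 - x1 ∧ x2 - x1 ≤ W ∧ 1 ≤ x3 - x2 ∧ x3 - x2 ≤ W ∧
      |(y2 - y1) - (x2 - x1)| ≤ 1 ∧ |(y3 - y2) - (x3 - x2)| ≤ 1) with hS4
  set S5 := univ.filter (fun v : Fin L → Option B =>
    ∃ (t1 t2 j1 j2 : ℤ) (i : B), ext L v t1 = none ∧ ext L v t2 = none ∧
      ¬ ((L : ℤ) ∣ t1 - t2) ∧ |j1 - t1| ≤ 2 * W ∧ |j2 - t2| ≤ 2 * W ∧
      ext L v j1 = some i ∧ ext L v j2 = some i ∧ ¬ ((L : ℤ) ∣ j1 - j2)) with hS5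
  set S0 := univ.filter (fun v : Fin L → Option B => U < nz0 v) with hS0
  set H := univ.filter (fun v : Fin L → Option B => l + 1 ≤ nz0 v) with hH
  have hsub : H ⊆ Gd B L R W U l ∪ (S0 ∪ (S1 ∪ (S2l ∪ (S2r ∪ (S3 ∪ (S4 ∪ S5)))))) := by
    intro v hv
    by_contra hcon
    simp only [mem_union, not_or] at hcon
    obtain ⟨h0, h1, h2, h3, h4, h5, h6, h7⟩ := hcon
    apply h0
    rw [mem_Gd]
    simp only [hS0, hS1, hS2l, hS2r, hS3, hS4, hS5, mem_filter, mem_univ, true_and] at h1 h2 h3 h4 h5 h6 h7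
    refine ⟨typ_of hW v h2 h3 h4 h5 h6 h7, (mem_filter.mp hv).2, by omega⟩
  have hcard : (H.card : ℝ) ≤ (Gd B L R W U l).card + (S0.card + (S1.card + (S2l.card
      + (S2r.card + (S3.card + (S4.card + S5.card)))))) := by
    have h1 := card_le_card hsub
    have h2 := card_union_le (Gd B L R W U l) (S0 ∪ (S1 ∪ (S2l ∪ (S2r ∪ (S3 ∪ (S4 ∪ S5))))))
    have h3 := card_union_le S0 (S1 ∪ (S2l ∪ (S2r ∪ (S3 ∪ (S4 ∪ S5)))))
    have h4 := card_union_le S1 (S2l ∪ (S2r ∪ (S3 ∪ (S4 ∪ S5))))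
    have h5 := card_union_le S2l (S2r ∪ (S3 ∪ (S4 ∪ S5)))
    have h6 := card_union_le S2r (S3 ∪ (S4 ∪ S5))
    have h7 := card_union_le S3 (S4 ∪ S5)
    have h8 := card_union_le S4 S5
    have h9 : H.card ≤ (Gd B L R W U l).card + (S0.card + (S1.card + (S2l.card
      + (S2r.card + (S3.card + (S4.card + S5.card)))))) := by omega
    exact_mod_cast h9
  have hHge : d ^ L ≤ 22 * (H.card : ℝ) := many_zeros hb hl hn
  -- the individual bounds
  have c0 : (S0.card : ℝ) ≤ d ^ L * ((K : ℝ) / U) := by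
    have h1 := few_zeros (B := B) (L := L) U
    have h2 : (U : ℝ) * S0.card ≤ L * d ^ (L - 1) := by
      rw [hd]
      exact_mod_cast h1
    have hU0 : (0 : ℝ) < U := by exact_mod_cast hU
    rw [mul_div_assoc', le_div_iff₀ hU0]
    calc (S0.card : ℝ) * U = (U : ℝ) * S0.card := by ring
      _ ≤ L * d ^ (L - 1) := h2
      _ ≤ (K * d) * d ^ (L - 1) := mul_le_mul_of_nonneg_right hLKr (by positivity)
      _ = d ^ L * K := by
          rw [mul_assoc, ← pow_succ']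
          rw [show L - 1 + 1 = L by omega]
          ring
  have c1 : (S1.card : ℝ) ≤ d ^ L * (d * (K : ℝ) ^ (R + 1) / ((R + 1).factorial : ℝ)) := by
    have h1 := F1_le L R S1 (fun v hv => (mem_filter.mp hv).2)
    have h2 : (S1.card : ℝ) ≤ (b : ℝ) * (L.choose (R + 1) : ℝ) * d ^ (L - (R + 1)) := by
      rw [hd]
      exact_mod_cast h1
    refine h2.trans ?_
    by_cases hRL : R + 1 ≤ L
    · have h3 := Nat.choose_le_pow_div (α := ℝ) (R + 1) L
      have h4 : (L : ℝ) ^ (R + 1) ≤ (K * d) ^ (R + 1) := pow_le_pow_left₀ (by positivity) hLKr _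
      have h5 : d ^ L = d ^ (R + 1) * d ^ (L - (R + 1)) := by
        rw [← pow_add]
        congr 1
        omega
      calc (b : ℝ) * (L.choose (R + 1) : ℝ) * d ^ (L - (R + 1))
          ≤ d * ((K * d) ^ (R + 1) / ((R + 1).factorial : ℝ)) * d ^ (L - (R + 1)) := by
            apply mul_le_mul_of_nonneg_right _ (by positivity)
            apply mul_le_mul (by linarith) _ (by positivity) (by positivity)
            refine h3.trans ?_
            exact div_le_div_of_nonneg_right h4 (by positivity)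
        _ = d ^ L * (d * (K : ℝ) ^ (R + 1) / ((R + 1).factorial : ℝ)) := by
            rw [h5, mul_pow]
            ring
    · rw [Nat.choose_eq_zero_of_lt (by omega)]
      simp only [Nat.cast_zero, mul_zero, zero_mul]
      positivity
  have hdL1 : d ^ L = d * d ^ (L - 1) := by
    rw [← pow_succ']
    congr 1
    omega
  have hdL2 : d ^ L = d ^ 2 * d ^ (L - 2) := by
    rw [← pow_add]
    congr 1
    omega
  have hdL3 : d ^ L = d ^ 3 * d ^ (L - 3) := by
    rw [← pow_add]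
    congr 1
    omega
  have c2gen : ∀ x : ℝ, 0 ≤ x → (L : ℝ) * (d ^ (L - 1) * x) ≤ d ^ L * (K * x) := by
    intro x hx
    rw [hdL1]
    calc (L : ℝ) * (d ^ (L - 1) * x) ≤ (K * d) * (d ^ (L - 1) * x) :=
          mul_le_mul_of_nonneg_right hLKr (by positivity)
      _ = _ := by ring
  have c2l : (S2l.card : ℝ) ≤ d ^ L * (K * (4 * (1 / μ + 1 / b))) := by
    refine le_trans (F2_le (B := B) L W hL3 (by omega) hb (Icc (-(W : ℤ)) (-1)) ?_ ?_ ?_ hμ4 S2l
      (fun v hv => (mem_filter.mp hv).2)) (c2gen _ (by positivity))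
    · rw [Int.card_Icc]
      omega
    · intro e he
      rw [mem_Icc] at he
      rw [abs_le]
      constructor <;> omega
    · simp
  have c2r : (S2r.card : ℝ) ≤ d ^ L * (K * (4 * (1 / μ + 1 / b))) := by
    refine le_trans (F2_le (B := B) L W hL3 (by omega) hb (Icc (1 : ℤ) W) ?_ ?_ ?_ hμ4 S2r
      (fun v hv => (mem_filter.mp hv).2)) (c2gen _ (by positivity))
    · rw [Int.card_Icc]
      omega
    · intro e he
      rw [mem_Icc] at he
      rw [abs_le]
      constructor <;> omega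
    · simp
  have c3 : (S3.card : ℝ) ≤ d ^ L * (5 * W * K / d) := by
    have h1 := F3_le L W hW S3 (fun v hv => (mem_filter.mp hv).2)
    have h2 : (S3.card : ℝ) ≤ (L : ℝ) * (5 * W) * d ^ (L - 2) := by
      rw [hd]
      exact_mod_cast h1
    refine h2.trans ?_
    rw [hdL2]
    calc (L : ℝ) * (5 * W) * d ^ (L - 2) ≤ (K * d) * (5 * W) * d ^ (L - 2) := by
          apply mul_le_mul_of_nonneg_right _ (by positivity)
          apply mul_le_mul_of_nonneg_right hLKr (by positivity)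
      _ = d ^ 2 * d ^ (L - 2) * (5 * W * K / d) := by
          field_simp
  have hLL : (L : ℝ) * L ≤ (K * d) * (K * d) := mul_le_mul hLKr hLKr (by positivity) (by positivity)
  have c4 : (S4.card : ℝ) ≤ d ^ L * (9 * W ^ 2 * K ^ 2 / d) := by
    have h1 := F4_le L W S4 (fun v hv => (mem_filter.mp hv).2)
    have h2 : (S4.card : ℝ) ≤ ((L : ℝ) * L) * ((W * W) * (3 * 3)) * d ^ (L - 3) := by
      rw [hd]
      exact_mod_cast h1
    refine h2.trans ?_
    rw [hdL3]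
    calc ((L : ℝ) * L) * ((W * W) * (3 * 3)) * d ^ (L - 3)
        ≤ ((K * d) * (K * d)) * ((W * W) * (3 * 3)) * d ^ (L - 3) := by
          apply mul_le_mul_of_nonneg_right _ (by positivity)
          apply mul_le_mul_of_nonneg_right hLL (by positivity)
      _ = d ^ 3 * d ^ (L - 3) * (9 * W ^ 2 * K ^ 2 / d) := by
          field_simp
          ring
  have c5 : (S5.card : ℝ) ≤ d ^ L * ((4 * W + 1) ^ 2 * K ^ 2 / d) := by
    have h1 := F5_le L W S5 (fun v hv => (mem_filter.mp hv).2)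
    have h2 : (S5.card : ℝ) ≤ ((L : ℝ) * L) * ((4 * W + 1) * (4 * W + 1)) * d ^ (L - 3) := by
      rw [hd]
      exact_mod_cast h1
    refine h2.trans ?_
    rw [hdL3]
    calc ((L : ℝ) * L) * ((4 * W + 1) * (4 * W + 1)) * d ^ (L - 3)
        ≤ ((K * d) * (K * d)) * ((4 * W + 1) * (4 * W + 1)) * d ^ (L - 3) := by
          apply mul_le_mul_of_nonneg_right _ (by positivity)
          apply mul_le_mul_of_nonneg_right hLL (by positivity)
      _ = d ^ 3 * d ^ (L - 3) * ((4 * W + 1) ^ 2 * K ^ 2 / d) := by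
          field_simp
  have e : d ^ L * (1 / 22 - ((K : ℝ) / U
      + d * (K : ℝ) ^ (R + 1) / ((R + 1).factorial : ℝ)
      + 2 * (K * (4 * (1 / μ + 1 / b)))
      + 5 * W * K / d
      + 9 * W ^ 2 * K ^ 2 / d
      + (4 * W + 1) ^ 2 * K ^ 2 / d))
      = d ^ L / 22 - (d ^ L * ((K : ℝ) / U) + (d ^ L * (d * (K : ℝ) ^ (R + 1) / ((R + 1).factorial : ℝ))
        + (d ^ L * (K * (4 * (1 / μ + 1 / b))) + (d ^ L * (K * (4 * (1 / μ + 1 / b)))
        + (d ^ L * (5 * W * K / d) + (d ^ L * (9 * W ^ 2 * K ^ 2 / d)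
        + d ^ L * ((4 * W + 1) ^ 2 * K ^ 2 / d))))))) := by ring
  rw [e]
  linarith

end GC70
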