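import Mathlib
import Pool.Agent.Helper70.GC.Good

/-!
# Chebyshev's inequality in counting form
-/

set_option autoImplicit false

namespace GC70

open Finset

theorem cheb {ι Ω : Type} [Fintype Ω] [DecidableEq Ω] (I : Finset ι) (a Dn : ι → ℝ)
    (E : ι → Finset Ω)
    (hE : ∀ i ∈ I, ((E i).card : ℝ) * Dn i = Fintype.card Ω) (hD : ∀ i ∈ I, 0 < Dn i)
    (bad : Finset Ω) (hbad : ∀ ω ∈ bad, ∀ i ∈ I, ω ∉ E i) (μ v : ℝ)
    (hμ : μ = ∑ i ∈ I, a i / Dn i)
    (hpair : ∑ i ∈ I, ∑ j ∈ I, a i * a j * ((E i ∩ E j).card : ℝ)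
      ≤ Fintype.card Ω * (μ ^ 2 + v)) :
    (bad.card : ℝ) * μ ^ 2 ≤ Fintype.card Ω * v := by
  set ind : ι → Ω → ℝ := fun i ω => if ω ∈ E i then 1 else 0 with hind
  set X : Ω → ℝ := fun ω => ∑ i ∈ I, a i * ind i ω with hX
  have h1 : ∑ ω, X ω = Fintype.card Ω * μ := by
    simp only [hX]
    rw [sum_comm, hμ, mul_sum]
    apply sum_congr rfl
    intro i hi
    rw [← mul_sum]
    have : ∑ ω, ind i ω = ((E i).card : ℝ) := by
      simp only [hind]
      rw [sum_ite_mem, univ_inter, sum_const, nsmul_eq_mul, mul_one]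
    rw [this, ← hE i hi]
    have := (hD i hi).ne'
    field_simp
  have h2 : ∑ ω, X ω ^ 2 = ∑ i ∈ I, ∑ j ∈ I, a i * a j * ((E i ∩ E j).card : ℝ) := by
    have e1 : ∀ ω, X ω ^ 2 = ∑ i ∈ I, ∑ j ∈ I, a i * a j * (ind i ω * ind j ω) := by
      intro ω
      simp only [hX]
      rw [sq, sum_mul_sum]
      apply sum_congr rfl
      intro i _
      apply sum_congr rfl
      intro j _
      ring
    simp_rw [e1]
    rw [sum_comm]
    apply sum_congr rfl
    intro i _
    rw [sum_comm]
    apply sum_congr rfl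
    intro j _
    rw [← mul_sum]
    congr 1
    have : ∀ ω, ind i ω * ind j ω = if ω ∈ E i ∩ E j then 1 else 0 := by
      intro ω
      simp only [hind, mem_inter]
      by_cases h1 : ω ∈ E i <;> by_cases h2 : ω ∈ E j <;> simp [h1, h2]
    simp_rw [this]
    rw [sum_ite_mem, univ_inter, sum_const, nsmul_eq_mul, mul_one]
  have h3 : ∑ ω, (X ω - μ) ^ 2 ≤ Fintype.card Ω * v := by
    have e1 : ∑ ω, (X ω - μ) ^ 2 = ∑ ω, X ω ^ 2 - 2 * μ * ∑ ω, X ω + μ ^ 2 * Fintype.card Ω := by
      have : ∀ ω, (X ω - μ) ^ 2 = X ω ^ 2 - 2 * μ * X ω + μ ^ 2 := fun ω => by ring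
      simp_rw [this]
      rw [sum_add_distrib, sum_sub_distrib, mul_sum, sum_const, card_univ, nsmul_eq_mul]
      ring
    rw [e1, h1, h2]
    linarith
  calc (bad.card : ℝ) * μ ^ 2 = ∑ ω ∈ bad, (X ω - μ) ^ 2 := by
        have : ∀ ω ∈ bad, (X ω - μ) ^ 2 = μ ^ 2 := by
          intro ω hω
          have : X ω = 0 := by
            simp only [hX]
            apply sum_eq_zero
            intro i hi
            simp only [hind]
            rw [if_neg (hbad ω hω i hi), mul_zero]
          rw [this]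
          ring
        rw [sum_congr rfl this, sum_const, nsmul_eq_mul]
    _ ≤ ∑ ω, (X ω - μ) ^ 2 :=
        sum_le_sum_of_subset_of_nonneg (subset_univ _) (fun _ _ _ => sq_nonneg _)
    _ ≤ _ := h3

lemma union_bound_real {ι α : Type} (I : Finset ι) (S : Finset α) (P : ι → α → Prop)
    (h : ∀ v ∈ S, ∃ i ∈ I, P i v) (x : ℝ)
    (hn : ∀ i ∈ I, ∀ S' ⊆ S, (∀ v ∈ S', P i v) → (S'.card : ℝ) ≤ x) :
    (S.card : ℝ) ≤ I.card * x := by
  classical
  have h1 : S ⊆ I.biUnion (fun i => S.filter (P i)) := by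
    intro v hv
    obtain ⟨i, hi, hP⟩ := h v hv
    rw [mem_biUnion]
    exact ⟨i, hi, mem_filter.mpr ⟨hv, hP⟩⟩
  have h2 : (S.card : ℝ) ≤ ∑ i ∈ I, ((S.filter (P i)).card : ℝ) := by
    have := (card_le_card h1).trans card_biUnion_le
    exact_mod_cast this
  refine h2.trans ?_
  rw [← nsmul_eq_mul, ← sum_const]
  apply sum_le_sum
  intro i hi
  exact hn i hi _ (filter_subset _ _) (fun v hv => (mem_filter.mp hv).2)

/-- number of small subsets -/
lemma card_small_subsets (n R : ℕ) :
    (((range n).powerset).filter (fun A => A.card ≤ R)).card ≤ (n + 1) ^ R := by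
  induction R with
  | zero =>
    rw [pow_zero]
    rw [card_le_one]
    intro A hA A' hA'
    rw [mem_filter] at hA hA'
    have h1 : A = ∅ := card_eq_zero.mp (by omega)
    have h2 : A' = ∅ := card_eq_zero.mp (by omega)
    rw [h1, h2]
  | succ R ih =>
    have hsub : ((range n).powerset).filter (fun A => A.card ≤ R + 1)
        ⊆ ((range (n + 1)) ×ˢ (((range n).powerset).filter (fun A => A.card ≤ R))).image
          (fun p => if p.1 = n then p.2 else insert p.1 p.2) := by
      intro A hA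
      rw [mem_filter, mem_powerset] at hA
      rw [mem_image]
      by_cases h : A.card ≤ R
      · refine ⟨(n, A), ?_, by simp⟩
        rw [mem_product, mem_filter, mem_powerset]
        exact ⟨by simp, hA.1, h⟩
      · have hne : A.Nonempty := card_pos.mp (by omega)
        obtain ⟨x, hx⟩ := hne
        have hxn := mem_range.mp (hA.1 hx)
        refine ⟨(x, A.erase x), ?_, ?_⟩
        · rw [mem_product, mem_filter, mem_powerset, mem_range]
          refine ⟨by simp only; omega, (erase_subset _ _).trans hA.1, ?_⟩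
          simp only
          rw [card_erase_of_mem hx]
          omega
        · simp only
          rw [if_neg (by omega), insert_erase hx]
    refine (card_le_card hsub).trans (card_image_le.trans ?_)
    rw [card_product, card_range, pow_succ, mul_comm]
    exact Nat.mul_le_mul_right _ ih

end GC70
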