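import Mathlib
import Pool.Agent.Helper70.GC.Cheb

/-!
# Counting proportional pairs of words of given lengths
-/

set_option autoImplicit false

namespace GC70

open Finset

variable {B : Type} [Fintype B] [DecidableEq B]

/-- typical word with `u` zero letters -/
structure TW (w : ℤ → Option B) (L R W u : ℕ) : Prop where
  typ : Typ w L R W
  cnt : (sk w L).card + u = L

omit [Fintype B] in
lemma TW.exists_none {w : ℤ → Option B} {L R W u : ℕ} (h : TW w L R W u) (hu : 1 ≤ u) :
    ∃ t, w t = none := by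
  by_contra hcon
  push Not at hcon
  have h1 : sk w L = range L := by
    unfold sk
    rw [filter_true_of_mem]
    intro j _
    exact Option.isSome_iff_ne_none.mpr (hcon _)
  have h2 := h.cnt
  rw [h1, card_range] at h2
  omega

omit [Fintype B] in
lemma TW.exists_single {w : ℤ → Option B} {L R W u : ℕ} (h : TW w L R W u) (hu : 1 ≤ u) :
    ∃ (j : ℕ) (i : B), j < L ∧ w (j : ℤ) = some i ∧ ∀ k : ℕ, k < L → w (k : ℤ) = some i → k = j := by
  have hL : 0 < L := by have := h.cnt; omega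
  obtain ⟨t, ht⟩ := h.exists_none hu
  obtain ⟨p, i, _, _, hp⟩ := h.typ.t2l t ht
  obtain ⟨k, hk1, hk2⟩ := rep L hL 0 p
  refine ⟨(p + k * L).toNat, i, by omega, ?_, ?_⟩
  · rw [Int.toNat_of_nonneg hk1, h.typ.per.zmul]
    exact hp.1
  · intro k' hk' hw
    obtain ⟨c, hc⟩ := hp.2 _ hw
    have h1 : (k' : ℤ) - (p + k * L) = L * (c - k) := by linarith
    have h2 : (k' : ℤ) - (p + k * L) = 0 := Int.eq_zero_of_abs_lt_dvd ⟨c - k, h1⟩ (by
      rw [abs_lt]
      constructor <;> omega)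
    omega

omit [Fintype B] in
lemma V_single (d m : ℕ) (w : ℤ → Option B) (L j : ℕ) (i : B) (hj : j < L) (hw : w (j : ℤ) = some i)
    (huniq : ∀ k : ℕ, k < L → w (k : ℤ) = some i → k = j) :
    V d m w L i = wt d m (sk w L) j := by
  unfold V
  have : (range L).filter (fun j : ℕ => w (j : ℤ) = some i) = {j} := by
    ext k
    rw [mem_filter, mem_range, mem_singleton]
    constructor
    · rintro ⟨h1, h2⟩
      exact huniq k h1 h2
    · rintro rfl
      exact ⟨hj, hw⟩
  rw [this, sum_singleton]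

lemma card_sk_choices (L u U : ℕ) (hL : 1 ≤ L) (huL : u ≤ L) (hu : u ≤ U) :
    ((range L).powersetCard (L - u)).card ≤ L ^ U := by
  rw [card_powersetCard, card_range, Nat.choose_symm huL]
  exact (Nat.choose_le_pow _ _).trans (Nat.pow_le_pow_right hL hu)

omit [DecidableEq B] in
lemma sk_mem_powersetCard (w : ℤ → Option B) (L u : ℕ) (h : (sk w L).card + u = L) :
    sk w L ∈ (range L).powersetCard (L - u) := by
  rw [mem_powersetCard]
  exact ⟨filter_subset _ _, by omega⟩

theorem rel1 (b0 : B) (d m g : ℕ) (hg : 2 ≤ g)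
    (hgd : Nat.Coprime d g) (hgm : Nat.Coprime m g) (L L' u u' U : ℕ) (hL : 0 < L) (hL' : 0 < L')
    (hu : u ≤ U) (hu' : u' ≤ U) (huL : u ≤ L) (huL' : u' ≤ L') (X : ℝ)
    (hb : 1 ≤ Fintype.card B) (hJ : Fintype.card B ≤ (L - u) + (L' - u'))
    (hX : (((L - u) + (L' - u') : ℕ) : ℝ) ≤ X * Fintype.card B)
    (S : Finset ((ℤ → Option B) × (ℤ → Option B)))
    (hS : ∀ p ∈ S, Per p.1 L ∧ Per p.2 L' ∧ (sk p.1 L).card + u = L ∧ (sk p.2 L').card + u' = L' ∧
      ∃ l : (ZMod g)ˣ, ∀ i, (V d m p.2 L' i : ZMod g) = l * (V d m p.1 L i : ZMod g)) :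
    (S.card : ℝ) ≤ ((L : ℝ) ^ U * (L' : ℝ) ^ U * g) * ((Fintype.card B : ℝ) ^ ((L - u) + (L' - u'))
      * (Real.exp 1 * (((L - u) + (L' - u') : ℕ) : ℝ))
        * Real.exp (-(Real.exp (-X)) * Fintype.card B)) := by
  classical
  have : NeZero g := ⟨by omega⟩
  set bd : ℝ := (Fintype.card B : ℝ) ^ ((L - u) + (L' - u'))
      * (Real.exp 1 * (((L - u) + (L' - u') : ℕ) : ℝ))
        * Real.exp (-(Real.exp (-X)) * Fintype.card B) with hbd
  have h1 := union_bound_real
    ((((range L).powersetCard (L - u)) ×ˢ ((range L').powersetCard (L' - u'))) ×ˢ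
      (univ : Finset (ZMod g)ˣ)) S
    (fun x p => Per p.1 L ∧ Per p.2 L' ∧ sk p.1 L = x.1.1 ∧ sk p.2 L' = x.1.2 ∧
      ∀ i, (V d m p.2 L' i : ZMod g) = x.2 * (V d m p.1 L i : ZMod g)) (by
      intro p hp
      obtain ⟨a1, a2, a3, a4, l, hl⟩ := hS p hp
      refine ⟨((sk p.1 L, sk p.2 L'), l), ?_, a1, a2, rfl, rfl, hl⟩
      rw [mem_product, mem_product]
      exact ⟨⟨sk_mem_powersetCard _ _ _ a3, sk_mem_powersetCard _ _ _ a4⟩, mem_univ _⟩) bd (by
      rintro ⟨⟨N, N'⟩, l⟩ hx S' _ hS'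
      rw [mem_product, mem_product, mem_powersetCard, mem_powersetCard] at hx
      have e1 : N.card = L - u := hx.1.1.2
      have e2 : N'.card = L' - u' := hx.1.2.2
      have := range1_count b0 d m g hg hgd hgm L L' hL hL' N N' X hb (by rw [e1, e2]; exact hJ)
        (by rw [e1, e2]; exact hX) l S' hS'
      rw [e1, e2] at this
      exact this)
  refine h1.trans ?_
  apply mul_le_mul_of_nonneg_right _ (by positivity)
  rw [card_product, card_product]
  have c1 := card_sk_choices L u U hL huL hu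
  have c2 := card_sk_choices L' u' U hL' huL' hu'
  have c3 : (univ : Finset (ZMod g)ˣ).card ≤ g := by
    rw [card_univ, ZMod.card_units_eq_totient]
    exact Nat.totient_le g
  have := Nat.mul_le_mul (Nat.mul_le_mul c1 c2) c3
  exact_mod_cast this

theorem rel2 (b0 : B) (hb : 2 ≤ Fintype.card B) (d m g : ℕ) (hd : 3 ≤ d) (hdm : d ≤ m)
    (hc : Nat.Coprime m d) (hg : 0 < g)
    (hgd : Nat.Coprime d g) (hgm : Nat.Coprime m g) (L L' q q' u u' U R W : ℕ) (hL : 0 < L)
    (hL' : 0 < L')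
    (hqL : 2 * q ≤ L) (hqL' : 2 * q' ≤ L') (hq : 2 * q * m ^ (q - 1) < g)
    (hq' : 2 * q' * m ^ (q' - 1) < g) (hu1 : 1 ≤ u)
    (hu : u ≤ U) (hu' : u' ≤ U) (huL : u ≤ L) (huL' : u' ≤ L')
    (S : Finset ((ℤ → Option B) × (ℤ → Option B)))
    (hS : ∀ p ∈ S, TW p.1 L R W u ∧ TW p.2 L' R W u' ∧
      ∃ l : (ZMod g)ˣ, ∀ i, (V d m p.2 L' i : ZMod g) = l * (V d m p.1 L i : ZMod g)) :
    (S.card : ℝ) ≤ ((L : ℝ) ^ U * (L' : ℝ) ^ U * (L * ((L' : ℝ) + 1) ^ R))
      * ((Fintype.card B : ℝ) ^ (L - u) * (Fintype.card B : ℝ) ^ (L' - u')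
      * (2 / (Fintype.card B : ℝ)) ^ ((q - U) + (q' - U))) := by
  classical
  have : NeZero g := ⟨by omega⟩
  set bd : ℝ := (Fintype.card B : ℝ) ^ (L - u) * (Fintype.card B : ℝ) ^ (L' - u')
      * (2 / (Fintype.card B : ℝ)) ^ ((q - U) + (q' - U)) with hbd
  have h1 := union_bound_real
    ((((range L).powersetCard (L - u)) ×ˢ ((range L').powersetCard (L' - u'))) ×ˢ
      ((range L) ×ˢ (((range L').powerset).filter (fun A => A.card ≤ R)))) S
    (fun x p => Per p.1 L ∧ Per p.2 L' ∧ sk p.1 L = x.1.1 ∧ sk p.2 L' = x.1.2 ∧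
      ∃ l : (ZMod g)ˣ, (l : ZMod g) * (wt d m x.1.1 x.2.1 : ZMod g)
        = ∑ t ∈ x.2.2, (wt d m x.1.2 t : ZMod g) ∧
      ∀ i, (V d m p.2 L' i : ZMod g) = l * (V d m p.1 L i : ZMod g)) (by
      intro p hp
      obtain ⟨a1, a2, l, hl⟩ := hS p hp
      obtain ⟨j, i, hj, hw, huniq⟩ := a1.exists_single hu1
      refine ⟨((sk p.1 L, sk p.2 L'), (j, (range L').filter (fun t : ℕ => p.2 (t : ℤ) = some i))),
        ?_, a1.typ.per, a2.typ.per, rfl, rfl, l, ?_, hl⟩
      · rw [mem_product, mem_product, mem_product, mem_filter, mem_powerset, mem_range]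
        refine ⟨⟨sk_mem_powersetCard _ _ _ a1.cnt, sk_mem_powersetCard _ _ _ a2.cnt⟩, hj,
          filter_subset _ _, ?_⟩
        have h2 := a2.typ.t1 i
        have h3 : ((range L').filter (fun t : ℕ => p.2 (t : ℤ) = some i)).card
            ≤ ((Ico (0 : ℤ) L').filter (fun j => p.2 j = some i)).card := by
          apply card_le_card_of_injOn (fun t : ℕ => (t : ℤ))
          · intro t ht
            simp only [coe_filter, mem_range, Set.mem_ofPred_eq] at ht
            simp only [coe_filter, mem_Ico, Set.mem_ofPred_eq]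
            exact ⟨⟨by omega, by omega⟩, ht.2⟩
          · intro a _ c _ hac
            exact Int.natCast_inj.mp hac
        exact h3.trans h2
      · simp only
        rw [← V_single d m p.1 L j i hj hw huniq, ← hl i]
        unfold V
        push_cast
        rfl) bd (by
      rintro ⟨⟨N, N'⟩, ⟨j, A⟩⟩ hx S' _ hS'
      rw [mem_product, mem_product, mem_powersetCard, mem_powersetCard] at hx
      simp only at hx hS'
      have e1 : N.card = L - u := hx.1.1.2
      have e2 : N'.card = L' - u' := hx.1.2.2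
      rcases S'.eq_empty_or_nonempty with rfl | ⟨p0, hp0⟩
      · simp only [card_empty, Nat.cast_zero]
        positivity
      obtain ⟨_, _, _, _, l, hl, _⟩ := hS' p0 hp0
      have := range2_count b0 hb d m g hd hdm hc hgd hgm L L' q q' U hL hL' hqL hqL' hq hq' N N'
        hx.1.1.1 hx.1.2.1 (by omega) (by omega) l S' (by
          intro p hp
          obtain ⟨a1, a2, a3, a4, l', hl', hV⟩ := hS' p hp
          have h2 : l' = l := by
            have h3 := hl'.trans hl.symm
            have h4 : IsUnit (wt d m N j : ZMod g) := wt_unit d m g hgd hgm N j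
            exact Units.ext (h4.mul_left_injective h3)
          rw [h2] at hV
          exact ⟨a1, a2, a3, a4, hV⟩)
      rw [e1, e2] at this
      exact this)
  refine h1.trans ?_
  apply mul_le_mul_of_nonneg_right _ (by positivity)
  rw [card_product, card_product, card_product, card_range]
  have c1 := card_sk_choices L u U hL huL hu
  have c2 := card_sk_choices L' u' U hL' huL' hu'
  have c3 := card_small_subsets L' R
  have := Nat.mul_le_mul (Nat.mul_le_mul c1 c2) (Nat.mul_le_mul_left L c3)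
  exact_mod_cast this

omit [Fintype B] in
theorem rel3 (d m g L u U R W : ℕ) (hd : 2 ≤ d) (hdm : d ≤ m) (hc : Nat.Coprime m d) (hg : 2 ≤ g)
    (hgd : Nat.Coprime d g) (hgm : Nat.Coprime m g) (hu1 : 1 ≤ u) (hu : u ≤ U) (huL : u < L)
    (hdvd : g ∣ d ^ L - m ^ (L - u)) (hle : m ^ (L - u) ≤ d ^ L) (hW1 : 1 ≤ W)
    (hWG : W ≤ L / (3 * R + 1))
    (hsize : R * m ^ (L - L / (3 * R + 1) + 2 * U + 2 * W) < g)
    (w w' : ℤ → Option B) (hw : TW w L R W u) (hw' : TW w' L R W u) (l : (ZMod g)ˣ)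
    (hl : ∀ i, (V d m w' L i : ZMod g) = l * (V d m w L i : ZMod g)) :
    ∃ h : ℤ, ∀ j, w' (j + h) = w j := by
  have : Fact (1 < g) := ⟨by omega⟩
  set δ := ZMod.unitOfCoprime d hgd with hδ
  set μ := ZMod.unitOfCoprime m hgm with hμ
  have H : Hyp d m g L (L - u) U R W (L / (3 * R + 1)) δ μ := by
    refine ⟨hd, hdm, hc, ZMod.coe_unitOfCoprime d hgd, ZMod.coe_unitOfCoprime m hgm, ?_, ?_, hW1,
      hWG, hsize⟩
    · apply Units.ext
      rw [Units.val_pow_eq_pow_val, Units.val_pow_eq_pow_val, hδ, hμ, ZMod.coe_unitOfCoprime,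
        ZMod.coe_unitOfCoprime]
      have h1 : ((d ^ L - m ^ (L - u) : ℕ) : ZMod g) = 0 := (ZMod.natCast_eq_zero_iff _ _).mpr hdvd
      rw [Nat.cast_sub hle, sub_eq_zero] at h1
      push_cast at h1
      exact h1
    · exact Nat.div_mul_le_self _ _
  have hc1 := hw.cnt
  have hc2 := hw'.cnt
  exact near_words H hw.typ hw'.typ l (by omega) (by omega) (by omega) hl (hw.exists_none hu1)
    (by omega)

end GC70
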