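import Mathlib
import Pool.Agent.Helper70.GC.Rel

/-!
# Numerical facts about `m` and `d = b + 1` with `m ^ b < d ^ d`
-/

set_option autoImplicit false

namespace GC70

open Finset

lemma m_lt_two (b m : ℕ) (hm : m ^ b < (b + 1) ^ (b + 1)) : m < 2 * (b + 1) := by
  by_contra h
  push Not at h
  have h1 : (2 * (b + 1)) ^ b ≤ m ^ b := Nat.pow_le_pow_left h b
  have h2 : b + 1 ≤ 2 ^ b := Nat.lt_two_pow_self
  have h3 : (b + 1) ^ (b + 1) ≤ (2 * (b + 1)) ^ b := by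
    rw [mul_pow, pow_succ, mul_comm]
    exact Nat.mul_le_mul_right _ h2
  omega

lemma m_pow_le (b m : ℕ) (hb : 1 ≤ b) (hdm : b + 1 ≤ m) (hm : m ^ b < (b + 1) ^ (b + 1)) (n : ℕ) :
    m ^ n ≤ (b + 1) ^ (n + n / b + 1) := by
  set d := b + 1 with hd
  have hr : ∀ r < b, m ^ r ≤ d ^ (r + 1) := by
    intro r hr
    have h1 : m ^ r * d ^ (b - r) ≤ m ^ b := by
      calc m ^ r * d ^ (b - r) ≤ m ^ r * m ^ (b - r) :=
            Nat.mul_le_mul_left _ (Nat.pow_le_pow_left hdm _)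
        _ = m ^ b := by rw [← pow_add]; congr 1; omega
    have h2 : d ^ (b + 1) = d ^ (r + 1) * d ^ (b - r) := by
      rw [← pow_add]; congr 1; omega
    have h3 : m ^ r * d ^ (b - r) ≤ d ^ (r + 1) * d ^ (b - r) := by
      rw [← h2]
      exact h1.trans hm.le
    exact Nat.le_of_mul_le_mul_right h3 (by positivity)
  have h1 : m ^ n = (m ^ b) ^ (n / b) * m ^ (n % b) := by
    rw [← pow_mul, ← pow_add, Nat.div_add_mod]
  have h2 : d ^ (n + n / b + 1) = (d ^ (b + 1)) ^ (n / b) * d ^ (n % b + 1) := by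
    rw [← pow_mul, ← pow_add]
    congr 1
    have := Nat.div_add_mod n b
    nlinarith
  rw [h1, h2]
  exact Nat.mul_le_mul (Nat.pow_le_pow_left hm.le _) (hr _ (Nat.mod_lt _ hb))

lemma div_le_two_mul (b K n : ℕ) (hb : 1 ≤ b) (hn : n ≤ K * (b + 1)) : n / b ≤ 2 * K := by
  have h1 : n ≤ 2 * K * b := by nlinarith
  calc n / b ≤ (2 * K * b) / b := Nat.div_le_div_right h1
    _ = 2 * K := Nat.mul_div_cancel _ hb

lemma m_pow_le' (b m K : ℕ) (hb : 1 ≤ b) (hdm : b + 1 ≤ m) (hm : m ^ b < (b + 1) ^ (b + 1)) (n : ℕ)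
    (hn : n ≤ K * (b + 1)) : m ^ n ≤ (b + 1) ^ (n + 2 * K + 1) := by
  refine (m_pow_le b m hb hdm hm n).trans ?_
  apply Nat.pow_le_pow_right (by omega)
  have := div_le_two_mul b K n hb hn
  omega

/-- `2 m ^ (L - u) ≤ d ^ L` -/
lemma two_pow_le (b m L l u : ℕ) (hb : 3 ≤ b) (hm : m ^ b < (b + 1) ^ (b + 1))
    (hL : 2 * L < (2 * l + 1) * (b + 1)) (hu : l + 1 ≤ u) (huL : u ≤ L) :
    2 * m ^ (L - u) ≤ (b + 1) ^ L := by
  set d := b + 1 with hd
  set s := L - u with hs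
  have h1 : (2 * m ^ s) ^ b ≤ (d ^ L) ^ b := by
    have e1 : (2 * m ^ s) ^ b = 2 ^ b * (m ^ b) ^ s := by
      rw [mul_pow, ← pow_mul, ← pow_mul, mul_comm s b]
    rw [e1]
    have e2 : (m ^ b) ^ s ≤ d ^ (d * s) := by
      rw [pow_mul]
      exact Nat.pow_le_pow_left hm.le _
    obtain ⟨c, hc⟩ : ∃ c, d * u = L + c := by
      refine ⟨d * u - L, ?_⟩
      have : L ≤ d * u := by nlinarith
      omega
    have hc2 : d + 1 ≤ 2 * c := by nlinarith
    have e3 : 2 ^ b ≤ d ^ c := by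
      calc 2 ^ b ≤ 2 ^ (2 * c) := Nat.pow_le_pow_right (by norm_num) (by omega)
        _ = 4 ^ c := by rw [pow_mul]; norm_num
        _ ≤ d ^ c := Nat.pow_le_pow_left (by omega) _
    have e4 : c + d * s = L * b := by
      have h5 : d * L = d * s + d * u := by
        rw [← Nat.mul_add]
        congr 1
        omega
      have h6 : d * L = L * b + L := by rw [hd]; ring
      omega
    calc 2 ^ b * (m ^ b) ^ s ≤ d ^ c * d ^ (d * s) := Nat.mul_le_mul e3 e2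
      _ = d ^ (c + d * s) := (pow_add _ _ _).symm
      _ = (d ^ L) ^ b := by rw [e4, pow_mul]
  exact (Nat.pow_le_pow_iff_left (by omega)).mp h1

/-- comparing powers of `d` and of `b` -/
lemma d_pow_le_exp (b K n : ℕ) (hb : 1 ≤ b) (hn : n ≤ K * (b + 1)) :
    ((b : ℝ) + 1) ^ n ≤ Real.exp (2 * K) * (b : ℝ) ^ n := by
  have hb0 : (0 : ℝ) < b := by exact_mod_cast hb
  have h1 : ((b : ℝ) + 1) / b ≤ Real.exp (1 / b) := by
    have := Real.add_one_le_exp (1 / (b : ℝ))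
    have h2 : ((b : ℝ) + 1) / b = 1 / b + 1 := by
      field_simp
      ring
    rw [h2]
    exact this
  have h2 : (((b : ℝ) + 1) / b) ^ n ≤ Real.exp (2 * K) := by
    calc (((b : ℝ) + 1) / b) ^ n ≤ Real.exp (1 / b) ^ n := pow_le_pow_left₀ (by positivity) h1 n
      _ = Real.exp (n * (1 / b)) := by rw [← Real.exp_nat_mul]
      _ ≤ Real.exp (2 * K) := by
          apply Real.exp_le_exp.mpr
          rw [mul_one_div, div_le_iff₀ hb0]
          have : n ≤ 2 * K * b := by nlinarith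
          exact_mod_cast this
  rw [div_pow, div_le_iff₀ (by positivity)] at h2
  exact h2

/-- coprimality with `d ^ L - m ^ s` -/
lemma coprime_D (d m L s : ℕ) (hc : Nat.Coprime m d) (hL : 1 ≤ L) (hs : 1 ≤ s)
    (hle : m ^ s ≤ d ^ L) : Nat.Coprime d (d ^ L - m ^ s) ∧ Nat.Coprime m (d ^ L - m ^ s) := by
  obtain ⟨D, hD⟩ : ∃ D, d ^ L = D + m ^ s := ⟨d ^ L - m ^ s, by omega⟩
  have hD' : d ^ L - m ^ s = D := by omega
  rw [hD']
  constructor
  · have h1 : Nat.Coprime (d ^ L) D := by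
      rw [hD, Nat.coprime_self_add_left]
      by_contra h
      obtain ⟨p, hp, hp1, hp2⟩ := Nat.Prime.not_coprime_iff_dvd.mp h
      have h2 : p ∣ m := hp.dvd_of_dvd_pow hp1
      have h3 : p ∣ d := hp.dvd_of_dvd_pow (by rw [hD]; exact dvd_add hp2 hp1)
      exact Nat.Prime.not_coprime_iff_dvd.mpr ⟨p, hp, h2, h3⟩ hc
    exact (Nat.coprime_pow_left_iff hL d D).mp h1
  · by_contra h
    obtain ⟨p, hp, hp1, hp2⟩ := Nat.Prime.not_coprime_iff_dvd.mp h
    have h3 : p ∣ d := hp.dvd_of_dvd_pow (by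
      rw [hD]
      exact dvd_add hp2 (dvd_pow hp1 (by omega)))
    exact Nat.Prime.not_coprime_iff_dvd.mpr ⟨p, hp, hp1, h3⟩ hc

/-- a common divisor for different lengths is small -/
lemma common_small (d m g L L' s s' U : ℕ) (hd : 2 ≤ d) (hdm : d ≤ m) (hc : Nat.Coprime m d)
    (hgm : Nat.Coprime m g)
    (hLL : L < L') (hle : m ^ s ≤ d ^ L) (hle' : m ^ s' ≤ d ^ L')
    (hg : g ∣ d ^ L - m ^ s) (hg' : g ∣ d ^ L' - m ^ s') (hs : L ≤ s + U)
    (hs' : s' ≤ L') (hs2 : s ≤ L) (hs3 : L' ≤ s' + U) : g ≤ m ^ (L' - L + U) := by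
  set a := L' - L with ha
  have hm0 : 0 < m := by omega
  have hd0 : 0 < d := by omega
  have hpow : d ^ L' = d ^ a * d ^ L := by rw [← pow_add]; congr 1; omega
  -- integer divisibility
  have h1 : (g : ℤ) ∣ (d : ℤ) ^ L - (m : ℤ) ^ s := by
    have := Int.natCast_dvd_natCast.mpr hg
    rw [Nat.cast_sub hle] at this
    push_cast at this
    exact this
  have h2 : (g : ℤ) ∣ (d : ℤ) ^ L' - (m : ℤ) ^ s' := by
    have := Int.natCast_dvd_natCast.mpr hg'
    rw [Nat.cast_sub hle'] at this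
    push_cast at this
    exact this
  have h3 : (g : ℤ) ∣ (m : ℤ) ^ s' - (d : ℤ) ^ a * (m : ℤ) ^ s := by
    have h4 := dvd_sub (Dvd.dvd.mul_left h1 ((d : ℤ) ^ a)) h2
    have h5 : (d : ℤ) ^ a * ((d : ℤ) ^ L - (m : ℤ) ^ s) - ((d : ℤ) ^ L' - (m : ℤ) ^ s')
        = (m : ℤ) ^ s' - (d : ℤ) ^ a * (m : ℤ) ^ s := by
      have : (d : ℤ) ^ L' = (d : ℤ) ^ a * (d : ℤ) ^ L := by exact_mod_cast hpow
      rw [this]
      ring
    rwa [h5] at h4
  have hcop : ∀ k : ℕ, IsCoprime (g : ℤ) ((m : ℤ) ^ k) := by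
    intro k
    apply IsCoprime.pow_right
    rw [Nat.isCoprime_iff_coprime]
    exact hgm.symm
  have ha1 : 1 ≤ a := by omega
  rcases le_or_gt s s' with hss | hss
  · have h4 : (m : ℤ) ^ s' - (d : ℤ) ^ a * (m : ℤ) ^ s
        = (m : ℤ) ^ s * ((m : ℤ) ^ (s' - s) - (d : ℤ) ^ a) := by
      have : (m : ℤ) ^ s' = (m : ℤ) ^ s * (m : ℤ) ^ (s' - s) := by
        rw [← pow_add]; congr 1; omega
      rw [this]
      ring
    rw [h4] at h3
    have h5 : (g : ℤ) ∣ (m : ℤ) ^ (s' - s) - (d : ℤ) ^ a := (hcop s).dvd_of_dvd_mul_left h3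
    have hne : (m : ℤ) ^ (s' - s) - (d : ℤ) ^ a ≠ 0 := by
      intro h
      have h6 : m ^ (s' - s) = d ^ a := by
        have : (m : ℤ) ^ (s' - s) = (d : ℤ) ^ a := by linarith
        exact_mod_cast this
      have h7 : Nat.Coprime (m ^ (s' - s)) (d ^ a) := Nat.Coprime.pow _ _ hc
      rw [h6, Nat.coprime_self] at h7
      have h8 : 2 ^ 1 ≤ d ^ a :=
        (Nat.pow_le_pow_left hd 1).trans (Nat.pow_le_pow_right hd0 ha1)
      omega
    have h6 := Int.le_of_dvd (abs_pos.mpr hne) ((dvd_abs _ _).mpr h5)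
    have h7 : |(m : ℤ) ^ (s' - s) - (d : ℤ) ^ a| ≤ (m : ℤ) ^ (a + U) := by
      rw [abs_le]
      have e1 : (m : ℤ) ^ (s' - s) ≤ (m : ℤ) ^ (a + U) := by
        apply pow_le_pow_right₀ (by exact_mod_cast hm0)
        omega
      have e2 : (d : ℤ) ^ a ≤ (m : ℤ) ^ (a + U) := by
        calc (d : ℤ) ^ a ≤ (m : ℤ) ^ a := pow_le_pow_left₀ (by positivity) (by exact_mod_cast hdm) _
          _ ≤ (m : ℤ) ^ (a + U) := pow_le_pow_right₀ (by exact_mod_cast hm0) (by omega)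
      have e3 : (0 : ℤ) < (m : ℤ) ^ (s' - s) := by positivity
      have e4 : (0 : ℤ) < (d : ℤ) ^ a := by positivity
      constructor <;> linarith
    exact_mod_cast h6.trans h7
  · have h4 : (m : ℤ) ^ s' - (d : ℤ) ^ a * (m : ℤ) ^ s
        = (m : ℤ) ^ s' * (1 - (d : ℤ) ^ a * (m : ℤ) ^ (s - s')) := by
      have : (m : ℤ) ^ s = (m : ℤ) ^ s' * (m : ℤ) ^ (s - s') := by
        rw [← pow_add]; congr 1; omega
      rw [this]
      ring
    rw [h4] at h3
    have h5 : (g : ℤ) ∣ 1 - (d : ℤ) ^ a * (m : ℤ) ^ (s - s') := (hcop s').dvd_of_dvd_mul_left h3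
    have hd1 : (2 : ℤ) ≤ (d : ℤ) ^ a := by
      have h8 : 2 ^ 1 ≤ d ^ a :=
        (Nat.pow_le_pow_left hd 1).trans (Nat.pow_le_pow_right hd0 ha1)
      exact_mod_cast h8
    have hm1 : (1 : ℤ) ≤ (m : ℤ) ^ (s - s') := one_le_pow₀ (by exact_mod_cast hm0)
    have h2m : (2 : ℤ) ≤ (d : ℤ) ^ a * (m : ℤ) ^ (s - s') := by nlinarith
    have hne : 1 - (d : ℤ) ^ a * (m : ℤ) ^ (s - s') ≠ 0 := by
      intro h
      linarith
    have h6 := Int.le_of_dvd (abs_pos.mpr hne) ((dvd_abs _ _).mpr h5)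
    have h7 : |1 - (d : ℤ) ^ a * (m : ℤ) ^ (s - s')| ≤ (m : ℤ) ^ (a + U) := by
      have e2 : (d : ℤ) ^ a * (m : ℤ) ^ (s - s') ≤ (m : ℤ) ^ (a + U) := by
        calc (d : ℤ) ^ a * (m : ℤ) ^ (s - s') ≤ (m : ℤ) ^ a * (m : ℤ) ^ (s - s') :=
              mul_le_mul_of_nonneg_right
                (pow_le_pow_left₀ (by positivity) (by exact_mod_cast hdm) _) (by positivity)
          _ = (m : ℤ) ^ (a + (s - s')) := by rw [pow_add]
          _ ≤ (m : ℤ) ^ (a + U) := by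
              apply pow_le_pow_right₀ (by exact_mod_cast hm0)
              omega
      rw [abs_le]
      constructor <;> linarith
    exact_mod_cast h6.trans h7

/-- a common divisor for the same length and different numbers of zero letters is small -/
lemma common_same (d m g L s s' U : ℕ) (hdm : 2 ≤ m) (hgm : Nat.Coprime m g)
    (hle : m ^ s ≤ d ^ L) (hle' : m ^ s' ≤ d ^ L)
    (hg : g ∣ d ^ L - m ^ s) (hg' : g ∣ d ^ L - m ^ s') (hs : L ≤ s + U) (hs' : L ≤ s' + U)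
    (hs2 : s ≤ L) (hs3 : s' ≤ L) (hne : s ≠ s') : g ≤ m ^ U := by
  wlog hlt : s < s' generalizing s s' with Hw
  · exact Hw s' s hle' hle hg' hg hs' hs hs3 hs2 hne.symm (by omega)
  have h1 : g ∣ (d ^ L - m ^ s) - (d ^ L - m ^ s') := Nat.dvd_sub hg hg'
  have h2 : (d ^ L - m ^ s) - (d ^ L - m ^ s') = m ^ s * (m ^ (s' - s) - 1) := by
    have h3 : m ^ s' = m ^ s * m ^ (s' - s) := by rw [← pow_add]; congr 1; omega
    rw [Nat.mul_sub, ← h3, mul_one]
    have : m ^ s ≤ m ^ s' := Nat.pow_le_pow_right (by omega) hlt.le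
    omega
  rw [h2] at h1
  have h3 : Nat.Coprime g (m ^ s) := Nat.Coprime.pow_right _ hgm.symm
  have h4 : g ∣ m ^ (s' - s) - 1 := h3.dvd_of_dvd_mul_left h1
  have h5 : 2 ^ 1 ≤ m ^ (s' - s) :=
    (Nat.pow_le_pow_left hdm 1).trans (Nat.pow_le_pow_right (by omega) (by omega))
  have h6 := Nat.le_of_dvd (by omega) h4
  have h7 : m ^ (s' - s) ≤ m ^ U := Nat.pow_le_pow_right (by omega) (by omega)
  omega

end GC70
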