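import Mathlib
import Pool.Agent.Helper70.GC.Numer
import Pool.Agent.Helper70.GC.Divs

/-!
# Bounds for the single terms
-/

set_option autoImplicit false

namespace GC70

open Finset

lemma win_ok (m g q : ℕ) (hm : 2 ≤ m) (hg : 0 < g) (hq : q + 1 ≤ Nat.log m g ∨ q = 0)
    (h2 : 2 * q < m ^ 2) : 2 * q * m ^ (q - 1) < g := by
  rcases Nat.eq_zero_or_pos q with h0 | h0
  · rw [h0]
    simpa using hg
  · rcases hq with hq | hq
    · have h1 : m ^ (q + 1) ≤ g :=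
        (Nat.pow_le_pow_right (by omega) hq).trans (Nat.pow_log_le_self m (by omega))
      have h3 : m ^ (q + 1) = m ^ 2 * m ^ (q - 1) := by
        rw [← pow_add]
        congr 1
        omega
      rw [h3] at h1
      refine lt_of_lt_of_le ?_ h1
      exact Nat.mul_lt_mul_of_pos_right h2 (by positivity)
    · omega

lemma pow_sub_le (b : ℝ) (hb : 2 ≤ b) (q U : ℕ) :
    (2 / b) ^ (q - U) ≤ b ^ U * (2 / b) ^ q := by
  have hb0 : 0 < b := by linarith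
  have hx1 : 2 / b ≤ 1 := by rw [div_le_one hb0]; exact hb
  have hbx : b * (2 / b) = 2 := by field_simp
  rcases le_total U q with h | h
  · have h1 : (2 / b) ^ q = (2 / b) ^ (q - U) * (2 / b) ^ U := by
      rw [← pow_add]; congr 1; omega
    rw [h1]
    have h2 : b ^ U * ((2 / b) ^ (q - U) * (2 / b) ^ U) = (2 / b) ^ (q - U) * 2 ^ U := by
      rw [mul_left_comm, ← mul_pow, hbx]
    rw [h2]
    apply le_mul_of_one_le_right (by positivity)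
    exact one_le_pow₀ (by norm_num)
  · rw [Nat.sub_eq_zero_of_le h, pow_zero]
    have h1 : b ^ U = b ^ (U - q) * b ^ q := by rw [← pow_add]; congr 1; omega
    rw [h1, mul_assoc, ← mul_pow, hbx]
    have h2 : (1 : ℝ) ≤ b ^ (U - q) := one_le_pow₀ (by linarith)
    have h3 : (1 : ℝ) ≤ 2 ^ q := one_le_pow₀ (by norm_num)
    nlinarith

/-- `m ^ 2 * (exp (2 K) d ^ (2 K + 1)) * b ^ q0 ≥ g` -/
lemma bq (b m K g L : ℕ) (hb : 1 ≤ b) (hdm : b + 1 ≤ m) (hm : m ^ b < (b + 1) ^ (b + 1))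
    (hLK : L ≤ K * (b + 1)) (hgL : g < m ^ L) (hg : 0 < g) :
    (g : ℝ) ≤ (m : ℝ) ^ 2 * (Real.exp (2 * K) * ((b : ℝ) + 1) ^ (2 * K + 1))
      * (b : ℝ) ^ (Nat.log m g - 1) := by
  set e := Nat.log m g with he
  have h1 : g < m ^ (e + 1) := Nat.lt_pow_succ_log_self (by omega) g
  have h2 : m ^ (e + 1) ≤ m ^ 2 * m ^ (e - 1) := by
    rw [← pow_add]
    apply Nat.pow_le_pow_right (by omega)
    omega
  have h3 : e ≤ L := by
    have : m ^ e < m ^ L := lt_of_le_of_lt (Nat.pow_log_le_self m (by omega)) hgL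
    exact ((Nat.pow_lt_pow_iff_right (by omega)).mp this).le
  have h4 := m_pow_le' b m K hb hdm hm (e - 1) (by omega)
  have h5 := d_pow_le_exp b K (e - 1) hb (by omega)
  have h6 : (g : ℝ) ≤ (m : ℝ) ^ 2 * (m : ℝ) ^ (e - 1) := by
    have := (h1.le.trans h2)
    exact_mod_cast this
  have h7 : (m : ℝ) ^ (e - 1) ≤ ((b : ℝ) + 1) ^ (e - 1 + 2 * K + 1) := by exact_mod_cast h4
  calc (g : ℝ) ≤ (m : ℝ) ^ 2 * (m : ℝ) ^ (e - 1) := h6
    _ ≤ (m : ℝ) ^ 2 * ((b : ℝ) + 1) ^ (e - 1 + 2 * K + 1) :=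
        mul_le_mul_of_nonneg_left h7 (by positivity)
    _ = (m : ℝ) ^ 2 * (((b : ℝ) + 1) ^ (2 * K + 1) * ((b : ℝ) + 1) ^ (e - 1)) := by
        rw [← pow_add]
        congr 2
        omega
    _ ≤ (m : ℝ) ^ 2 * (((b : ℝ) + 1) ^ (2 * K + 1) * (Real.exp (2 * K) * (b : ℝ) ^ (e - 1))) := by
        apply mul_le_mul_of_nonneg_left _ (by positivity)
        exact mul_le_mul_of_nonneg_left h5 (by positivity)
    _ = _ := by ring

lemma four_pow_fq (m g : ℕ) (hm : 256 ≤ m) (hg : 0 < g) : (4 : ℝ) ^ (Nat.log m g - 1) * fq g ≤ 1 := by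
  set q := Nat.log m g - 1 with hq
  have h1 : ((4 : ℝ) ^ q * fq g) ^ 4 ≤ 1 := by
    rw [mul_pow, fq_pow4, ← pow_mul, mul_comm q 4, pow_mul]
    have h2 : ((4 : ℝ) ^ 4) ^ q ≤ g := by
      have h3 : (4 ^ 4) ^ q ≤ g := by
        calc (4 ^ 4) ^ q ≤ m ^ q := Nat.pow_le_pow_left (by norm_num; exact hm) q
          _ ≤ m ^ (Nat.log m g) := Nat.pow_le_pow_right (by omega) (by omega)
          _ ≤ g := Nat.pow_log_le_self m (by omega)
      exact_mod_cast h3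
    have hg0 : (0 : ℝ) < g := by exact_mod_cast hg
    rw [← div_eq_mul_inv, div_le_one hg0]
    exact h2
  have h3 : 0 ≤ (4 : ℝ) ^ q * fq g := mul_nonneg (by positivity) (fq_nonneg g)
  by_contra h
  push Not at h
  have := one_lt_pow₀ h (n := 4) (by norm_num)
  linarith

/-- the first kind of term -/
lemma case1 (b m K g L : ℕ) (hb : 1 ≤ b) (hdm : b + 1 ≤ m) (hm : m ^ b < (b + 1) ^ (b + 1))
    (hm256 : 256 ≤ m) (hLK : L ≤ K * (b + 1)) (hgL : g < m ^ L) (hg : 0 < g) :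
    (g : ℝ) * (2 / (b : ℝ)) ^ ((Nat.log m g - 1) + (Nat.log m g - 1))
      ≤ ((m : ℝ) ^ 2 * (Real.exp (2 * K) * ((b : ℝ) + 1) ^ (2 * K + 1))) ^ 2 * fq g ^ 3 := by
  have h1 := bq b m K g L hb hdm hm hLK hgL hg
  have h2 := four_pow_fq m g hm256 hg
  set q := Nat.log m g - 1 with hq
  set C := (m : ℝ) ^ 2 * (Real.exp (2 * K) * ((b : ℝ) + 1) ^ (2 * K + 1)) with hC
  have hb0 : (0 : ℝ) < b := by exact_mod_cast hb
  have hg0 : (0 : ℝ) < g := by exact_mod_cast hg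
  have hf := fq_nonneg g
  have hf4 := fq_pow4 g
  have h3 : (2 / (b : ℝ)) ^ (q + q) = 4 ^ q / ((b : ℝ) ^ q) ^ 2 := by
    have e1 : (2 : ℝ) ^ (q + q) = 4 ^ q := by rw [← two_mul, pow_mul]; norm_num
    have e2 : (b : ℝ) ^ (q + q) = ((b : ℝ) ^ q) ^ 2 := by rw [pow_add, sq]
    rw [div_pow, e1, e2]
  rw [h3]
  have h4 : (g : ℝ) ^ 2 ≤ C ^ 2 * ((b : ℝ) ^ q) ^ 2 := by
    rw [← mul_pow]
    exact pow_le_pow_left₀ hg0.le h1 2
  have h5 : (g : ℝ) * fq g ^ 4 = 1 := by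
    rw [hf4]
    field_simp
  have hbq : (0 : ℝ) < ((b : ℝ) ^ q) ^ 2 := by positivity
  rw [mul_div_assoc', div_le_iff₀ hbq]
  -- g * 4^q ≤ C² fq³ (b^q)²
  have h6 : (g : ℝ) * 4 ^ q = (g : ℝ) ^ 2 * (4 ^ q * fq g) * fq g ^ 3 := by
    have : (g : ℝ) ^ 2 * (4 ^ q * fq g) * fq g ^ 3 = (g : ℝ) * 4 ^ q * ((g : ℝ) * fq g ^ 4) := by
      ring
    rw [this, h5, mul_one]
  rw [h6]
  calc (g : ℝ) ^ 2 * (4 ^ q * fq g) * fq g ^ 3 ≤ (g : ℝ) ^ 2 * 1 * fq g ^ 3 := by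
        apply mul_le_mul_of_nonneg_right _ (by positivity)
        exact mul_le_mul_of_nonneg_left h2 (by positivity)
    _ ≤ (C ^ 2 * ((b : ℝ) ^ q) ^ 2) * 1 * fq g ^ 3 := by
        apply mul_le_mul_of_nonneg_right _ (by positivity)
        exact mul_le_mul_of_nonneg_right h4 (by norm_num)
    _ = C ^ 2 * fq g ^ 3 * ((b : ℝ) ^ q) ^ 2 := by ring

/-- comparison of `4 ^ L / b ^ (L / 2)` with `d ^ (- L / 4)` -/
lemma half_pow (b L : ℕ) (hb : 1 ≤ b) (hb2 : 4096 * (b + 1) ≤ b ^ 2) :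
    (4 : ℝ) ^ L ≤ (b : ℝ) ^ (L / 2) * (b * (fq (b + 1)) ^ L * (1 / 2) ^ L) := by
  have hb0 : (0 : ℝ) < b := by exact_mod_cast hb
  set f := fq (b + 1) with hf
  have hf0 : 0 < f := by
    rw [hf]
    unfold fq
    positivity
  have hf4 : f ^ 4 = ((b : ℝ) + 1)⁻¹ := by
    rw [hf, fq_pow4]
    push_cast
    rfl
  have h1 : (64 : ℝ) ≤ b * f ^ 2 := by
    have h2 : (64 : ℝ) ^ 2 ≤ (b * f ^ 2) ^ 2 := by
      rw [mul_pow, ← pow_mul, show 2 * 2 = 4 by norm_num, hf4]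
      rw [← div_eq_mul_inv, le_div_iff₀ (by positivity)]
      have : (4096 : ℝ) * (b + 1) ≤ b ^ 2 := by exact_mod_cast hb2
      linarith
    exact (pow_le_pow_iff_left₀ (by norm_num) (by positivity) (by norm_num)).mp h2
  have h2 : (64 : ℝ) ^ L ≤ (b * f ^ 2) ^ L := pow_le_pow_left₀ (by norm_num) h1 L
  have h3 : (b : ℝ) ^ L ≤ ((b : ℝ) ^ (L / 2)) ^ 2 * b := by
    rw [← pow_mul, ← pow_succ]
    apply pow_le_pow_right₀ (by exact_mod_cast hb)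
    omega
  have h4 : ((4 : ℝ) ^ L) ^ 2 ≤ ((b : ℝ) ^ (L / 2) * (b * f ^ L * (1 / 2) ^ L)) ^ 2 := by
    have e1 : ((b : ℝ) ^ (L / 2) * (b * f ^ L * (1 / 2) ^ L)) ^ 2
        = (((b : ℝ) ^ (L / 2)) ^ 2 * b) * b * (f ^ 2) ^ L * (1 / 4) ^ L := by
      have e2 : ((1 : ℝ) / 4) ^ L = ((1 / 2) ^ L) ^ 2 := by
        rw [← pow_mul, mul_comm L 2, pow_mul]
        norm_num
      rw [e2, ← pow_mul f 2 L, mul_comm 2 L, pow_mul f L 2]
      ring
    rw [e1]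
    have e3 : ((4 : ℝ) ^ L) ^ 2 = 64 ^ L * (1 / 4) ^ L := by
      rw [← mul_pow, ← pow_mul, mul_comm L 2, pow_mul]
      norm_num
    rw [e3]
    apply mul_le_mul_of_nonneg_right _ (by positivity)
    calc (64 : ℝ) ^ L ≤ (b * f ^ 2) ^ L := h2
      _ = (b : ℝ) ^ L * (f ^ 2) ^ L := by rw [mul_pow]
      _ ≤ (((b : ℝ) ^ (L / 2)) ^ 2 * b) * (f ^ 2) ^ L :=
          mul_le_mul_of_nonneg_right h3 (by positivity)
      _ = (((b : ℝ) ^ (L / 2)) ^ 2 * b) * 1 * (f ^ 2) ^ L := by ring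
      _ ≤ (((b : ℝ) ^ (L / 2)) ^ 2 * b) * b * (f ^ 2) ^ L := by
          apply mul_le_mul_of_nonneg_right _ (by positivity)
          apply mul_le_mul_of_nonneg_left _ (by positivity)
          exact_mod_cast hb
  exact (pow_le_pow_iff_left₀ (by positivity) (by positivity) (by norm_num)).mp h4

/-- the second kind of term, `L < L'` -/
lemma case4 (b m K g L L' U : ℕ) (hb : 1 ≤ b) (hdm : b + 1 ≤ m) (hm : m ^ b < (b + 1) ^ (b + 1))
    (hb2 : 4096 * (b + 1) ≤ b ^ 2) (hLK : L ≤ K * (b + 1)) (hgL : g < m ^ L) (hg : 0 < g)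
    (hgd : g ≤ (b + 1) ^ L) (hLL : L < L') (hsmall : g ≤ m ^ (L' - L + U))
    (hbig : L / 2 < Nat.log m g - 1) :
    (g : ℝ) * (2 / (b : ℝ)) ^ (L / 2 + min (Nat.log m g - 1) (L' / 2))
      ≤ ((m : ℝ) ^ 2 * (Real.exp (2 * K) * ((b : ℝ) + 1) ^ (2 * K + 1))) * (b : ℝ) ^ (U + 1)
        * (fq g * (1 / 2) ^ L) := by
  have h1 := bq b m K g L hb hdm hm hLK hgL hg
  set e := Nat.log m g with he
  set q' := min (e - 1) (L' / 2) with hq'
  set C := (m : ℝ) ^ 2 * (Real.exp (2 * K) * ((b : ℝ) + 1) ^ (2 * K + 1)) with hC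
  have hb0 : (0 : ℝ) < b := by exact_mod_cast hb
  have hb1 : (1 : ℝ) ≤ b := by exact_mod_cast hb
  have heL : e ≤ L := by
    have : m ^ e < m ^ L := lt_of_le_of_lt (Nat.pow_log_le_self m (by omega)) hgL
    exact ((Nat.pow_lt_pow_iff_right (by omega)).mp this).le
  have heU : e ≤ L' - L + U := by
    have : m ^ e ≤ m ^ (L' - L + U) := (Nat.pow_log_le_self m (by omega)).trans hsmall
    exact (Nat.pow_le_pow_iff_right (by omega)).mp this
  have hq'ge : e - 1 ≤ q' + U := by omega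
  have hq'le : q' ≤ L := by omega
  have h2 : (2 / (b : ℝ)) ^ (L / 2 + q') = 2 ^ (L / 2 + q') / ((b : ℝ) ^ (L / 2) * (b : ℝ) ^ q') := by
    rw [div_pow, pow_add (b : ℝ)]
  have h3 : (2 : ℝ) ^ (L / 2 + q') ≤ 4 ^ L := by
    have : (4 : ℝ) ^ L = 2 ^ (2 * L) := by rw [pow_mul]; norm_num
    rw [this]
    apply pow_le_pow_right₀ (by norm_num)
    omega
  have h4 : (g : ℝ) ≤ C * (b : ℝ) ^ U * (b : ℝ) ^ q' := by
    have h5 : (b : ℝ) ^ (e - 1) ≤ (b : ℝ) ^ U * (b : ℝ) ^ q' := by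
      rw [← pow_add]
      apply pow_le_pow_right₀ hb1
      omega
    calc (g : ℝ) ≤ C * (b : ℝ) ^ (e - 1) := h1
      _ ≤ C * ((b : ℝ) ^ U * (b : ℝ) ^ q') := mul_le_mul_of_nonneg_left h5 (by positivity)
      _ = C * (b : ℝ) ^ U * (b : ℝ) ^ q' := by ring
  have h5 := half_pow b L hb hb2
  have h6 : (fq (b + 1)) ^ L ≤ fq g := by
    rw [← fq_pow]
    exact fq_anti hg hgd
  rw [h2, mul_div_assoc', div_le_iff₀ (by positivity)]
  calc (g : ℝ) * 2 ^ (L / 2 + q') ≤ (C * (b : ℝ) ^ U * (b : ℝ) ^ q') * 4 ^ L :=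
        mul_le_mul h4 h3 (by positivity) (by positivity)
    _ ≤ (C * (b : ℝ) ^ U * (b : ℝ) ^ q') * ((b : ℝ) ^ (L / 2) * (b * (fq (b + 1)) ^ L * (1 / 2) ^ L)) :=
        mul_le_mul_of_nonneg_left h5 (by positivity)
    _ ≤ (C * (b : ℝ) ^ U * (b : ℝ) ^ q') * ((b : ℝ) ^ (L / 2) * (b * fq g * (1 / 2) ^ L)) := by
        apply mul_le_mul_of_nonneg_left _ (by positivity)
        apply mul_le_mul_of_nonneg_left _ (by positivity)
        apply mul_le_mul_of_nonneg_right _ (by positivity)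
        exact mul_le_mul_of_nonneg_left h6 hb0.le
    _ = C * (b : ℝ) ^ (U + 1) * (fq g * (1 / 2) ^ L) * ((b : ℝ) ^ (L / 2) * (b : ℝ) ^ q') := by
        rw [pow_succ]
        ring

/-- the third kind of term -/
lemma case2 (b K L : ℕ) (hb : 2 ≤ b) (hLK : L ≤ K * (b + 1)) :
    (2 / (b : ℝ)) ^ (L / 2 + L / 2) * ((b : ℝ) + 1) ^ L ≤ b * Real.exp (2 * K) * 2 ^ L := by
  have hb0 : (0 : ℝ) < b := by
    have : 0 < b := by omega
    exact_mod_cast this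
  have hb2 : (2 : ℝ) ≤ b := by exact_mod_cast hb
  have hx1 : 2 / (b : ℝ) ≤ 1 := by rw [div_le_one hb0]; exact hb2
  have h1 : (2 / (b : ℝ)) ^ (L / 2 + L / 2) * (2 / (b : ℝ)) ≤ (2 / (b : ℝ)) ^ L := by
    rw [← pow_succ]
    apply pow_le_pow_of_le_one (by positivity) hx1
    omega
  have h2 := d_pow_le_exp b K L (by omega) hLK
  have h3 : (2 / (b : ℝ)) ^ (L / 2 + L / 2) ≤ (2 / (b : ℝ)) ^ L * b := by
    have h4 : (2 / (b : ℝ)) ^ (L / 2 + L / 2)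
        = ((2 / (b : ℝ)) ^ (L / 2 + L / 2) * (2 / (b : ℝ))) * (b / 2) := by
      field_simp
    rw [h4]
    calc ((2 / (b : ℝ)) ^ (L / 2 + L / 2) * (2 / (b : ℝ))) * (b / 2)
        ≤ (2 / (b : ℝ)) ^ L * (b / 2) := mul_le_mul_of_nonneg_right h1 (by positivity)
      _ ≤ (2 / (b : ℝ)) ^ L * b := by
          apply mul_le_mul_of_nonneg_left _ (by positivity)
          linarith
  calc (2 / (b : ℝ)) ^ (L / 2 + L / 2) * ((b : ℝ) + 1) ^ L
      ≤ ((2 / (b : ℝ)) ^ L * b) * (Real.exp (2 * K) * (b : ℝ) ^ L) :=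
        mul_le_mul h3 h2 (by positivity) (by positivity)
    _ = b * Real.exp (2 * K) * 2 ^ L := by
        rw [div_pow]
        field_simp

end GC70
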