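import Mathlib
import Pool.Agent.Helper70.GC.Term

/-!
# The contribution of one modulus
-/

set_option autoImplicit false

namespace GC70

open Finset

/-- general context -/
structure Cx (b m K U R W : ℕ) : Prop where
  b300 : 300 ≤ b
  b4096 : 4096 * (b + 1) ≤ b ^ 2
  dm : b + 1 ≤ m
  cop : Nat.Coprime m (b + 1)
  hm : m ^ b < (b + 1) ^ (b + 1)
  K1 : 1 ≤ K
  K2 : 2 * K ≤ b
  U2 : 2 * U + 4 ≤ b
  W1 : 1 ≤ W
  WG : ∀ L, b + 1 ≤ L → W ≤ L / (3 * R + 1)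
  size : ∀ L, b + 1 ≤ L → L ≤ K * (b + 1) →
    R * 4 ^ L * 2 * m ^ (L - L / (3 * R + 1) + 2 * U + 2 * W) < (b + 1) ^ L

/-- a type of words -/
structure Ty (b m K U L u : ℕ) : Prop where
  Lge : b + 1 ≤ L
  Lle : L ≤ K * (b + 1)
  u1 : 1 ≤ u
  uU : u ≤ U
  half : 2 * m ^ (L - u) ≤ (b + 1) ^ L

/-- the denominator -/
def DD (b m L u : ℕ) : ℕ := (b + 1) ^ L - m ^ (L - u)

section

variable {b m K U R W L u : ℕ}

lemma Ty.D_le (h : Ty b m K U L u) : DD b m L u ≤ (b + 1) ^ L := Nat.sub_le _ _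

lemma Ty.le_two_D (h : Ty b m K U L u) : (b + 1) ^ L ≤ 2 * DD b m L u := by
  unfold DD
  have := h.half
  omega

lemma Ty.D_pos (h : Ty b m K U L u) : 0 < DD b m L u := by
  have h1 := h.le_two_D
  have h2 : 0 < (b + 1) ^ L := by positivity
  omega

lemma Ty.D_lt (h : Ty b m K U L u) (hm : 1 ≤ m) : DD b m L u < (b + 1) ^ L := by
  unfold DD
  have h1 : 0 < m ^ (L - u) := by positivity
  have h2 := h.half
  omega

lemma Ty.cop (C : Cx b m K U R W) (h : Ty b m K U L u) :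
    Nat.Coprime (b + 1) (DD b m L u) ∧ Nat.Coprime m (DD b m L u) := by
  have h1 := h.Lge
  have h2 := h.uU
  have h3 := C.U2
  apply coprime_D (b + 1) m L (L - u) C.cop (by omega) (by omega)
  have := h.half
  omega

end

lemma fq_le_exp (y : ℝ) (g : ℕ) (hg : Real.exp y ≤ g) : fq g ≤ Real.exp (-(y / 4)) := by
  unfold fq
  have h0 := Real.exp_pos y
  have h1 : (g : ℝ) ^ (-(1 / 4) : ℝ) ≤ (Real.exp y) ^ (-(1 / 4) : ℝ) :=
    Real.rpow_le_rpow_of_nonpos h0 hg (by norm_num)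
  refine h1.trans (le_of_eq ?_)
  rw [← Real.exp_mul]
  congr 1
  ring

/-- the constant `m ^ 2 exp (2 K) d ^ (2 K + 1)` -/
noncomputable def Cm (b m K : ℕ) : ℝ :=
  (m : ℝ) ^ 2 * (Real.exp (2 * K) * ((b : ℝ) + 1) ^ (2 * K + 1))

lemma one_le_Cm (b m K : ℕ) (hm : 1 ≤ m) : 1 ≤ Cm b m K := by
  unfold Cm
  have h1 : (1 : ℝ) ≤ (m : ℝ) ^ 2 := one_le_pow₀ (by exact_mod_cast hm)
  have h2 : (1 : ℝ) ≤ Real.exp (2 * K) := Real.one_le_exp (by positivity)
  have h3 : (1 : ℝ) ≤ ((b : ℝ) + 1) ^ (2 * K + 1) := by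
    apply one_le_pow₀
    have : (0 : ℝ) ≤ b := by positivity
    linarith
  have h4 : (1 : ℝ) ≤ Real.exp (2 * K) * ((b : ℝ) + 1) ^ (2 * K + 1) := by nlinarith
  nlinarith

lemma exp_le_Cm (b m K : ℕ) (hm : 1 ≤ m) : Real.exp (2 * K) ≤ Cm b m K := by
  unfold Cm
  have h1 : (1 : ℝ) ≤ (m : ℝ) ^ 2 := one_le_pow₀ (by exact_mod_cast hm)
  have h2 : (0 : ℝ) < Real.exp (2 * K) := Real.exp_pos _
  have h3 : (1 : ℝ) ≤ ((b : ℝ) + 1) ^ (2 * K + 1) := by
    apply one_le_pow₀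
    have : (0 : ℝ) ≤ b := by positivity
    linarith
  have h4 : Real.exp (2 * K) ≤ Real.exp (2 * K) * ((b : ℝ) + 1) ^ (2 * K + 1) := by nlinarith
  have h5 : (0 : ℝ) < Real.exp (2 * K) * ((b : ℝ) + 1) ^ (2 * K + 1) := by positivity
  nlinarith

/-- the constant in the bound for large moduli -/
noncomputable def CCo (b m K U R : ℕ) (A : ℝ) : ℝ :=
  4 * A ^ (2 * U + 1 + R) * (b : ℝ) ^ (3 * U + 1) * Cm b m K ^ 2

variable {B : Type} [Fintype B] [DecidableEq B]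

/-- large moduli, general case -/
theorem per_g_A (b0 : B) {b m K U R W L u L' u' : ℕ} (hbB : Fintype.card B = b)
    (C : Cx b m K U R W) (T : Ty b m K U L u) (T' : Ty b m K U L' u') (A : ℝ)
    (hA : (L : ℝ) ≤ A) (hA' : (L' : ℝ) + 1 ≤ A) (g : ℕ) (hg2 : 2 ≤ g) (hg : g ∣ DD b m L u)
    (hg' : g ∣ DD b m L' u') (hLL : L ≤ L')
    (S : Finset ((ℤ → Option B) × (ℤ → Option B))) (q q' : ℕ)
    (hq : q = min (Nat.log m g - 1) (L / 2)) (hq' : q' = min (Nat.log m g - 1) (L' / 2))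
    (hS : (S.card : ℝ) ≤ A ^ (2 * U + 1 + R)
      * ((b : ℝ) ^ (L - u) * (b : ℝ) ^ (L' - u') * (2 / (b : ℝ)) ^ ((q - U) + (q' - U))))
    (hcase : ¬ (L = L' ∧ u = u' ∧ L / 2 < Nat.log m g - 1)) :
    (g : ℝ) * S.card ≤ ((DD b m L u : ℝ) * (DD b m L' u' : ℝ))
      * (CCo b m K U R A * (fq g * (fq g ^ 2 + (1 / 2) ^ (b + 1)))) := by
  have hb300 := C.b300
  have hdm := C.dm
  have hb0 : (0 : ℝ) < b := by
    have : 0 < b := by omega
    exact_mod_cast this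
  have hb2 : (2 : ℝ) ≤ b := by exact_mod_cast (by omega : 2 ≤ b)
  have hb1 : (1 : ℝ) ≤ b := by linarith
  have hLge := T.Lge
  have hLge' := T'.Lge
  have hu := T.uU
  have hu' := T'.uU
  have hU2 := C.U2
  have hg0 : 0 < g := by omega
  have hD := T.D_pos
  have hD' := T'.D_pos
  have hgD : g ≤ DD b m L u := Nat.le_of_dvd hD hg
  have hgL : g < m ^ L := lt_of_le_of_lt hgD ((T.D_lt (by omega)).trans_le
    (Nat.pow_le_pow_left hdm _))
  have hcop := T.cop C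
  have hgd : Nat.Coprime (b + 1) g := Nat.Coprime.coprime_dvd_right hg hcop.1
  have hgm : Nat.Coprime m g := Nat.Coprime.coprime_dvd_right hg hcop.2
  have hA0 : 0 ≤ A := le_trans (by positivity) hA
  set e := Nat.log m g with he
  set Cc := Cm b m K with hCc
  have hC1 : 1 ≤ Cc := one_le_Cm b m K (by omega)
  have hf0 := fq_nonneg g
  -- reduction
  have hDr : ((b : ℝ) + 1) ^ L ≤ 2 * (DD b m L u : ℝ) := by exact_mod_cast T.le_two_D
  have hDr' : ((b : ℝ) + 1) ^ L' ≤ 2 * (DD b m L' u' : ℝ) := by exact_mod_cast T'.le_two_D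
  have hbs : (b : ℝ) ^ (L - u) ≤ ((b : ℝ) + 1) ^ L := by
    calc (b : ℝ) ^ (L - u) ≤ (b : ℝ) ^ L := pow_le_pow_right₀ hb1 (by omega)
      _ ≤ ((b : ℝ) + 1) ^ L := pow_le_pow_left₀ hb0.le (by linarith) _
  have hbs' : (b : ℝ) ^ (L' - u') ≤ ((b : ℝ) + 1) ^ L' := by
    calc (b : ℝ) ^ (L' - u') ≤ (b : ℝ) ^ L' := pow_le_pow_right₀ hb1 (by omega)
      _ ≤ ((b : ℝ) + 1) ^ L' := pow_le_pow_left₀ hb0.le (by linarith) _
  have hDD0 : (0 : ℝ) < (DD b m L u : ℝ) * (DD b m L' u' : ℝ) := by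
    apply mul_pos <;> exact_mod_cast (by assumption)
  have hbb : (b : ℝ) ^ (L - u) * (b : ℝ) ^ (L' - u')
      ≤ 4 * ((DD b m L u : ℝ) * (DD b m L' u' : ℝ)) := by
    calc (b : ℝ) ^ (L - u) * (b : ℝ) ^ (L' - u')
        ≤ (2 * (DD b m L u : ℝ)) * (2 * (DD b m L' u' : ℝ)) :=
          mul_le_mul (hbs.trans hDr) (hbs'.trans hDr') (by positivity) (by positivity)
      _ = _ := by ring
  have hpow : (2 / (b : ℝ)) ^ ((q - U) + (q' - U)) ≤ (b : ℝ) ^ (2 * U) * (2 / (b : ℝ)) ^ (q + q') := by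
    have h1 := pow_sub_le b hb2 q U
    have h2 := pow_sub_le b hb2 q' U
    calc (2 / (b : ℝ)) ^ ((q - U) + (q' - U))
        = (2 / (b : ℝ)) ^ (q - U) * (2 / (b : ℝ)) ^ (q' - U) := pow_add _ _ _
      _ ≤ ((b : ℝ) ^ U * (2 / (b : ℝ)) ^ q) * ((b : ℝ) ^ U * (2 / (b : ℝ)) ^ q') :=
          mul_le_mul h1 h2 (by positivity) (by positivity)
      _ = (b : ℝ) ^ (2 * U) * (2 / (b : ℝ)) ^ (q + q') := by
          rw [pow_add, two_mul, pow_add]
          ring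
  have hred : (g : ℝ) * S.card ≤ ((DD b m L u : ℝ) * (DD b m L' u' : ℝ))
      * (4 * A ^ (2 * U + 1 + R) * (b : ℝ) ^ (2 * U) * ((g : ℝ) * (2 / (b : ℝ)) ^ (q + q'))) := by
    calc (g : ℝ) * S.card ≤ (g : ℝ) * (A ^ (2 * U + 1 + R)
          * ((b : ℝ) ^ (L - u) * (b : ℝ) ^ (L' - u') * (2 / (b : ℝ)) ^ ((q - U) + (q' - U)))) :=
          mul_le_mul_of_nonneg_left hS (by positivity)
      _ ≤ (g : ℝ) * (A ^ (2 * U + 1 + R)
          * ((4 * ((DD b m L u : ℝ) * (DD b m L' u' : ℝ)))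
            * ((b : ℝ) ^ (2 * U) * (2 / (b : ℝ)) ^ (q + q')))) := by
          apply mul_le_mul_of_nonneg_left _ (by positivity)
          apply mul_le_mul_of_nonneg_left _ (by positivity)
          exact mul_le_mul hbb hpow (by positivity) (by positivity)
      _ = _ := by ring
  refine hred.trans ?_
  apply mul_le_mul_of_nonneg_left _ hDD0.le
  -- the two cases
  have hCo : CCo b m K U R A = 4 * A ^ (2 * U + 1 + R) * (b : ℝ) ^ (2 * U)
      * ((b : ℝ) ^ (U + 1) * Cc ^ 2) := by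
    unfold CCo
    rw [show 3 * U + 1 = 2 * U + (U + 1) by ring, pow_add (b : ℝ)]
    ring
  rw [hCo, mul_assoc (4 * A ^ (2 * U + 1 + R) * (b : ℝ) ^ (2 * U)) _ _]
  apply mul_le_mul_of_nonneg_left _ (by positivity)
  have hbU1 : (1 : ℝ) ≤ (b : ℝ) ^ (U + 1) := one_le_pow₀ hb1
  have hC2 : Cc ≤ Cc ^ 2 := by nlinarith
  have hhalf0 : (0 : ℝ) < (1 / 2) ^ (b + 1) := by positivity
  by_cases hc1 : e - 1 ≤ L / 2
  · -- first case
    have hq1 : q = e - 1 := by omega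
    have hq1' : q' = e - 1 := by omega
    have h1 := case1 b m K g L (by omega) hdm C.hm (by omega) T.Lle hgL hg0
    rw [hq1, hq1']
    refine h1.trans ?_
    show Cc ^ 2 * fq g ^ 3 ≤ _
    calc Cc ^ 2 * fq g ^ 3 = 1 * Cc ^ 2 * (fq g * fq g ^ 2) := by ring
      _ ≤ (b : ℝ) ^ (U + 1) * Cc ^ 2 * (fq g * (fq g ^ 2 + (1 / 2) ^ (b + 1))) := by
          apply mul_le_mul _ _ (by positivity) (by positivity)
          · exact mul_le_mul_of_nonneg_right hbU1 (by positivity)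
          · apply mul_le_mul_of_nonneg_left _ hf0
            linarith
  · push Not at hc1
    have hlt : L < L' := by
      rcases Nat.lt_or_ge L L' with h | h
      · exact h
      · exfalso
        have hLeq : L = L' := by omega
        subst hLeq
        have hne : u ≠ u' := by
          rintro rfl
          exact hcase ⟨rfl, rfl, hc1⟩
        have h1 := common_same (b + 1) m g L (L - u) (L - u') U (by omega) hgm
          (by have := T.half; omega) (by have := T'.half; omega) hg hg' (by omega) (by omega)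
          (by omega) (by omega) (by omega)
        have h2 : e ≤ U := by
          have : m ^ e ≤ m ^ U := (Nat.pow_log_le_self m (by omega)).trans h1
          exact (Nat.pow_le_pow_iff_right (by omega)).mp this
        omega
    have hsmall := common_small (b + 1) m g L L' (L - u) (L' - u') U (by omega) hdm C.cop hgm hlt
      (by have := T.half; omega) (by have := T'.half; omega) hg hg' (by omega) (by omega)
      (by omega) (by omega)
    have h1 := case4 b m K g L L' U (by omega) hdm C.hm C.b4096 T.Lle hgL hg0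
      (hgD.trans T.D_le) hlt hsmall hc1
    have hq1 : q = L / 2 := by omega
    rw [hq1, hq']
    refine h1.trans ?_
    show Cc * (b : ℝ) ^ (U + 1) * (fq g * (1 / 2) ^ L) ≤ _
    have h2 : ((1 : ℝ) / 2) ^ L ≤ (1 / 2) ^ (b + 1) :=
      pow_le_pow_of_le_one (by norm_num) (by norm_num) hLge
    calc Cc * (b : ℝ) ^ (U + 1) * (fq g * (1 / 2) ^ L)
        = (b : ℝ) ^ (U + 1) * Cc * (fq g * (1 / 2) ^ L) := by ring
      _ ≤ (b : ℝ) ^ (U + 1) * Cc ^ 2 * (fq g * (fq g ^ 2 + (1 / 2) ^ (b + 1))) := by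
          apply mul_le_mul _ _ (by positivity) (by positivity)
          · exact mul_le_mul_of_nonneg_left hC2 (by positivity)
          · apply mul_le_mul_of_nonneg_left _ hf0
            have := sq_nonneg (fq g)
            linarith

/-- large moduli, the same type, large modulus -/
theorem per_g_B {b m K U R W L u : ℕ}
    (C : Cx b m K U R W) (T : Ty b m K U L u) (A : ℝ)
    (hA : (L : ℝ) + 1 ≤ A) (g : ℕ) (hg0 : 0 < g) (hg : g ∣ DD b m L u)
    (S : Finset ((ℤ → Option B) × (ℤ → Option B))) (q : ℕ) (hq : q = L / 2)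
    (hS : (S.card : ℝ) ≤ A ^ (2 * U + 1 + R)
      * ((b : ℝ) ^ (L - u) * (b : ℝ) ^ (L - u) * (2 / (b : ℝ)) ^ ((q - U) + (q - U))))
    (hbig : 4 ^ L * g < DD b m L u) :
    (g : ℝ) * S.card ≤ ((DD b m L u : ℝ) * (DD b m L u : ℝ))
      * (CCo b m K U R A * (fq (DD b m L u / g) * fq 4 ^ (b + 1))) := by
  have hb300 := C.b300
  have hdm := C.dm
  have hb0 : (0 : ℝ) < b := by
    have : 0 < b := by omega
    exact_mod_cast this
  have hb2 : (2 : ℝ) ≤ b := by exact_mod_cast (by omega : 2 ≤ b)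
  have hb1 : (1 : ℝ) ≤ b := by linarith
  have hLge := T.Lge
  have hu := T.uU
  have hU2 := C.U2
  have hD := T.D_pos
  have hA0 : 0 ≤ A := le_trans (by positivity) hA
  set Cc := Cm b m K with hCc
  have hC1 : 1 ≤ Cc := one_le_Cm b m K (by omega)
  have hCe : Real.exp (2 * K) ≤ Cc := exp_le_Cm b m K (by omega)
  have hDr : ((b : ℝ) + 1) ^ L ≤ 2 * (DD b m L u : ℝ) := by exact_mod_cast T.le_two_D
  have hDr2 : (DD b m L u : ℝ) ≤ ((b : ℝ) + 1) ^ L := by exact_mod_cast T.D_le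
  have hbs : (b : ℝ) ^ (L - u) ≤ ((b : ℝ) + 1) ^ L := by
    calc (b : ℝ) ^ (L - u) ≤ (b : ℝ) ^ L := pow_le_pow_right₀ hb1 (by omega)
      _ ≤ ((b : ℝ) + 1) ^ L := pow_le_pow_left₀ hb0.le (by linarith) _
  have hD0 : (0 : ℝ) < (DD b m L u : ℝ) := by exact_mod_cast hD
  have hbb : (b : ℝ) ^ (L - u) * (b : ℝ) ^ (L - u)
      ≤ 4 * ((DD b m L u : ℝ) * (DD b m L u : ℝ)) := by
    calc (b : ℝ) ^ (L - u) * (b : ℝ) ^ (L - u)
        ≤ (2 * (DD b m L u : ℝ)) * (2 * (DD b m L u : ℝ)) :=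
          mul_le_mul (hbs.trans hDr) (hbs.trans hDr) (by positivity) (by positivity)
      _ = _ := by ring
  have hpow : (2 / (b : ℝ)) ^ ((q - U) + (q - U)) ≤ (b : ℝ) ^ (2 * U) * (2 / (b : ℝ)) ^ (q + q) := by
    have h1 := pow_sub_le b hb2 q U
    calc (2 / (b : ℝ)) ^ ((q - U) + (q - U))
        = (2 / (b : ℝ)) ^ (q - U) * (2 / (b : ℝ)) ^ (q - U) := pow_add _ _ _
      _ ≤ ((b : ℝ) ^ U * (2 / (b : ℝ)) ^ q) * ((b : ℝ) ^ U * (2 / (b : ℝ)) ^ q) :=
          mul_le_mul h1 h1 (by positivity) (by positivity)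
      _ = (b : ℝ) ^ (2 * U) * (2 / (b : ℝ)) ^ (q + q) := by
          rw [pow_add, two_mul, pow_add]
          ring
  obtain ⟨h, hh⟩ := hg
  have hh0 : 0 < h := by
    rcases Nat.eq_zero_or_pos h with h0 | h0
    · rw [h0] at hh
      omega
    · exact h0
  have hdiv : DD b m L u / g = h := by
    rw [hh]
    exact Nat.mul_div_cancel_left _ hg0
  rw [hdiv]
  have hhbig : 4 ^ L < h := by
    rw [hh, mul_comm] at hbig
    exact Nat.lt_of_mul_lt_mul_left hbig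
  have hgr : (0 : ℝ) < g := by exact_mod_cast hg0
  have hhr : (0 : ℝ) < h := by exact_mod_cast hh0
  have hDgh : (DD b m L u : ℝ) = g * h := by exact_mod_cast hh
  have hc2 := case2 b K L (by omega) T.Lle
  rw [← hq] at hc2
  -- (2/b)^(2q) * D ≤ b exp(2K) 2^L
  have hc3 : (2 / (b : ℝ)) ^ (q + q) * (DD b m L u : ℝ) ≤ b * Cc * 2 ^ L := by
    calc (2 / (b : ℝ)) ^ (q + q) * (DD b m L u : ℝ)
        ≤ (2 / (b : ℝ)) ^ (q + q) * ((b : ℝ) + 1) ^ L :=
          mul_le_mul_of_nonneg_left hDr2 (by positivity)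
      _ ≤ b * Real.exp (2 * K) * 2 ^ L := hc2
      _ ≤ b * Cc * 2 ^ L := by
          apply mul_le_mul_of_nonneg_right _ (by positivity)
          exact mul_le_mul_of_nonneg_left hCe hb0.le
  have hc4 : (g : ℝ) * (2 / (b : ℝ)) ^ (q + q) ≤ b * Cc * (2 ^ L * (h : ℝ)⁻¹) := by
    rw [hDgh] at hc3
    have : (g : ℝ) * (2 / (b : ℝ)) ^ (q + q) = ((2 / (b : ℝ)) ^ (q + q) * (g * h)) * (h : ℝ)⁻¹ := by
      field_simp
    rw [this]
    calc ((2 / (b : ℝ)) ^ (q + q) * (g * h)) * (h : ℝ)⁻¹ ≤ (b * Cc * 2 ^ L) * (h : ℝ)⁻¹ :=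
          mul_le_mul_of_nonneg_right hc3 (by positivity)
      _ = _ := by ring
  -- 2^L / h ≤ fq h * fq 4 ^ L
  have hf4 : (fq 4) ^ 2 = 1 / 2 := by
    have h1 : ((fq 4) ^ 2) ^ 2 = (1 / 2) ^ 2 := by
      rw [← pow_mul, fq_pow4]
      norm_num
    exact (pow_left_inj₀ (by positivity) (by norm_num) (by norm_num)).mp h1
  have hf40 := fq_nonneg 4
  have hfh := fq_nonneg h
  have hc5 : (2 : ℝ) ^ L * (h : ℝ)⁻¹ ≤ fq h * fq 4 ^ L := by
    rw [← fq_pow4]
    have h1 : fq h ≤ fq 4 ^ L := by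
      rw [← fq_pow]
      exact fq_anti (by positivity) hhbig.le
    have h2 : (2 : ℝ) ^ L * fq h ^ 2 ≤ 1 := by
      calc (2 : ℝ) ^ L * fq h ^ 2 ≤ 2 ^ L * (fq 4 ^ L) ^ 2 := by
            apply mul_le_mul_of_nonneg_left _ (by positivity)
            exact pow_le_pow_left₀ hfh h1 2
        _ = (2 * fq 4 ^ 2) ^ L := by
            rw [mul_pow, ← pow_mul, ← pow_mul, mul_comm L 2]
        _ = 1 := by rw [hf4]; norm_num
    calc (2 : ℝ) ^ L * fq h ^ 4 = (2 ^ L * fq h ^ 2) * (fq h * fq h) := by ring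
      _ ≤ 1 * (fq h * fq h) := mul_le_mul_of_nonneg_right h2 (by positivity)
      _ = fq h * fq h := one_mul _
      _ ≤ fq h * fq 4 ^ L := mul_le_mul_of_nonneg_left h1 hfh
  have hf41 : fq 4 ≤ 1 := by
    have := fq_anti (a := 1) (b := 4) (by norm_num) (by norm_num)
    rwa [fq_one] at this
  have hc6 : fq 4 ^ L ≤ fq 4 ^ (b + 1) := pow_le_pow_of_le_one hf40 hf41 hLge
  have hbU1 : (b : ℝ) ≤ (b : ℝ) ^ (U + 1) := by
    calc (b : ℝ) = (b : ℝ) ^ 1 := (pow_one _).symm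
      _ ≤ (b : ℝ) ^ (U + 1) := pow_le_pow_right₀ hb1 (by omega)
  have hC2 : Cc ≤ Cc ^ 2 := by nlinarith
  have hc7 : (g : ℝ) * (2 / (b : ℝ)) ^ (q + q)
      ≤ ((b : ℝ) ^ (U + 1) * Cc ^ 2) * (fq h * fq 4 ^ (b + 1)) := by
    refine hc4.trans ?_
    apply mul_le_mul _ _ (by positivity) (by positivity)
    · exact mul_le_mul hbU1 hC2 (by positivity) (by positivity)
    · exact hc5.trans (mul_le_mul_of_nonneg_left hc6 hfh)
  have hCo : CCo b m K U R A = 4 * A ^ (2 * U + 1 + R) * (b : ℝ) ^ (2 * U)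
      * ((b : ℝ) ^ (U + 1) * Cc ^ 2) := by
    unfold CCo
    rw [show 3 * U + 1 = 2 * U + (U + 1) by ring, pow_add (b : ℝ)]
    ring
  calc (g : ℝ) * S.card ≤ (g : ℝ) * (A ^ (2 * U + 1 + R)
        * ((b : ℝ) ^ (L - u) * (b : ℝ) ^ (L - u) * (2 / (b : ℝ)) ^ ((q - U) + (q - U)))) :=
        mul_le_mul_of_nonneg_left hS (by positivity)
    _ ≤ (g : ℝ) * (A ^ (2 * U + 1 + R)
        * ((4 * ((DD b m L u : ℝ) * (DD b m L u : ℝ)))
          * ((b : ℝ) ^ (2 * U) * (2 / (b : ℝ)) ^ (q + q)))) := by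
        apply mul_le_mul_of_nonneg_left _ (by positivity)
        apply mul_le_mul_of_nonneg_left _ (by positivity)
        exact mul_le_mul hbb hpow (by positivity) (by positivity)
    _ = ((DD b m L u : ℝ) * (DD b m L u : ℝ)) * (4 * A ^ (2 * U + 1 + R) * (b : ℝ) ^ (2 * U)
        * ((g : ℝ) * (2 / (b : ℝ)) ^ (q + q))) := by ring
    _ ≤ ((DD b m L u : ℝ) * (DD b m L u : ℝ)) * (4 * A ^ (2 * U + 1 + R) * (b : ℝ) ^ (2 * U)
        * (((b : ℝ) ^ (U + 1) * Cc ^ 2) * (fq h * fq 4 ^ (b + 1)))) := by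
        apply mul_le_mul_of_nonneg_left _ (by positivity)
        exact mul_le_mul_of_nonneg_left hc7 (by positivity)
    _ = _ := by
        rw [hCo]
        ring

end GC70
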