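import Mathlib
import Pool.Agent.Helper70.GC.PerG

/-!
# The contribution of a pair of types
-/

set_option autoImplicit false

namespace GC70

open Finset

/-- the threshold between small and large moduli -/
noncomputable def Gr (b K : ℕ) : ℝ := Real.exp (Real.exp (-(4 * (K : ℝ))) * b / 4)

/-- contribution of one small modulus -/
noncomputable def A1c (b K U : ℕ) (A : ℝ) : ℝ :=
  24 * A ^ (2 * U + 1) * Gr b K ^ 2 * Real.exp (-(Real.exp (-(4 * (K : ℝ)))) * b)

/-- the small factor for large moduli -/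
noncomputable def eta (b K : ℕ) : ℝ :=
  Real.exp (-(Real.exp (-(4 * (K : ℝ))) * b / 8)) + (1 / 2) ^ (b + 1)

variable {B : Type} [Fintype B] [DecidableEq B]

/-- the relation between two words -/
def RelW (b m g L u L' u' R W : ℕ) (p : (ℤ → Option B) × (ℤ → Option B)) : Prop :=
  TW p.1 L R W u ∧ TW p.2 L' R W u' ∧
    (∃ l : (ZMod g)ˣ, ∀ i, (V (b + 1) m p.2 L' i : ZMod g) = l * (V (b + 1) m p.1 L i : ZMod g)) ∧
    ¬ (L = L' ∧ ∃ h : ℤ, ∀ j, p.2 (j + h) = p.1 j)

lemma RelW.swap {b m g L u L' u' R W : ℕ} {p : (ℤ → Option B) × (ℤ → Option B)}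
    (h : RelW b m g L u L' u' R W p) : RelW b m g L' u' L u R W p.swap := by
  obtain ⟨h1, h2, ⟨l, hl⟩, h4⟩ := h
  refine ⟨h2, h1, ⟨l⁻¹, fun i => ?_⟩, ?_⟩
  · show (V (b + 1) m p.1 L i : ZMod g) = _ * (V (b + 1) m p.2 L' i : ZMod g)
    rw [hl i, ← mul_assoc, Units.inv_mul, one_mul]
  · rintro ⟨e, k, hk⟩
    apply h4
    refine ⟨e.symm, -k, fun j => ?_⟩
    have := hk (j + -k)
    rw [show j + -k + k = j by ring] at this
    exact this.symm

/-- small modulus -/
theorem per_g_small (b0 : B) {b m K U R W L u L' u' : ℕ} (hbB : Fintype.card B = b)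
    (C : Cx b m K U R W) (T : Ty b m K U L u) (T' : Ty b m K U L' u') (A : ℝ)
    (hA : (L : ℝ) + 1 ≤ A) (hA' : (L' : ℝ) + 1 ≤ A) (g : ℕ) (hg2 : 2 ≤ g) (hg : g ∣ DD b m L u)
    (S : Finset ((ℤ → Option B) × (ℤ → Option B)))
    (hS : ∀ p ∈ S, RelW b m g L u L' u' R W p) (hgG : (g : ℝ) ≤ Gr b K) :
    (g : ℝ) * S.card ≤ ((DD b m L u : ℝ) * (DD b m L' u' : ℝ)) * A1c b K U A := by
  have hb300 := C.b300
  have hb0 : (0 : ℝ) < b := by
    have : 0 < b := by omega
    exact_mod_cast this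
  have hb1 : (1 : ℝ) ≤ b := by exact_mod_cast (by omega : 1 ≤ b)
  have hLge := T.Lge
  have hLge' := T'.Lge
  have hLle := T.Lle
  have hLle' := T'.Lle
  have hu := T.uU
  have hu' := T'.uU
  have hU2 := C.U2
  have hK1 := C.K1
  have hcop := T.cop C
  have hgd : Nat.Coprime (b + 1) g := Nat.Coprime.coprime_dvd_right hg hcop.1
  have hgm : Nat.Coprime m g := Nat.Coprime.coprime_dvd_right hg hcop.2
  have hA0 : 0 ≤ A := le_trans (by positivity) hA
  have h1 := rel1 b0 (b + 1) m g hg2 hgd hgm L L' u u' U (by omega) (by omega) hu hu' (by omega)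
    (by omega) (4 * (K : ℝ)) (by omega) (by rw [hbB]; omega) (by
      rw [hbB]
      have : (L - u) + (L' - u') ≤ 4 * K * b := by
        have h2 : (L - u) + (L' - u') ≤ L + L' := by omega
        have h3 : K * (b + 1) ≤ 2 * K * b := by nlinarith
        calc (L - u) + (L' - u') ≤ L + L' := h2
          _ ≤ K * (b + 1) + K * (b + 1) := Nat.add_le_add hLle hLle'
          _ ≤ 2 * K * b + 2 * K * b := Nat.add_le_add h3 h3
          _ = 4 * K * b := by ring
      exact_mod_cast this) S (fun p hp => by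
      obtain ⟨a1, a2, a3, _⟩ := hS p hp
      exact ⟨a1.typ.per, a2.typ.per, a1.cnt, a2.cnt, a3⟩)
  rw [hbB] at h1
  have hDr : ((b : ℝ) + 1) ^ L ≤ 2 * (DD b m L u : ℝ) := by exact_mod_cast T.le_two_D
  have hDr' : ((b : ℝ) + 1) ^ L' ≤ 2 * (DD b m L' u' : ℝ) := by exact_mod_cast T'.le_two_D
  have hbs : (b : ℝ) ^ (L - u) ≤ ((b : ℝ) + 1) ^ L := by
    calc (b : ℝ) ^ (L - u) ≤ (b : ℝ) ^ L := pow_le_pow_right₀ hb1 (by omega)
      _ ≤ ((b : ℝ) + 1) ^ L := pow_le_pow_left₀ hb0.le (by linarith) _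
  have hbs' : (b : ℝ) ^ (L' - u') ≤ ((b : ℝ) + 1) ^ L' := by
    calc (b : ℝ) ^ (L' - u') ≤ (b : ℝ) ^ L' := pow_le_pow_right₀ hb1 (by omega)
      _ ≤ ((b : ℝ) + 1) ^ L' := pow_le_pow_left₀ hb0.le (by linarith) _
  have hbb : (b : ℝ) ^ ((L - u) + (L' - u'))
      ≤ 4 * ((DD b m L u : ℝ) * (DD b m L' u' : ℝ)) := by
    rw [pow_add]
    calc (b : ℝ) ^ (L - u) * (b : ℝ) ^ (L' - u')
        ≤ (2 * (DD b m L u : ℝ)) * (2 * (DD b m L' u' : ℝ)) :=
          mul_le_mul (hbs.trans hDr) (hbs'.trans hDr') (by positivity) (by positivity)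
      _ = _ := by ring
  set E := Real.exp (-(Real.exp (-(4 * (K : ℝ)))) * b) with hE
  have hE0 : 0 < E := Real.exp_pos _
  have hLA : (L : ℝ) ^ U ≤ A ^ U := pow_le_pow_left₀ (by positivity) (by linarith) _
  have hLA' : (L' : ℝ) ^ U ≤ A ^ U := pow_le_pow_left₀ (by positivity) (by linarith) _
  have hsum : (((L - u) + (L' - u') : ℕ) : ℝ) ≤ 2 * A := by
    have h2 : (((L - u) + (L' - u') : ℕ) : ℝ) ≤ ((L + L' : ℕ) : ℝ) := by
      exact_mod_cast (by omega : (L - u) + (L' - u') ≤ L + L')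
    push_cast at h2 ⊢
    linarith
  have he3 : Real.exp 1 ≤ 3 := by
    have := Real.exp_one_lt_d9
    linarith
  have hes : Real.exp 1 * (((L - u) + (L' - u') : ℕ) : ℝ) ≤ 3 * (2 * A) :=
    mul_le_mul he3 hsum (by positivity) (by norm_num)
  have hG0 : 0 < Gr b K := Real.exp_pos _
  set Dp := (DD b m L u : ℝ) * (DD b m L' u' : ℝ) with hDp
  have hDp0 : 0 ≤ Dp := by positivity
  calc (g : ℝ) * S.card ≤ (g : ℝ) * (((L : ℝ) ^ U * (L' : ℝ) ^ U * g) *
        ((b : ℝ) ^ ((L - u) + (L' - u')) * (Real.exp 1 * (((L - u) + (L' - u') : ℕ) : ℝ)) * E)) :=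
        mul_le_mul_of_nonneg_left h1 (by positivity)
    _ ≤ (Gr b K) * ((A ^ U * A ^ U * (Gr b K)) * ((4 * Dp) * (3 * (2 * A)) * E)) := by
        apply mul_le_mul hgG _ (by positivity) hG0.le
        apply mul_le_mul _ _ (by positivity) (by positivity)
        · apply mul_le_mul _ hgG (by positivity) (by positivity)
          exact mul_le_mul hLA hLA' (by positivity) (by positivity)
        · apply mul_le_mul_of_nonneg_right _ hE0.le
          exact mul_le_mul hbb hes (by positivity) (by positivity)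
    _ = Dp * A1c b K U A := by
        unfold A1c
        rw [show 2 * U + 1 = U + U + 1 by ring, pow_succ, pow_add, ← hE]
        ring

lemma pow_A_le (L L' U R : ℕ) (A : ℝ) (hA : (L : ℝ) + 1 ≤ A) (hA' : (L' : ℝ) + 1 ≤ A) :
    (L : ℝ) ^ U * (L' : ℝ) ^ U * (L * ((L' : ℝ) + 1) ^ R) ≤ A ^ (2 * U + 1 + R) := by
  have hA0 : 0 ≤ A := le_trans (by positivity) hA
  have e1 : A ^ (2 * U + 1 + R) = A ^ U * A ^ U * (A * A ^ R) := by
    rw [show 2 * U + 1 + R = U + U + (1 + R) by ring, pow_add, pow_add, pow_add A 1 R, pow_one]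
  rw [e1]
  apply mul_le_mul _ _ (by positivity) (by positivity)
  · exact mul_le_mul (pow_le_pow_left₀ (by positivity) (by linarith) _)
      (pow_le_pow_left₀ (by positivity) (by linarith) _) (by positivity) (by positivity)
  · exact mul_le_mul (by linarith) (pow_le_pow_left₀ (by positivity) hA' _) (by positivity)
      (by positivity)

/-- large modulus, `L ≤ L'` -/
theorem per_g_large (b0 : B) {b m K U R W L u L' u' : ℕ} (hbB : Fintype.card B = b)
    (C : Cx b m K U R W) (T : Ty b m K U L u) (T' : Ty b m K U L' u') (A : ℝ)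
    (hA : (L : ℝ) + 1 ≤ A) (hA' : (L' : ℝ) + 1 ≤ A) (g : ℕ) (hg2 : 2 ≤ g) (hg : g ∣ DD b m L u)
    (hg' : g ∣ DD b m L' u') (hLL : L ≤ L')
    (S : Finset ((ℤ → Option B) × (ℤ → Option B)))
    (hS : ∀ p ∈ S, RelW b m g L u L' u' R W p) (hgG : Gr b K < (g : ℝ)) :
    (g : ℝ) * S.card ≤ ((DD b m L u : ℝ) * (DD b m L' u' : ℝ)) *
      (CCo b m K U R A * (fq g * eta b K)
        + CCo b m K U R A * (fq (DD b m L u / g) * fq 4 ^ (b + 1))) := by
  have hb300 := C.b300
  have hdm := C.dm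
  have hLge := T.Lge
  have hLge' := T'.Lge
  have hu := T.uU
  have hu' := T'.uU
  have hU2 := C.U2
  have hcop := T.cop C
  have hgd : Nat.Coprime (b + 1) g := Nat.Coprime.coprime_dvd_right hg hcop.1
  have hgm : Nat.Coprime m g := Nat.Coprime.coprime_dvd_right hg hcop.2
  have hA0 : 0 ≤ A := le_trans (by positivity) hA
  have hb0 : (0 : ℝ) < b := by
    have : 0 < b := by omega
    exact_mod_cast this
  have hCC : 0 ≤ CCo b m K U R A := by
    unfold CCo
    have := one_le_Cm b m K (by omega)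
    positivity
  have hf := fq_nonneg g
  have hf4 := fq_nonneg 4
  have hfh := fq_nonneg (DD b m L u / g)
  have heta : 0 ≤ eta b K := by
    unfold eta
    positivity
  have hDp0 : (0 : ℝ) ≤ (DD b m L u : ℝ) * (DD b m L' u' : ℝ) := by positivity
  set e := Nat.log m g with he
  have hm2 : ∀ Z : ℕ, Z ≤ K * (b + 1) → Z < m ^ 2 := by
    intro Z hZ
    have h1 : (b + 1) ^ 2 ≤ m ^ 2 := Nat.pow_le_pow_left hdm 2
    have h2 := C.K2
    have h3 : K * (b + 1) < (b + 1) ^ 2 := by nlinarith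
    omega
  -- the count
  have hcount : (S.card : ℝ) ≤ A ^ (2 * U + 1 + R)
      * ((b : ℝ) ^ (L - u) * (b : ℝ) ^ (L' - u')
        * (2 / (b : ℝ)) ^ ((min (e - 1) (L / 2) - U) + (min (e - 1) (L' / 2) - U))) := by
    have h1 := rel2 b0 (by omega) (b + 1) m g (by omega) hdm C.cop (by omega) hgd hgm L L'
      (min (e - 1) (L / 2)) (min (e - 1) (L' / 2)) u u' U R W (by omega) (by omega) (by omega)
      (by omega)
      (win_ok m g _ (by omega) (by omega) (by omega) (by have := hm2 L T.Lle; omega))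
      (win_ok m g _ (by omega) (by omega) (by omega) (by have := hm2 L' T'.Lle; omega))
      T.u1 hu hu' (by omega) (by omega) S (fun p hp => by
        obtain ⟨a1, a2, a3, _⟩ := hS p hp
        exact ⟨a1, a2, a3⟩)
    rw [hbB] at h1
    refine h1.trans ?_
    exact mul_le_mul_of_nonneg_right (pow_A_le L L' U R A hA hA') (by positivity)
  have hfG : fq g ^ 2 ≤ Real.exp (-(Real.exp (-(4 * (K : ℝ))) * b / 8)) := by
    have h1 := fq_le_exp (Real.exp (-(4 * (K : ℝ))) * b / 4) g hgG.le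
    calc fq g ^ 2 ≤ Real.exp (-(Real.exp (-(4 * (K : ℝ))) * b / 4 / 4)) ^ 2 :=
          pow_le_pow_left₀ hf h1 2
      _ = Real.exp (-(Real.exp (-(4 * (K : ℝ))) * b / 8)) := by
          rw [← Real.exp_nat_mul]
          congr 1
          push_cast
          ring
  by_cases hcase : L = L' ∧ u = u' ∧ L / 2 < e - 1
  · obtain ⟨rfl, rfl, hbig⟩ := hcase
    rcases Nat.lt_or_ge (4 ^ L * g) (DD b m L u) with h4 | h4
    · have hq : min (e - 1) (L / 2) = L / 2 := by omega
      rw [hq] at hcount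
      have h1 := per_g_B C T A hA g (by omega) hg S (L / 2) rfl hcount h4
      refine h1.trans ?_
      apply mul_le_mul_of_nonneg_left _ hDp0
      have : 0 ≤ CCo b m K U R A * (fq g * eta b K) := by positivity
      linarith
    · -- no pairs at all
      have hSe : S = ∅ := by
        rw [eq_empty_iff_forall_notMem]
        intro p hp
        obtain ⟨a1, a2, ⟨l, hl⟩, a4⟩ := hS p hp
        apply a4
        refine ⟨rfl, ?_⟩
        have hhalf := T.half
        refine rel3 (b + 1) m g L u U R W (by omega) hdm C.cop hg2 hgd hgm T.u1 hu (by omega)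
          hg (by omega) C.W1 (C.WG L hLge) ?_ p.1 p.2 a1 a2 l hl
        have h5 := C.size L hLge T.Lle
        have h6 := T.le_two_D
        set Y := m ^ (L - L / (3 * R + 1) + 2 * U + 2 * W) with hY
        have h7 : (4 ^ L * 2) * (R * Y) < (4 ^ L * 2) * g := by
          calc (4 ^ L * 2) * (R * Y) = R * 4 ^ L * 2 * Y := by ring
            _ < (b + 1) ^ L := h5
            _ ≤ 2 * DD b m L u := h6
            _ ≤ 2 * (4 ^ L * g) := Nat.mul_le_mul_left _ h4
            _ = (4 ^ L * 2) * g := by ring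
        exact Nat.lt_of_mul_lt_mul_left h7
      rw [hSe, card_empty, Nat.cast_zero, mul_zero]
      positivity
  · have h1 := per_g_A b0 hbB C T T' A (by linarith) hA' g hg2 hg hg' hLL S _ _ rfl rfl hcount hcase
    refine h1.trans ?_
    apply mul_le_mul_of_nonneg_left _ hDp0
    have h2 : CCo b m K U R A * (fq g * (fq g ^ 2 + (1 / 2) ^ (b + 1)))
        ≤ CCo b m K U R A * (fq g * eta b K) := by
      apply mul_le_mul_of_nonneg_left _ hCC
      apply mul_le_mul_of_nonneg_left _ hf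
      unfold eta
      linarith
    have : 0 ≤ CCo b m K U R A * (fq (DD b m L u / g) * fq 4 ^ (b + 1)) := by positivity
    linarith

/-- all cases together -/
theorem per_g (b0 : B) {b m K U R W L u L' u' : ℕ} (hbB : Fintype.card B = b)
    (C : Cx b m K U R W) (T : Ty b m K U L u) (T' : Ty b m K U L' u') (A : ℝ)
    (hA : (L : ℝ) + 1 ≤ A) (hA' : (L' : ℝ) + 1 ≤ A) (g : ℕ) (hg2 : 2 ≤ g) (hg : g ∣ DD b m L u)
    (hg' : g ∣ DD b m L' u')
    (S : Finset ((ℤ → Option B) × (ℤ → Option B)))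
    (hS : ∀ p ∈ S, RelW b m g L u L' u' R W p) :
    (g : ℝ) * S.card ≤ ((DD b m L u : ℝ) * (DD b m L' u' : ℝ)) *
      ((if (g : ℝ) ≤ Gr b K then A1c b K U A else 0) + CCo b m K U R A * (fq g * eta b K)
        + CCo b m K U R A * (fq (DD b m L u / g) * fq 4 ^ (b + 1))
        + CCo b m K U R A * (fq (DD b m L' u' / g) * fq 4 ^ (b + 1))) := by
  classical
  have hb300 := C.b300
  have hdm := C.dm
  have hA0 : 0 ≤ A := le_trans (by positivity) hA
  have hCC : 0 ≤ CCo b m K U R A := by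
    unfold CCo
    have := one_le_Cm b m K (by omega)
    have hb0 : (0 : ℝ) < b := by
      have : 0 < b := by omega
      exact_mod_cast this
    positivity
  have hf := fq_nonneg g
  have hf4 := fq_nonneg 4
  have hfh := fq_nonneg (DD b m L u / g)
  have hfh' := fq_nonneg (DD b m L' u' / g)
  have heta : 0 ≤ eta b K := by
    unfold eta
    positivity
  have hDp0 : (0 : ℝ) ≤ (DD b m L u : ℝ) * (DD b m L' u' : ℝ) := by positivity
  have t1 : 0 ≤ CCo b m K U R A * (fq g * eta b K) := by positivity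
  have t2 : 0 ≤ CCo b m K U R A * (fq (DD b m L u / g) * fq 4 ^ (b + 1)) := by positivity
  have t3 : 0 ≤ CCo b m K U R A * (fq (DD b m L' u' / g) * fq 4 ^ (b + 1)) := by positivity
  by_cases hgG : (g : ℝ) ≤ Gr b K
  · rw [if_pos hgG]
    refine (per_g_small b0 hbB C T T' A hA hA' g hg2 hg S hS hgG).trans ?_
    apply mul_le_mul_of_nonneg_left _ hDp0
    linarith
  · rw [if_neg hgG]
    push Not at hgG
    rcases le_total L L' with hLL | hLL
    · refine (per_g_large b0 hbB C T T' A hA hA' g hg2 hg hg' hLL S hS hgG).trans ?_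
      apply mul_le_mul_of_nonneg_left _ hDp0
      linarith
    · have h1 := per_g_large b0 hbB C T' T A hA' hA g hg2 hg' hg hLL (S.image Prod.swap) (by
        intro p hp
        rw [mem_image] at hp
        obtain ⟨x, hx, rfl⟩ := hp
        exact (hS x hx).swap) hgG
      rw [card_image_of_injective _ Prod.swap_injective] at h1
      refine h1.trans ?_
      rw [mul_comm (DD b m L' u' : ℝ)]
      apply mul_le_mul_of_nonneg_left _ hDp0
      linarith

lemma card_le_of_le (S : Finset ℕ) (G : ℝ) (hG : 0 ≤ G) (h0 : ∀ g ∈ S, 0 < g)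
    (h : ∀ g ∈ S, (g : ℝ) ≤ G) : (S.card : ℝ) ≤ G := by
  have h1 : S ⊆ Icc 1 ⌊G⌋₊ := by
    intro g hg
    rw [mem_Icc]
    exact ⟨h0 g hg, Nat.le_floor (h g hg)⟩
  have h2 := card_le_card h1
  rw [Nat.card_Icc, Nat.add_sub_cancel] at h2
  calc (S.card : ℝ) ≤ (⌊G⌋₊ : ℝ) := by exact_mod_cast h2
    _ ≤ G := Nat.floor_le hG

/-- **The contribution of a pair of types.** -/
theorem per_type (b0 : B) {b m K U R W L u L' u' : ℕ} (hbB : Fintype.card B = b)
    (C : Cx b m K U R W) (T : Ty b m K U L u) (T' : Ty b m K U L' u') (A : ℝ)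
    (hA : (L : ℝ) + 1 ≤ A) (hA' : (L' : ℝ) + 1 ≤ A)
    (S : ℕ → Finset ((ℤ → Option B) × (ℤ → Option B)))
    (hS : ∀ g, ∀ p ∈ S g, RelW b m g L u L' u' R W p) (Sb : ℝ)
    (hSb : Sq (DD b m L u) ≤ Sb) (hSb' : Sq (DD b m L' u') ≤ Sb) :
    ∑ g ∈ (DD b m L u).divisors.filter (fun g => g ∣ DD b m L' u' ∧ 2 ≤ g),
      (g : ℝ) * (S g).card / ((DD b m L u : ℝ) * (DD b m L' u' : ℝ))
      ≤ Gr b K * A1c b K U A + CCo b m K U R A * (Sb * eta b K)
        + 2 * (CCo b m K U R A * (Sb * fq 4 ^ (b + 1))) := by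
  have hb300 := C.b300
  have hdm := C.dm
  have hA0 : 0 ≤ A := le_trans (by positivity) hA
  have hb0 : (0 : ℝ) < b := by
    have : 0 < b := by omega
    exact_mod_cast this
  have hCC : 0 ≤ CCo b m K U R A := by
    unfold CCo
    have := one_le_Cm b m K (by omega)
    positivity
  have hf4 := fq_nonneg 4
  have heta : 0 ≤ eta b K := by
    unfold eta
    positivity
  have hA1 : 0 ≤ A1c b K U A := by
    unfold A1c Gr
    positivity
  have hG0 : 0 ≤ Gr b K := by
    unfold Gr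
    positivity
  have hD := T.D_pos
  have hD' := T'.D_pos
  have hDp0 : (0 : ℝ) < (DD b m L u : ℝ) * (DD b m L' u' : ℝ) := by
    apply mul_pos <;> exact_mod_cast (by assumption)
  set F := (DD b m L u).divisors.filter (fun g => g ∣ DD b m L' u' ∧ 2 ≤ g) with hF
  have hFD : ∀ g ∈ F, g ∣ DD b m L u ∧ g ∣ DD b m L' u' ∧ 2 ≤ g := by
    intro g hg
    rw [hF, mem_filter, Nat.mem_divisors] at hg
    exact ⟨hg.1.1, hg.2.1, hg.2.2⟩
  have hsub : F ⊆ (DD b m L u).divisors := filter_subset _ _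
  have hsub' : F ⊆ (DD b m L' u').divisors := by
    intro g hg
    rw [Nat.mem_divisors]
    exact ⟨(hFD g hg).2.1, by omega⟩
  have h1 : ∀ g ∈ F, (g : ℝ) * (S g).card / ((DD b m L u : ℝ) * (DD b m L' u' : ℝ))
      ≤ (if (g : ℝ) ≤ Gr b K then A1c b K U A else 0) + CCo b m K U R A * (fq g * eta b K)
        + CCo b m K U R A * (fq (DD b m L u / g) * fq 4 ^ (b + 1))
        + CCo b m K U R A * (fq (DD b m L' u' / g) * fq 4 ^ (b + 1)) := by
    intro g hg
    obtain ⟨g1, g2, g3⟩ := hFD g hg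
    rw [div_le_iff₀ hDp0, mul_comm _ ((DD b m L u : ℝ) * (DD b m L' u' : ℝ))]
    exact per_g b0 hbB C T T' A hA hA' g g3 g1 g2 (S g) (hS g)
  refine (sum_le_sum h1).trans ?_
  rw [sum_add_distrib, sum_add_distrib, sum_add_distrib]
  have s1 : ∑ g ∈ F, (if (g : ℝ) ≤ Gr b K then A1c b K U A else 0) ≤ Gr b K * A1c b K U A := by
    rw [← sum_filter, sum_const, nsmul_eq_mul]
    apply mul_le_mul_of_nonneg_right _ hA1
    apply card_le_of_le _ _ hG0
    · intro g hg
      have := (hFD g (mem_filter.mp hg).1).2.2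
      omega
    · intro g hg
      exact (mem_filter.mp hg).2
  have s2 : ∑ g ∈ F, CCo b m K U R A * (fq g * eta b K) ≤ CCo b m K U R A * (Sb * eta b K) := by
    rw [← mul_sum, ← sum_mul]
    apply mul_le_mul_of_nonneg_left _ hCC
    apply mul_le_mul_of_nonneg_right _ heta
    refine le_trans ?_ hSb
    exact sum_le_sum_of_subset_of_nonneg hsub (fun _ _ _ => fq_nonneg _)
  have s3 : ∑ g ∈ F, CCo b m K U R A * (fq (DD b m L u / g) * fq 4 ^ (b + 1))
      ≤ CCo b m K U R A * (Sb * fq 4 ^ (b + 1)) := by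
    rw [← mul_sum, ← sum_mul]
    apply mul_le_mul_of_nonneg_left _ hCC
    apply mul_le_mul_of_nonneg_right _ (by positivity)
    refine le_trans ?_ hSb
    refine (sum_le_sum_of_subset_of_nonneg hsub (fun _ _ _ => fq_nonneg _)).trans ?_
    unfold Sq
    rw [Nat.sum_div_divisors]
  have s4 : ∑ g ∈ F, CCo b m K U R A * (fq (DD b m L' u' / g) * fq 4 ^ (b + 1))
      ≤ CCo b m K U R A * (Sb * fq 4 ^ (b + 1)) := by
    rw [← mul_sum, ← sum_mul]
    apply mul_le_mul_of_nonneg_left _ hCC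
    apply mul_le_mul_of_nonneg_right _ (by positivity)
    refine le_trans ?_ hSb'
    refine (sum_le_sum_of_subset_of_nonneg hsub' (fun _ _ _ => fq_nonneg _)).trans ?_
    unfold Sq
    rw [Nat.sum_div_divisors]
  linarith

end GC70
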