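import Mathlib
import Pool.Agent.Helper70.GC.PerType

/-!
# The family of words
-/

set_option autoImplicit false

namespace GC70

open Finset

variable {B : Type} [Fintype B] [DecidableEq B]

omit [Fintype B] in
lemma cnt_ext (L : ℕ) [NeZero L] (v : Fin L → Option B) : (sk (ext L v) L).card + nz0 v = L := by
  have h1 : (sk (ext L v) L).card = (univ.filter (fun j : Fin L => ¬ v j = none)).card := by
    symm
    apply card_bij (fun (j : Fin L) _ => (j : ℕ))
    · intro j hj
      simp only [mem_filter, mem_univ, true_and] at hj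
      simp only [sk, mem_filter, mem_range]
      refine ⟨j.2, ?_⟩
      unfold ext
      rw [idx_fin]
      exact Option.isSome_iff_ne_none.mpr hj
    · intro a _ c _ hac
      exact Fin.ext hac
    · intro j hj
      simp only [sk, mem_filter, mem_range] at hj
      refine ⟨⟨j, hj.1⟩, ?_, rfl⟩
      simp only [mem_filter, mem_univ, true_and]
      have h2 := hj.2
      unfold ext at h2
      rw [idx_nat L j hj.1] at h2
      exact Option.isSome_iff_ne_none.mp h2
  have h2 := card_filter_add_card_filter_not (s := (univ : Finset (Fin L))) (fun j => v j = none)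
  rw [card_univ, Fintype.card_fin] at h2
  unfold nz0
  omega

/-- words of a given type -/
noncomputable def Wds (B : Type) [Fintype B] [DecidableEq B] (L R W U l u : ℕ) :
    Finset (ℤ → Option B) := by
  classical
  exact if h : L = 0 then ∅ else
    (letI : NeZero L := ⟨h⟩; ((Gd B L R W U l).filter (fun v => nz0 v = u)).image (ext L))

lemma Wds_eq (L R W U l u : ℕ) [NeZero L] [DecidableEq (ℤ → Option B)] :
    Wds B L R W U l u = ((Gd B L R W U l).filter (fun v => nz0 v = u)).image (ext L) := by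
  unfold Wds
  rw [dif_neg (NeZero.ne L)]
  congr
  exact Subsingleton.elim _ _

lemma card_Wds (L R W U l u : ℕ) [NeZero L] :
    (Wds B L R W U l u).card = ((Gd B L R W U l).filter (fun v => nz0 v = u)).card := by
  classical
  rw [Wds_eq, card_image_of_injective _ (ext_injective L)]

lemma Wds_TW {L R W U l u : ℕ} {w : ℤ → Option B} (hw : w ∈ Wds B L R W U l u) :
    TW w L R W u := by
  classical
  by_cases h : L = 0
  · unfold Wds at hw
    rw [dif_pos h] at hw
    exact absurd hw (notMem_empty _)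
  · have : NeZero L := ⟨h⟩
    rw [Wds_eq, mem_image] at hw
    obtain ⟨v, hv, rfl⟩ := hw
    rw [mem_filter, mem_Gd] at hv
    refine ⟨hv.1.1, ?_⟩
    rw [← hv.2]
    exact cnt_ext L v

lemma sum_card_Wds (L R W U l : ℕ) [NeZero L] :
    ∑ u ∈ Icc (l + 1) U, (Wds B L R W U l u).card = (Gd B L R W U l).card := by
  simp_rw [card_Wds]
  symm
  apply card_eq_sum_card_fiberwise
  intro v hv
  rw [mem_coe, mem_Gd] at hv
  rw [mem_coe, mem_Icc]
  exact hv.2

/-- lengths -/
def Ls (b K : ℕ) : Finset ℕ :=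
  (Ico (b + 1) (K * (b + 1))).filter (fun L => 2 * (L % (b + 1)) < b + 1)

/-- types -/
def Tys (b K U : ℕ) : Finset (ℕ × ℕ) :=
  ((Ls b K) ×ˢ (Icc 1 U)).filter (fun t => t.1 / (b + 1) + 1 ≤ t.2)

lemma Tys_Ty {b m K U R W : ℕ} (C : Cx b m K U R W) {t : ℕ × ℕ} (ht : t ∈ Tys b K U) :
    Ty b m K U t.1 t.2 := by
  simp only [Tys, Ls, mem_filter, mem_product, mem_Ico, mem_Icc] at ht
  obtain ⟨⟨⟨⟨h1, h2⟩, h3⟩, h4, h5⟩, h6⟩ := ht
  refine ⟨h1, h2.le, h4, h5, ?_⟩
  have hb := C.b300
  have hU := C.U2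
  apply two_pow_le b m t.1 (t.1 / (b + 1)) t.2 (by omega) C.hm _ h6 (by omega)
  have := Nat.div_add_mod t.1 (b + 1)
  nlinarith

/-- the index set -/
noncomputable def Ix (B : Type) [Fintype B] [DecidableEq B] (b K U R W : ℕ) :
    Finset (Σ _ : ℕ × ℕ, (ℤ → Option B)) :=
  (Tys b K U).sigma (fun t => Wds B t.1 R W U (t.1 / (b + 1)) t.2)

/-- the denominators and vectors -/
def Dx (b m : ℕ) (i : Σ _ : ℕ × ℕ, (ℤ → Option B)) : ℕ := DD b m i.1.1 i.1.2

/-- the vector -/
def Vx (b m : ℕ) (i : Σ _ : ℕ × ℕ, (ℤ → Option B)) : B → ℕ := V (b + 1) m i.2 i.1.1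

lemma Ix_spec {b m K U R W : ℕ} (C : Cx b m K U R W) {i : Σ _ : ℕ × ℕ, (ℤ → Option B)}
    (hi : i ∈ Ix B b K U R W) : Ty b m K U i.1.1 i.1.2 ∧ TW i.2 i.1.1 R W i.1.2 := by
  unfold Ix at hi
  rw [mem_sigma] at hi
  exact ⟨Tys_Ty C hi.1, Wds_TW hi.2⟩

lemma exists_unit {b m K U R W L u : ℕ} (C : Cx b m K U R W) (T : Ty b m K U L u)
    {w : ℤ → Option B} (hw : TW w L R W u) : ∃ i0 : B, Nat.Coprime (V (b + 1) m w L i0) (DD b m L u) := by
  obtain ⟨j, i, hj, hwj, huniq⟩ := hw.exists_single T.u1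
  refine ⟨i, ?_⟩
  rw [V_single (b + 1) m w L j i hj hwj huniq]
  have hcop := T.cop C
  unfold wt
  exact Nat.Coprime.mul_left (hcop.1.pow_left _) (hcop.2.pow_left _)

/-- shift of each other -/
def Rot (i j : Σ _ : ℕ × ℕ, (ℤ → Option B)) : Prop :=
  i.1.1 = j.1.1 ∧ ∃ h : ℤ, ∀ x, j.2 (x + h) = i.2 x

/-- few words are shifts of a given one -/
lemma card_rot {b m K U R W : ℕ} (C : Cx b m K U R W) (i : Σ _ : ℕ × ℕ, (ℤ → Option B))
    (hi : i ∈ Ix B b K U R W) (S : Finset (Σ _ : ℕ × ℕ, (ℤ → Option B)))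
    (hS : ∀ j ∈ S, j ∈ Ix B b K U R W ∧ Rot i j) : S.card ≤ i.1.1 := by
  classical
  obtain ⟨T, hw⟩ := Ix_spec C hi
  set L := i.1.1 with hL
  have hL0 : 0 < L := by
    have := T.Lge
    omega
  set f : ℕ → (Σ _ : ℕ × ℕ, (ℤ → Option B)) := fun h =>
    ⟨(L, L - (sk (fun x => i.2 (x - h)) L).card), fun x => i.2 (x - h)⟩ with hf
  have hsub : S ⊆ (range L).image f := by
    intro j hj
    obtain ⟨hjI, hrot1, h, hh⟩ := hS j hj
    obtain ⟨T', hw'⟩ := Ix_spec C hjI
    obtain ⟨k, hk1, hk2⟩ := rep L hL0 0 h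
    rw [mem_image]
    refine ⟨(h + k * L).toNat, ?_, ?_⟩
    · rw [mem_range]
      omega
    · have hwj : (fun x => i.2 (x - (((h + k * L).toNat : ℕ) : ℤ))) = j.2 := by
        funext x
        rw [Int.toNat_of_nonneg hk1, ← hh (x - (h + k * L)),
          show x - (h + k * L) + h = x + -k * L by ring]
        have hper := hw'.typ.per
        rw [← hrot1] at hper
        exact hper.zmul (-k) x
      simp only [hf]
      rw [hwj]
      obtain ⟨⟨L', u'⟩, w'⟩ := j
      simp only at hrot1 hw' hwj ⊢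
      have hcnt := hw'.cnt
      have h1 : L = L' := hrot1
      subst h1
      have h2 : L - (sk w' L).card = u' := by omega
      rw [h2]
  exact (card_le_card hsub).trans (card_image_le.trans (by rw [card_range]))

end GC70
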