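import Mathlib

/-!
# Joint divisibility of two linear forms
-/

set_option autoImplicit false

namespace GC70

open Finset

variable {B : Type} [Fintype B] [DecidableEq B]

/-- the number `∑ v i ρ i` -/
def dot (Q : ℕ) (v : B → ℕ) (ρ : B → ZMod Q) : ℕ := ∑ i, v i * (ρ i).val

/-- the linear form with values in `ZMod D` -/
def lin (Q D : ℕ) (h : D ∣ Q) (v : B → ℕ) : (B → ZMod Q) →+ ZMod D where
  toFun ρ := ∑ i, (v i : ZMod D) * ZMod.castHom h (ZMod D) (ρ i)
  map_zero' := by simp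
  map_add' x y := by
    simp only [Pi.add_apply, map_add, mul_add, sum_add_distrib]

omit [DecidableEq B] in
lemma dvd_dot_iff (Q D : ℕ) [NeZero Q] (h : D ∣ Q) (v : B → ℕ) (ρ : B → ZMod Q) :
    D ∣ dot Q v ρ ↔ lin Q D h v ρ = 0 := by
  rw [← ZMod.natCast_eq_zero_iff]
  unfold dot lin
  simp only [Nat.cast_sum, Nat.cast_mul, AddMonoidHom.coe_mk, ZeroHom.coe_mk]
  have : ∀ i, (((ρ i).val : ℕ) : ZMod D) = ZMod.castHom h (ZMod D) (ρ i) := by
    intro i
    conv_rhs => rw [← ZMod.natCast_zmod_val (ρ i)]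
    rw [map_natCast]
  simp_rw [this]

lemma exists_lin_eq_one (Q D : ℕ) (h : D ∣ Q) (v : B → ℕ) (i0 : B)
    (hi0 : Nat.Coprime (v i0) D) : ∃ ρ, lin Q D h v ρ = 1 := by
  obtain ⟨c, hc⟩ := ZMod.castHom_surjective h (((ZMod.unitOfCoprime (v i0) hi0)⁻¹ : (ZMod D)ˣ) : ZMod D)
  refine ⟨Pi.single i0 c, ?_⟩
  have : lin Q D h v (Pi.single i0 c) = (v i0 : ZMod D) * ZMod.castHom h (ZMod D) c := by
    unfold lin
    simp only [AddMonoidHom.coe_mk, ZeroHom.coe_mk]
    rw [sum_eq_single i0]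
    · simp
    · intro j _ hj
      simp [Pi.single_eq_of_ne hj]
    · simp
  rw [this, hc, ← ZMod.coe_unitOfCoprime (v i0) hi0]
  simp

lemma lin_single_one (Q D : ℕ) (h : D ∣ Q) (v : B → ℕ) (i : B) :
    lin Q D h v (Pi.single i 1) = (v i : ZMod D) := by
  unfold lin
  simp only [AddMonoidHom.coe_mk, ZeroHom.coe_mk]
  rw [sum_eq_single i]
  · rw [Pi.single_eq_same, map_one, mul_one]
  · intro j _ hj
    rw [Pi.single_eq_of_ne hj, map_zero, mul_zero]
  · simp

/-- **Single probability.** -/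
theorem card_single (Q D : ℕ) [NeZero Q] (h : D ∣ Q) (v : B → ℕ) (i0 : B)
    (hi0 : Nat.Coprime (v i0) D) :
    ((univ : Finset (B → ZMod Q)).filter (fun ρ => D ∣ dot Q v ρ)).card * D
      = Q ^ Fintype.card B := by
  have hD0 : D ≠ 0 := by
    rintro rfl
    exact (NeZero.ne Q) (zero_dvd_iff.mp h)
  have : NeZero D := ⟨hD0⟩
  obtain ⟨ρ0, hρ0⟩ := exists_lin_eq_one Q D h v i0 hi0
  have hcard : Q ^ Fintype.card B = (univ : Finset (B → ZMod Q)).card := by
    rw [card_univ, Fintype.card_fun, ZMod.card]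
  have htot : (univ : Finset (B → ZMod Q)).card
      = ∑ x : ZMod D, ((univ : Finset (B → ZMod Q)).filter (fun ρ => lin Q D h v ρ = x)).card :=
    card_eq_sum_card_fiberwise (f := lin Q D h v) (t := (univ : Finset (ZMod D)))
      (by intro x _; simp)
  have : ∀ x : ZMod D, ((univ : Finset (B → ZMod Q)).filter (fun ρ => lin Q D h v ρ = x)).card
      = ((univ : Finset (B → ZMod Q)).filter (fun ρ => D ∣ dot Q v ρ)).card := by
    intro x
    symm
    apply card_bij (fun ρ _ => ρ + x.val • ρ0)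
    · intro ρ hρ
      simp only [mem_filter, mem_univ, true_and] at hρ ⊢
      rw [dvd_dot_iff Q D h] at hρ
      rw [map_add, map_nsmul, hρ, hρ0]
      simp
    · intro a _ b _ hab
      exact add_right_cancel hab
    · intro ρ hρ
      simp only [mem_filter, mem_univ, true_and] at hρ
      refine ⟨ρ - x.val • ρ0, ?_, by simp⟩
      simp only [mem_filter, mem_univ, true_and]
      rw [dvd_dot_iff Q D h, map_sub, map_nsmul, hρ, hρ0]
      simp
  rw [hcard, htot, sum_congr rfl (fun x _ => this x)]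
  rw [sum_const, card_univ, ZMod.card, smul_eq_mul, mul_comm]

/-- **Joint probability.** -/
theorem card_joint (Q D D' : ℕ) [NeZero Q] (h : D ∣ Q) (h' : D' ∣ Q) (v v' : B → ℕ) (i0 i1 : B)
    (hi0 : Nat.Coprime (v i0) D) (hi1 : Nat.Coprime (v' i1) D') :
    ∃ g : ℕ, g ∣ D ∧ g ∣ D' ∧ (∃ l : (ZMod g)ˣ, ∀ i, (v' i : ZMod g) = l * (v i : ZMod g)) ∧
      ((univ : Finset (B → ZMod Q)).filter
        (fun ρ => D ∣ dot Q v ρ ∧ D' ∣ dot Q v' ρ)).card * (D * D')
      ≤ g * Q ^ Fintype.card B := by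
  have hD0 : D ≠ 0 := by
    rintro rfl
    exact (NeZero.ne Q) (zero_dvd_iff.mp h)
  have hD0' : D' ≠ 0 := by
    rintro rfl
    exact (NeZero.ne Q) (zero_dvd_iff.mp h')
  have : NeZero D := ⟨hD0⟩
  have : NeZero D' := ⟨hD0'⟩
  obtain ⟨ρ0, hρ0⟩ := exists_lin_eq_one Q D h v i0 hi0
  set φ := lin Q D h v with hφ
  set ψ := lin Q D' h' v' with hψ
  set K : AddSubgroup ℤ := AddSubgroup.comap (Int.castAddHom (ZMod D')) (AddSubgroup.map ψ φ.ker)
    with hK
  have hKmem : ∀ y : ℤ, y ∈ K ↔ ∃ ρ, φ ρ = 0 ∧ ψ ρ = (y : ZMod D') := by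
    intro y
    simp only [hK, AddSubgroup.mem_comap, AddSubgroup.mem_map, AddMonoidHom.mem_ker,
      Int.coe_castAddHom]
  obtain ⟨a, ha⟩ := Int.subgroup_cyclic K
  have hKa : ∀ y : ℤ, y ∈ K ↔ a ∣ y := by
    intro y
    rw [ha, AddSubgroup.mem_closure_singleton]
    constructor
    · rintro ⟨n, rfl⟩
      exact ⟨n, by rw [smul_eq_mul]; ring⟩
    · rintro ⟨n, rfl⟩
      exact ⟨n, by rw [smul_eq_mul]; ring⟩
  set g := a.natAbs with hg
  have hKg : ∀ y : ℤ, y ∈ K ↔ (g : ℤ) ∣ y := by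
    intro y
    rw [hKa, hg, Int.natAbs_dvd]
  have hgD' : g ∣ D' := by
    have : (D' : ℤ) ∈ K := by
      rw [hKmem]
      exact ⟨0, by simp, by simp⟩
    rw [hKg] at this
    exact_mod_cast this
  have hg0 : g ≠ 0 := by
    intro h0
    rw [h0] at hgD'
    exact hD0' (zero_dvd_iff.mp hgD')
  obtain ⟨y0, hy0⟩ := ZMod.intCast_surjective (ψ ρ0)
  have hrel : ∀ i, (g : ℤ) ∣ (v' i : ℤ) - (v i : ℤ) * y0 := by
    intro i
    rw [← hKg, hKmem]
    refine ⟨Pi.single i 1 - (v i) • ρ0, ?_, ?_⟩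
    · rw [map_sub, map_nsmul, hρ0, hφ, lin_single_one]
      simp
    · rw [map_sub, map_nsmul, ← hy0, hψ, lin_single_one]
      simp
  have hrel' : ∀ i, (v' i : ZMod g) = (y0 : ZMod g) * (v i : ZMod g) := by
    intro i
    have h1 := hrel i
    rw [← ZMod.intCast_zmod_eq_zero_iff_dvd] at h1
    push_cast at h1
    rw [sub_eq_zero] at h1
    rw [h1]
    ring
  have hunit : IsUnit (y0 : ZMod g) := by
    have h1 : IsUnit (v' i1 : ZMod g) := by
      rw [ZMod.isUnit_iff_coprime]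
      exact Nat.Coprime.coprime_dvd_right hgD' hi1
    rw [hrel' i1] at h1
    exact isUnit_of_mul_isUnit_left h1
  obtain ⟨l, hl⟩ := hunit
  have hgD : g ∣ D := by
    have h1 : (D : ℤ) * y0 ∈ K := by
      rw [hKmem]
      refine ⟨D • ρ0, ?_, ?_⟩
      · rw [map_nsmul, hρ0]
        simp
      · rw [map_nsmul, ← hy0]
        simp
    rw [hKg] at h1
    have h2 : ((D : ZMod g)) * (y0 : ZMod g) = 0 := by
      rw [← ZMod.intCast_zmod_eq_zero_iff_dvd] at h1
      push_cast at h1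
      exact h1
    rw [← hl, Units.mul_left_eq_zero] at h2
    exact (ZMod.natCast_eq_zero_iff _ _).mp h2
  refine ⟨g, hgD, hgD', ⟨l, fun i => by rw [hl]; exact hrel' i⟩, ?_⟩
  obtain ⟨ρ1, hρ1, hρ1'⟩ := (hKmem (g : ℤ)).mp ((hKg _).mpr dvd_rfl)
  set S := (univ : Finset (B → ZMod Q)).filter (fun ρ => D ∣ dot Q v ρ ∧ D' ∣ dot Q v' ρ) with hS
  have hSmem : ∀ ρ ∈ S, φ ρ = 0 ∧ ψ ρ = 0 := by
    intro ρ hρ
    rw [hS, mem_filter] at hρ
    exact ⟨(dvd_dot_iff Q D h v ρ).mp hρ.2.1, (dvd_dot_iff Q D' h' v' ρ).mp hρ.2.2⟩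
  obtain ⟨k, hk⟩ := hgD'
  have hk0 : k ≠ 0 := by
    rintro rfl
    simp at hk
    exact hD0' hk
  have hinj : (S ×ˢ (range D ×ˢ range k)).card ≤ (univ : Finset (B → ZMod Q)).card := by
    apply card_le_card_of_injOn (fun p => p.1 + p.2.1 • ρ0 + p.2.2 • ρ1)
    · intro p _
      simp
    · rintro ⟨ρ, x, t⟩ hp ⟨ρ', x', t'⟩ hp' heq
      simp only [coe_product, Set.mem_prod, mem_coe, coe_range, Set.mem_Iio] at hp hp'
      simp only at heq
      obtain ⟨hρ, hx, ht⟩ := hp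
      obtain ⟨hρ', hx', ht'⟩ := hp'
      obtain ⟨e1, e2⟩ := hSmem ρ hρ
      obtain ⟨e1', e2'⟩ := hSmem ρ' hρ'
      have f1 : (x : ZMod D) = (x' : ZMod D) := by
        have := congrArg φ heq
        simp only [map_add, map_nsmul, e1, e1', hρ0, hρ1] at this
        simpa using this
      have f1' : x = x' := by
        rw [ZMod.natCast_eq_natCast_iff'] at f1
        rw [Nat.mod_eq_of_lt hx, Nat.mod_eq_of_lt hx'] at f1
        exact f1
      subst f1'
      have f2 : ((t * g : ℕ) : ZMod D') = ((t' * g : ℕ) : ZMod D') := by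
        have := congrArg ψ heq
        simp only [map_add, map_nsmul, e2, e2', hρ1'] at this
        simpa using this
      have f2' : t = t' := by
        rw [ZMod.natCast_eq_natCast_iff'] at f2
        have b1 : t * g < D' := by
          rw [hk, mul_comm]
          exact Nat.mul_lt_mul_of_pos_left ht (Nat.pos_of_ne_zero hg0)
        have b2 : t' * g < D' := by
          rw [hk, mul_comm]
          exact Nat.mul_lt_mul_of_pos_left ht' (Nat.pos_of_ne_zero hg0)
        rw [Nat.mod_eq_of_lt b1, Nat.mod_eq_of_lt b2] at f2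
        exact Nat.eq_of_mul_eq_mul_right (Nat.pos_of_ne_zero hg0) f2
      subst f2'
      have : ρ = ρ' := by
        have h3 := add_right_cancel heq
        exact add_right_cancel h3
      rw [this]
  rw [card_product, card_product, card_range, card_range, card_univ, Fintype.card_fun,
    ZMod.card] at hinj
  calc S.card * (D * D') = g * (S.card * (D * k)) := by rw [hk]; ring
    _ ≤ g * Q ^ Fintype.card B := Nat.mul_le_mul_left _ hinj

end GC70
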