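import Mathlib
import Pool.Agent.Helper70.GC.Index
import Pool.Agent.Helper70.GC.Joint

/-!
# The second moment
-/

set_option autoImplicit false

namespace GC70

open Finset

variable {B : Type} [Fintype B] [DecidableEq B]

/-- the expected weighted number of cycles -/
noncomputable def mu (B : Type) [Fintype B] [DecidableEq B] (b m K U R W : ℕ) : ℝ :=
  ∑ i ∈ Ix B b K U R W, (1 / (i.1.1 : ℝ)) / (Dx b m i : ℝ)

lemma Dx_pos {b m K U R W : ℕ} (C : Cx b m K U R W) {i : Σ _ : ℕ × ℕ, (ℤ → Option B)}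
    (hi : i ∈ Ix B b K U R W) : 0 < Dx b m i := (Ix_spec C hi).1.D_pos

/-- the events -/
def Ev (b m Q : ℕ) [NeZero Q] (i : Σ _ : ℕ × ℕ, (ℤ → Option B)) : Finset (B → ZMod Q) :=
  univ.filter (fun ρ => Dx b m i ∣ dot Q (Vx b m i) ρ)

lemma card_Ev {b m K U R W : ℕ} (C : Cx b m K U R W) (Q : ℕ) [NeZero Q]
    {i : Σ _ : ℕ × ℕ, (ℤ → Option B)}
    (hi : i ∈ Ix B b K U R W) (hQ : Dx b m i ∣ Q) :
    (Ev b m Q i).card * Dx b m i = Q ^ Fintype.card B := by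
  obtain ⟨T, hw⟩ := Ix_spec C hi
  obtain ⟨i0, hi0⟩ := exists_unit C T hw
  exact card_single Q (Dx b m i) hQ (Vx b m i) i0 hi0

open Classical in
lemma pair_bound {b m K U R W : ℕ} (C : Cx b m K U R W) (Q : ℕ) [NeZero Q]
    {i j : Σ _ : ℕ × ℕ, (ℤ → Option B)}
    (hi : i ∈ Ix B b K U R W) (hj : j ∈ Ix B b K U R W) (hQ : Dx b m i ∣ Q) (hQ' : Dx b m j ∣ Q) :
    ((Ev b m Q i ∩ Ev b m Q j).card : ℝ) ≤ (Q : ℝ) ^ Fintype.card B *
      (1 / ((Dx b m i : ℝ) * (Dx b m j : ℝ)) + (if Rot i j then 1 / (Dx b m i : ℝ) else 0)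
        + ∑ g ∈ (DD b m i.1.1 i.1.2).divisors.filter (fun g => g ∣ DD b m j.1.1 j.1.2 ∧ 2 ≤ g),
          (if RelW b m g i.1.1 i.1.2 j.1.1 j.1.2 R W (i.2, j.2) then
            (g : ℝ) / ((DD b m i.1.1 i.1.2 : ℝ) * (DD b m j.1.1 j.1.2 : ℝ)) else 0)) := by
  obtain ⟨T, hw⟩ := Ix_spec C hi
  obtain ⟨T', hw'⟩ := Ix_spec C hj
  obtain ⟨i0, hi0⟩ := exists_unit C T hw
  obtain ⟨i1, hi1⟩ := exists_unit C T' hw'
  have hD := Dx_pos C hi
  have hD' := Dx_pos C hj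
  have hDr : (0 : ℝ) < (Dx b m i : ℝ) := by exact_mod_cast hD
  have hDr' : (0 : ℝ) < (Dx b m j : ℝ) := by exact_mod_cast hD'
  have hQr : (0 : ℝ) ≤ (Q : ℝ) ^ Fintype.card B := by positivity
  obtain ⟨g, hg1, hg2, ⟨l, hl⟩, hcard⟩ := card_joint Q (Dx b m i) (Dx b m j) hQ hQ' (Vx b m i)
    (Vx b m j) i0 i1 hi0 hi1
  have hEE : Ev b m Q i ∩ Ev b m Q j = (univ : Finset (B → ZMod Q)).filter
      (fun ρ => Dx b m i ∣ dot Q (Vx b m i) ρ ∧ Dx b m j ∣ dot Q (Vx b m j) ρ) := by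
    unfold Ev
    ext ρ
    simp only [mem_inter, mem_filter, mem_univ, true_and]
  rw [← hEE] at hcard
  set X := (Ev b m Q i ∩ Ev b m Q j).card with hX
  set F := (DD b m i.1.1 i.1.2).divisors.filter (fun g => g ∣ DD b m j.1.1 j.1.2 ∧ 2 ≤ g) with hF
  have hsum0 : 0 ≤ ∑ g ∈ F, (if RelW b m g i.1.1 i.1.2 j.1.1 j.1.2 R W (i.2, j.2) then
            (g : ℝ) / ((DD b m i.1.1 i.1.2 : ℝ) * (DD b m j.1.1 j.1.2 : ℝ)) else 0) := by
    apply sum_nonneg
    intro g _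
    split_ifs
    · positivity
    · exact le_rfl
  have hrot0 : (0 : ℝ) ≤ (if Rot i j then 1 / (Dx b m i : ℝ) else 0) := by
    split_ifs
    · positivity
    · exact le_rfl
  have h10 : (0 : ℝ) ≤ 1 / ((Dx b m i : ℝ) * (Dx b m j : ℝ)) := by positivity
  have hcardr : (X : ℝ) * ((Dx b m i : ℝ) * (Dx b m j : ℝ)) ≤ g * (Q : ℝ) ^ Fintype.card B := by
    exact_mod_cast hcard
  by_cases hrot : Rot i j
  · -- shifts of each other
    rw [if_pos hrot]
    have h1 : (X : ℝ) * (Dx b m i : ℝ) ≤ (Q : ℝ) ^ Fintype.card B := by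
      have h2 := card_Ev C Q hi hQ
      have h3 : X ≤ (Ev b m Q i).card := card_le_card inter_subset_left
      have h4 : X * Dx b m i ≤ Q ^ Fintype.card B := by
        rw [← h2]
        exact Nat.mul_le_mul_right _ h3
      exact_mod_cast h4
    have h2 : (X : ℝ) ≤ (Q : ℝ) ^ Fintype.card B * (1 / (Dx b m i : ℝ)) := by
      rw [mul_one_div, le_div_iff₀ hDr]
      exact h1
    refine h2.trans ?_
    apply mul_le_mul_of_nonneg_left _ hQr
    linarith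
  · rw [if_neg hrot, add_zero]
    have h2 : (X : ℝ) ≤ (Q : ℝ) ^ Fintype.card B * (g / ((Dx b m i : ℝ) * (Dx b m j : ℝ))) := by
      rw [mul_div_assoc', le_div_iff₀ (by positivity)]
      linarith
    refine h2.trans ?_
    apply mul_le_mul_of_nonneg_left _ hQr
    rcases Nat.lt_or_ge g 2 with hlt | hge
    · have hg1' : g = 1 := by
        have : g ≠ 0 := by
          rintro rfl
          rw [zero_dvd_iff] at hg1
          omega
        omega
      rw [hg1', Nat.cast_one]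
      linarith
    · have hgF : g ∈ F := by
        rw [hF, mem_filter, Nat.mem_divisors]
        exact ⟨⟨hg1, T.D_pos.ne'⟩, hg2, hge⟩
      have hrel : RelW b m g i.1.1 i.1.2 j.1.1 j.1.2 R W (i.2, j.2) :=
        ⟨hw, hw', ⟨l, hl⟩, hrot⟩
      have h3 := single_le_sum (f := fun g => (if RelW b m g i.1.1 i.1.2 j.1.1 j.1.2 R W (i.2, j.2)
        then (g : ℝ) / ((DD b m i.1.1 i.1.2 : ℝ) * (DD b m j.1.1 j.1.2 : ℝ)) else 0))
        (by
          intro g _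
          split_ifs
          · positivity
          · exact le_rfl) hgF
      rw [if_pos hrel] at h3
      have h4 : (g : ℝ) / ((Dx b m i : ℝ) * (Dx b m j : ℝ))
          = (g : ℝ) / ((DD b m i.1.1 i.1.2 : ℝ) * (DD b m j.1.1 j.1.2 : ℝ)) := rfl
      rw [h4]
      linarith

/-- the bound for the contribution of a pair of types -/
noncomputable def Delta (b m K U R : ℕ) (A Sb : ℝ) : ℝ :=
  Gr b K * A1c b K U A + CCo b m K U R A * (Sb * eta b K)
        + 2 * (CCo b m K U R A * (Sb * fq 4 ^ (b + 1)))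

open Classical in
lemma err_bound (b0 : B) {b m K U R W : ℕ} (hbB : Fintype.card B = b) (C : Cx b m K U R W)
    (A Sb : ℝ) (hA : (K : ℝ) * (b + 1) + 1 ≤ A)
    (hSb : ∀ t ∈ Tys b K U, Sq (DD b m t.1 t.2) ≤ Sb) :
    ∑ i ∈ Ix B b K U R W, ∑ j ∈ Ix B b K U R W,
      ∑ g ∈ (DD b m i.1.1 i.1.2).divisors.filter (fun g => g ∣ DD b m j.1.1 j.1.2 ∧ 2 ≤ g),
          (if RelW b m g i.1.1 i.1.2 j.1.1 j.1.2 R W (i.2, j.2) then
            (g : ℝ) / ((DD b m i.1.1 i.1.2 : ℝ) * (DD b m j.1.1 j.1.2 : ℝ)) else 0)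
      ≤ ((Tys b K U).card : ℝ) ^ 2 * Delta b m K U R A Sb := by
  unfold Ix
  rw [sum_sigma]
  have h1 : ∀ t ∈ Tys b K U, ∑ w ∈ Wds B t.1 R W U (t.1 / (b + 1)) t.2,
      ∑ j ∈ (Tys b K U).sigma (fun t => Wds B t.1 R W U (t.1 / (b + 1)) t.2),
        ∑ g ∈ (DD b m t.1 t.2).divisors.filter (fun g => g ∣ DD b m j.1.1 j.1.2 ∧ 2 ≤ g),
          (if RelW b m g t.1 t.2 j.1.1 j.1.2 R W (w, j.2) then
            (g : ℝ) / ((DD b m t.1 t.2 : ℝ) * (DD b m j.1.1 j.1.2 : ℝ)) else 0)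
      ≤ ∑ t' ∈ Tys b K U, Delta b m K U R A Sb := by
    intro t ht
    have e1 : ∀ w ∈ Wds B t.1 R W U (t.1 / (b + 1)) t.2,
      ∑ j ∈ (Tys b K U).sigma (fun t => Wds B t.1 R W U (t.1 / (b + 1)) t.2),
        ∑ g ∈ (DD b m t.1 t.2).divisors.filter (fun g => g ∣ DD b m j.1.1 j.1.2 ∧ 2 ≤ g),
          (if RelW b m g t.1 t.2 j.1.1 j.1.2 R W (w, j.2) then
            (g : ℝ) / ((DD b m t.1 t.2 : ℝ) * (DD b m j.1.1 j.1.2 : ℝ)) else 0)
      = ∑ t' ∈ Tys b K U, ∑ w' ∈ Wds B t'.1 R W U (t'.1 / (b + 1)) t'.2,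
        ∑ g ∈ (DD b m t.1 t.2).divisors.filter (fun g => g ∣ DD b m t'.1 t'.2 ∧ 2 ≤ g),
          (if RelW b m g t.1 t.2 t'.1 t'.2 R W (w, w') then
            (g : ℝ) / ((DD b m t.1 t.2 : ℝ) * (DD b m t'.1 t'.2 : ℝ)) else 0) := by
      intro w _
      rw [sum_sigma]
    rw [sum_congr rfl e1, sum_comm]
    apply sum_le_sum
    intro t' ht'
    have T := Tys_Ty C ht
    have T' := Tys_Ty C ht'
    set S : ℕ → Finset ((ℤ → Option B) × (ℤ → Option B)) := fun g =>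
      ((Wds B t.1 R W U (t.1 / (b + 1)) t.2) ×ˢ (Wds B t'.1 R W U (t'.1 / (b + 1)) t'.2)).filter
        (fun p => RelW b m g t.1 t.2 t'.1 t'.2 R W p) with hS
    have e2 : ∑ w ∈ Wds B t.1 R W U (t.1 / (b + 1)) t.2,
        ∑ w' ∈ Wds B t'.1 R W U (t'.1 / (b + 1)) t'.2,
        ∑ g ∈ (DD b m t.1 t.2).divisors.filter (fun g => g ∣ DD b m t'.1 t'.2 ∧ 2 ≤ g),
          (if RelW b m g t.1 t.2 t'.1 t'.2 R W (w, w') then
            (g : ℝ) / ((DD b m t.1 t.2 : ℝ) * (DD b m t'.1 t'.2 : ℝ)) else 0)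
        = ∑ g ∈ (DD b m t.1 t.2).divisors.filter (fun g => g ∣ DD b m t'.1 t'.2 ∧ 2 ≤ g),
          (g : ℝ) * (S g).card / ((DD b m t.1 t.2 : ℝ) * (DD b m t'.1 t'.2 : ℝ)) := by
      rw [← sum_product', sum_comm]
      apply sum_congr rfl
      intro g _
      rw [← sum_filter, sum_const, nsmul_eq_mul]
      simp only [hS]
      ring
    rw [e2]
    have hLe : (t.1 : ℝ) + 1 ≤ A := by
      have : (t.1 : ℝ) ≤ (K : ℝ) * (b + 1) := by exact_mod_cast T.Lle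
      linarith
    have hLe' : (t'.1 : ℝ) + 1 ≤ A := by
      have : (t'.1 : ℝ) ≤ (K : ℝ) * (b + 1) := by exact_mod_cast T'.Lle
      linarith
    exact per_type b0 hbB C T T' A hLe hLe' S (fun g p hp => (mem_filter.mp hp).2) Sb (hSb t ht)
      (hSb t' ht')
  refine (sum_le_sum h1).trans ?_
  rw [sum_const, sum_const, nsmul_eq_mul, nsmul_eq_mul]
  apply le_of_eq
  ring

/-- **The second moment bound.** -/
theorem second_moment (b0 : B) {b m K U R W : ℕ} (hbB : Fintype.card B = b) (C : Cx b m K U R W)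
    (A Sb : ℝ) (hA : (K : ℝ) * (b + 1) + 1 ≤ A)
    (hSb : ∀ t ∈ Tys b K U, Sq (DD b m t.1 t.2) ≤ Sb)
    (hΔ : ((Tys b K U).card : ℝ) ^ 2 * Delta b m K U R A Sb ≤ 1) :
    ∃ (Q : ℕ) (_ : NeZero Q), Nat.Coprime (b + 1) Q ∧ (∀ i ∈ Ix B b K U R W, Dx b m i ∣ Q) ∧
      ∀ Bad : Finset (B → ZMod Q),
      (∀ ρ ∈ Bad, ∀ i ∈ Ix B b K U R W, ¬ Dx b m i ∣ dot Q (Vx b m i) ρ) →
      (Bad.card : ℝ) * mu B b m K U R W ^ 2 ≤ (Q : ℝ) ^ b * (mu B b m K U R W + 1) := by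
  classical
  set Q := ∏ i ∈ Ix B b K U R W, Dx b m i with hQ
  have hQ0 : Q ≠ 0 := by
    rw [hQ, prod_ne_zero_iff]
    intro i hi
    exact (Dx_pos C hi).ne'
  have hNe : NeZero Q := ⟨hQ0⟩
  have hdvd : ∀ i ∈ Ix B b K U R W, Dx b m i ∣ Q := fun i hi => dvd_prod_of_mem _ hi
  refine ⟨Q, hNe, ?_, hdvd, ?_⟩
  · rw [hQ]
    apply Nat.Coprime.prod_right
    intro i hi
    exact ((Ix_spec C hi).1.cop C).1
  intro Bad hBad
  set μ := mu B b m K U R W with hμ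
  have hΩ : ((Fintype.card (B → ZMod Q) : ℕ) : ℝ) = (Q : ℝ) ^ Fintype.card B := by
    rw [Fintype.card_fun, ZMod.card]
    push_cast
    rfl
  have hcheb := cheb (Ix B b K U R W) (fun i => 1 / (i.1.1 : ℝ)) (fun i => (Dx b m i : ℝ))
    (fun i => Ev b m Q i) (by
      intro i hi
      rw [hΩ]
      have := card_Ev C Q hi (hdvd i hi)
      exact_mod_cast this) (by
      intro i hi
      exact_mod_cast Dx_pos C hi) Bad (by
      intro ρ hρ i hi hmem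
      unfold Ev at hmem
      exact hBad ρ hρ i hi (mem_filter.mp hmem).2) μ (μ + 1) rfl ?_
  · rw [hΩ, hbB] at hcheb
    exact hcheb
  · rw [hΩ]
    -- sum the pair bounds
    have ha0 : ∀ i ∈ Ix B b K U R W, (0 : ℝ) ≤ 1 / (i.1.1 : ℝ) := fun i _ => by positivity
    have ha1 : ∀ i ∈ Ix B b K U R W, (1 : ℝ) / (i.1.1 : ℝ) ≤ 1 := by
      intro i hi
      have h1 := (Ix_spec C hi).1.Lge
      rw [div_le_one (by
        have : 0 < i.1.1 := by omega
        exact_mod_cast this)]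
      have : 1 ≤ i.1.1 := by omega
      exact_mod_cast this
    set Err := fun i j : (Σ _ : ℕ × ℕ, (ℤ → Option B)) =>
      ∑ g ∈ (DD b m i.1.1 i.1.2).divisors.filter (fun g => g ∣ DD b m j.1.1 j.1.2 ∧ 2 ≤ g),
          (if RelW b m g i.1.1 i.1.2 j.1.1 j.1.2 R W (i.2, j.2) then
            (g : ℝ) / ((DD b m i.1.1 i.1.2 : ℝ) * (DD b m j.1.1 j.1.2 : ℝ)) else 0) with hErr
    have hErr0 : ∀ i j, 0 ≤ Err i j := by
      intro i j
      apply sum_nonneg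
      intro g _
      split_ifs
      · positivity
      · exact le_rfl
    have h1 : ∑ i ∈ Ix B b K U R W, ∑ j ∈ Ix B b K U R W,
        (1 / (i.1.1 : ℝ)) * (1 / (j.1.1 : ℝ)) * ((Ev b m Q i ∩ Ev b m Q j).card : ℝ)
        ≤ ∑ i ∈ Ix B b K U R W, ∑ j ∈ Ix B b K U R W, (Q : ℝ) ^ Fintype.card B *
          ((1 / (i.1.1 : ℝ)) * (1 / (j.1.1 : ℝ)) * (1 / ((Dx b m i : ℝ) * (Dx b m j : ℝ)))
            + (1 / (i.1.1 : ℝ)) * (1 / (j.1.1 : ℝ)) * (if Rot i j then 1 / (Dx b m i : ℝ) else 0)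
            + Err i j) := by
      apply sum_le_sum
      intro i hi
      apply sum_le_sum
      intro j hj
      have h2 := pair_bound C Q hi hj (hdvd i hi) (hdvd j hj)
      have haa : (0 : ℝ) ≤ (1 / (i.1.1 : ℝ)) * (1 / (j.1.1 : ℝ)) :=
        mul_nonneg (ha0 i hi) (ha0 j hj)
      have haa1 : (1 / (i.1.1 : ℝ)) * (1 / (j.1.1 : ℝ)) ≤ 1 :=
        mul_le_one₀ (ha1 i hi) (ha0 j hj) (ha1 j hj)
      calc (1 / (i.1.1 : ℝ)) * (1 / (j.1.1 : ℝ)) * ((Ev b m Q i ∩ Ev b m Q j).card : ℝ)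
          ≤ (1 / (i.1.1 : ℝ)) * (1 / (j.1.1 : ℝ)) * ((Q : ℝ) ^ Fintype.card B *
            (1 / ((Dx b m i : ℝ) * (Dx b m j : ℝ)) + (if Rot i j then 1 / (Dx b m i : ℝ) else 0)
              + Err i j)) := mul_le_mul_of_nonneg_left h2 haa
        _ = (Q : ℝ) ^ Fintype.card B *
          ((1 / (i.1.1 : ℝ)) * (1 / (j.1.1 : ℝ)) * (1 / ((Dx b m i : ℝ) * (Dx b m j : ℝ)))
            + (1 / (i.1.1 : ℝ)) * (1 / (j.1.1 : ℝ)) * (if Rot i j then 1 / (Dx b m i : ℝ) else 0)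
            + (1 / (i.1.1 : ℝ)) * (1 / (j.1.1 : ℝ)) * Err i j) := by ring
        _ ≤ _ := by
            apply mul_le_mul_of_nonneg_left _ (by positivity)
            have := mul_le_mul_of_nonneg_right haa1 (hErr0 i j)
            linarith
    refine h1.trans ?_
    have h2 : ∑ i ∈ Ix B b K U R W, ∑ j ∈ Ix B b K U R W, (Q : ℝ) ^ Fintype.card B *
          ((1 / (i.1.1 : ℝ)) * (1 / (j.1.1 : ℝ)) * (1 / ((Dx b m i : ℝ) * (Dx b m j : ℝ)))
            + (1 / (i.1.1 : ℝ)) * (1 / (j.1.1 : ℝ)) * (if Rot i j then 1 / (Dx b m i : ℝ) else 0)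
            + Err i j)
        = (Q : ℝ) ^ Fintype.card B * (∑ i ∈ Ix B b K U R W, ∑ j ∈ Ix B b K U R W,
            (1 / (i.1.1 : ℝ)) * (1 / (j.1.1 : ℝ)) * (1 / ((Dx b m i : ℝ) * (Dx b m j : ℝ)))
          + ∑ i ∈ Ix B b K U R W, ∑ j ∈ Ix B b K U R W,
            (1 / (i.1.1 : ℝ)) * (1 / (j.1.1 : ℝ)) * (if Rot i j then 1 / (Dx b m i : ℝ) else 0)
          + ∑ i ∈ Ix B b K U R W, ∑ j ∈ Ix B b K U R W, Err i j) := by
      rw [← sum_add_distrib, ← sum_add_distrib, mul_sum]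
      apply sum_congr rfl
      intro i _
      rw [← sum_add_distrib, ← sum_add_distrib, mul_sum]
    rw [h2]
    apply mul_le_mul_of_nonneg_left _ (by positivity)
    have t1 : ∑ i ∈ Ix B b K U R W, ∑ j ∈ Ix B b K U R W,
            (1 / (i.1.1 : ℝ)) * (1 / (j.1.1 : ℝ)) * (1 / ((Dx b m i : ℝ) * (Dx b m j : ℝ)))
            = μ ^ 2 := by
      rw [hμ]
      unfold mu
      rw [sq, sum_mul_sum]
      apply sum_congr rfl
      intro i _
      apply sum_congr rfl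
      intro j _
      ring
    have t2 : ∑ i ∈ Ix B b K U R W, ∑ j ∈ Ix B b K U R W,
            (1 / (i.1.1 : ℝ)) * (1 / (j.1.1 : ℝ)) * (if Rot i j then 1 / (Dx b m i : ℝ) else 0)
            ≤ μ := by
      rw [hμ]
      unfold mu
      apply sum_le_sum
      intro i hi
      have hL : 0 < i.1.1 := by
        have := (Ix_spec C hi).1.Lge
        omega
      have hLr : (0 : ℝ) < (i.1.1 : ℝ) := by exact_mod_cast hL
      have hDr : (0 : ℝ) < (Dx b m i : ℝ) := by exact_mod_cast Dx_pos C hi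
      have e1 : ∑ j ∈ Ix B b K U R W,
            (1 / (i.1.1 : ℝ)) * (1 / (j.1.1 : ℝ)) * (if Rot i j then 1 / (Dx b m i : ℝ) else 0)
          = ∑ j ∈ (Ix B b K U R W).filter (fun j => Rot i j),
            (1 / (i.1.1 : ℝ)) * (1 / (i.1.1 : ℝ)) * (1 / (Dx b m i : ℝ)) := by
        rw [sum_filter]
        apply sum_congr rfl
        intro j _
        split_ifs with h
        · rw [h.1]
        · rw [mul_zero]
      rw [e1, sum_const, nsmul_eq_mul]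
      have e2 := card_rot C i hi ((Ix B b K U R W).filter (fun j => Rot i j))
        (fun j hj => mem_filter.mp hj)
      have e3 : (((Ix B b K U R W).filter (fun j => Rot i j)).card : ℝ) ≤ (i.1.1 : ℝ) := by
        exact_mod_cast e2
      calc (((Ix B b K U R W).filter (fun j => Rot i j)).card : ℝ)
            * ((1 / (i.1.1 : ℝ)) * (1 / (i.1.1 : ℝ)) * (1 / (Dx b m i : ℝ)))
          ≤ (i.1.1 : ℝ) * ((1 / (i.1.1 : ℝ)) * (1 / (i.1.1 : ℝ)) * (1 / (Dx b m i : ℝ))) :=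
            mul_le_mul_of_nonneg_right e3 (by positivity)
        _ = 1 / (i.1.1 : ℝ) / (Dx b m i : ℝ) := by
            field_simp
    have t3 := err_bound b0 hbB C A Sb hA hSb
    rw [t1]
    have t4 : ∑ i ∈ Ix B b K U R W, ∑ j ∈ Ix B b K U R W, Err i j ≤ 1 := t3.trans hΔ
    linarith

end GC70
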