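import Mathlib
import Pool.Agent.Helper70.GC.Assemble

/-!
# Lower bound for the expected number of cycles
-/

set_option autoImplicit false

namespace GC70

open Finset

variable {B : Type} [Fintype B] [DecidableEq B]

lemma mu_ge_sum {b m K U R W : ℕ} (C : Cx b m K U R W) (c : ℝ) (hc : 0 ≤ c)
    (hGd : ∀ L ∈ Ls b K, ∀ [NeZero L], c * ((b : ℝ) + 1) ^ L
      ≤ ((Gd B L R W U (L / (b + 1))).card : ℝ)) :
    c * ∑ L ∈ Ls b K, 1 / (L : ℝ) ≤ mu B b m K U R W := by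
  unfold mu Ix
  rw [sum_sigma]
  have h1 : ∀ t ∈ Tys b K U, (1 / (t.1 : ℝ)) / (((b : ℝ) + 1) ^ t.1)
      * ((Wds B t.1 R W U (t.1 / (b + 1)) t.2).card : ℝ)
      ≤ ∑ w ∈ Wds B t.1 R W U (t.1 / (b + 1)) t.2, (1 / (t.1 : ℝ)) / (Dx b m ⟨t, w⟩ : ℝ) := by
    intro t ht
    have T := Tys_Ty C ht
    have hD : (0 : ℝ) < (DD b m t.1 t.2 : ℝ) := by exact_mod_cast T.D_pos
    have hD2 : (DD b m t.1 t.2 : ℝ) ≤ ((b : ℝ) + 1) ^ t.1 := by exact_mod_cast T.D_le
    have h2 : ∀ w ∈ Wds B t.1 R W U (t.1 / (b + 1)) t.2,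
        (1 / (t.1 : ℝ)) / (((b : ℝ) + 1) ^ t.1) ≤ (1 / (t.1 : ℝ)) / (Dx b m ⟨t, w⟩ : ℝ) := by
      intro w _
      exact div_le_div_of_nonneg_left (by positivity) hD hD2
    refine le_trans (le_of_eq ?_) (sum_le_sum h2)
    rw [sum_const, nsmul_eq_mul, mul_comm]
  refine le_trans ?_ (sum_le_sum h1)
  unfold Tys
  rw [sum_filter, sum_product, mul_sum]
  apply sum_le_sum
  intro L hL
  have hL0 : L ≠ 0 := by
    simp only [Ls, mem_filter, mem_Ico] at hL
    omega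
  have hNe : NeZero L := ⟨hL0⟩
  have hLr : (0 : ℝ) < L := by
    have : 0 < L := by omega
    exact_mod_cast this
  have h3 : ∑ u ∈ Icc 1 U, (if L / (b + 1) + 1 ≤ u then (1 / (L : ℝ)) / (((b : ℝ) + 1) ^ L)
      * ((Wds B L R W U (L / (b + 1)) u).card : ℝ) else 0)
      = (1 / (L : ℝ)) / (((b : ℝ) + 1) ^ L) * ((Gd B L R W U (L / (b + 1))).card : ℝ) := by
    rw [← sum_filter]
    have h4 : (Icc 1 U).filter (fun u => L / (b + 1) + 1 ≤ u) = Icc (L / (b + 1) + 1) U := by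
      ext u
      simp only [mem_filter, mem_Icc]
      constructor
      · rintro ⟨⟨_, h⟩, h'⟩
        exact ⟨h', h⟩
      · rintro ⟨h, h'⟩
        exact ⟨⟨le_trans (Nat.le_add_left 1 _) h, h'⟩, h⟩
    rw [h4, ← mul_sum, ← sum_card_Wds L R W U (L / (b + 1))]
    push_cast
    rfl
  simp only
  rw [h3]
  have h5 := hGd L hL
  have hp : (0 : ℝ) < ((b : ℝ) + 1) ^ L := by positivity
  calc c * (1 / (L : ℝ)) = (1 / (L : ℝ)) / (((b : ℝ) + 1) ^ L) * (c * ((b : ℝ) + 1) ^ L) := by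
        field_simp
    _ ≤ _ := mul_le_mul_of_nonneg_left h5 (by positivity)

lemma sum_Ls_ge (b K : ℕ) : (1 / 2) * ∑ l ∈ Ico 1 K, 1 / ((l : ℝ) + 1) ≤ ∑ L ∈ Ls b K, 1 / (L : ℝ) := by
  set d := b + 1 with hd
  set P := (Ico 1 K) ×ˢ (range ((b + 2) / 2)) with hP
  have hinj : Set.InjOn (fun p : ℕ × ℕ => p.1 * d + p.2) (P : Set (ℕ × ℕ)) := by
    rintro ⟨l, r⟩ h ⟨l', r'⟩ h' heq
    simp only [hP, coe_product, coe_Ico, coe_range, Set.mem_prod, Set.mem_Ico, Set.mem_Iio] at h h'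
    simp only at heq
    have hr : r < d := by omega
    have hr' : r' < d := by omega
    have h1 : l = l' := by
      have e1 : (l * d + r) / d = l := by
        rw [mul_comm, Nat.mul_add_div (by omega), Nat.div_eq_of_lt hr, add_zero]
      have e2 : (l' * d + r') / d = l' := by
        rw [mul_comm, Nat.mul_add_div (by omega), Nat.div_eq_of_lt hr', add_zero]
      rw [← e1, ← e2, heq]
    subst h1
    have h2 : r = r' := by omega
    rw [h2]
  have hsub : P.image (fun p : ℕ × ℕ => p.1 * d + p.2) ⊆ Ls b K := by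
    intro L hL
    rw [mem_image] at hL
    obtain ⟨⟨l, r⟩, h, rfl⟩ := hL
    simp only [hP, mem_product, mem_Ico, mem_range] at h
    have hr : r < d := by omega
    simp only [Ls, mem_filter, mem_Ico]
    refine ⟨⟨?_, ?_⟩, ?_⟩
    · nlinarith [h.1.1]
    · have : (l + 1) * d ≤ K * d := Nat.mul_le_mul_right _ h.1.2
      nlinarith
    · rw [← hd, mul_comm l d, Nat.mul_add_mod, Nat.mod_eq_of_lt hr]
      omega
  have h1 : ∑ L ∈ P.image (fun p : ℕ × ℕ => p.1 * d + p.2), 1 / (L : ℝ) ≤ ∑ L ∈ Ls b K, 1 / (L : ℝ) :=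
    sum_le_sum_of_subset_of_nonneg hsub (fun _ _ _ => by positivity)
  refine le_trans ?_ h1
  rw [sum_image hinj, hP, sum_product, mul_sum]
  apply sum_le_sum
  intro l hl
  rw [mem_Ico] at hl
  have hd0 : (0 : ℝ) < d := by
    have : 0 < d := by omega
    exact_mod_cast this
  have h2 : ∀ r ∈ range ((b + 2) / 2), 1 / (((l : ℝ) + 1) * d) ≤ 1 / (((l * d + r : ℕ)) : ℝ) := by
    intro r hr
    rw [mem_range] at hr
    apply one_div_le_one_div_of_le
    · have : 0 < l * d + r := by nlinarith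
      exact_mod_cast this
    · have : l * d + r ≤ (l + 1) * d := by nlinarith [show r < d by omega]
      exact_mod_cast this
  refine le_trans ?_ (sum_le_sum h2)
  rw [sum_const, card_range, nsmul_eq_mul]
  have h3 : (d : ℝ) ≤ 2 * (((b + 2) / 2 : ℕ) : ℝ) := by
    have : d ≤ 2 * ((b + 2) / 2) := by omega
    exact_mod_cast this
  have hl0 : (0 : ℝ) < (l : ℝ) + 1 := by positivity
  rw [mul_one_div, mul_one_div, div_le_div_iff₀ hl0 (by positivity)]
  nlinarith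

end GC70
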