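import Mathlib
import Pool.Agent.Helper70.GC.MuLower

/-!
# The asymptotic inequalities
-/

set_option autoImplicit false

namespace GC70

open Finset Filter

/-- the largeness conditions, in terms of `t = log_2 (b + 1)` -/
structure Big (K U W t : ℕ) : Prop where
  h12 : 12 ≤ t
  hc : (2 * U + 2 * W + 2 * K + 5) * t ≤ 2 ^ t
  hN : 5000 + 16000 * K + 2 * U + 8 + 5000 * W * K + 9000 * W ^ 2 * K ^ 2
    + 1000 * (4 * W + 1) ^ 2 * K ^ 2 + 5 * W ≤ 2 ^ t
  hexp : Real.exp (2 * K) ≤ 2 ^ t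
  hfac : (4096 * (K : ℝ)) ^ (t / 12 + 1) / ((t / 12 + 1).factorial : ℝ) ≤ 1 / 1000
  hK : 128 * (K : ℝ) ≤ Real.exp (-(4 * (K : ℝ))) * t
  hp : ((2 * (7 * U + 4 * K + 20) + 8 : ℕ) : ℝ) * (t : ℝ) ^ 8 * 32
    ≤ Real.exp (-(4 * (K : ℝ))) * 2 ^ t

lemma eventually_big (K U W : ℕ) : ∀ᶠ t in atTop, Big K U W t := by
  have e1 : ∀ᶠ t : ℕ in atTop, 12 ≤ t := eventually_ge_atTop 12
  have hpoly : ∀ (k : ℕ) (c : ℝ), 0 < c → ∀ᶠ t : ℕ in atTop, (t : ℝ) ^ k ≤ c * 2 ^ t := by
    intro k c hc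
    have h := tendsto_pow_const_div_const_pow_of_one_lt k (show (1 : ℝ) < 2 by norm_num)
    have h2 := h.eventually (ge_mem_nhds hc)
    filter_upwards [h2] with t ht
    rw [div_le_iff₀ (by positivity)] at ht
    exact ht
  have e2 : ∀ᶠ t : ℕ in atTop, (2 * U + 2 * W + 2 * K + 5) * t ≤ 2 ^ t := by
    have h := hpoly 1 (1 / ((2 * U + 2 * W + 2 * K + 5 : ℕ) : ℝ)) (by positivity)
    filter_upwards [h] with t ht
    rw [pow_one, div_mul_eq_mul_div, one_mul, le_div_iff₀ (by positivity)] at ht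
    have : (((2 * U + 2 * W + 2 * K + 5) * t : ℕ) : ℝ) ≤ ((2 ^ t : ℕ) : ℝ) := by
      push_cast at ht ⊢
      linarith
    exact_mod_cast this
  have hbig : ∀ N : ℝ, ∀ᶠ t : ℕ in atTop, N ≤ 2 ^ t := by
    intro N
    exact (tendsto_pow_atTop_atTop_of_one_lt (show (1 : ℝ) < 2 by norm_num)).eventually_ge_atTop N
  have e3 := hbig ((5000 + 16000 * K + 2 * U + 8 + 5000 * W * K + 9000 * W ^ 2 * K ^ 2
    + 1000 * (4 * W + 1) ^ 2 * K ^ 2 + 5 * W : ℕ) : ℝ)
  have e4 := hbig (Real.exp (2 * K))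
  have e5 : ∀ᶠ t : ℕ in atTop,
      (4096 * (K : ℝ)) ^ (t / 12 + 1) / ((t / 12 + 1).factorial : ℝ) ≤ 1 / 1000 := by
    have h := FloorSemiring.tendsto_pow_div_factorial_atTop (4096 * (K : ℝ))
    have h1 : Tendsto (fun t : ℕ => t / 12 + 1) atTop atTop := by
      exact (tendsto_add_atTop_nat 1).comp (Nat.tendsto_div_const_atTop (by norm_num))
    exact (h.comp h1).eventually (ge_mem_nhds (by norm_num))
  have e6 : ∀ᶠ t : ℕ in atTop, 128 * (K : ℝ) ≤ Real.exp (-(4 * (K : ℝ))) * t := by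
    have h : Tendsto (fun t : ℕ => Real.exp (-(4 * (K : ℝ))) * (t : ℝ)) atTop atTop :=
      Tendsto.const_mul_atTop (Real.exp_pos _) tendsto_natCast_atTop_atTop
    exact h.eventually_ge_atTop _
  have e7 : ∀ᶠ t : ℕ in atTop, ((2 * (7 * U + 4 * K + 20) + 8 : ℕ) : ℝ) * (t : ℝ) ^ 8 * 32
    ≤ Real.exp (-(4 * (K : ℝ))) * 2 ^ t := by
    set M : ℝ := ((2 * (7 * U + 4 * K + 20) + 8 : ℕ) : ℝ) with hM
    have hM0 : 0 < M := by
      rw [hM]
      positivity
    have h := hpoly 8 (Real.exp (-(4 * (K : ℝ))) / (M * 32)) (by positivity)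
    filter_upwards [h] with t ht
    rw [div_mul_eq_mul_div, le_div_iff₀ (by positivity)] at ht
    linarith
  filter_upwards [e1, e2, e3, e4, e5, e6, e7] with t h1 h2 h3 h4 h5 h6 h7
  exact ⟨h1, h2, by exact_mod_cast h3, h4, h5, h6, h7⟩

/-- the context for large `b` -/
lemma Cx_of {b m K U W t : ℕ} (hK : 1 ≤ K) (hW : 1 ≤ W) (ht : t = Nat.log 2 (b + 1))
    (G : Big K U W t) (hdm : b + 1 ≤ m) (hcop : Nat.Coprime m (b + 1))
    (hm : m ^ b < (b + 1) ^ (b + 1)) : Cx b m K U (t / 12) W := by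
  have h2t : 2 ^ t ≤ b + 1 := by
    rw [ht]
    exact Nat.pow_log_le_self 2 (by omega)
  have hN := G.hN
  have h0 : 0 ≤ 5000 * W * K + 9000 * W ^ 2 * K ^ 2 + 1000 * (4 * W + 1) ^ 2 * K ^ 2 := by positivity
  have hbN : 5000 + 16000 * K + 2 * U + 8 + 5 * W ≤ b + 1 := by omega
  have h12 := G.h12
  set R := t / 12 with hR
  have hRt : 3 * (3 * R + 1) ≤ t := by omega
  have hc := G.hc
  have hGbig : ∀ L, b + 1 ≤ L → 2 * U + 2 * W + 2 * K + 4 < L / (3 * R + 1)
      ∧ 2 * L < t * (L / (3 * R + 1) - (2 * U + 2 * W + 2 * K + 3)) := by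
    intro L hL
    set Gp := L / (3 * R + 1) with hGp
    set c := 2 * U + 2 * W + 2 * K + 3 with hcdef
    have h1 : L < (3 * R + 1) * (Gp + 1) := by
      have := Nat.lt_mul_div_succ L (show 0 < 3 * R + 1 by omega)
      exact this
    have h2 : 3 * L < t * (Gp + 1) := by
      calc 3 * L < 3 * ((3 * R + 1) * (Gp + 1)) := by omega
        _ = (3 * (3 * R + 1)) * (Gp + 1) := by ring
        _ ≤ t * (Gp + 1) := Nat.mul_le_mul_right _ hRt
    have h3 : (c + 2) * t ≤ L := le_trans hc (le_trans h2t hL)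
    have h4 : c + 2 < Gp + 1 := by
      by_contra h
      push Not at h
      have h5 : t * (Gp + 1) ≤ t * (c + 2) := Nat.mul_le_mul_left _ h
      have h6 : t * (c + 2) = (c + 2) * t := mul_comm _ _
      omega
    refine ⟨by omega, ?_⟩
    obtain ⟨e, he⟩ : ∃ e, Gp = c + e := ⟨Gp - c, by omega⟩
    have h7 : Gp - c = e := by omega
    rw [h7]
    have h8 : t * (Gp + 1) = t * e + (c + 1) * t := by rw [he]; ring
    have h9 : (c + 2) * t = (c + 1) * t + t := by ring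
    omega
  refine ⟨by omega, ?_, hdm, hcop, hm, hK, by omega, by omega, hW, ?_, ?_⟩
  · nlinarith
  · intro L hL
    have := (hGbig L hL).1
    omega
  · intro L hL hLK
    obtain ⟨g1, g2⟩ := hGbig L hL
    set Gp := L / (3 * R + 1) with hGp
    set c := 2 * U + 2 * W + 2 * K + 3 with hcdef
    have hGL : Gp ≤ L := Nat.div_le_self _ _
    have h1 := m_pow_le' b m K (by omega) hdm hm (L - Gp + 2 * U + 2 * W) (by omega)
    have hRb : R * 2 ≤ (b + 1) ^ 2 := by
      have : t ≤ b + 1 := by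
        have h2 : t < 2 ^ t := Nat.lt_two_pow_self
        omega
      nlinarith
    have h4L : 4 ^ L < (b + 1) ^ (Gp - c) := by
      calc 4 ^ L = 2 ^ (2 * L) := by rw [pow_mul]; norm_num
        _ < 2 ^ (t * (Gp - c)) := Nat.pow_lt_pow_right (by norm_num) g2
        _ = (2 ^ t) ^ (Gp - c) := by rw [pow_mul]
        _ ≤ (b + 1) ^ (Gp - c) := Nat.pow_le_pow_left h2t _
    calc R * 4 ^ L * 2 * m ^ (L - Gp + 2 * U + 2 * W)
        = (R * 2) * 4 ^ L * m ^ (L - Gp + 2 * U + 2 * W) := by ring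
      _ ≤ (b + 1) ^ 2 * 4 ^ L * (b + 1) ^ (L - Gp + 2 * U + 2 * W + 2 * K + 1) :=
          Nat.mul_le_mul (Nat.mul_le_mul_right _ hRb) h1
      _ < (b + 1) ^ 2 * (b + 1) ^ (Gp - c) * (b + 1) ^ (L - Gp + 2 * U + 2 * W + 2 * K + 1) := by
          apply Nat.mul_lt_mul_of_pos_right _ (by positivity)
          exact Nat.mul_lt_mul_of_pos_left h4L (by positivity)
      _ = (b + 1) ^ L := by
          rw [← pow_add, ← pow_add]
          congr 1
          omega

lemma fq_t8 (t : ℕ) (ht : 1 ≤ t) : fq (t ^ 8) = 1 / (t : ℝ) ^ 2 := by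
  rw [fq_pow, show 8 = 4 * 2 by norm_num, pow_mul, fq_pow4, inv_pow, one_div]

/-- the bound for the sums over divisors -/
noncomputable def Sbd (b K t : ℕ) : ℝ :=
  7 ^ (t ^ 8) * Real.exp (2 * (((t + 1) * (K * (b + 1)) : ℕ) : ℝ) * fq (t ^ 8))

lemma Sq_le {b m K U R W t : ℕ} (C : Cx b m K U R W) (ht : t = Nat.log 2 (b + 1)) (ht2 : 2 ≤ t)
    {x : ℕ × ℕ} (hx : x ∈ Tys b K U) : Sq (DD b m x.1 x.2) ≤ Sbd b K t := by
  have T := Tys_Ty C hx
  apply rankin
  · exact T.D_pos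
  · calc 16 ≤ 2 ^ 8 := by norm_num
      _ ≤ t ^ 8 := Nat.pow_le_pow_left ht2 8
  · have h1 : b + 1 < 2 ^ (t + 1) := by
      rw [ht]
      exact Nat.lt_pow_succ_log_self (by norm_num) _
    calc DD b m x.1 x.2 < (b + 1) ^ x.1 := T.D_lt (by have := C.dm; omega)
      _ ≤ (2 ^ (t + 1)) ^ x.1 := Nat.pow_le_pow_left h1.le _
      _ ≤ (2 ^ (t + 1)) ^ (K * (b + 1)) := Nat.pow_le_pow_right (by positivity) T.Lle
      _ = 2 ^ ((t + 1) * (K * (b + 1))) := by rw [← pow_mul]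

lemma card_Tys_le (b K U : ℕ) : (Tys b K U).card ≤ K * (b + 1) * U := by
  unfold Tys
  refine (card_filter_le _ _).trans ?_
  rw [card_product, Nat.card_Icc]
  apply Nat.mul_le_mul _ (by omega)
  unfold Ls
  refine (card_filter_le _ _).trans ?_
  rw [Nat.card_Ico]
  exact Nat.sub_le _ _

lemma fq4_le : fq 4 ≤ Real.exp (-(1 / 8)) := by
  have h1 : fq 4 ^ 4 ≤ Real.exp (-(1 / 8)) ^ 4 := by
    rw [fq_pow4, ← Real.exp_nat_mul]
    have h2 := Real.add_one_le_exp (((4 : ℕ) : ℝ) * (-(1 / 8)))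
    have h3 : ((4 : ℕ) : ℝ) * (-(1 / 8)) + 1 = 1 / 2 := by norm_num
    rw [h3] at h2
    have h4 : (((4 : ℕ) : ℝ))⁻¹ ≤ 1 / 2 := by norm_num
    linarith
  exact (pow_le_pow_iff_left₀ (fq_nonneg 4) (Real.exp_pos _).le (by norm_num)).mp h1

lemma Sbd_le (b K t : ℕ) (ht : 1 ≤ t) (hb : 1 ≤ b) :
    Sbd b K t ≤ Real.exp (2 * (t : ℝ) ^ 8 + 8 * K * b / t) := by
  have htr : (0 : ℝ) < t := by exact_mod_cast ht
  have h7 : (7 : ℝ) ≤ Real.exp 2 := by
    have h1 : Real.exp 2 = Real.exp 1 ^ 2 := by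
      rw [← Real.exp_nat_mul]
      norm_num
    rw [h1]
    have h2 := Real.exp_one_gt_d9
    nlinarith
  unfold Sbd
  rw [Real.exp_add]
  apply mul_le_mul _ _ (by positivity) (by positivity)
  · calc (7 : ℝ) ^ (t ^ 8) ≤ Real.exp 2 ^ (t ^ 8) := pow_le_pow_left₀ (by norm_num) h7 _
      _ = Real.exp (2 * (t : ℝ) ^ 8) := by
          rw [← Real.exp_nat_mul]
          congr 1
          push_cast
          ring
  · apply Real.exp_le_exp.mpr
    rw [fq_t8 t (by omega)]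
    push_cast
    rw [mul_one_div, div_le_div_iff₀ (by positivity) htr]
    have h1b : (1 : ℝ) ≤ b := by exact_mod_cast hb
    have h1t : (1 : ℝ) ≤ t := by exact_mod_cast ht
    have hb1 : (b : ℝ) + 1 ≤ 2 * b := by linarith
    have ht2 : (t : ℝ) + 1 ≤ 2 * t := by linarith
    have hK0 : (0 : ℝ) ≤ K := Nat.cast_nonneg K
    calc 2 * (((t : ℝ) + 1) * ((K : ℝ) * ((b : ℝ) + 1))) * t
        ≤ 2 * ((2 * t) * ((K : ℝ) * (2 * b))) * t := by
          apply mul_le_mul_of_nonneg_right _ htr.le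
          apply mul_le_mul_of_nonneg_left _ (by norm_num)
          apply mul_le_mul ht2 _ (by positivity) (by positivity)
          exact mul_le_mul_of_nonneg_left hb1 hK0
      _ = 8 * K * b * t ^ 2 := by ring

lemma fin_ineq (κ R K c0 b t M : ℝ) (hκ0 : 0 ≤ κ) (hR0 : 0 ≤ R) (hK0 : 0 ≤ K) (hRt : R ≤ t)
    (hb : 1 ≤ b) (ht : 12 ≤ t) (hc0 : 0 < c0)
    (g1 : 128 * K ≤ c0 * t) (g2 : (2 * κ + 8) * t ^ 8 * 32 ≤ c0 * M) (hM : M ≤ 2 * b) :
    (κ + 2 * R) * (t + 1) + (2 + ((2 * t ^ 8 + 8 * K * b / t) + (-(c0 * b / 8)))) ≤ 0 := by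
  have htr : 0 < t := by linarith
  have k1 : 8 * K * b / t ≤ c0 * b / 16 := by
    rw [div_le_iff₀ htr]
    have := mul_le_mul_of_nonneg_right g1 (show 0 ≤ b / 16 by linarith)
    calc 8 * K * b = 128 * K * (b / 16) := by ring
      _ ≤ c0 * t * (b / 16) := this
      _ = c0 * b / 16 * t := by ring
  have ht8 : t ^ 2 ≤ t ^ 8 := pow_le_pow_right₀ (by linarith) (by norm_num)
  have ht82 : 1 ≤ t ^ 8 := one_le_pow₀ (by linarith)
  have k2 : (κ + 2 * R) * (t + 1) + 2 + 2 * t ^ 8 ≤ (2 * κ + 8) * t ^ 8 := by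
    have e1 : κ + 2 * R ≤ κ * t + 2 * t := by
      have : κ * 1 ≤ κ * t := mul_le_mul_of_nonneg_left (by linarith) hκ0
      linarith
    have e2 : (κ + 2 * R) * (t + 1) ≤ (κ * t + 2 * t) * (2 * t) :=
      mul_le_mul e1 (by linarith) (by linarith) (by positivity)
    have e3 : (2 * κ + 4) * t ^ 2 ≤ (2 * κ + 4) * t ^ 8 :=
      mul_le_mul_of_nonneg_left ht8 (by linarith)
    have e4 : (κ * t + 2 * t) * (2 * t) = (2 * κ + 4) * t ^ 2 := by ring
    have e5 : (2 * κ + 8) * t ^ 8 = (2 * κ + 4) * t ^ 8 + 4 * t ^ 8 := by ring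
    linarith
  have k3 : c0 * M ≤ 2 * (c0 * b) := by
    have := mul_le_mul_of_nonneg_left hM hc0.le
    linarith
  have k4 : (2 * κ + 8) * t ^ 8 ≤ c0 * b / 16 := by linarith
  linarith

lemma exp_collect (x P S E t a : ℝ) (n : ℕ) (hx0 : 0 ≤ x) (hE : 0 ≤ E)
    (hx : x ≤ Real.exp (t + 1)) (hS : S ≤ Real.exp P) (hEx : E = Real.exp a)
    (hfin : (n : ℝ) * (t + 1) + (2 + (P + a)) ≤ 0) (hS0 : 0 ≤ S) :
    x ^ n * (5 * (S * E)) ≤ 1 := by
  have h5 : (5 : ℝ) ≤ Real.exp 2 := by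
    have h1 : Real.exp 2 = Real.exp 1 ^ 2 := by
      rw [← Real.exp_nat_mul]
      norm_num
    rw [h1]
    have h2 := Real.exp_one_gt_d9
    nlinarith
  have hPe : x ^ n ≤ Real.exp ((n : ℝ) * (t + 1)) := by
    calc x ^ n ≤ Real.exp (t + 1) ^ n := pow_le_pow_left₀ hx0 hx _
      _ = _ := by rw [← Real.exp_nat_mul]
  have hSE : S * E ≤ Real.exp (P + a) := by
    rw [Real.exp_add, ← hEx]
    exact mul_le_mul_of_nonneg_right hS hE
  have h5SE : 5 * (S * E) ≤ Real.exp (2 + (P + a)) := by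
    rw [Real.exp_add]
    exact mul_le_mul h5 hSE (by positivity) (by positivity)
  calc x ^ n * (5 * (S * E)) ≤ Real.exp ((n : ℝ) * (t + 1)) * Real.exp (2 + (P + a)) :=
        mul_le_mul hPe h5SE (by positivity) (by positivity)
    _ = Real.exp ((n : ℝ) * (t + 1) + (2 + (P + a))) := by rw [← Real.exp_add]
    _ ≤ 1 := Real.exp_le_one_iff.mpr hfin

/-- the final inequality -/
theorem Delta_small {b m K U W t : ℕ} (hK : 1 ≤ K)
    (ht : t = Nat.log 2 (b + 1)) (G : Big K U W t) (C : Cx b m K U (t / 12) W) :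
    ((Tys b K U).card : ℝ) ^ 2 * Delta b m K U (t / 12) ((K : ℝ) * (b + 1) + 1) (Sbd b K t) ≤ 1 := by
  have h2t : 2 ^ t ≤ b + 1 := by
    rw [ht]
    exact Nat.pow_log_le_self 2 (by omega)
  have h2t' : b + 1 < 2 ^ (t + 1) := by
    rw [ht]
    exact Nat.lt_pow_succ_log_self (by norm_num) _
  have hN := G.hN
  have h0 : 0 ≤ 5000 * W * K + 9000 * W ^ 2 * K ^ 2 + 1000 * (4 * W + 1) ^ 2 * K ^ 2 := by positivity
  have hbN : 5000 + 16000 * K + 2 * U + 8 + 5 * W ≤ b + 1 := by omega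
  have h12 := G.h12
  set R := t / 12 with hR
  set x : ℝ := (b : ℝ) + 1 with hx
  have hx5 : (5000 : ℝ) ≤ x := by
    rw [hx]
    exact_mod_cast (by omega : 5000 ≤ b + 1)
  have hx0 : 0 < x := by linarith
  have hx1 : 1 ≤ x := by linarith
  have hbx : (b : ℝ) ≤ x := by rw [hx]; linarith
  have hb0 : (0 : ℝ) < b := by
    have : 0 < b := by omega
    exact_mod_cast this
  have hKx : (K : ℝ) + 1 ≤ x := by
    rw [hx]
    exact_mod_cast (by omega : K + 1 ≤ b + 1)
  have hUx : (U : ℝ) ≤ x := by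
    rw [hx]
    exact_mod_cast (by omega : U ≤ b + 1)
  have hK0 : (0 : ℝ) ≤ K := by positivity
  have hexp : Real.exp (2 * K) ≤ x := by
    refine G.hexp.trans ?_
    rw [hx]
    exact_mod_cast h2t
  set A : ℝ := (K : ℝ) * (b + 1) + 1 with hA
  have hAx : A ≤ x ^ 2 := by
    rw [hA, ← hx]
    nlinarith
  have hA0 : 0 < A := by
    rw [hA]
    positivity
  set κ := 7 * U + 4 * K + 20 with hκ
  set c0 := Real.exp (-(4 * (K : ℝ))) with hc0
  have hc0pos : 0 < c0 := Real.exp_pos _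
  have hc01 : c0 ≤ 1 := by
    rw [hc0]
    apply Real.exp_le_one_iff.mpr
    linarith
  set S := Sbd b K t with hS
  -- 1
  have hTys : ((Tys b K U).card : ℝ) ^ 2 ≤ x ^ 6 := by
    have h1 : ((Tys b K U).card : ℝ) ≤ x ^ 3 := by
      calc ((Tys b K U).card : ℝ) ≤ ((K * (b + 1) * U : ℕ) : ℝ) := Nat.cast_le.mpr (card_Tys_le b K U)
        _ = (K : ℝ) * x * U := by push_cast; rfl
        _ ≤ x * x * x := by
            apply mul_le_mul _ hUx (by positivity) (by positivity)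
            exact mul_le_mul_of_nonneg_right (by linarith) hx0.le
        _ = x ^ 3 := by ring
    calc ((Tys b K U).card : ℝ) ^ 2 ≤ (x ^ 3) ^ 2 := pow_le_pow_left₀ (by positivity) h1 2
      _ = x ^ 6 := by ring
  -- 3
  have hCm0 : 1 ≤ Cm b m K := one_le_Cm b m K (by have := C.dm; omega)
  have hCm : Cm b m K ≤ x ^ (2 * K + 5) := by
    unfold Cm
    have h1 : (m : ℝ) ≤ 2 * x := by
      have := m_lt_two b m C.hm
      rw [hx]
      exact_mod_cast this.le
    have h2 : (m : ℝ) ^ 2 ≤ x ^ 3 := by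
      calc (m : ℝ) ^ 2 ≤ (2 * x) ^ 2 := pow_le_pow_left₀ (by positivity) h1 2
        _ ≤ x ^ 3 := by nlinarith [sq_nonneg x]
    calc (m : ℝ) ^ 2 * (Real.exp (2 * K) * x ^ (2 * K + 1))
        ≤ x ^ 3 * (x * x ^ (2 * K + 1)) := by
          apply mul_le_mul h2 _ (by positivity) (by positivity)
          exact mul_le_mul_of_nonneg_right hexp (by positivity)
      _ = x ^ (2 * K + 5) := by ring
  have hCCo0 : 0 ≤ CCo b m K U R A := by
    unfold CCo
    positivity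
  have hCCo : CCo b m K U R A ≤ x ^ (7 * U + 4 * K + 14 + 2 * R) := by
    unfold CCo
    calc 4 * A ^ (2 * U + 1 + R) * (b : ℝ) ^ (3 * U + 1) * Cm b m K ^ 2
        ≤ x * (x ^ 2) ^ (2 * U + 1 + R) * x ^ (3 * U + 1) * (x ^ (2 * K + 5)) ^ 2 := by
          apply mul_le_mul _ _ (by positivity) (by positivity)
          · apply mul_le_mul _ _ (by positivity) (by positivity)
            · apply mul_le_mul (by linarith) _ (by positivity) (by positivity)
              exact pow_le_pow_left₀ hA0.le hAx _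
            · exact pow_le_pow_left₀ hb0.le hbx _
          · exact pow_le_pow_left₀ (by positivity) hCm 2
      _ = x ^ (7 * U + 4 * K + 14 + 2 * R) := by
          rw [← pow_mul, ← pow_mul, ← pow_succ', ← pow_add, ← pow_add]
          congr 1
          ring
  -- exponentials
  set Ex := Real.exp (-(c0 * b / 8)) with hEx
  have hEx0 : 0 < Ex := Real.exp_pos _
  have hpowE : ∀ y : ℝ, 0 ≤ y → y ≤ Real.exp (-(1 / 8)) → y ^ (b + 1) ≤ Ex := by
    intro y hy0 hy
    calc y ^ (b + 1) ≤ Real.exp (-(1 / 8)) ^ (b + 1) := pow_le_pow_left₀ hy0 hy _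
      _ = Real.exp (((b + 1 : ℕ) : ℝ) * (-(1 / 8))) := by rw [← Real.exp_nat_mul]
      _ ≤ Ex := by
          rw [hEx]
          apply Real.exp_le_exp.mpr
          push_cast
          nlinarith
  have hhalf : (1 / 2 : ℝ) ≤ Real.exp (-(1 / 8)) := by
    have := Real.add_one_le_exp (-(1 / 8 : ℝ))
    linarith
  have heta : eta b K ≤ 2 * Ex := by
    unfold eta
    have h1 := hpowE (1 / 2) (by norm_num) hhalf
    rw [← hc0, ← hEx]
    linarith
  have heta0 : 0 ≤ eta b K := by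
    unfold eta
    positivity
  have hf4 : fq 4 ^ (b + 1) ≤ Ex := hpowE _ (fq_nonneg 4) fq4_le
  have hS1 : 1 ≤ S := by
    rw [hS]
    unfold Sbd
    have h1 : (1 : ℝ) ≤ 7 ^ (t ^ 8) := one_le_pow₀ (by norm_num)
    have h2 : (1 : ℝ) ≤ Real.exp (2 * (((t + 1) * (K * (b + 1)) : ℕ) : ℝ) * fq (t ^ 8)) := by
      apply Real.one_le_exp
      have := fq_nonneg (t ^ 8)
      positivity
    nlinarith
  -- first part of Delta
  have hG : Gr b K * A1c b K U A ≤ x ^ (4 * U + 3) * Ex := by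
    unfold Gr A1c Gr
    rw [← hc0]
    have h1 : Real.exp (c0 * b / 4) * (24 * A ^ (2 * U + 1) * Real.exp (c0 * b / 4) ^ 2
        * Real.exp (-c0 * b)) = 24 * A ^ (2 * U + 1) * Real.exp (-(c0 * b / 4)) := by
      have h2 : Real.exp (c0 * b / 4) * Real.exp (c0 * b / 4) ^ 2 * Real.exp (-c0 * b)
          = Real.exp (-(c0 * b / 4)) := by
        rw [← Real.exp_nat_mul, ← Real.exp_add, ← Real.exp_add]
        congr 1
        push_cast
        ring
      rw [← h2]
      ring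
    rw [h1]
    apply mul_le_mul _ _ (by positivity) (by positivity)
    · calc 24 * A ^ (2 * U + 1) ≤ x * (x ^ 2) ^ (2 * U + 1) := by
            apply mul_le_mul (by linarith) _ (by positivity) (by positivity)
            exact pow_le_pow_left₀ hA0.le hAx _
        _ = x ^ (4 * U + 3) := by
            rw [← pow_mul, ← pow_succ']
            congr 1
            ring
    · rw [hEx]
      apply Real.exp_le_exp.mpr
      have : 0 ≤ c0 * b := by positivity
      linarith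
  have hDelta : Delta b m K U R A S ≤ x ^ (7 * U + 4 * K + 14 + 2 * R) * (5 * (S * Ex)) := by
    unfold Delta
    have e1 : Gr b K * A1c b K U A ≤ x ^ (7 * U + 4 * K + 14 + 2 * R) * (S * Ex) := by
      refine hG.trans ?_
      apply mul_le_mul _ _ (by positivity) (by positivity)
      · exact pow_le_pow_right₀ hx1 (by omega)
      · nlinarith
    have e2 : CCo b m K U R A * (S * eta b K) ≤ x ^ (7 * U + 4 * K + 14 + 2 * R) * (2 * (S * Ex)) := by
      apply mul_le_mul hCCo _ (by positivity) (by positivity)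
      calc S * eta b K ≤ S * (2 * Ex) := mul_le_mul_of_nonneg_left heta (by positivity)
        _ = 2 * (S * Ex) := by ring
    have e3 : CCo b m K U R A * (S * fq 4 ^ (b + 1)) ≤ x ^ (7 * U + 4 * K + 14 + 2 * R) * (S * Ex) := by
      have := fq_nonneg 4
      apply mul_le_mul hCCo _ (by positivity) (by positivity)
      exact mul_le_mul_of_nonneg_left hf4 (by positivity)
    calc Gr b K * A1c b K U A + CCo b m K U R A * (S * eta b K)
          + 2 * (CCo b m K U R A * (S * fq 4 ^ (b + 1)))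
        ≤ x ^ (7 * U + 4 * K + 14 + 2 * R) * (S * Ex) + x ^ (7 * U + 4 * K + 14 + 2 * R) * (2 * (S * Ex))
          + 2 * (x ^ (7 * U + 4 * K + 14 + 2 * R) * (S * Ex)) := by linarith
      _ = x ^ (7 * U + 4 * K + 14 + 2 * R) * (5 * (S * Ex)) := by ring
  have hDelta0 : 0 ≤ x ^ (7 * U + 4 * K + 14 + 2 * R) * (5 * (S * Ex)) := by positivity
  have hmain : ((Tys b K U).card : ℝ) ^ 2 * Delta b m K U R A S ≤ x ^ (κ + 2 * R) * (5 * (S * Ex)) := by
    calc ((Tys b K U).card : ℝ) ^ 2 * Delta b m K U R A S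
        ≤ ((Tys b K U).card : ℝ) ^ 2 * (x ^ (7 * U + 4 * K + 14 + 2 * R) * (5 * (S * Ex))) :=
          mul_le_mul_of_nonneg_left hDelta (by positivity)
      _ ≤ x ^ 6 * (x ^ (7 * U + 4 * K + 14 + 2 * R) * (5 * (S * Ex))) :=
          mul_le_mul_of_nonneg_right hTys hDelta0
      _ = x ^ (κ + 2 * R) * (5 * (S * Ex)) := by
          rw [← mul_assoc, ← pow_add]
          congr 2
          rw [hκ]
          ring
  refine hmain.trans ?_
  -- everything in terms of exponentials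
  have htr : (0 : ℝ) < t := by
    have : 0 < t := by omega
    exact_mod_cast this
  have ht1 : (12 : ℝ) ≤ t := by exact_mod_cast h12
  have hxe : x ≤ Real.exp (t + 1) := by
    have h1 : x ≤ 2 ^ (t + 1) := by
      rw [hx]
      exact_mod_cast h2t'.le
    have h2 : (2 : ℝ) ≤ Real.exp 1 := by
      have := Real.add_one_le_exp (1 : ℝ)
      linarith
    calc x ≤ 2 ^ (t + 1) := h1
      _ ≤ Real.exp 1 ^ (t + 1) := pow_le_pow_left₀ (by norm_num) h2 _
      _ = Real.exp (t + 1) := by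
          rw [← Real.exp_nat_mul]
          congr 1
          push_cast
          ring
  have hRt : (R : ℝ) ≤ t := by
    have : R ≤ t := Nat.div_le_self _ _
    exact_mod_cast this
  have h1b : (1 : ℝ) ≤ b := by exact_mod_cast (by omega : 1 ≤ b)
  have g1 := G.hK
  rw [← hc0] at g1
  have g2 := G.hp
  rw [← hc0, ← hκ] at g2
  have h2b : (2 : ℝ) ^ t ≤ 2 * b := by
    have h2 : 2 ^ t ≤ 2 * b := by omega
    exact_mod_cast h2
  have hfin := fin_ineq (κ : ℝ) (R : ℝ) (K : ℝ) c0 b t (2 ^ t) (Nat.cast_nonneg _) (Nat.cast_nonneg _) hK0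
    hRt h1b ht1 hc0pos g1 (by push_cast at g2 ⊢; exact g2) h2b
  refine exp_collect x _ S Ex t _ (κ + 2 * R) hx0.le hEx0.le hxe (Sbd_le b K t (by omega) (by omega))
    hEx ?_ (by linarith)
  push_cast
  exact hfin

end GC70
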