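import Mathlib
import Pool.Agent.Helper70.GC.Asymp
import Pool.Agent.Helper70.GC.Cycle

/-!
# Almost all residue vectors have a cycle word
-/

set_option autoImplicit false

namespace GC70

open Finset Filter

variable {B : Type} [Fintype B] [DecidableEq B]

/-- there is a word giving a cycle -/
def HasWord (d m Q : ℕ) (ρ : B → ZMod Q) : Prop :=
  ∃ (w : ℤ → Option B) (L : ℕ), (sk w L).Nonempty ∧ m ^ (sk w L).card < d ^ L ∧
    (d ^ L - m ^ (sk w L).card) ∣ Q ∧ (d ^ L - m ^ (sk w L).card) ∣ dot Q (V d m w L) ρ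

lemma hasWord_of {b m K U R W : ℕ} (C : Cx b m K U R W) {i : Σ _ : ℕ × ℕ, (ℤ → Option B)}
    (hi : i ∈ Ix B b K U R W) (Q : ℕ) (ρ : B → ZMod Q) (hQ : Dx b m i ∣ Q)
    (h : Dx b m i ∣ dot Q (Vx b m i) ρ) : HasWord (b + 1) m Q ρ := by
  obtain ⟨T, hw⟩ := Ix_spec C hi
  have hcnt := hw.cnt
  have h1 := T.Lge
  have h2 := T.uU
  have h3 := C.U2
  have h4 := T.half
  have h5 := C.dm
  have hcard : (sk i.2 i.1.1).card = i.1.1 - i.1.2 := by omega
  have hpos : 0 < m ^ (i.1.1 - i.1.2) := Nat.pow_pos (by omega)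
  refine ⟨i.2, i.1.1, ?_, ?_, ?_, ?_⟩
  · apply card_pos.mp
    rw [hcard]
    omega
  · rw [hcard]
    omega
  · rw [hcard]
    exact hQ
  · rw [hcard]
    exact h

/-- the numerical estimate of the density of good words -/
lemma good_dens {b K W t : ℕ} (hK : 1 ≤ K) (hW1 : 1 ≤ W)
    (hW8 : 8000 * (K : ℝ) * Real.exp (2 * K) ≤ W) (hB : Fintype.card B = b)
    (ht : t = Nat.log 2 (b + 1)) (G : Big K (1000 * K) W t) (L : ℕ) (hL : L ∈ Ls b K) [NeZero L] :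
    (1 / 30) * ((b : ℝ) + 1) ^ L ≤ ((Gd B L (t / 12) W (1000 * K) (L / (b + 1))).card : ℝ) := by
  have h2t : 2 ^ t ≤ b + 1 := by
    rw [ht]
    exact Nat.pow_log_le_self 2 (by omega)
  have h2t' : b + 1 < 2 ^ (t + 1) := by
    rw [ht]
    exact Nat.lt_pow_succ_log_self (by norm_num) _
  have hN := G.hN.trans h2t
  simp only [Ls, mem_filter, mem_Ico] at hL
  obtain ⟨⟨hL1, hL2⟩, -⟩ := hL
  have hKr : (1 : ℝ) ≤ K := by exact_mod_cast hK
  have hWr : (1 : ℝ) ≤ W := by exact_mod_cast hW1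
  have hb5 : 5000 + 16000 * K + 5 * W ≤ b + 1 := by omega
  have hb1 : 1 ≤ b := by omega
  have hbr : (0 : ℝ) < b := by exact_mod_cast hb1
  have hd0 : (0 : ℝ) < (b : ℝ) + 1 := by positivity
  -- the mass
  have hq : Real.exp (-(2 * (K : ℝ))) ≤ ((b : ℝ) / (b + 1)) ^ (L - 1) := by
    have h1 := d_pow_le_exp b K (L - 1) hb1 (by omega)
    rw [div_pow, le_div_iff₀ (by positivity)]
    calc Real.exp (-(2 * (K : ℝ))) * ((b : ℝ) + 1) ^ (L - 1)
        ≤ Real.exp (-(2 * (K : ℝ))) * (Real.exp (2 * K) * (b : ℝ) ^ (L - 1)) :=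
          mul_le_mul_of_nonneg_left h1 (Real.exp_pos _).le
      _ = (b : ℝ) ^ (L - 1) := by
          rw [← mul_assoc, ← Real.exp_add, neg_add_cancel, Real.exp_zero, one_mul]
  set μ := (W : ℝ) * ((b : ℝ) / (b + 1)) ^ (L - 1) with hμ
  have hμ8 : 8000 * (K : ℝ) ≤ μ := by
    calc 8000 * (K : ℝ) = 8000 * (K : ℝ) * Real.exp (2 * K) * Real.exp (-(2 * (K : ℝ))) := by
          rw [mul_assoc _ (Real.exp _) (Real.exp _), ← Real.exp_add, add_neg_cancel, Real.exp_zero,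
            mul_one]
      _ ≤ (W : ℝ) * Real.exp (-(2 * (K : ℝ))) :=
          mul_le_mul_of_nonneg_right hW8 (Real.exp_pos _).le
      _ ≤ μ := mul_le_mul_of_nonneg_left hq (by positivity)
  have hμ0 : 0 < μ := by linarith
  have hl1 : 1 ≤ L / (b + 1) := by
    rw [Nat.le_div_iff_mul_le (by omega)]
    omega
  have hg := good_count (B := B) L (L / (b + 1)) (1000 * K) W (t / 12) K (by omega) hl1
    (by rw [hB]; exact Nat.div_mul_le_self _ _) (by rw [hB]; omega) (by omega) hW1 (by omega)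
    (by rw [hB, ← hμ]; linarith)
  rw [hB, ← hμ] at hg
  refine le_trans ?_ hg
  rw [mul_comm]
  apply mul_le_mul_of_nonneg_left _ (by positivity)
  -- the errors
  have ea : (K : ℝ) / ((1000 * K : ℕ) : ℝ) ≤ 1 / 1000 := by
    push_cast
    rw [div_le_iff₀ (by positivity)]
    linarith
  have eb : ((b : ℝ) + 1) * (K : ℝ) ^ (t / 12 + 1) / ((t / 12 + 1).factorial : ℝ) ≤ 1 / 1000 := by
    refine le_trans ?_ G.hfac
    apply div_le_div_of_nonneg_right _ (by positivity)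
    rw [mul_pow]
    apply mul_le_mul_of_nonneg_right _ (by positivity)
    have h1 : b + 1 ≤ 4096 ^ (t / 12 + 1) := by
      calc b + 1 ≤ 2 ^ (t + 1) := h2t'.le
        _ ≤ 2 ^ (12 * (t / 12 + 1)) := Nat.pow_le_pow_right (by norm_num) (by omega)
        _ = 4096 ^ (t / 12 + 1) := by
            rw [pow_mul]
            norm_num
    exact_mod_cast h1
  have ec : 2 * ((K : ℝ) * (4 * (1 / μ + 1 / (b : ℝ)))) ≤ 2 / 1000 := by
    have h1 : (K : ℝ) * (1 / μ) ≤ 1 / 8000 := by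
      rw [mul_one_div, div_le_iff₀ hμ0]
      linarith
    have h2 : (K : ℝ) * (1 / (b : ℝ)) ≤ 1 / 8000 := by
      rw [mul_one_div, div_le_iff₀ hbr]
      have : 8000 * K ≤ b := by omega
      have h3 : (8000 : ℝ) * K ≤ b := by exact_mod_cast this
      linarith
    calc 2 * ((K : ℝ) * (4 * (1 / μ + 1 / (b : ℝ))))
        = 8 * ((K : ℝ) * (1 / μ) + (K : ℝ) * (1 / (b : ℝ))) := by ring
      _ ≤ 2 / 1000 := by linarith
  have ed : 5 * (W : ℝ) * K / ((b : ℝ) + 1) ≤ 1 / 1000 := by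
    rw [div_le_iff₀ hd0]
    have : 5000 * W * K ≤ b + 1 := by omega
    have h3 : (5000 : ℝ) * W * K ≤ (b : ℝ) + 1 := by exact_mod_cast this
    linarith
  have ee : 9 * (W : ℝ) ^ 2 * (K : ℝ) ^ 2 / ((b : ℝ) + 1) ≤ 1 / 1000 := by
    rw [div_le_iff₀ hd0]
    have : 9000 * W ^ 2 * K ^ 2 ≤ b + 1 := by omega
    have h3 : (9000 : ℝ) * W ^ 2 * K ^ 2 ≤ (b : ℝ) + 1 := by exact_mod_cast this
    linarith
  have ef : (4 * (W : ℝ) + 1) ^ 2 * (K : ℝ) ^ 2 / ((b : ℝ) + 1) ≤ 1 / 1000 := by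
    rw [div_le_iff₀ hd0]
    have : 1000 * (4 * W + 1) ^ 2 * K ^ 2 ≤ b + 1 := by omega
    have h3 : (1000 : ℝ) * (4 * W + 1) ^ 2 * K ^ 2 ≤ (b : ℝ) + 1 := by exact_mod_cast this
    linarith
  linarith

/-- **Counting theorem.** -/
theorem main_count (δ : ℝ) (hδ : 0 < δ) : ∃ b0 : ℕ, ∀ b ≥ b0, ∀ m : ℕ, b + 1 ≤ m →
    Nat.Coprime m (b + 1) → m ^ b < (b + 1) ^ (b + 1) →
    ∃ (Q : ℕ) (_ : NeZero Q), Nat.Coprime (b + 1) Q ∧
    ∀ Bad : Finset (Fin b → ZMod Q), (∀ ρ ∈ Bad, ¬ HasWord (b + 1) m Q ρ) →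
      (Bad.card : ℝ) ≤ δ * (Q : ℝ) ^ b := by
  set M : ℝ := max 1 (2 / δ) with hM
  have hM1 : 1 ≤ M := le_max_left _ _
  have hM2 : 2 / δ ≤ M := le_max_right _ _
  obtain ⟨K, hK1, hKs⟩ : ∃ K : ℕ, 1 ≤ K ∧ 60 * M ≤ ∑ l ∈ Ico 1 K, 1 / ((l : ℝ) + 1) := by
    have h := Real.tendsto_sum_range_one_div_nat_succ_atTop.eventually_ge_atTop (60 * M + 1)
    obtain ⟨K, hK, hK1⟩ := (h.and (eventually_ge_atTop 1)).exists
    refine ⟨K, hK1, ?_⟩
    rw [Finset.range_eq_Ico, Finset.sum_eq_sum_Ico_succ_bot (by omega)] at hK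
    simp only [Nat.cast_zero, zero_add, div_one] at hK
    linarith
  set W : ℕ := ⌈8000 * (K : ℝ) * Real.exp (2 * K)⌉₊ with hW
  have hKr : (1 : ℝ) ≤ K := by exact_mod_cast hK1
  have hW8 : 8000 * (K : ℝ) * Real.exp (2 * K) ≤ W := Nat.le_ceil _
  have hW1 : 1 ≤ W := by
    rw [hW, Nat.one_le_ceil_iff]
    positivity
  obtain ⟨t0, ht0⟩ := eventually_atTop.mp (eventually_big K (1000 * K) W)
  refine ⟨2 ^ t0, ?_⟩
  intro b hb m hdm hcop hm
  set t := Nat.log 2 (b + 1) with ht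
  have htt : t0 ≤ t := by
    rw [ht]
    apply Nat.le_log_of_pow_le (by norm_num)
    omega
  have G := ht0 t htt
  have C := Cx_of hK1 hW1 ht G hdm hcop hm
  have hb0 : 0 < b := by
    have := C.b300
    omega
  have hcard : Fintype.card (Fin b) = b := Fintype.card_fin b
  have hmu1 := mu_ge_sum (B := Fin b) C (1 / 30) (by norm_num)
    (fun L hL hNe => good_dens hK1 hW1 hW8 hcard ht G L hL)
  have hmu2 := sum_Ls_ge b K
  set μ := mu (Fin b) b m K (1000 * K) (t / 12) W with hμ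
  have hμM : M ≤ μ := by linarith
  have h12 := G.h12
  obtain ⟨Q, hNe, hcopQ, hdvd, hBad⟩ := second_moment (B := Fin b) ⟨0, hb0⟩ hcard C
    ((K : ℝ) * (b + 1) + 1) (Sbd b K t) le_rfl
    (fun x hx => Sq_le C ht (by omega) hx) (Delta_small hK1 ht G C)
  refine ⟨Q, hNe, hcopQ, ?_⟩
  intro Bad hB
  have h1 := hBad Bad (fun ρ hρ i hi hcon => hB ρ hρ (hasWord_of C hi Q ρ (hdvd i hi) hcon))
  rw [← hμ] at h1
  have hμ0 : 0 < μ := by linarith
  have h2 : μ + 1 ≤ δ * μ ^ 2 := by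
    have h3 : 2 ≤ δ * μ := by
      have := (div_le_iff₀ hδ).mp (hM2.trans hμM)
      linarith
    have h4 : μ + 1 ≤ 2 * μ := by linarith
    calc μ + 1 ≤ 2 * μ := h4
      _ ≤ (δ * μ) * μ := mul_le_mul_of_nonneg_right h3 hμ0.le
      _ = δ * μ ^ 2 := by ring
  have hQ0 : (0 : ℝ) ≤ (Q : ℝ) ^ b := by positivity
  have h5 : (Bad.card : ℝ) * μ ^ 2 ≤ (δ * (Q : ℝ) ^ b) * μ ^ 2 := by
    calc (Bad.card : ℝ) * μ ^ 2 ≤ (Q : ℝ) ^ b * (μ + 1) := h1
      _ ≤ (Q : ℝ) ^ b * (δ * μ ^ 2) := mul_le_mul_of_nonneg_left h2 hQ0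
      _ = (δ * (Q : ℝ) ^ b) * μ ^ 2 := by ring
  exact le_of_mul_le_mul_right h5 (by positivity)

end GC70
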